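import Pool.Agent.Lib.MP_1be6c9_co.Fc.Defs

/-!
The deficit law (Theorem A): rounding by a walk inside the eigenspaces of the Gram matrix.

`V p = ∑ p k • v k` for unit vectors `v k`, `k ∈ κ`, `n = |κ|`, `Γ` the eigenvalues of the Gram
matrix. From any point `x` of the cube one reaches a vertex `η` of the cube with
`‖A + V η‖² + c η ≤ ‖A + V x‖² + c x + n - ∑ (1 - Γ)_+ - Γ_min |x|²` (`c` a linear functional).
-/

namespace Pool.Agent.Lib.MP_1be6c9_co.Fc

open Finset Pool.Agent.Lib.MP_1be6c9_co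

variable {κ E : Type*} [Fintype κ] [NormedAddCommGroup E] [InnerProductSpace ℝ E]

private theorem thmA_sq (w z : E) (s : ℝ) :
    ‖w + s • z‖ ^ 2 = ‖w‖ ^ 2 + 2 * s * inner ℝ w z + s ^ 2 * ‖z‖ ^ 2 := by
  rw [norm_add_sq_real, inner_smul_right, norm_smul, mul_pow, Real.norm_eq_abs, sq_abs]
  ring

private theorem thmA_card (p : κ → ℝ) (hp : ∀ i, |p i| ≤ 1) {T : Finset κ}
    (hT : ∀ i ∈ T, i ∉ fr p) : (T.card : ℝ) ≤ ∑ i, p i ^ 2 := by
  classical
  calc (T.card : ℝ) = ∑ i ∈ T, p i ^ 2 := by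
        rw [Finset.cast_card]
        refine Finset.sum_congr rfl fun i hi => ?_
        rcases (not_mem_fr p hp i).mp (hT i hi) with h | h <;> rw [h] <;> norm_num
    _ ≤ ∑ i, p i ^ 2 := Finset.sum_le_sum_of_subset_of_nonneg (Finset.subset_univ _)
        fun i _ _ => sq_nonneg _

/-- One step of the walk. -/
private theorem thmA_step [DecidableEq κ] (v : κ → E) (A : E) (l : κ → ℝ) {j : ℕ} {kj kj' c : ℝ} (hkj' : 0 ≤ kj')
    (hkj : kj' ≤ kj) {p : κ → ℝ} (hp : ∀ i, |p i| ≤ 1) {T : Finset κ} (hTj : T.card = j)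
    (hT : ∀ i, i ∉ fr p → i ∈ T) (hT' : ∀ i ∈ T, i ∉ fr p)
    {z : κ → ℝ} (hz0 : ∃ i, z i ≠ 0) (hzT : ∀ i ∈ T, z i = 0)
    (hz : ‖∑ i, z i • v i‖ ^ 2 ≤ (1 - kj) * ∑ i, z i ^ 2)
    (hf : ‖A + ∑ i, p i • v i‖ ^ 2 - ∑ i, p i ^ 2 + ∑ i, l i * p i ≤
      c + kj * (j - ∑ i, p i ^ 2)) :
    ∃ p' : κ → ℝ, (∀ i, |p' i| ≤ 1) ∧ (∃ T' : Finset κ, T'.card = j + 1 ∧ ∀ i ∈ T', i ∉ fr p') ∧
      ‖A + ∑ i, p' i • v i‖ ^ 2 - ∑ i, p' i ^ 2 + ∑ i, l i * p' i ≤
        c - kj + kj' * (j + 1 - ∑ i, p' i ^ 2) := by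
  -- the moves
  have mv : ∀ w : κ → ℝ, (∃ i, w i ≠ 0) → (∀ i ∈ T, w i = 0) → ∃ s : ℝ, 0 < s ∧
      (∀ i, |p i + s * w i| ≤ 1) ∧
      ∃ T' : Finset κ, T'.card = j + 1 ∧ ∀ i ∈ T', i ∉ fr (fun i => p i + s * w i) := by
    intro w hw0 hwT
    have h1 : ∀ i, p i = 1 → w i ≤ 0 := fun i hi =>
      (hwT i (hT i ((not_mem_fr p hp i).mpr (Or.inl hi)))).le
    have h2 : ∀ i, p i = -1 → 0 ≤ w i := fun i hi =>
      (hwT i (hT i ((not_mem_fr p hp i).mpr (Or.inr hi)))).ge
    obtain ⟨s, hs, hc, i0, hi0, hi1⟩ := move p w hp h1 h2 hw0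
    refine ⟨s, hs, hc, insert i0 T, ?_, ?_⟩
    · rw [Finset.card_insert_of_notMem fun h => hi0 (hwT i0 h), hTj]
    · intro i hi
      rw [Finset.mem_insert] at hi
      rw [not_mem_fr _ hc]
      rcases hi with rfl | hi
      · rcases hi1 with ⟨_, h⟩ | ⟨_, h⟩
        · exact Or.inl h
        · exact Or.inr h
      · simp only [hwT i hi, mul_zero, add_zero]
        exact (not_mem_fr p hp i).mp (hT' i hi)
  obtain ⟨s, hs, hsc, Ts, hTs, hTs'⟩ := mv z hz0 hzT
  obtain ⟨t, ht, htc, Tt, hTt, hTt'⟩ := mv (fun i => - z i)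
    (by obtain ⟨i, hi⟩ := hz0; exact ⟨i, neg_ne_zero.mpr hi⟩)
    (fun i hi => by simp [hzT i hi])
  -- the values
  set w0 : E := A + ∑ i, p i • v i with hw0
  set Vz : E := ∑ i, z i • v i with hVz
  set P2 : ℝ := ∑ i, p i ^ 2 with hP2
  set Z2 : ℝ := ∑ i, z i ^ 2 with hZ2
  set PZ : ℝ := ∑ i, p i * z i with hPZ
  have hZ20 : 0 ≤ Z2 := Finset.sum_nonneg fun i _ => sq_nonneg _
  have e1 : ∀ r : ℝ, A + ∑ i, (p i + r * z i) • v i = w0 + r • Vz := by
    intro r
    rw [hw0, hVz]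
    simp only [add_smul, Finset.sum_add_distrib, mul_smul, ← Finset.smul_sum]
    abel
  have e2 : ∀ r : ℝ, ∑ i, (p i + r * z i) ^ 2 = P2 + 2 * r * PZ + r ^ 2 * Z2 := by
    intro r
    rw [hP2, hZ2, hPZ, Finset.mul_sum, Finset.mul_sum, ← Finset.sum_add_distrib,
      ← Finset.sum_add_distrib]
    exact Finset.sum_congr rfl fun i _ => by ring
  have et : (fun i => p i + t * - z i) = fun i => p i + (-t) * z i := by
    funext i
    ring
  rw [et] at hTt'
  have e3 : ∀ r : ℝ, ∑ i, l i * (p i + r * z i) = ∑ i, l i * p i + r * ∑ i, l i * z i := by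
    intro r
    rw [Finset.mul_sum, ← Finset.sum_add_distrib]
    exact Finset.sum_congr rfl fun i _ => by ring
  have htc' : ∀ i, |p i + (-t) * z i| ≤ 1 := fun i => by
    have := htc i
    have e : p i + t * - z i = p i + (-t) * z i := by ring
    rwa [e] at this
  have N1 : ((j : ℝ) + 1) ≤ P2 + 2 * s * PZ + s ^ 2 * Z2 := by
    have := thmA_card (fun i => p i + s * z i) hsc hTs'
    rw [hTs, e2] at this
    push_cast at this
    exact this
  have N2 : ((j : ℝ) + 1) ≤ P2 + 2 * (-t) * PZ + (-t) ^ 2 * Z2 := by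
    have := thmA_card (fun i => p i + (-t) * z i) htc' hTt'
    rw [hTt, e2] at this
    push_cast at this
    exact this
  by_contra hcon
  push Not at hcon
  have H1 := hcon (fun i => p i + s * z i) hsc ⟨Ts, hTs, hTs'⟩
  have H2 := hcon (fun i => p i + (-t) * z i) htc' ⟨Tt, hTt, hTt'⟩
  rw [e1, e2, e3, thmA_sq] at H1 H2
  set LP : ℝ := ∑ i, l i * p i with hLP
  set LZ : ℝ := ∑ i, l i * z i with hLZ
  set I : ℝ := inner ℝ w0 Vz with hI
  set W : ℝ := ‖Vz‖ ^ 2 with hW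
  -- the weighted sum
  have hM : (j : ℝ) + 1 ≤ P2 + s * t * Z2 := by
    have h3 : (s + t) * ((j : ℝ) + 1) ≤ (s + t) * (P2 + s * t * Z2) := by
      have h4 := mul_le_mul_of_nonneg_left N1 ht.le
      have h5 := mul_le_mul_of_nonneg_left N2 hs.le
      nlinarith
    exact le_of_mul_le_mul_left h3 (by linarith)
  have h4 := mul_lt_mul_of_pos_left H1 ht
  have h5 := mul_lt_mul_of_pos_left H2 hs
  have hst : 0 < s * t := mul_pos hs ht
  have h6 : (s + t) * (c - kj) < (s + t) * (‖w0‖ ^ 2 - P2 + LP + s * t * (W - Z2) +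
      kj' * (P2 + s * t * Z2 - (j + 1))) := by
    nlinarith
  have h7 : c - kj < ‖w0‖ ^ 2 - P2 + LP + s * t * (W - Z2) +
      kj' * (P2 + s * t * Z2 - (j + 1)) :=
    lt_of_mul_lt_mul_left h6 (by linarith)
  have h8 : s * t * (W - Z2) ≤ s * t * (- kj * Z2) :=
    mul_le_mul_of_nonneg_left (by linarith) hst.le
  have h9 : 0 ≤ (kj - kj') * (P2 + s * t * Z2 - (j + 1)) :=
    mul_nonneg (by linarith) (by linarith)
  nlinarith

/-- The walk, for an abstract sequence of deficits. -/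
private theorem thmA_walk [DecidableEq κ] (v : κ → E) (A : E) (l : κ → ℝ) (kap : ℕ → ℝ)
    (hk : Antitone kap) (hk0 : ∀ j, 0 ≤ kap j) {x : κ → ℝ} (hx : ∀ i, |x i| ≤ 1)
    (hstep : ∀ j < Fintype.card κ, ∀ T : Finset κ, T.card = j → ∃ z : κ → ℝ, (∃ i, z i ≠ 0) ∧
      (∀ i ∈ T, z i = 0) ∧ ‖∑ i, z i • v i‖ ^ 2 ≤ (1 - kap j) * ∑ i, z i ^ 2) (j : ℕ)
    (hj : j ≤ Fintype.card κ) :
    ∃ p : κ → ℝ, (∀ i, |p i| ≤ 1) ∧ (∃ T : Finset κ, T.card = j ∧ ∀ i ∈ T, i ∉ fr p) ∧
      ‖A + ∑ i, p i • v i‖ ^ 2 - ∑ i, p i ^ 2 + ∑ i, l i * p i ≤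
        (‖A + ∑ i, x i • v i‖ ^ 2 - ∑ i, x i ^ 2 + ∑ i, l i * x i + kap 0 * ∑ i, x i ^ 2
          - ∑ i ∈ range j, kap i) + kap j * (j - ∑ i, p i ^ 2) := by
  induction j with
  | zero =>
    refine ⟨x, hx, ⟨∅, rfl, by simp⟩, ?_⟩
    rw [Finset.range_zero, Finset.sum_empty]
    push_cast
    linarith
  | succ j ih =>
    obtain ⟨p, hp, ⟨T, hTj, hT⟩, hf⟩ := ih (by omega)
    by_cases hfull : ∀ i, i ∉ fr p → i ∈ T
    · obtain ⟨z, hz0, hzT, hz⟩ := hstep j (by omega) T hTj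
      obtain ⟨p', hp', hT', hf'⟩ := thmA_step v A l (hk0 (j + 1)) (hk (Nat.le_succ j)) hp hTj hfull
        hT hz0 hzT hz hf
      refine ⟨p', hp', hT', ?_⟩
      rw [Finset.sum_range_succ]
      push_cast
      linarith
    · push Not at hfull
      obtain ⟨i0, hi0, hi1⟩ := hfull
      have hT' : ∀ i ∈ insert i0 T, i ∉ fr p := by
        intro i hi
        rw [Finset.mem_insert] at hi
        rcases hi with rfl | hi
        · exact hi0
        · exact hT i hi
      have hc : (insert i0 T).card = j + 1 := by rw [Finset.card_insert_of_notMem hi1, hTj]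
      refine ⟨p, hp, ⟨insert i0 T, hc, hT'⟩, ?_⟩
      have h1 := thmA_card p hp hT'
      rw [hc] at h1
      push_cast at h1
      have h2 : 0 ≤ (kap j - kap (j + 1)) * (∑ i, p i ^ 2 - (j + 1)) :=
        mul_nonneg (by linarith [hk (Nat.le_succ j)]) (by linarith)
      rw [Finset.sum_range_succ]
      push_cast
      nlinarith

/-- The walk to a vertex. -/
private theorem thmA_abs [DecidableEq κ] (v : κ → E) (A : E) (l : κ → ℝ) (kap : ℕ → ℝ)
    (hk : Antitone kap) (hk0 : ∀ j, 0 ≤ kap j) (hkn : kap (Fintype.card κ) = 0)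
    {x : κ → ℝ} (hx : ∀ i, |x i| ≤ 1)
    (hstep : ∀ j < Fintype.card κ, ∀ T : Finset κ, T.card = j → ∃ z : κ → ℝ, (∃ i, z i ≠ 0) ∧
      (∀ i ∈ T, z i = 0) ∧ ‖∑ i, z i • v i‖ ^ 2 ≤ (1 - kap j) * ∑ i, z i ^ 2) :
    ∃ η : κ → ℝ, (∀ i, η i = 1 ∨ η i = -1) ∧
      ‖A + ∑ i, η i • v i‖ ^ 2 + ∑ i, l i * η i ≤
        ‖A + ∑ i, x i • v i‖ ^ 2 + ∑ i, l i * x i + Fintype.card κ
          - (1 - kap 0) * ∑ i, x i ^ 2 - ∑ i ∈ range (Fintype.card κ), kap i := by
  obtain ⟨p, hp, ⟨T, hTc, hT⟩, hf⟩ := thmA_walk v A l kap hk hk0 hx hstep _ le_rfl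
  have hTu : T = Finset.univ := (Finset.card_eq_iff_eq_univ T).mp hTc
  have hp1 : ∀ i, p i = 1 ∨ p i = -1 := fun i =>
    (not_mem_fr p hp i).mp (hT i (hTu ▸ Finset.mem_univ i))
  have h1 : ∑ i, p i ^ 2 = Fintype.card κ := by
    rw [← Finset.card_univ, Finset.cast_card]
    exact Finset.sum_congr rfl fun i _ => by rcases hp1 i with h | h <;> rw [h] <;> norm_num
  refine ⟨p, hp1, ?_⟩
  rw [h1, hkn] at hf
  linarith

/-! ### The eigenvectors of the Gram matrix -/

section gram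

variable [DecidableEq κ]

/-- The eigenvalues of the Gram matrix. -/
noncomputable def gev (v : κ → E) : κ → ℝ := (Matrix.isHermitian_gram ℝ v).eigenvalues

/-- Orthonormal eigenvectors of the Gram matrix. -/
noncomputable def gvec (v : κ → E) (a k : κ) : ℝ :=
  (Matrix.isHermitian_gram ℝ v).eigenvectorBasis a k

/-- The deficit `∑ (1 - Γ)_+`. -/
noncomputable def defi (v : κ → E) : ℝ := ∑ a, max (1 - gev v a) 0

theorem gvec_orth (v : κ → E) (a b : κ) :
    ∑ k, gvec v a k * gvec v b k = if a = b then 1 else 0 := by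
  have h := orthonormal_iff_ite.mp (Matrix.isHermitian_gram ℝ v).eigenvectorBasis.orthonormal a b
  rw [← h, PiLp.inner_apply]
  refine Finset.sum_congr rfl fun k _ => ?_
  simp only [gvec, RCLike.inner_apply, conj_trivial]
  ring

theorem gvec_img (v : κ → E) (a b : κ) :
    inner ℝ (∑ k, gvec v a k • v k) (∑ k, gvec v b k • v k) = if a = b then gev v a else 0 := by
  have h1 := Matrix.star_dotProduct_gram_mulVec (𝕜 := ℝ) v (fun k => gvec v a k)
    (fun k => gvec v b k)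
  have h2 : (Matrix.gram ℝ v).mulVec (fun k => gvec v b k) = gev v b • fun k => gvec v b k :=
    (Matrix.isHermitian_gram ℝ v).mulVec_eigenvectorBasis b
  rw [h2] at h1
  rw [← h1]
  have h3 : (star fun k => gvec v a k) ⬝ᵥ (gev v b • fun k => gvec v b k) =
      gev v b * ∑ k, gvec v a k * gvec v b k := by
    rw [dotProduct_smul]
    simp only [dotProduct, star_trivial, smul_eq_mul]
  rw [h3, gvec_orth]
  split_ifs with h
  · rw [h, mul_one]
  · rw [mul_zero]

/-- The coordinates of a vector in the basis of eigenvectors. -/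
theorem gvec_expand (v : κ → E) (z : κ → ℝ) (k : κ) :
    z k = ∑ a, (∑ i, gvec v a i * z i) * gvec v a k := by
  have h := (Matrix.isHermitian_gram ℝ v).eigenvectorBasis.sum_repr' (WithLp.toLp 2 z)
  have h2 := congrArg (fun y : EuclideanSpace ℝ κ => y k) h
  have h3 : z k = (WithLp.toLp 2 z : EuclideanSpace ℝ κ) k := rfl
  rw [h3, ← h2, WithLp.ofLp_sum, Finset.sum_apply]
  refine Finset.sum_congr rfl fun a _ => ?_
  rw [PiLp.smul_apply, smul_eq_mul, PiLp.inner_apply]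
  congr 1
  refine Finset.sum_congr rfl fun i _ => ?_
  simp only [gvec, RCLike.inner_apply, conj_trivial]
  ring

/-- Parseval. -/
theorem gvec_sq (v : κ → E) (z : κ → ℝ) :
    ∑ a, (∑ i, gvec v a i * z i) ^ 2 = ∑ k, z k ^ 2 := by
  have h1 : ∀ k, z k ^ 2 = ∑ a, (∑ i, gvec v a i * z i) * (gvec v a k * z k) := by
    intro k
    rw [sq]
    nth_rewrite 1 [gvec_expand v z k]
    rw [Finset.sum_mul]
    exact Finset.sum_congr rfl fun a _ => by ring
  rw [Finset.sum_congr rfl fun k _ => h1 k, Finset.sum_comm]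
  refine Finset.sum_congr rfl fun a _ => ?_
  rw [← Finset.mul_sum, sq]

/-- A system orthogonal for both forms. -/
theorem fam_sq {ι : Type*} [Fintype ι] [DecidableEq ι] (w : ι → κ → ℝ)
    (hw : ∀ i j, ∑ k, w i k * w j k = if i = j then 1 else 0) (a : ι → ℝ) :
    ∑ k, (∑ i, a i * w i k) ^ 2 = ∑ i, a i ^ 2 := by
  have h1 : ∀ k, (∑ i, a i * w i k) ^ 2 = ∑ i, ∑ j, a i * a j * (w i k * w j k) := by
    intro k
    rw [sq, Finset.sum_mul_sum]
    exact Finset.sum_congr rfl fun i _ => Finset.sum_congr rfl fun j _ => by ring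
  rw [Finset.sum_congr rfl fun k _ => h1 k, Finset.sum_comm]
  refine Finset.sum_congr rfl fun i _ => ?_
  rw [Finset.sum_comm]
  have h2 : ∀ j, ∑ k, a i * a j * (w i k * w j k) = if i = j then a i ^ 2 else 0 := by
    intro j
    rw [← Finset.mul_sum, hw]
    split_ifs with h
    · rw [h]; ring
    · ring
  rw [Finset.sum_congr rfl fun j _ => h2 j, Finset.sum_ite_eq]
  simp

theorem fam_img {ι : Type*} [Fintype ι] [DecidableEq ι] (v : κ → E) (w : ι → κ → ℝ) (G : ι → ℝ)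
    (hw : ∀ i j, inner ℝ (∑ k, w i k • v k) (∑ k, w j k • v k) = if i = j then G i else 0)
    (a : ι → ℝ) : ‖∑ k, (∑ i, a i * w i k) • v k‖ ^ 2 = ∑ i, G i * a i ^ 2 := by
  have h1 : ∑ k, (∑ i, a i * w i k) • v k = ∑ i, a i • ∑ k, w i k • v k := by
    simp only [Finset.sum_smul, Finset.smul_sum, mul_smul]
    exact Finset.sum_comm
  rw [h1, ← real_inner_self_eq_norm_sq, sum_inner]
  refine Finset.sum_congr rfl fun i _ => ?_
  rw [inner_sum]
  have h2 : ∀ j, inner ℝ (a i • ∑ k, w i k • v k) (a j • ∑ k, w j k • v k) =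
      if i = j then G i * a i ^ 2 else 0 := by
    intro j
    rw [inner_smul_left, inner_smul_right, hw, conj_trivial]
    split_ifs with h
    · rw [h]; ring
    · ring
  rw [Finset.sum_congr rfl fun j _ => h2 j, Finset.sum_ite_eq]
  simp

/-- The Gram form in the basis of eigenvectors. -/
theorem gvec_img_sq (v : κ → E) (z : κ → ℝ) :
    ‖∑ k, z k • v k‖ ^ 2 = ∑ a, gev v a * (∑ i, gvec v a i * z i) ^ 2 := by
  have h := fam_img v (gvec v) (gev v) (gvec_img v) (fun a => ∑ i, gvec v a i * z i)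
  rw [← h]
  congr 2
  exact Finset.sum_congr rfl fun k _ => by rw [← gvec_expand v z k]

theorem gvec_norm_img (v : κ → E) (a : κ) : ‖∑ k, gvec v a k • v k‖ ^ 2 = gev v a := by
  rw [← real_inner_self_eq_norm_sq, gvec_img, if_pos rfl]

theorem gev_nonneg (v : κ → E) (a : κ) : 0 ≤ gev v a := by
  rw [← gvec_norm_img]
  exact sq_nonneg _

theorem le_gev {v : κ → E} {lam : ℝ}
    (h : ∀ z : κ → ℝ, lam * ∑ k, z k ^ 2 ≤ ‖∑ k, z k • v k‖ ^ 2) (a : κ) : lam ≤ gev v a := by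
  have h1 := h (gvec v a)
  rw [gvec_norm_img] at h1
  have h2 := gvec_orth v a a
  rw [if_pos rfl] at h2
  have h3 : ∑ k, gvec v a k ^ 2 = 1 := by
    rw [← h2]
    exact Finset.sum_congr rfl fun k _ => by ring
  rwa [h3, mul_one] at h1

theorem gev_form {v : κ → E} {lam : ℝ} (h : ∀ a, lam ≤ gev v a) (z : κ → ℝ) :
    lam * ∑ k, z k ^ 2 ≤ ‖∑ k, z k • v k‖ ^ 2 := by
  rw [gvec_img_sq, ← gvec_sq v z, Finset.mul_sum]
  exact Finset.sum_le_sum fun a _ => mul_le_mul_of_nonneg_right (h a) (sq_nonneg _)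

/-- Dimension count: a combination of `j + 1` orthonormal vectors vanishing on `j` labels. -/
private theorem thmA_dim {j : ℕ} (w : Fin (j + 1) → κ → ℝ) (T : Finset κ)
    (hT : T.card = j) : ∃ a : Fin (j + 1) → ℝ, 0 < ∑ i, a i ^ 2 ∧
      ∀ k ∈ T, ∑ i, a i * w i k = 0 := by
  let F : (Fin (j + 1) → ℝ) →ₗ[ℝ] (T → ℝ) :=
    { toFun := fun a k => ∑ i, a i * w i k
      map_add' := fun a b => by
        funext k
        simp only [Pi.add_apply, add_mul, Finset.sum_add_distrib]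
      map_smul' := fun c a => by
        funext k
        simp only [Pi.smul_apply, smul_eq_mul, RingHom.id_apply, Finset.mul_sum, mul_assoc] }
  have hF : LinearMap.ker F ≠ ⊥ := by
    apply LinearMap.ker_ne_bot_of_finrank_lt
    rw [Module.finrank_fintype_fun_eq_card, Module.finrank_fintype_fun_eq_card, Fintype.card_coe,
      Fintype.card_fin, hT]
    exact Nat.lt_succ_self j
  obtain ⟨a, ha, ha0⟩ := (Submodule.ne_bot_iff _).mp hF
  refine ⟨a, ?_, fun k hk => congrFun (LinearMap.mem_ker.mp ha) ⟨k, hk⟩⟩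
  by_contra hcon
  push Not at hcon
  have h0 : ∑ i, a i ^ 2 = 0 := le_antisymm hcon (Finset.sum_nonneg fun i _ => sq_nonneg _)
  rw [Finset.sum_eq_zero_iff_of_nonneg fun i _ => sq_nonneg _] at h0
  exact ha0 (funext fun i => pow_eq_zero_iff (two_ne_zero) |>.mp (h0 i (Finset.mem_univ i)))

/-- **The deficit law**, in the form of a rounding: from a point `x` of the cube to a vertex. -/
theorem defi_round (v : κ → E) (hv : ∀ k, ‖v k‖ = 1) (A : E) (l : κ → ℝ) {x : κ → ℝ}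
    (hx : ∀ i, |x i| ≤ 1) {lam : ℝ} (hlam : ∀ a, lam ≤ gev v a) :
    ∃ η : κ → ℝ, (∀ i, η i = 1 ∨ η i = -1) ∧
      ‖A + ∑ i, η i • v i‖ ^ 2 + ∑ i, l i * η i ≤
        ‖A + ∑ i, x i • v i‖ ^ 2 + ∑ i, l i * x i + Fintype.card κ - defi v
          - lam * ∑ i, x i ^ 2 := by
  -- a monotone enumeration
  set N := Fintype.card κ with hN
  let e : κ ≃ Fin N := Fintype.equivFin κ
  let σ : Fin N ≃ κ := (Tuple.sort (gev v ∘ e.symm)).trans e.symm
  have hσ : Monotone fun i => gev v (σ i) := Tuple.monotone_sort (gev v ∘ e.symm)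
  let kap : ℕ → ℝ := fun j => if h : j < N then max (1 - gev v (σ ⟨j, h⟩)) 0 else 0
  have hk0 : ∀ j, 0 ≤ kap j := by
    intro j
    simp only [kap]
    split_ifs
    · exact le_max_right _ _
    · exact le_rfl
  have hk : Antitone kap := by
    intro i j hij
    by_cases hj : j < N
    · have hi : i < N := lt_of_le_of_lt hij hj
      simp only [kap, dif_pos hj, dif_pos hi]
      refine max_le_max ?_ le_rfl
      have := hσ (show (⟨i, hi⟩ : Fin N) ≤ ⟨j, hj⟩ from hij)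
      simp only at this
      linarith
    · have : kap j = 0 := by simp only [kap, dif_neg hj]
      rw [this]
      exact hk0 i
  have hkn : kap N = 0 := by simp only [kap, lt_irrefl, dite_false]
  have hsum : ∑ i ∈ range N, kap i = defi v := by
    rw [Finset.sum_range, defi, ← Equiv.sum_comp σ]
    exact Finset.sum_congr rfl fun i _ => by simp only [kap, dif_pos i.2]
  have hz1 : ∀ (k0 : κ), ∑ i, (Pi.single k0 (1 : ℝ) : κ → ℝ) i • v i = v k0 := by
    intro k0
    rw [Finset.sum_eq_single k0 (fun i _ hi => by rw [Pi.single_eq_of_ne hi, zero_smul])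
      (fun h => absurd (Finset.mem_univ k0) h), Pi.single_eq_same, one_smul]
  have hz2 : ∀ (k0 : κ), ∑ i, (Pi.single k0 (1 : ℝ) : κ → ℝ) i ^ 2 = 1 := by
    intro k0
    rw [Finset.sum_eq_single k0 (fun i _ hi => by rw [Pi.single_eq_of_ne hi]; norm_num)
      (fun h => absurd (Finset.mem_univ k0) h), Pi.single_eq_same, one_pow]
  obtain ⟨η, h1, h2⟩ := thmA_abs v A l kap hk hk0 hkn hx (by
    intro j hj T hT
    by_cases hkj : kap j = 0
    · obtain ⟨k0, hk0'⟩ : ∃ k0, k0 ∉ T := by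
        by_contra hcon
        push Not at hcon
        have : T = Finset.univ := Finset.eq_univ_iff_forall.mpr hcon
        rw [this, Finset.card_univ] at hT
        omega
      refine ⟨Pi.single k0 1, ⟨k0, by rw [Pi.single_eq_same]; exact one_ne_zero⟩, ?_, ?_⟩
      · intro i hi
        have hik : i ≠ k0 := by
          rintro rfl
          exact hk0' hi
        exact Pi.single_eq_of_ne hik _
      · rw [hz1, hz2, hv, hkj]
        norm_num
    · have hj' : j < N := hj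
      have hkj' : kap j = 1 - gev v (σ ⟨j, hj'⟩) := by
        have h3 : kap j = max (1 - gev v (σ ⟨j, hj'⟩)) 0 := by simp only [kap, dif_pos hj']
        rw [h3] at hkj ⊢
        rcases le_total (1 - gev v (σ ⟨j, hj'⟩)) 0 with h | h
        · exact absurd (max_eq_right h) hkj
        · exact max_eq_left h
      let t : Fin (j + 1) → κ := fun i => σ (Fin.castLE hj' i)
      have ht : Function.Injective t := σ.injective.comp (Fin.castLE_injective hj')
      have hw : ∀ i i', ∑ k, gvec v (t i) k * gvec v (t i') k = if i = i' then 1 else 0 := by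
        intro i i'
        rw [gvec_orth]
        simp only [ht.eq_iff]
      have hw' : ∀ i i', inner ℝ (∑ k, gvec v (t i) k • v k) (∑ k, gvec v (t i') k • v k) =
          if i = i' then gev v (t i) else 0 := by
        intro i i'
        rw [gvec_img]
        simp only [ht.eq_iff]
      obtain ⟨a, ha, haT⟩ := thmA_dim (fun i => gvec v (t i)) T hT
      have e1 := fam_sq (fun i => gvec v (t i)) hw a
      have e2 := fam_img v (fun i => gvec v (t i)) (fun i => gev v (t i)) hw' a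
      refine ⟨fun k => ∑ i, a i * gvec v (t i) k, ?_, haT, ?_⟩
      · by_contra hcon
        push Not at hcon
        have : ∑ k, (∑ i, a i * gvec v (t i) k) ^ 2 = 0 :=
          Finset.sum_eq_zero fun k _ => by rw [hcon k]; norm_num
        rw [e1] at this
        exact ha.ne' this
      · rw [e1, e2, hkj', sub_sub_cancel, Finset.mul_sum]
        refine Finset.sum_le_sum fun i _ => mul_le_mul_of_nonneg_right ?_ (sq_nonneg _)
        apply hσ
        exact Nat.lt_succ_iff.mp i.2)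
  refine ⟨η, h1, h2.trans ?_⟩
  rw [hsum]
  have h3 : lam * ∑ i, x i ^ 2 ≤ (1 - kap 0) * ∑ i, x i ^ 2 := by
    by_cases hN0 : 0 < N
    · refine mul_le_mul_of_nonneg_right ?_ (Finset.sum_nonneg fun i _ => sq_nonneg _)
      have h4 : kap 0 = max (1 - gev v (σ ⟨0, hN0⟩)) 0 := by simp only [kap, dif_pos hN0]
      rw [h4]
      have h5 : lam ≤ 1 := by
        have := gev_form hlam (Pi.single (σ ⟨0, hN0⟩) 1)
        rw [hz1, hz2, hv] at this
        linarith
      rcases max_choice (1 - gev v (σ ⟨0, hN0⟩)) 0 with h | h <;> rw [h]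
      · linarith [hlam (σ ⟨0, hN0⟩)]
      · linarith
    · have : IsEmpty κ := Fintype.card_eq_zero_iff.mp (by omega)
      simp
  linarith

theorem sum_pos_gev (v : κ → E) (f : κ → ℝ) (hf : ∀ a, gev v a = 0 → f a = 0) :
    ∑ a, f a = ∑ a : {a : κ // 0 < gev v a}, f a.1 := by
  rw [← Finset.sum_subtype (Finset.univ.filter fun a => 0 < gev v a) (fun a => by simp) f]
  refine (Finset.sum_filter_of_ne fun a _ ha => ?_).symm
  exact lt_of_le_of_ne (gev_nonneg v a) fun h => ha (hf a h.symm)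

/-- Singular values: `∑ ⟪w, v k⟫²` in an orthonormal family of `E` indexed by the positive
eigenvalues of the Gram matrix. -/
theorem exists_svd (v : κ → E) : ∃ e : {a : κ // 0 < gev v a} → E, Orthonormal ℝ e ∧
    ∀ w : E, ∑ k, inner ℝ w (v k) ^ 2 = ∑ a, gev v a.1 * inner ℝ w (e a) ^ 2 := by
  refine ⟨fun a => (Real.sqrt (gev v a.1))⁻¹ • ∑ k, gvec v a.1 k • v k, ?_, fun w => ?_⟩
  · rw [orthonormal_iff_ite]
    intro a b
    rw [inner_smul_left, inner_smul_right, gvec_img, conj_trivial]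
    by_cases hab : a = b
    · subst hab
      rw [if_pos rfl, if_pos rfl, ← mul_assoc, ← mul_inv, Real.mul_self_sqrt a.2.le,
        inv_mul_cancel₀ a.2.ne']
    · rw [if_neg hab, if_neg (fun h => hab (Subtype.ext h)), mul_zero, mul_zero]
  · have h1 := gvec_sq v (fun k => inner ℝ w (v k))
    rw [← h1]
    have h2 : ∀ a, ∑ i, gvec v a i * inner ℝ w (v i) = inner ℝ w (∑ k, gvec v a k • v k) := by
      intro a
      rw [inner_sum]
      exact Finset.sum_congr rfl fun k _ => by rw [inner_smul_right]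
    have h3 : ∀ a : {a : κ // 0 < gev v a}, gev v a.1 *
        inner ℝ w ((Real.sqrt (gev v a.1))⁻¹ • ∑ k, gvec v a.1 k • v k) ^ 2 =
        (∑ i, gvec v a.1 i * inner ℝ w (v i)) ^ 2 := by
      intro a
      rw [h2, inner_smul_right, mul_pow, inv_pow, Real.sq_sqrt a.2.le, ← mul_assoc,
        mul_inv_cancel₀ a.2.ne', one_mul]
    rw [Finset.sum_congr rfl fun a _ => h3 a]
    refine sum_pos_gev v (fun a => (∑ i, gvec v a i * inner ℝ w (v i)) ^ 2) fun a ha => ?_
    have h4 : ∑ k, gvec v a k • v k = 0 := by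
      have h5 := gvec_norm_img v a
      rw [ha] at h5
      exact norm_eq_zero.mp (pow_eq_zero_iff two_ne_zero |>.mp h5)
    rw [h2, h4, inner_zero_right]
    norm_num

/-- The singular vectors, extended to an orthonormal basis. -/
theorem exists_svd_basis [FiniteDimensional ℝ E] (v : κ → E) :
    Fintype.card {a : κ // 0 < gev v a} ≤ Module.finrank ℝ E ∧
    ∃ b : OrthonormalBasis ({a : κ // 0 < gev v a} ⊕
        Fin (Module.finrank ℝ E - Fintype.card {a : κ // 0 < gev v a})) ℝ E,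
      ∀ w : E, ∑ k, inner ℝ w (v k) ^ 2 =
        ∑ a : {a : κ // 0 < gev v a}, gev v a.1 * inner ℝ w (b (Sum.inl a)) ^ 2 := by
  obtain ⟨e, he, hev⟩ := exists_svd v
  let S := {a : κ // 0 < gev v a}
  have hSd : Fintype.card S ≤ Module.finrank ℝ E := he.linearIndependent.fintype_card_le_finrank
  let R := Fin (Module.finrank ℝ E - Fintype.card S)
  have hcard : Module.finrank ℝ E = Fintype.card (S ⊕ R) := by
    rw [Fintype.card_sum, Fintype.card_fin]
    omega
  obtain ⟨b, hb⟩ := Orthonormal.exists_orthonormalBasis_extension_of_card_eq hcard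
    (v := Sum.elim e (fun _ => 0)) (s := Set.range Sum.inl) (by
      have h1 : Orthonormal ℝ (fun x : Set.range (Sum.inl : S → S ⊕ R) =>
          e ((Equiv.ofInjective _ Sum.inl_injective).symm x)) :=
        he.comp _ (Equiv.ofInjective _ Sum.inl_injective).symm.injective
      convert h1 using 1
      funext ⟨x, s, hs⟩
      subst hs
      simp)
  refine ⟨hSd, b, fun w => ?_⟩
  rw [hev]
  exact Finset.sum_congr rfl fun a _ => by rw [hb _ ⟨a, rfl⟩, Sum.elim_inl]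

/-- Lower bounds of the eigenvalues from lower bounds on `E` (`d` labels). -/
theorem le_gev_of_E [FiniteDimensional ℝ E] {v : κ → E}
    (hc : Fintype.card κ ≤ Module.finrank ℝ E) {lam : ℝ}
    (h : ∀ w : E, lam * ‖w‖ ^ 2 ≤ ∑ k, inner ℝ w (v k) ^ 2) (a : κ) : lam ≤ gev v a := by
  obtain ⟨hSd, b, hb⟩ := exists_svd_basis v
  rcases (gev_nonneg v a).lt_or_eq with ha | ha
  · have h1 := h (b (Sum.inl ⟨a, ha⟩))
    rw [hb, b.orthonormal.1, one_pow, mul_one,
      Finset.sum_eq_single (⟨a, ha⟩ : {a : κ // 0 < gev v a})] at h1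
    · rw [real_inner_self_eq_norm_sq, b.orthonormal.1] at h1
      simpa using h1
    · intro c _ hc
      rw [b.orthonormal.2 (fun h => hc (Sum.inl.inj h).symm)]
      norm_num
    · exact fun h => absurd (Finset.mem_univ _) h
  · have h2 : Fintype.card {a : κ // 0 < gev v a} < Fintype.card κ :=
      Fintype.card_subtype_lt (x := a) (by rw [← ha]; exact lt_irrefl 0)
    have h1 := h (b (Sum.inr ⟨0, by omega⟩))
    rw [hb, b.orthonormal.1, one_pow, mul_one, Finset.sum_eq_zero] at h1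
    · rw [← ha]
      exact h1
    · intro c _
      rw [b.orthonormal.2 (fun h => Sum.inr_ne_inl h)]
      norm_num

/-- The deficit bounds traces: for orthonormal `w i` in `E`,
`∑ (1 - ∑ ⟪w i, v k⟫²) ≤ defi v + (d - n)`. -/
theorem defi_var [FiniteDimensional ℝ E] (v : κ → E) {ι : Type*} [Fintype ι] {w : ι → E}
    (hw : Orthonormal ℝ w) : ∑ i, (1 - ∑ k, inner ℝ (w i) (v k) ^ 2) ≤
      defi v + (Module.finrank ℝ E - Fintype.card κ) := by
  obtain ⟨hSd, b, hev⟩ := exists_svd_basis v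
  let S := {a : κ // 0 < gev v a}
  let R := Fin (Module.finrank ℝ E - Fintype.card S)
  -- each term
  have h1 : ∀ x : E, ‖x‖ = 1 → 1 - ∑ k, inner ℝ x (v k) ^ 2 =
      ∑ a : S, (1 - gev v a.1) * inner ℝ x (b (Sum.inl a)) ^ 2 +
        ∑ r : R, inner ℝ x (b (Sum.inr r)) ^ 2 := by
    intro x hx
    have h2 := b.sum_sq_inner_left x
    rw [hx, one_pow, Fintype.sum_sum_type] at h2
    have h3 : ∑ a : S, (1 - gev v a.1) * inner ℝ x (b (Sum.inl a)) ^ 2 =
        ∑ a : S, inner ℝ x (b (Sum.inl a)) ^ 2 -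
          ∑ a : S, gev v a.1 * inner ℝ x (b (Sum.inl a)) ^ 2 := by
      rw [← Finset.sum_sub_distrib]
      exact Finset.sum_congr rfl fun a _ => by ring
    rw [h3, hev]
    linarith
  have h3 : ∀ y : E, ‖y‖ = 1 → ∑ i, inner ℝ (w i) y ^ 2 ≤ 1 := by
    intro y hy
    have := hw.sum_inner_products_le (s := Finset.univ) y
    simpa [hy] using this
  have h4 : ∀ a : S, ∑ i, (1 - gev v a.1) * inner ℝ (w i) (b (Sum.inl a)) ^ 2 ≤
      max (1 - gev v a.1) 0 := by
    intro a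
    rw [← Finset.mul_sum]
    have h5 := h3 _ (b.orthonormal.1 (Sum.inl a))
    have h6 : 0 ≤ ∑ i, inner ℝ (w i) (b (Sum.inl a)) ^ 2 :=
      Finset.sum_nonneg fun i _ => sq_nonneg _
    rcases le_total (1 - gev v a.1) 0 with h | h
    · rw [max_eq_right h]
      exact mul_nonpos_of_nonpos_of_nonneg h h6
    · rw [max_eq_left h]
      exact mul_le_of_le_one_right h h5
  have h7 : defi v = ∑ a : S, max (1 - gev v a.1) 0 + (Fintype.card κ - Fintype.card S) := by
    have h8 := sum_pos_gev v (fun a => max (1 - gev v a) 0 - 1) (fun a ha => by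
      rw [ha]
      norm_num)
    rw [Finset.sum_sub_distrib, Finset.sum_sub_distrib] at h8
    simp only [Finset.sum_const, Finset.card_univ, nsmul_eq_mul, mul_one] at h8
    unfold defi
    linarith
  have h9 : ∑ i, (1 - ∑ k, inner ℝ (w i) (v k) ^ 2) =
      ∑ a : S, ∑ i, (1 - gev v a.1) * inner ℝ (w i) (b (Sum.inl a)) ^ 2 +
        ∑ r : R, ∑ i, inner ℝ (w i) (b (Sum.inr r)) ^ 2 := by
    rw [Finset.sum_congr rfl fun i _ => h1 (w i) (hw.1 i), Finset.sum_add_distrib,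
      Finset.sum_comm, Finset.sum_comm (s := Finset.univ (α := ι)) (t := Finset.univ (α := R))]
  have h10 : ∑ r : R, ∑ i, inner ℝ (w i) (b (Sum.inr r)) ^ 2 ≤
      ((Module.finrank ℝ E - Fintype.card S : ℕ) : ℝ) := by
    calc ∑ r : R, ∑ i, inner ℝ (w i) (b (Sum.inr r)) ^ 2 ≤ ∑ _r : R, (1 : ℝ) :=
          Finset.sum_le_sum fun r _ => h3 _ (b.orthonormal.1 _)
      _ = _ := by rw [Finset.sum_const, Finset.card_univ, Fintype.card_fin, nsmul_eq_mul, mul_one]
  rw [Nat.cast_sub hSd] at h10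
  rw [h9, h7]
  have h11 := Finset.sum_le_sum fun a (_ : a ∈ (Finset.univ : Finset S)) => h4 a
  linarith

/-- **The deficit law** (`T0`), all labels. -/
theorem deficit [FiniteDimensional ℝ E] (v : κ → E) (hv : ∀ k, ‖v k‖ = 1) (y : E) {x : κ → ℝ}
    (hx : ∀ i, |x i| ≤ 1) (hbad : ∀ η : κ → ℝ, (∀ i, η i = 1 ∨ η i = -1) →
      (Module.finrank ℝ E : ℝ) - 1 < ‖y + ∑ i, η i • v i‖ ^ 2) {lam : ℝ}
    (hlam : ∀ a, lam ≤ gev v a) {ι : Type*} [Fintype ι] {w : ι → E} (hw : Orthonormal ℝ w) :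
    ∑ i, (1 - ∑ k, inner ℝ (w i) (v k) ^ 2) <
      1 + ‖y + ∑ i, x i • v i‖ ^ 2 - lam * ∑ i, x i ^ 2 := by
  obtain ⟨η, h1, h2⟩ := defi_round v hv y (fun _ => 0) hx hlam
  simp only [zero_mul, Finset.sum_const_zero, add_zero] at h2
  have h3 := hbad η h1
  have h4 := defi_var v hw
  linarith

/-- **The deficit law with room**, all labels: `|x i| ≤ θ`. -/
theorem deficit_room [FiniteDimensional ℝ E] (v : κ → E) (hv : ∀ k, ‖v k‖ = 1) (y : E)
    {x : κ → ℝ} {θ : ℝ} (hθ : θ ≤ 1)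
    (hx : ∀ i, |x i| ≤ θ) (hbad : ∀ η : κ → ℝ, (∀ i, η i = 1 ∨ η i = -1) →
      (Module.finrank ℝ E : ℝ) - 1 < ‖y + ∑ i, η i • v i‖ ^ 2)
    {ι : Type*} [Fintype ι] {w : ι → E} (hw : Orthonormal ℝ w) :
    (1 - θ) ^ 2 * (∑ i, (1 - ∑ k, inner ℝ (w i) (v k) ^ 2) +
      (Fintype.card κ - Module.finrank ℝ E)) <
      1 + (Fintype.card κ - Module.finrank ℝ E) + ‖y + ∑ i, x i • v i‖ ^ 2 - ∑ i, x i ^ 2 := by
  have h4 := defi_var v hw
  have key : ∃ p : κ → ℝ, (∀ i, |p i| ≤ 1) ∧ ‖y + ∑ i, p i • v i‖ ^ 2 - ∑ i, p i ^ 2 ≤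
      ‖y + ∑ i, x i • v i‖ ^ 2 - ∑ i, x i ^ 2 - (1 - θ) ^ 2 * defi v := by
    rcases hθ.lt_or_eq with h | h
    · set r := 1 - θ with hr
      have hr0 : 0 < r := by linarith
      obtain ⟨η, h1, h2⟩ := defi_round v hv (r⁻¹ • (y + ∑ i, x i • v i))
        (fun k => -(2 / r) * x k) (x := fun _ => 0) (by simp) (lam := 0) (gev_nonneg v)
      refine ⟨fun i => x i + r * η i, fun i => ?_, ?_⟩
      · have h3 : |η i| = 1 := by rcases h1 i with h | h <;> simp [h]
        calc |x i + r * η i| ≤ |x i| + |r * η i| := abs_add_le _ _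
          _ = |x i| + r := by rw [abs_mul, h3, abs_of_pos hr0, mul_one]
          _ ≤ 1 := by linarith [hx i]
      · have e1 : y + ∑ i, (x i + r * η i) • v i =
            r • (r⁻¹ • (y + ∑ i, x i • v i) + ∑ i, η i • v i) := by
          rw [smul_add, smul_smul, mul_inv_cancel₀ hr0.ne', one_smul]
          simp only [add_smul, Finset.sum_add_distrib, mul_smul, ← Finset.smul_sum]
          abel
        have e2 : ∑ i, (x i + r * η i) ^ 2 = ∑ i, x i ^ 2 + 2 * r * ∑ i, x i * η i +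
            r ^ 2 * Fintype.card κ := by
          have e3 : ∀ i, (x i + r * η i) ^ 2 = x i ^ 2 + 2 * r * (x i * η i) + r ^ 2 := by
            intro i
            have : η i ^ 2 = 1 := by rcases h1 i with h | h <;> rw [h] <;> norm_num
            linear_combination r ^ 2 * this
          rw [Finset.sum_congr rfl fun i _ => e3 i, Finset.sum_add_distrib,
            Finset.sum_add_distrib, ← Finset.mul_sum, Finset.sum_const, Finset.card_univ,
            nsmul_eq_mul]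
          ring
        rw [e1, e2, norm_smul, mul_pow, Real.norm_eq_abs, sq_abs]
        have e4 : ∑ i, -(2 / r) * x i * η i = -(2 / r) * ∑ i, x i * η i := by
          rw [Finset.mul_sum]
          exact Finset.sum_congr rfl fun i _ => by ring
        have e5 : ‖r⁻¹ • (y + ∑ i, x i • v i)‖ ^ 2 = (r ^ 2)⁻¹ * ‖y + ∑ i, x i • v i‖ ^ 2 := by
          rw [norm_smul, mul_pow, Real.norm_eq_abs, sq_abs, inv_pow]
        simp only [zero_smul, Finset.sum_const_zero, add_zero, mul_zero, zero_mul, sub_zero] at h2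
        rw [e4, e5] at h2
        have h5 := mul_le_mul_of_nonneg_left h2 (sq_nonneg r)
        have e6 : r ^ 2 * (‖r⁻¹ • (y + ∑ i, x i • v i) + ∑ i, η i • v i‖ ^ 2 +
            -(2 / r) * ∑ i, x i * η i) = r ^ 2 * ‖r⁻¹ • (y + ∑ i, x i • v i) +
              ∑ i, η i • v i‖ ^ 2 - 2 * r * ∑ i, x i * η i := by
          field_simp
          ring
        have e7 : r ^ 2 * ((r ^ 2)⁻¹ * ‖y + ∑ i, x i • v i‖ ^ 2 + Fintype.card κ - defi v) =
            ‖y + ∑ i, x i • v i‖ ^ 2 + r ^ 2 * Fintype.card κ - r ^ 2 * defi v := by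
          field_simp
        rw [e6, e7] at h5
        linarith
    · refine ⟨x, fun i => h ▸ hx i, ?_⟩
      rw [h]
      norm_num
  obtain ⟨p, hp, h1⟩ := key
  obtain ⟨η, h2, h3⟩ := rounding_aux v p hp Finset.univ y
  have h5 := hbad η h2
  have h6 : ∑ i, (1 - p i ^ 2) * ‖v i‖ ^ 2 = Fintype.card κ - ∑ i, p i ^ 2 := by
    simp only [hv, one_pow, mul_one, Finset.sum_sub_distrib, Finset.sum_const, Finset.card_univ,
      nsmul_eq_mul]
  rw [h6] at h3
  have h7 := mul_le_mul_of_nonneg_left h4 (sq_nonneg (1 - θ))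
  nlinarith

end gram

/-! ### Finite sets of labels -/

section finset

omit [Fintype κ] in
private theorem thmA_ext {F : Finset κ} (η : F → ℝ) (hη : ∀ i, η i = 1 ∨ η i = -1) :
    ∃ η' : κ → ℝ, (∀ i, η' i = 1 ∨ η' i = -1) ∧ ∀ i : F, η' i = η i := by
  classical
  refine ⟨fun i => if h : i ∈ F then η ⟨i, h⟩ else 1, fun i => ?_, fun i => ?_⟩
  · by_cases h : i ∈ F
    · simp only [dif_pos h]
      exact hη _
    · simp only [dif_neg h, true_or]
  · simp only [dif_pos i.2]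

omit [Fintype κ] in
private theorem thmA_bad {F : Finset κ} {v : κ → E} {y : E} {c : ℝ}
    (hbad : ∀ η : κ → ℝ, (∀ i, η i = 1 ∨ η i = -1) → c < ‖y + ∑ i ∈ F, η i • v i‖ ^ 2)
    (η : F → ℝ) (hη : ∀ i, η i = 1 ∨ η i = -1) : c < ‖y + ∑ i : F, η i • v i‖ ^ 2 := by
  obtain ⟨η', h1, h2⟩ := thmA_ext η hη
  have h3 := hbad η' h1
  rw [← Finset.sum_coe_sort F (fun i => η' i • v i)] at h3
  simpa only [h2] using h3

omit [Fintype κ] in
/-- **The deficit law** (`T0`) for a set `F` of labels and an offset `y`: `y + V_F x` need not be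
`0`, `F` may have any number of elements. -/
theorem deficit_F [FiniteDimensional ℝ E] (F : Finset κ) (v : κ → E) (hv : ∀ k ∈ F, ‖v k‖ = 1)
    (y : E) {x : κ → ℝ} (hx : ∀ i ∈ F, |x i| ≤ 1)
    (hbad : ∀ η : κ → ℝ, (∀ i, η i = 1 ∨ η i = -1) →
      (Module.finrank ℝ E : ℝ) - 1 < ‖y + ∑ i ∈ F, η i • v i‖ ^ 2) {lam : ℝ}
    (hlam : ∀ z : κ → ℝ, lam * ∑ k ∈ F, z k ^ 2 ≤ ‖∑ k ∈ F, z k • v k‖ ^ 2)
    {ι : Type*} [Fintype ι] {w : ι → E} (hw : Orthonormal ℝ w) :
    ∑ i, (1 - ∑ k ∈ F, inner ℝ (w i) (v k) ^ 2) <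
      1 + ‖y + ∑ i ∈ F, x i • v i‖ ^ 2 - lam * ∑ i ∈ F, x i ^ 2 := by
  classical
  have h1 := deficit (fun k : F => v k) (fun k => hv k k.2) y (x := fun k : F => x k)
    (fun k => hx k k.2) (thmA_bad hbad) (lam := lam) (le_gev fun z => by
      have h2 := hlam (fun k => if h : k ∈ F then z ⟨k, h⟩ else 0)
      rw [← Finset.sum_coe_sort F, ← Finset.sum_coe_sort F] at h2
      simpa using h2) hw
  rw [Finset.sum_coe_sort F (fun i => x i • v i), Finset.sum_coe_sort F (fun i => x i ^ 2)] at h1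
  refine lt_of_eq_of_lt (Finset.sum_congr rfl fun i _ => ?_) h1
  rw [Finset.sum_coe_sort F (fun k => inner ℝ (w i) (v k) ^ 2)]

omit [Fintype κ] in
/-- **The deficit law** (`T0`) for at most `d` labels, with a lower bound `lam` of
`∑ ⟪w, v k⟫²` on `E`. -/
theorem deficit_E [FiniteDimensional ℝ E] (F : Finset κ) (hF : F.card ≤ Module.finrank ℝ E)
    (v : κ → E) (hv : ∀ k ∈ F, ‖v k‖ = 1)
    (y : E) {x : κ → ℝ} (hx : ∀ i ∈ F, |x i| ≤ 1)
    (hbad : ∀ η : κ → ℝ, (∀ i, η i = 1 ∨ η i = -1) →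
      (Module.finrank ℝ E : ℝ) - 1 < ‖y + ∑ i ∈ F, η i • v i‖ ^ 2) {lam : ℝ}
    (hlam : ∀ w : E, lam * ‖w‖ ^ 2 ≤ ∑ k ∈ F, inner ℝ w (v k) ^ 2)
    {ι : Type*} [Fintype ι] {w : ι → E} (hw : Orthonormal ℝ w) :
    ∑ i, (1 - ∑ k ∈ F, inner ℝ (w i) (v k) ^ 2) <
      1 + ‖y + ∑ i ∈ F, x i • v i‖ ^ 2 - lam * ∑ i ∈ F, x i ^ 2 := by
  classical
  have h1 := deficit (fun k : F => v k) (fun k => hv k k.2) y (x := fun k : F => x k)
    (fun k => hx k k.2) (thmA_bad hbad) (lam := lam) (le_gev_of_E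
      (by rw [Fintype.card_coe]; exact hF) fun w => by
        rw [Finset.sum_coe_sort F (fun k => inner ℝ w (v k) ^ 2)]
        exact hlam w) hw
  rw [Finset.sum_coe_sort F (fun i => x i • v i), Finset.sum_coe_sort F (fun i => x i ^ 2)] at h1
  refine lt_of_eq_of_lt (Finset.sum_congr rfl fun i _ => ?_) h1
  rw [Finset.sum_coe_sort F (fun k => inner ℝ (w i) (v k) ^ 2)]

omit [Fintype κ] in
/-- **The deficit law with room** for a set `F` of labels: `|x i| ≤ θ` on `F`. -/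
theorem deficit_room_F [FiniteDimensional ℝ E] (F : Finset κ) (v : κ → E)
    (hv : ∀ k ∈ F, ‖v k‖ = 1) (y : E) {x : κ → ℝ} {θ : ℝ} (hθ : θ ≤ 1) (hx : ∀ i ∈ F, |x i| ≤ θ)
    (hbad : ∀ η : κ → ℝ, (∀ i, η i = 1 ∨ η i = -1) →
      (Module.finrank ℝ E : ℝ) - 1 < ‖y + ∑ i ∈ F, η i • v i‖ ^ 2)
    {ι : Type*} [Fintype ι] {w : ι → E} (hw : Orthonormal ℝ w) :
    (1 - θ) ^ 2 * (∑ i, (1 - ∑ k ∈ F, inner ℝ (w i) (v k) ^ 2) +
      (F.card - Module.finrank ℝ E)) <
      1 + (F.card - Module.finrank ℝ E) + ‖y + ∑ i ∈ F, x i • v i‖ ^ 2 - ∑ i ∈ F, x i ^ 2 := by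
  classical
  have h1 := deficit_room (fun k : F => v k) (fun k => hv k k.2) y (x := fun k : F => x k) hθ
    (fun k => hx k k.2) (thmA_bad hbad) hw
  rw [Finset.sum_coe_sort F (fun i => x i • v i), Finset.sum_coe_sort F (fun i => x i ^ 2),
    Fintype.card_coe] at h1
  refine lt_of_eq_of_lt ?_ h1
  congr 2
  refine Finset.sum_congr rfl fun i _ => ?_
  rw [Finset.sum_coe_sort F (fun k => inner ℝ (w i) (v k) ^ 2)]

end finset

/-! ### States -/

section state

variable {v : κ → E} {g : E} {m : ℕ}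

/-- Any set `F` of labels with the offset of the other labels is bad. -/
theorem St.bad_F [DecidableEq κ] (h : St v g m) (F : Finset κ) {σ : κ → ℝ}
    (hσ : ∀ i, i ∉ F → σ i = 1 ∨ σ i = -1) (η : κ → ℝ) (hη : ∀ i, η i = 1 ∨ η i = -1) :
    (Module.finrank ℝ E : ℝ) - 1 < ‖(g + ∑ i ∈ Fᶜ, σ i • v i) + ∑ i ∈ F, η i • v i‖ ^ 2 := by
  have h1 := h.bad (fun i => if i ∈ F then η i else σ i) (fun i => by
    by_cases hi : i ∈ F
    · simp only [if_pos hi]
      exact hη i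
    · simp only [if_neg hi]
      exact hσ i hi)
  have h2 : ∑ i, (if i ∈ F then η i else σ i) • v i =
      ∑ i ∈ F, η i • v i + ∑ i ∈ Fᶜ, σ i • v i := by
    rw [← Finset.sum_add_sum_compl F]
    congr 1
    · exact Finset.sum_congr rfl fun i hi => by rw [if_pos hi]
    · exact Finset.sum_congr rfl fun i hi => by rw [if_neg (Finset.mem_compl.mp hi)]
  rw [h2] at h1
  have h3 : g + (∑ i ∈ F, η i • v i + ∑ i ∈ Fᶜ, σ i • v i) =
      (g + ∑ i ∈ Fᶜ, σ i • v i) + ∑ i ∈ F, η i • v i := by abel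
  rwa [h3] at h1

/-- **The deficit law at a vertex** of a state. -/
theorem St.deficit [FiniteDimensional ℝ E] (h : St v g m) {x : κ → ℝ} (hx : Vx v g x) {lam : ℝ}
    (hlam : ∀ w : E, lam * ‖w‖ ^ 2 ≤ ∑ k ∈ fr x, inner ℝ w (v k) ^ 2)
    {ι : Type*} [Fintype ι] {w : ι → E} (hw : Orthonormal ℝ w) :
    ∑ i, (1 - ∑ k ∈ fr x, inner ℝ (w i) (v k) ^ 2) < 1 - lam * ∑ i ∈ fr x, x i ^ 2 := by
  classical
  have h1 := deficit_E (fr x) hx.2.le v (fun k _ => h.unit k)
    (g + ∑ i ∈ (fr x)ᶜ, x i • v i) (x := x) (fun i _ => hx.1.1 i)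
    (h.bad_F (fr x) fun i hi => (not_mem_fr x hx.1.1 i).mp hi) hlam hw
  have h2 : (g + ∑ i ∈ (fr x)ᶜ, x i • v i) + ∑ i ∈ fr x, x i • v i = 0 := by
    rw [← hx.1.2, ← Finset.sum_add_sum_compl (fr x)]
    abel
  rw [h2, norm_zero] at h1
  linarith

end state

end Pool.Agent.Lib.MP_1be6c9_co.Fc
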