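import Pool.Agent.Lib.MP_1be6c9_co.Fc.MaxV
import Pool.Agent.Lib.MP_1be6c9_co.Fc.ThmA

/-!
Bad offsets for a set of `d - 1` labels: the product law, the kernel law, and both in the
coordinates of an orthonormal basis of eigenvectors of `V Vᵀ`.
-/

namespace Pool.Agent.Lib.MP_1be6c9_co.Fc

open Finset Pool.Agent.Lib.MP_1be6c9_co

/-- `c` is a bad offset for the labels `G`. -/
def BadAt {κ E : Type*} [NormedAddCommGroup E] [InnerProductSpace ℝ E]
    (v : κ → E) (G : Finset κ) (c : E) : Prop :=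
  ∀ η : κ → ℝ, (∀ i, η i = 1 ∨ η i = -1) →
    (Module.finrank ℝ E : ℝ) - 1 < ‖c + ∑ i ∈ G, η i • v i‖ ^ 2

section

variable {κ E : Type*} [Fintype κ] [DecidableEq κ] [NormedAddCommGroup E] [InnerProductSpace ℝ E]
  {v : κ → E} {G : Finset κ} {c : E}

theorem BadAt.strict (h : BadAt v G c) : ∃ R', (Module.finrank ℝ E : ℝ) - 1 < R' ∧
    ∀ η : κ → ℝ, (∀ i, η i = 1 ∨ η i = -1) → R' < ‖c + ∑ i ∈ G, η i • v i‖ ^ 2 := by
  have e : ∀ η : κ → ℝ, ∑ i, η i • (if i ∈ G then v i else 0) = ∑ i ∈ G, η i • v i := by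
    intro η
    simp only [smul_ite, smul_zero]
    rw [Finset.sum_ite_mem, Finset.univ_inter]
  have h1 : Long (ext (fun i => if i ∈ G then v i else 0) c)
      ((Module.finrank ℝ E : ℝ) - 1) := long_ext (fun η hη => by rw [e]; exact h η hη)
  obtain ⟨R', hR, hL⟩ := long_strict' h1
  refine ⟨R', hR, fun η hη => ?_⟩
  have h2 := hL (ex 1 η) (fun o => by
    cases o with
    | none => left; rfl
    | some k => exact hη k)
  rw [sum_ex, one_smul, e] at h2
  exact h2

omit [Fintype κ] in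
/-- The product law. -/
theorem BadAt.pl (hv : ∀ k, ‖v k‖ = 1) (hG : G.card + 1 = Module.finrank ℝ E) (h : BadAt v G c)
    {μ : κ → ℝ} (hμ : ∀ i ∈ G, |μ i| ≤ 1) :
    ∑ i ∈ G, μ i ^ 2 < ‖c + ∑ i ∈ G, μ i • v i‖ ^ 2 := by
  obtain ⟨η, h1, h2⟩ := rounding_aux v (fun i => if i ∈ G then μ i else 0) (fun i => by
    by_cases hi : i ∈ G
    · rw [if_pos hi]; exact hμ i hi
    · rw [if_neg hi]; simp) G c
  have h3 := h η h1
  have e1 : ∑ i ∈ G, (if i ∈ G then μ i else 0) • v i = ∑ i ∈ G, μ i • v i :=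
    Finset.sum_congr rfl fun i hi => by rw [if_pos hi]
  have e2 : ∑ i ∈ G, (1 - (if i ∈ G then μ i else 0) ^ 2) * ‖v i‖ ^ 2
      = G.card - ∑ i ∈ G, μ i ^ 2 := by
    rw [Finset.cast_card, ← Finset.sum_sub_distrib]
    exact Finset.sum_congr rfl fun i hi => by rw [if_pos hi, hv]; ring
  rw [e1, e2] at h2
  rw [← hG] at h3
  push_cast at h3
  linarith

/-- The kernel law. -/
theorem BadAt.kl (hv : ∀ k, ‖v k‖ = 1) (hG : G.card + 1 = Module.finrank ℝ E) (h : BadAt v G c)
    (s : ℝ) (u : κ → ℝ) (hpos : 0 < s ^ 2 + ∑ i ∈ G, u i ^ 2) :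
    0 < (s ^ 2 + ∑ i ∈ G, u i ^ 2) * ‖c‖ ^ 2 + 4 * s * inner ℝ c (∑ i ∈ G, u i • v i) +
      2 * ‖∑ i ∈ G, u i • v i‖ ^ 2 - 2 * ∑ i ∈ G, u i ^ 2 := by
  obtain ⟨R', hR, hL⟩ := h.strict
  obtain ⟨η, h1, h2⟩ := kernel_aux v u R' G s c
  have h3 := hL η h1
  have e1 : ∑ i ∈ G, ‖v i‖ ^ 2 = G.card := by
    rw [Finset.cast_card]
    exact Finset.sum_congr rfl fun i _ => by rw [hv]; norm_num
  have e2 : ∑ i ∈ G, u i ^ 2 * ‖v i‖ ^ 2 = ∑ i ∈ G, u i ^ 2 :=
    Finset.sum_congr rfl fun i _ => by rw [hv]; ring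
  rw [e1, e2] at h2
  have h4 : 0 ≤ (s + ∑ i ∈ G, η i * u i) ^ 2 * (‖c + ∑ i ∈ G, η i • v i‖ ^ 2 - R') :=
    mul_nonneg (sq_nonneg _) (by linarith)
  rw [← hG] at hR
  push_cast at hR
  have h5 : 0 < (s ^ 2 + ∑ i ∈ G, u i ^ 2) * (R' - G.card) := mul_pos hpos (by linarith)
  linarith

end

/-- An orthonormal basis of eigenvectors of `V Vᵀ` for `d - 1` labels with positive eigenvalues
`lam` on their span; `b none` is the normal of the span. -/
structure Spec {κ E : Type*} [NormedAddCommGroup E] [InnerProductSpace ℝ E] {n : ℕ}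
    (v : κ → E) (G : Finset κ) (b : OrthonormalBasis (Option (Fin n)) ℝ E) (lam : Fin n → ℝ) :
    Prop where
  pos : ∀ a, 0 < lam a
  tr : ∑ a, lam a = n
  bil : ∀ w w' : E, ∑ k ∈ G, inner ℝ w (v k) * inner ℝ w' (v k) =
    ∑ a, lam a * (inner ℝ w (b (some a)) * inner ℝ w' (b (some a)))
  ind : ∀ u : κ → ℝ, ∑ i ∈ G, u i • v i = 0 → ∀ i ∈ G, u i = 0

section

variable {κ E : Type*} [NormedAddCommGroup E] [InnerProductSpace ℝ E]
  {v : κ → E} {G : Finset κ}

/-- Existence of the basis. -/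
theorem exists_spec [FiniteDimensional ℝ E] (hv : ∀ k, ‖v k‖ = 1) {n : ℕ} (hn : G.card = n)
    (hG : G.card + 1 = Module.finrank ℝ E)
    (hind : ∀ u : κ → ℝ, ∑ i ∈ G, u i • v i = 0 → ∀ i ∈ G, u i = 0) :
    ∃ (b : OrthonormalBasis (Option (Fin n)) ℝ E) (lam : Fin n → ℝ), Spec v G b lam := by
  classical
  set w : G → E := fun k => v k with hw
  have hgev : ∀ a : G, 0 < gev w a := by
    intro a
    refine lt_of_le_of_ne (gev_nonneg w a) fun h0 => ?_
    have h1 := gvec_norm_img w a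
    rw [← h0] at h1
    have h2 : ∑ k, gvec w a k • w k = 0 := norm_eq_zero.mp (pow_eq_zero_iff two_ne_zero |>.mp h1)
    have h3 := hind (fun k => if h : k ∈ G then gvec w a ⟨k, h⟩ else 0) (by
      rw [← h2, ← Finset.sum_coe_sort G]
      refine Finset.sum_congr rfl fun k _ => ?_
      simp [hw])
    have h4 := gvec_orth w a a
    rw [if_pos rfl, Finset.sum_eq_zero (fun k _ => by
      have := h3 k k.2
      simp only [dif_pos k.2] at this
      rw [this, zero_mul])] at h4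
    norm_num at h4
  obtain ⟨hSd, b0, hb0⟩ := exists_svd_basis w
  have hcS : Fintype.card {a : G // 0 < gev w a} = n := by
    rw [Fintype.card_congr (Equiv.subtypeUnivEquiv hgev), Fintype.card_coe, hn]
  let e1 : {a : G // 0 < gev w a} ≃ Fin n := Fintype.equivFinOfCardEq hcS
  have h1 : Module.finrank ℝ E - Fintype.card {a : G // 0 < gev w a} = 1 := by omega
  let e2 : Fin (Module.finrank ℝ E - Fintype.card {a : G // 0 < gev w a}) ≃ PUnit.{1} :=
    Fintype.equivOfCardEq (by rw [Fintype.card_fin, h1]; rfl)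
  let e3 := (Equiv.sumCongr e1 e2).trans (Equiv.optionEquivSumPUnit.{0} (Fin n)).symm
  refine ⟨b0.reindex e3, fun a => gev w (e1.symm a).1, fun a => hgev _, ?_, ?_, hind⟩
  · -- the trace
    have ht := sum_pos_gev w (fun a => gev w a) fun a ha => ha
    rw [Equiv.sum_comp e1.symm (fun a => gev w a.1)]
    have h2 : ∑ a, gev w a = ∑ k : G, ‖w k‖ ^ 2 := by
      have h3 : ∀ k : G, ‖w k‖ ^ 2 = ∑ a, gev w a * gvec w a k ^ 2 := by
        intro k
        have h4 := gvec_img_sq w (fun i => if i = k then 1 else 0)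
        simp only [ite_smul, one_smul, zero_smul, Finset.sum_ite_eq', Finset.mem_univ,
          if_true, mul_ite, mul_one, mul_zero] at h4
        rw [h4]
      rw [Finset.sum_congr rfl fun k _ => h3 k, Finset.sum_comm]
      refine Finset.sum_congr rfl fun a _ => ?_
      rw [← Finset.mul_sum]
      have h5 := gvec_orth w a a
      rw [if_pos rfl] at h5
      have h6 : ∑ k, gvec w a k ^ 2 = 1 := by
        rw [← h5]
        exact Finset.sum_congr rfl fun k _ => by ring
      rw [h6, mul_one]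
    have h7 : ∑ k : G, ‖w k‖ ^ 2 = n := by
      rw [Finset.sum_congr rfl fun k _ => show ‖w k‖ ^ 2 = 1 by rw [hw]; simp [hv],
        Finset.sum_const, Finset.card_univ, Fintype.card_coe, hn]
      simp
    rw [← ht, h2, h7]
  · -- the bilinear form
    have hq : ∀ x : E, ∑ k ∈ G, inner ℝ x (v k) ^ 2 =
        ∑ a : Fin n, gev w (e1.symm a).1 * inner ℝ x (b0.reindex e3 (some a)) ^ 2 := by
      intro x
      have h3 : ∑ k ∈ G, inner ℝ x (v k) ^ 2 =
          ∑ a : {a : G // 0 < gev w a}, gev w a.1 * inner ℝ x (b0 (Sum.inl a)) ^ 2 := by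
        rw [← Finset.sum_coe_sort G (fun k => inner ℝ x (v k) ^ 2)]
        exact hb0 x
      rw [h3, ← Equiv.sum_comp e1.symm]
      refine Finset.sum_congr rfl fun a _ => ?_
      have h4 : (b0.reindex e3) (some a) = b0 (Sum.inl (e1.symm a)) := by
        rw [OrthonormalBasis.reindex_apply]
        congr 1
      rw [h4]
    intro x y
    have h1 := hq (x + y)
    have h2 := hq (x - y)
    simp only [inner_add_left, inner_sub_left] at h1 h2
    have e1' : ∑ k ∈ G, (inner ℝ x (v k) + inner ℝ y (v k)) ^ 2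
        - ∑ k ∈ G, (inner ℝ x (v k) - inner ℝ y (v k)) ^ 2
        = 4 * ∑ k ∈ G, inner ℝ x (v k) * inner ℝ y (v k) := by
      rw [← Finset.sum_sub_distrib, Finset.mul_sum]
      exact Finset.sum_congr rfl fun k _ => by ring
    rw [h1, h2, ← Finset.sum_sub_distrib] at e1'
    have e2' : ∀ a : Fin n, gev w (e1.symm a).1 * (inner ℝ x (b0.reindex e3 (some a)) +
          inner ℝ y (b0.reindex e3 (some a))) ^ 2 -
        gev w (e1.symm a).1 * (inner ℝ x (b0.reindex e3 (some a)) -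
          inner ℝ y (b0.reindex e3 (some a))) ^ 2
        = 4 * (gev w (e1.symm a).1 * (inner ℝ x (b0.reindex e3 (some a)) *
          inner ℝ y (b0.reindex e3 (some a)))) := fun a => by ring
    rw [Finset.sum_congr rfl fun a _ => e2' a, ← Finset.mul_sum] at e1'
    linarith

end

section spec

variable {κ E : Type*} [NormedAddCommGroup E] [InnerProductSpace ℝ E] {n : ℕ}
  {v : κ → E} {G : Finset κ} {b : OrthonormalBasis (Option (Fin n)) ℝ E} {lam : Fin n → ℝ}

/-- The inner product in coordinates. -/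
theorem inner_coord (b : OrthonormalBasis (Option (Fin n)) ℝ E) (x y : E) :
    inner ℝ x y = inner ℝ x (b none) * inner ℝ y (b none) +
      ∑ a, inner ℝ x (b (some a)) * inner ℝ y (b (some a)) := by
  have h := b.sum_inner_mul_inner x y
  rw [Fintype.sum_option] at h
  rw [← h]
  congr 1
  · rw [real_inner_comm (b none) y]
  · exact Finset.sum_congr rfl fun a _ => by rw [real_inner_comm (b (some a)) y]

theorem norm_coord (b : OrthonormalBasis (Option (Fin n)) ℝ E) (x : E) :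
    ‖x‖ ^ 2 = inner ℝ x (b none) ^ 2 + ∑ a, inner ℝ x (b (some a)) ^ 2 := by
  rw [← real_inner_self_eq_norm_sq, inner_coord b]
  congr 1
  · ring
  · exact Finset.sum_congr rfl fun a _ => by ring

theorem Spec.inner_img (S : Spec v G b lam) (w c : E) :
    inner ℝ c (∑ k ∈ G, inner ℝ w (v k) • v k) =
      ∑ a, lam a * (inner ℝ w (b (some a)) * inner ℝ c (b (some a))) := by
  rw [← S.bil, inner_sum]
  refine Finset.sum_congr rfl fun k _ => ?_
  rw [inner_smul_right]

theorem Spec.img_some (S : Spec v G b lam) (w : E) (a : Fin n) :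
    inner ℝ (∑ k ∈ G, inner ℝ w (v k) • v k) (b (some a)) = lam a * inner ℝ w (b (some a)) := by
  rw [real_inner_comm, S.inner_img, Finset.sum_eq_single a]
  · rw [real_inner_self_eq_norm_sq, b.orthonormal.1]; ring
  · intro c _ hc
    rw [b.orthonormal.2 (fun h => hc (Option.some.inj h).symm)]; ring
  · exact fun h => absurd (Finset.mem_univ _) h

theorem Spec.img_none (S : Spec v G b lam) (w : E) :
    inner ℝ (∑ k ∈ G, inner ℝ w (v k) • v k) (b none) = 0 := by
  rw [real_inner_comm, S.inner_img, Finset.sum_eq_zero]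
  intro a _
  rw [b.orthonormal.2 (i := none) (j := some a) (by simp)]
  ring

/-- The labels are orthogonal to the normal. -/
theorem Spec.normal (S : Spec v G b lam) {k : κ} (hk : k ∈ G) : inner ℝ (b none) (v k) = 0 := by
  have h1 := S.bil (b none) (b none)
  rw [Finset.sum_eq_zero (s := Finset.univ) (fun a _ => by
    rw [b.orthonormal.2 (i := none) (j := some a) (by simp)]; ring)] at h1
  have h2 := (Finset.sum_eq_zero_iff_of_nonneg (fun k _ => mul_self_nonneg _)).mp h1 k hk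
  exact mul_self_eq_zero.mp h2

theorem Spec.norm_img (S : Spec v G b lam) (w : E) :
    ‖∑ k ∈ G, inner ℝ w (v k) • v k‖ ^ 2 = ∑ a, lam a ^ 2 * inner ℝ w (b (some a)) ^ 2 := by
  rw [norm_coord b, S.img_none]
  simp only [S.img_some]
  rw [zero_pow two_ne_zero, zero_add]
  exact Finset.sum_congr rfl fun a _ => by ring

theorem Spec.sq (S : Spec v G b lam) (w : E) :
    ∑ k ∈ G, inner ℝ w (v k) ^ 2 = ∑ a, lam a * inner ℝ w (b (some a)) ^ 2 := by
  have h := S.bil w w
  rw [Finset.sum_congr rfl fun k _ => (pow_two (inner ℝ w (v k))), h]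
  exact Finset.sum_congr rfl fun a _ => by ring

variable [Fintype κ] [DecidableEq κ] {c : E}

omit [Fintype κ] in
/-- The product law with the mean `Vᵀ w`. -/
theorem Spec.nlaw (S : Spec v G b lam) (hv : ∀ k, ‖v k‖ = 1)
    (hG : G.card + 1 = Module.finrank ℝ E) (h : BadAt v G c) (w : E)
    (hw : ∀ k ∈ G, |inner ℝ w (v k)| ≤ 1) :
    0 < ‖c‖ ^ 2 + 2 * ∑ a, lam a * (inner ℝ w (b (some a)) * inner ℝ c (b (some a))) +
      ∑ a, (lam a ^ 2 - lam a) * inner ℝ w (b (some a)) ^ 2 := by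
  have h1 := h.pl hv hG hw
  rw [norm_add_sq_real, S.inner_img, S.norm_img, S.sq] at h1
  have e : ∑ a, (lam a ^ 2 - lam a) * inner ℝ w (b (some a)) ^ 2
      = ∑ a, lam a ^ 2 * inner ℝ w (b (some a)) ^ 2 - ∑ a, lam a * inner ℝ w (b (some a)) ^ 2 := by
    rw [← Finset.sum_sub_distrib]
    exact Finset.sum_congr rfl fun a _ => by ring
  rw [e]
  linarith

/-- The kernel law in coordinates. -/
theorem Spec.klaw (S : Spec v G b lam) (hv : ∀ k, ‖v k‖ = 1)
    (hG : G.card + 1 = Module.finrank ℝ E) (h : BadAt v G c) (s : ℝ) (q : Fin n → ℝ)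
    (hpos : 0 < s ^ 2 + ∑ a, lam a * q a ^ 2) :
    0 < (s ^ 2 + ∑ a, lam a * q a ^ 2) * ‖c‖ ^ 2 +
      4 * s * ∑ a, lam a * (q a * inner ℝ c (b (some a))) +
      2 * ∑ a, lam a ^ 2 * q a ^ 2 - 2 * ∑ a, lam a * q a ^ 2 := by
  set w : E := ∑ a, q a • b (some a) with hw
  have hwa : ∀ a, inner ℝ w (b (some a)) = q a := by
    intro a
    rw [hw, sum_inner, Finset.sum_eq_single a]
    · rw [inner_smul_left, real_inner_self_eq_norm_sq, b.orthonormal.1]; simp
    · intro c _ hc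
      rw [inner_smul_left, b.orthonormal.2 (fun h => hc (Option.some.inj h)), mul_zero]
    · exact fun h => absurd (Finset.mem_univ _) h
  have h2 := S.sq w
  have h3 := S.inner_img w c
  have h4 := S.norm_img w
  simp only [hwa] at h2 h3 h4
  have h1 := h.kl hv hG s (fun k => inner ℝ w (v k)) (by rw [h2]; exact hpos)
  rw [h2, h3, h4] at h1
  exact h1

/-- The kernel law implies lower bounds of the eigenvalues. -/
theorem Spec.lam_gt (S : Spec v G b lam) (hv : ∀ k, ‖v k‖ = 1)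
    (hG : G.card + 1 = Module.finrank ℝ E) (h : BadAt v G c) (a : Fin n) :
    0 < ‖c‖ ^ 2 / 2 + (lam a - 1) := by
  have hp := S.pos a
  have e : ∀ f : Fin n → ℝ, ∑ x, f x * (if x = a then (1 : ℝ) else 0) ^ 2 = f a := by
    intro f
    rw [Finset.sum_eq_single a]
    · simp
    · intro c _ hc; simp [hc]
    · exact fun h => absurd (Finset.mem_univ _) h
  have h1 := S.klaw hv hG h 0 (fun x => if x = a then 1 else 0) (by
    rw [e lam]; simpa using hp)
  rw [e lam, e (fun x => lam x ^ 2)] at h1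
  have h2 : 0 < lam a * (2 * (‖c‖ ^ 2 / 2 + (lam a - 1))) := by nlinarith
  have h3 := (mul_pos_iff_of_pos_left hp).mp h2
  linarith

omit [Fintype κ] [DecidableEq κ] in
private theorem qaux (L C D Z : ℝ) (hD : D ≠ 0) (hZ : Z = 2 * (D - L + 1)) :
    L * (-(C / D)) ^ 2 * Z + 4 * (L * (-(C / D) * C)) + 2 * (L ^ 2 * (-(C / D)) ^ 2) -
      2 * (L * (-(C / D)) ^ 2) = - 2 * (C ^ 2 * L / D) := by
  subst hZ
  field_simp
  ring

/-- The kernel law in its optimal form. -/
theorem Spec.qlaw (S : Spec v G b lam) (hv : ∀ k, ‖v k‖ = 1)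
    (hG : G.card + 1 = Module.finrank ℝ E) (h : BadAt v G c) :
    ∑ a, inner ℝ c (b (some a)) ^ 2 * lam a / (lam a - 1 + ‖c‖ ^ 2 / 2) < ‖c‖ ^ 2 / 2 := by
  have hpos : ∀ a, 0 < lam a - 1 + ‖c‖ ^ 2 / 2 := fun a => by
    have := S.lam_gt hv hG h a
    linarith
  have h1 := S.klaw hv hG h 1
    (fun a => - (inner ℝ c (b (some a)) / (lam a - 1 + ‖c‖ ^ 2 / 2))) (by
      have : 0 ≤ ∑ a, lam a * (- (inner ℝ c (b (some a)) / (lam a - 1 + ‖c‖ ^ 2 / 2))) ^ 2 :=
        Finset.sum_nonneg fun a _ => mul_nonneg (S.pos a).le (sq_nonneg _)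
      linarith)
  set Z := ‖c‖ ^ 2 with hZ
  have e : (1 ^ 2 + ∑ a, lam a * (- (inner ℝ c (b (some a)) / (lam a - 1 + Z / 2))) ^ 2) * Z +
      4 * 1 * ∑ a, lam a * (-(inner ℝ c (b (some a)) / (lam a - 1 + Z / 2)) *
        inner ℝ c (b (some a))) +
      2 * ∑ a, lam a ^ 2 * (- (inner ℝ c (b (some a)) / (lam a - 1 + Z / 2))) ^ 2 -
      2 * ∑ a, lam a * (- (inner ℝ c (b (some a)) / (lam a - 1 + Z / 2))) ^ 2
      = Z - 2 * ∑ a, inner ℝ c (b (some a)) ^ 2 * lam a / (lam a - 1 + Z / 2) := by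
    have key : ∀ a, lam a * (- (inner ℝ c (b (some a)) / (lam a - 1 + Z / 2))) ^ 2 * Z +
      4 * (lam a * (-(inner ℝ c (b (some a)) / (lam a - 1 + Z / 2)) *
        inner ℝ c (b (some a)))) +
      2 * (lam a ^ 2 * (- (inner ℝ c (b (some a)) / (lam a - 1 + Z / 2))) ^ 2) -
      2 * (lam a * (- (inner ℝ c (b (some a)) / (lam a - 1 + Z / 2))) ^ 2)
      = - 2 * (inner ℝ c (b (some a)) ^ 2 * lam a / (lam a - 1 + Z / 2)) := by
      intro a
      exact qaux _ _ _ _ (hpos a).ne' (by ring)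
    have hsum := Finset.sum_congr (rfl : (Finset.univ : Finset (Fin n)) = Finset.univ)
      fun a _ => key a
    rw [Finset.sum_sub_distrib, Finset.sum_add_distrib, Finset.sum_add_distrib,
      ← Finset.sum_mul, ← Finset.mul_sum, ← Finset.mul_sum, ← Finset.mul_sum,
      ← Finset.mul_sum] at hsum
    linarith
  rw [e] at h1
  linarith

omit [Fintype κ] [DecidableEq κ] in
/-- Every fractional signing of the labels is of the form `Vᵀ w`. -/
theorem Spec.repr (S : Spec v G b lam) (z : κ → ℝ) : ∃ w : E, ∀ k ∈ G, inner ℝ w (v k) = z k := by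
  set W : E := ∑ k ∈ G, z k • v k with hW
  set w : E := ∑ a, (inner ℝ W (b (some a)) / lam a) • b (some a) with hw
  have hwa : ∀ a, inner ℝ w (b (some a)) = inner ℝ W (b (some a)) / lam a := by
    intro a
    rw [hw, sum_inner, Finset.sum_eq_single a]
    · rw [inner_smul_left, real_inner_self_eq_norm_sq, b.orthonormal.1]; simp
    · intro c _ hc
      rw [inner_smul_left, b.orthonormal.2 (fun h => hc (Option.some.inj h)), mul_zero]
    · exact fun h => absurd (Finset.mem_univ _) h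
  have hWn : inner ℝ W (b none) = 0 := by
    rw [hW, sum_inner]
    refine Finset.sum_eq_zero fun k hk => ?_
    rw [inner_smul_left, real_inner_comm, S.normal hk, mul_zero]
  have hV : ∑ k ∈ G, inner ℝ w (v k) • v k = W := by
    rw [← sub_eq_zero]
    have h1 := norm_coord b (∑ k ∈ G, inner ℝ w (v k) • v k - W)
    simp only [inner_sub_left, S.img_none, S.img_some, hWn, hwa] at h1
    have h2 : ∑ x : Fin n, (lam x * (inner ℝ W (b (some x)) / lam x) -
        inner ℝ W (b (some x))) ^ 2 = 0 := Finset.sum_eq_zero fun a _ => by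
      rw [mul_div_cancel₀ _ (S.pos a).ne', sub_self, zero_pow two_ne_zero]
    rw [h2, sub_self, zero_pow two_ne_zero, zero_add] at h1
    exact norm_eq_zero.mp (pow_eq_zero_iff two_ne_zero |>.mp h1)
  refine ⟨w, fun k hk => ?_⟩
  have h2 := S.ind (fun k => inner ℝ w (v k) - z k) (by
    simp only [sub_smul, Finset.sum_sub_distrib]
    rw [hV, hW, sub_self]) k hk
  linarith

omit [Fintype κ] [DecidableEq κ] in
theorem Spec.low (S : Spec v G b lam) {lam0 : ℝ} (hl : ∀ a, lam0 ≤ lam a) (z : κ → ℝ) :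
    lam0 * ∑ k ∈ G, z k ^ 2 ≤ ‖∑ k ∈ G, z k • v k‖ ^ 2 := by
  obtain ⟨w, hw⟩ := S.repr z
  have e1 : ∑ k ∈ G, z k ^ 2 = ∑ k ∈ G, inner ℝ w (v k) ^ 2 :=
    Finset.sum_congr rfl fun k hk => by rw [hw k hk]
  have e2 : ∑ k ∈ G, z k • v k = ∑ k ∈ G, inner ℝ w (v k) • v k :=
    Finset.sum_congr rfl fun k hk => by rw [hw k hk]
  rw [e1, e2, S.sq, S.norm_img, Finset.mul_sum]
  refine Finset.sum_le_sum fun a _ => ?_
  have := mul_le_mul_of_nonneg_right (hl a)
    (mul_nonneg (S.pos a).le (sq_nonneg (inner ℝ w (b (some a)))))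
  nlinarith

omit [Fintype κ] [DecidableEq κ] in
theorem Spec.up (S : Spec v G b lam) {lam1 : ℝ} (hl : ∀ a, lam a ≤ lam1) (z : κ → ℝ) :
    ‖∑ k ∈ G, z k • v k‖ ^ 2 ≤ lam1 * ∑ k ∈ G, z k ^ 2 := by
  obtain ⟨w, hw⟩ := S.repr z
  have e1 : ∑ k ∈ G, z k ^ 2 = ∑ k ∈ G, inner ℝ w (v k) ^ 2 :=
    Finset.sum_congr rfl fun k hk => by rw [hw k hk]
  have e2 : ∑ k ∈ G, z k • v k = ∑ k ∈ G, inner ℝ w (v k) • v k :=
    Finset.sum_congr rfl fun k hk => by rw [hw k hk]
  rw [e1, e2, S.sq, S.norm_img, Finset.mul_sum]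
  refine Finset.sum_le_sum fun a _ => ?_
  have := mul_le_mul_of_nonneg_right (hl a)
    (mul_nonneg (S.pos a).le (sq_nonneg (inner ℝ w (b (some a)))))
  nlinarith

omit [Fintype κ] [DecidableEq κ] in
/-- The deficit law: the sum of the negative parts of `lam - 1`. -/
theorem Spec.tlaw [FiniteDimensional ℝ E] (S : Spec v G b lam) (hv : ∀ k, ‖v k‖ = 1)
    (h : BadAt v G c) {lam0 : ℝ} (hl : ∀ a, lam0 ≤ lam a) {x : κ → ℝ}
    (hx : ∀ i ∈ G, |x i| ≤ 1) :
    ∑ a, max (1 - lam a) 0 + lam0 * ∑ i ∈ G, x i ^ 2 < ‖c + ∑ i ∈ G, x i • v i‖ ^ 2 := by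
  classical
  -- the orthonormal family
  let J := Option {a : Fin n // lam a < 1}
  let j : J → Option (Fin n) := Option.map Subtype.val
  have hj : Function.Injective j := Option.map_injective Subtype.val_injective
  have hw : Orthonormal ℝ (fun o : J => b (j o)) := b.orthonormal.comp j hj
  have h1 := deficit_F G v (fun k _ => hv k) c hx h (lam := lam0) (S.low hl) hw
  rw [Fintype.sum_option] at h1
  have e1 : (1 : ℝ) - ∑ k ∈ G, inner ℝ (b (j none)) (v k) ^ 2 = 1 := by
    rw [Finset.sum_eq_zero (fun k hk => by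
      show inner ℝ (b none) (v k) ^ 2 = 0
      rw [S.normal hk]; norm_num)]
    ring
  have e2 : ∀ a : {a : Fin n // lam a < 1},
      (1 : ℝ) - ∑ k ∈ G, inner ℝ (b (j (some a))) (v k) ^ 2 = 1 - lam a := by
    intro a
    rw [show b (j (some a)) = b (some a.1) from rfl, S.sq, Finset.sum_eq_single a.1]
    · rw [real_inner_self_eq_norm_sq, b.orthonormal.1]; ring
    · intro c _ hc
      rw [b.orthonormal.2 (fun h => hc (Option.some.inj h).symm)]; ring
    · exact fun h => absurd (Finset.mem_univ _) h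
  rw [e1, Finset.sum_congr rfl fun a _ => e2 a] at h1
  have e3 : ∑ a, max (1 - lam a) 0 = ∑ a : {a : Fin n // lam a < 1}, (1 - lam a) := by
    rw [← Finset.sum_subtype (Finset.univ.filter fun a => lam a < 1) (fun a => by simp)
      (fun a => 1 - lam a), Finset.sum_filter]
    refine Finset.sum_congr rfl fun a _ => ?_
    split_ifs with ha
    · exact max_eq_left (by linarith)
    · exact max_eq_right (by linarith)
  rw [e3]
  linarith

end spec

end Pool.Agent.Lib.MP_1be6c9_co.Fc
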