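import Pool.Agent.Lib.MP_1be6c9_co.Gap

/-!
Centrally symmetric faces: states with an offset.

A point is a fractional signing `x : κ → ℝ` (`|x i| ≤ 1`) with `g + ∑ x i • v i = 0`; `fr x` is its
set of free labels.  Since all `g + ∑ ± v i` are long, every point has at least `d` free labels;
a vertex is a point with exactly `d` free labels.
-/

namespace Pool.Agent.Lib.MP_1be6c9_co.Fc

open Finset Pool.Agent.Lib.MP_1be6c9_co

/-- A point of the section of the cube with offset `g`. -/
def Pt {κ E : Type*} [Fintype κ] [NormedAddCommGroup E] [InnerProductSpace ℝ E]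
    (v : κ → E) (g : E) (x : κ → ℝ) : Prop :=
  (∀ i, |x i| ≤ 1) ∧ g + ∑ i, x i • v i = 0

/-- A vertex: a point with exactly `d` free coordinates. -/
def Vx {κ E : Type*} [Fintype κ] [NormedAddCommGroup E] [InnerProductSpace ℝ E]
    (v : κ → E) (g : E) (x : κ → ℝ) : Prop :=
  Pt v g x ∧ (fr x).card = Module.finrank ℝ E

/-- A centrally symmetric state: `d + m` unit vectors and an offset `g`, all
`‖g + ∑ ± v i‖² > d - 1`, such that there is a vertex, and for each vertex `x` there is a vertex
with the opposite signs on the tight labels of `x`. -/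
structure St {κ E : Type*} [Fintype κ] [NormedAddCommGroup E] [InnerProductSpace ℝ E]
    (v : κ → E) (g : E) (m : ℕ) : Prop where
  unit : ∀ i, ‖v i‖ = 1
  card : Fintype.card κ = Module.finrank ℝ E + m
  bad : ∀ η : κ → ℝ, (∀ i, η i = 1 ∨ η i = -1) →
    (Module.finrank ℝ E : ℝ) - 1 < ‖g + ∑ i, η i • v i‖ ^ 2
  ne : ∃ x, Vx v g x
  cs : ∀ x, Vx v g x → ∃ x', Vx v g x' ∧ ∀ i, i ∉ fr x → x' i = - x i

/-- A label is used if it is tight at some vertex. -/
def Used {κ E : Type*} [Fintype κ] [NormedAddCommGroup E] [InnerProductSpace ℝ E]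
    (v : κ → E) (g : E) (i : κ) : Prop := ∃ x, Vx v g x ∧ i ∉ fr x

/-- Every used label is far from all other labels. -/
def Far {κ E : Type*} [Fintype κ] [NormedAddCommGroup E] [InnerProductSpace ℝ E]
    (v : κ → E) (g : E) : Prop :=
  ∀ i j, Used v g i → j ≠ i → |inner ℝ (v i) (v j)| < 1 / 2

section

variable {κ E : Type*} [Fintype κ] [NormedAddCommGroup E] [InnerProductSpace ℝ E]
  {v : κ → E} {g : E} {m : ℕ}

/-- The opposite offset. -/
theorem St.bad_neg (h : St v g m) (η : κ → ℝ) (hη : ∀ i, η i = 1 ∨ η i = -1) :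
    (Module.finrank ℝ E : ℝ) - 1 < ‖-g + ∑ i, η i • v i‖ ^ 2 := by
  have h1 := h.bad (fun i => - η i) (fun i => by rcases hη i with h | h <;> simp [h])
  have e : g + ∑ i, (- η i) • v i = -(-g + ∑ i, η i • v i) := by
    simp only [neg_smul, Finset.sum_neg_distrib, neg_add, neg_neg]
  rw [e, norm_neg] at h1
  exact h1

end

end Pool.Agent.Lib.MP_1be6c9_co.Fc
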