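import Mathlib

/-!
At most six lines of `ℝ³` meet pairwise at angles larger than sixty degrees: seven unit vectors of a
three-dimensional Euclidean space cannot have pairwise inner products smaller than `1/2` in absolute
value (linear programming bound with `t⁴ - t²/4`).
-/

namespace Pool.Agent.Fc

open Finset

/-- The kernel `t⁴ - t²/4 - 7/60` in coordinates. -/
private noncomputable def ker (u w : EuclideanSpace ℝ (Fin 3)) : ℝ :=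
  (u 0 * w 0 + u 1 * w 1 + u 2 * w 2) ^ 4 - (u 0 * w 0 + u 1 * w 1 + u 2 * w 2) ^ 2 / 4 - 7 / 60

/-- The harmonic polynomials of degrees two and four. -/
private noncomputable def hp (k : Fin 14) (u : EuclideanSpace ℝ (Fin 3)) : ℝ :=
  match k with
  | 0 => 35 * u 2 ^ 4 - 30 * u 2 ^ 2 * (u 0 ^ 2 + u 1 ^ 2 + u 2 ^ 2) +
      3 * (u 0 ^ 2 + u 1 ^ 2 + u 2 ^ 2) ^ 2
  | 1 => u 0 * u 2 * (7 * u 2 ^ 2 - 3 * (u 0 ^ 2 + u 1 ^ 2 + u 2 ^ 2))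
  | 2 => u 1 * u 2 * (7 * u 2 ^ 2 - 3 * (u 0 ^ 2 + u 1 ^ 2 + u 2 ^ 2))
  | 3 => (u 0 ^ 2 - u 1 ^ 2) * (7 * u 2 ^ 2 - (u 0 ^ 2 + u 1 ^ 2 + u 2 ^ 2))
  | 4 => u 0 * u 1 * (7 * u 2 ^ 2 - (u 0 ^ 2 + u 1 ^ 2 + u 2 ^ 2))
  | 5 => u 0 * u 2 * (u 0 ^ 2 - 3 * u 1 ^ 2)
  | 6 => u 1 * u 2 * (3 * u 0 ^ 2 - u 1 ^ 2)
  | 7 => u 0 ^ 4 - 6 * u 0 ^ 2 * u 1 ^ 2 + u 1 ^ 4
  | 8 => u 0 * u 1 * (u 0 ^ 2 - u 1 ^ 2)
  | 9 => u 0 * u 1
  | 10 => u 0 * u 2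
  | 11 => u 1 * u 2
  | 12 => u 0 ^ 2 - u 1 ^ 2
  | 13 => 2 * u 2 ^ 2 - u 0 ^ 2 - u 1 ^ 2

private noncomputable def cf (k : Fin 14) : ℝ :=
  match k with
  | 0 => 8 / 35 * (1 / 64)
  | 1 => 8 / 35 * (5 / 8)
  | 2 => 8 / 35 * (5 / 8)
  | 3 => 8 / 35 * (5 / 16)
  | 4 => 8 / 35 * (5 / 4)
  | 5 => 8 / 35 * (35 / 8)
  | 6 => 8 / 35 * (35 / 8)
  | 7 => 8 / 35 * (35 / 64)
  | 8 => 8 / 35 * (35 / 4)
  | 9 => 17 / 28 * 2
  | 10 => 17 / 28 * 2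
  | 11 => 17 / 28 * 2
  | 12 => 17 / 28 * (1 / 2)
  | 13 => 17 / 28 * (1 / 6)

private theorem cf_nonneg (k : Fin 14) : 0 ≤ cf k := by
  fin_cases k <;> norm_num [cf]

private theorem ker_eq (u w : EuclideanSpace ℝ (Fin 3))
    (hu : u 0 ^ 2 + u 1 ^ 2 + u 2 ^ 2 = 1) (hw : w 0 ^ 2 + w 1 ^ 2 + w 2 ^ 2 = 1) :
    ker u w = ∑ k, cf k * (hp k u * hp k w) := by
  have key : ∀ x y z a b c : ℝ,
      8 / 35 * ((35 * (x * a + y * b + z * c) ^ 4 -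
        30 * (x * a + y * b + z * c) ^ 2 * ((x ^ 2 + y ^ 2 + z ^ 2) * (a ^ 2 + b ^ 2 + c ^ 2)) +
        3 * ((x ^ 2 + y ^ 2 + z ^ 2) * (a ^ 2 + b ^ 2 + c ^ 2)) ^ 2) / 8) =
      8 / 35 * (1 / 64) * ((35 * z ^ 4 - 30 * z ^ 2 * (x ^ 2 + y ^ 2 + z ^ 2) +
        3 * (x ^ 2 + y ^ 2 + z ^ 2) ^ 2) * (35 * c ^ 4 - 30 * c ^ 2 * (a ^ 2 + b ^ 2 + c ^ 2) +
        3 * (a ^ 2 + b ^ 2 + c ^ 2) ^ 2)) +
      8 / 35 * (5 / 8) * ((x * z * (7 * z ^ 2 - 3 * (x ^ 2 + y ^ 2 + z ^ 2))) *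
        (a * c * (7 * c ^ 2 - 3 * (a ^ 2 + b ^ 2 + c ^ 2)))) +
      8 / 35 * (5 / 8) * ((y * z * (7 * z ^ 2 - 3 * (x ^ 2 + y ^ 2 + z ^ 2))) *
        (b * c * (7 * c ^ 2 - 3 * (a ^ 2 + b ^ 2 + c ^ 2)))) +
      8 / 35 * (5 / 16) * (((x ^ 2 - y ^ 2) * (7 * z ^ 2 - (x ^ 2 + y ^ 2 + z ^ 2))) *
        ((a ^ 2 - b ^ 2) * (7 * c ^ 2 - (a ^ 2 + b ^ 2 + c ^ 2)))) +
      8 / 35 * (5 / 4) * ((x * y * (7 * z ^ 2 - (x ^ 2 + y ^ 2 + z ^ 2))) *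
        (a * b * (7 * c ^ 2 - (a ^ 2 + b ^ 2 + c ^ 2)))) +
      8 / 35 * (35 / 8) * ((x * z * (x ^ 2 - 3 * y ^ 2)) * (a * c * (a ^ 2 - 3 * b ^ 2))) +
      8 / 35 * (35 / 8) * ((y * z * (3 * x ^ 2 - y ^ 2)) * (b * c * (3 * a ^ 2 - b ^ 2))) +
      8 / 35 * (35 / 64) * ((x ^ 4 - 6 * x ^ 2 * y ^ 2 + y ^ 4) *
        (a ^ 4 - 6 * a ^ 2 * b ^ 2 + b ^ 4)) +
      8 / 35 * (35 / 4) * ((x * y * (x ^ 2 - y ^ 2)) * (a * b * (a ^ 2 - b ^ 2))) := by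
    intro x y z a b c
    ring
  have key2 : ∀ x y z a b c : ℝ,
      17 / 28 * ((x * a + y * b + z * c) ^ 2 -
        (x ^ 2 + y ^ 2 + z ^ 2) * (a ^ 2 + b ^ 2 + c ^ 2) / 3) =
      17 / 28 * 2 * ((x * y) * (a * b)) + 17 / 28 * 2 * ((x * z) * (a * c)) +
      17 / 28 * 2 * ((y * z) * (b * c)) + 17 / 28 * (1 / 2) * ((x ^ 2 - y ^ 2) * (a ^ 2 - b ^ 2)) +
      17 / 28 * (1 / 6) * ((2 * z ^ 2 - x ^ 2 - y ^ 2) * (2 * c ^ 2 - a ^ 2 - b ^ 2)) := by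
    intro x y z a b c
    ring
  have h1 := key (u 0) (u 1) (u 2) (w 0) (w 1) (w 2)
  have h2 := key2 (u 0) (u 1) (u 2) (w 0) (w 1) (w 2)
  have e : ker u w = 8 / 35 * ((35 * (u 0 * w 0 + u 1 * w 1 + u 2 * w 2) ^ 4 -
        30 * (u 0 * w 0 + u 1 * w 1 + u 2 * w 2) ^ 2 *
          ((u 0 ^ 2 + u 1 ^ 2 + u 2 ^ 2) * (w 0 ^ 2 + w 1 ^ 2 + w 2 ^ 2)) +
        3 * ((u 0 ^ 2 + u 1 ^ 2 + u 2 ^ 2) * (w 0 ^ 2 + w 1 ^ 2 + w 2 ^ 2)) ^ 2) / 8) +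
      17 / 28 * ((u 0 * w 0 + u 1 * w 1 + u 2 * w 2) ^ 2 -
        (u 0 ^ 2 + u 1 ^ 2 + u 2 ^ 2) * (w 0 ^ 2 + w 1 ^ 2 + w 2 ^ 2) / 3) := by
    rw [hu, hw, ker]
    ring
  rw [e, h1, h2]
  have hs : ∀ f : Fin 14 → ℝ, ∑ k, f k = f 0 + f 1 + f 2 + f 3 + f 4 + f 5 + f 6 + f 7 + f 8 + f 9 +
      f 10 + f 11 + f 12 + f 13 := by
    intro f
    simp only [Fin.sum_univ_succ, Fin.sum_univ_zero]
    have : (Fin.succ (Fin.succ (Fin.succ (Fin.succ (Fin.succ (Fin.succ (Fin.succ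
      (Fin.succ (Fin.succ (Fin.succ (Fin.succ (Fin.succ (Fin.succ (0 : Fin 1)))))))))))))) =
      (13 : Fin 14) := rfl
    simp only [add_zero]
    change f 0 + (f 1 + (f 2 + (f 3 + (f 4 + (f 5 + (f 6 + (f 7 + (f 8 + (f 9 + (f 10 + (f 11 +
      (f 12 + f 13)))))))))))) = _
    ring
  rw [hs]
  change _ = 8 / 35 * (1 / 64) * ((35 * u 2 ^ 4 - 30 * u 2 ^ 2 * (u 0 ^ 2 + u 1 ^ 2 + u 2 ^ 2) +
        3 * (u 0 ^ 2 + u 1 ^ 2 + u 2 ^ 2) ^ 2) *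
        (35 * w 2 ^ 4 - 30 * w 2 ^ 2 * (w 0 ^ 2 + w 1 ^ 2 + w 2 ^ 2) +
        3 * (w 0 ^ 2 + w 1 ^ 2 + w 2 ^ 2) ^ 2)) +
      8 / 35 * (5 / 8) * ((u 0 * u 2 * (7 * u 2 ^ 2 - 3 * (u 0 ^ 2 + u 1 ^ 2 + u 2 ^ 2))) *
        (w 0 * w 2 * (7 * w 2 ^ 2 - 3 * (w 0 ^ 2 + w 1 ^ 2 + w 2 ^ 2)))) +
      8 / 35 * (5 / 8) * ((u 1 * u 2 * (7 * u 2 ^ 2 - 3 * (u 0 ^ 2 + u 1 ^ 2 + u 2 ^ 2))) *
        (w 1 * w 2 * (7 * w 2 ^ 2 - 3 * (w 0 ^ 2 + w 1 ^ 2 + w 2 ^ 2)))) +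
      8 / 35 * (5 / 16) * (((u 0 ^ 2 - u 1 ^ 2) * (7 * u 2 ^ 2 - (u 0 ^ 2 + u 1 ^ 2 + u 2 ^ 2))) *
        ((w 0 ^ 2 - w 1 ^ 2) * (7 * w 2 ^ 2 - (w 0 ^ 2 + w 1 ^ 2 + w 2 ^ 2)))) +
      8 / 35 * (5 / 4) * ((u 0 * u 1 * (7 * u 2 ^ 2 - (u 0 ^ 2 + u 1 ^ 2 + u 2 ^ 2))) *
        (w 0 * w 1 * (7 * w 2 ^ 2 - (w 0 ^ 2 + w 1 ^ 2 + w 2 ^ 2)))) +
      8 / 35 * (35 / 8) * ((u 0 * u 2 * (u 0 ^ 2 - 3 * u 1 ^ 2)) *
        (w 0 * w 2 * (w 0 ^ 2 - 3 * w 1 ^ 2))) +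
      8 / 35 * (35 / 8) * ((u 1 * u 2 * (3 * u 0 ^ 2 - u 1 ^ 2)) *
        (w 1 * w 2 * (3 * w 0 ^ 2 - w 1 ^ 2))) +
      8 / 35 * (35 / 64) * ((u 0 ^ 4 - 6 * u 0 ^ 2 * u 1 ^ 2 + u 1 ^ 4) *
        (w 0 ^ 4 - 6 * w 0 ^ 2 * w 1 ^ 2 + w 1 ^ 4)) +
      8 / 35 * (35 / 4) * ((u 0 * u 1 * (u 0 ^ 2 - u 1 ^ 2)) *
        (w 0 * w 1 * (w 0 ^ 2 - w 1 ^ 2))) +
      17 / 28 * 2 * ((u 0 * u 1) * (w 0 * w 1)) + 17 / 28 * 2 * ((u 0 * u 2) * (w 0 * w 2)) +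
      17 / 28 * 2 * ((u 1 * u 2) * (w 1 * w 2)) +
      17 / 28 * (1 / 2) * ((u 0 ^ 2 - u 1 ^ 2) * (w 0 ^ 2 - w 1 ^ 2)) +
      17 / 28 * (1 / 6) * ((2 * u 2 ^ 2 - u 0 ^ 2 - u 1 ^ 2) *
        (2 * w 2 ^ 2 - w 0 ^ 2 - w 1 ^ 2))
  abel

private theorem sum_ker_nonneg {N : ℕ} (v : Fin N → EuclideanSpace ℝ (Fin 3))
    (hv : ∀ i, v i 0 ^ 2 + v i 1 ^ 2 + v i 2 ^ 2 = 1) : 0 ≤ ∑ i, ∑ j, ker (v i) (v j) := by
  have e : ∑ i, ∑ j, ker (v i) (v j) = ∑ k, cf k * (∑ i, hp k (v i)) ^ 2 := by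
    calc ∑ i, ∑ j, ker (v i) (v j)
        = ∑ i, ∑ j, ∑ k, cf k * (hp k (v i) * hp k (v j)) := by
          refine Finset.sum_congr rfl fun i _ => Finset.sum_congr rfl fun j _ => ?_
          exact ker_eq _ _ (hv i) (hv j)
      _ = ∑ k, ∑ i, ∑ j, cf k * (hp k (v i) * hp k (v j)) := by
          have h1 : ∀ i, ∑ j, ∑ k, cf k * (hp k (v i) * hp k (v j)) =
              ∑ k, ∑ j, cf k * (hp k (v i) * hp k (v j)) := fun i => Finset.sum_comm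
          rw [Finset.sum_congr rfl fun i _ => h1 i]
          exact Finset.sum_comm
      _ = ∑ k, cf k * (∑ i, hp k (v i)) ^ 2 := by
          refine Finset.sum_congr rfl fun k _ => ?_
          rw [sq, Finset.sum_mul_sum, Finset.mul_sum]
          refine Finset.sum_congr rfl fun i _ => ?_
          rw [Finset.mul_sum]
  rw [e]
  exact Finset.sum_nonneg fun k _ => mul_nonneg (cf_nonneg k) (sq_nonneg _)

/-- Seven unit vectors of `ℝ³` cannot have pairwise inner products smaller than `1/2`. -/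
theorem far6 (v : Fin 7 → EuclideanSpace ℝ (Fin 3)) (hv : ∀ i, ‖v i‖ = 1)
    (h : ∀ i j, i ≠ j → |inner ℝ (v i) (v j)| < 1 / 2) : False := by
  have hin : ∀ a b : EuclideanSpace ℝ (Fin 3),
      inner ℝ a b = a 0 * b 0 + a 1 * b 1 + a 2 * b 2 := by
    intro a b
    rw [PiLp.inner_apply, Fin.sum_univ_three]
    simp only [RCLike.inner_apply, conj_trivial]
    ring
  have hv' : ∀ i, v i 0 ^ 2 + v i 1 ^ 2 + v i 2 ^ 2 = 1 := by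
    intro i
    have h1 := real_inner_self_eq_norm_sq (v i)
    rw [hv i, hin] at h1
    linarith
  have h0 := sum_ker_nonneg v hv'
  have hk : ∀ i j, ker (v i) (v j) ≤ if i = j then 19 / 30 else - (7 / 60) := by
    intro i j
    by_cases hij : i = j
    · subst hij
      rw [if_pos rfl, ker]
      have := hv' i
      have e : v i 0 * v i 0 + v i 1 * v i 1 + v i 2 * v i 2 = 1 := by linarith
      rw [e]
      norm_num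
    · rw [if_neg hij, ker, ← hin]
      have h1 := abs_lt.1 (h i j hij)
      have h2 : (inner ℝ (v i) (v j)) ^ 2 ≤ 1 / 4 := by nlinarith [h1.1, h1.2]
      nlinarith [sq_nonneg (inner ℝ (v i) (v j)),
        mul_nonneg (sq_nonneg (inner ℝ (v i) (v j))) (sub_nonneg.2 h2)]
  have h3 : ∑ i : Fin 7, ∑ j : Fin 7, ker (v i) (v j) ≤
      ∑ i : Fin 7, ∑ j : Fin 7, (if i = j then (19 / 30 : ℝ) else - (7 / 60)) :=
    Finset.sum_le_sum fun i _ => Finset.sum_le_sum fun j _ => hk i j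
  have h4 : ∑ i : Fin 7, ∑ j : Fin 7, (if i = j then (19 / 30 : ℝ) else - (7 / 60)) < 0 := by
    have : ∀ i : Fin 7, ∑ j : Fin 7, (if i = j then (19 / 30 : ℝ) else - (7 / 60)) =
        19 / 30 - 7 / 10 := by
      intro i
      rw [Finset.sum_ite]
      simp only [Finset.sum_const, Finset.filter_eq, Finset.mem_univ, if_true,
        Finset.card_singleton, Finset.filter_ne, Finset.card_erase_of_mem, Finset.card_univ,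
        Fintype.card_fin]
      norm_num
    rw [Finset.sum_congr rfl fun i _ => this i]
    simp only [Finset.sum_const, Finset.card_univ, Fintype.card_fin]
    norm_num
  linarith

/-- Seven unit vectors of a three-dimensional Euclidean space cannot have pairwise inner products
smaller than `1/2`. -/
theorem far6' {E : Type*} [NormedAddCommGroup E] [InnerProductSpace ℝ E]
    (hE : Module.finrank ℝ E = 3) (v : Fin 7 → E) (hv : ∀ i, ‖v i‖ = 1)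
    (h : ∀ i j, i ≠ j → |inner ℝ (v i) (v j)| < 1 / 2) : False := by
  have : FiniteDimensional ℝ E := Module.finite_of_finrank_pos (by rw [hE]; norm_num)
  let e : E ≃ₗᵢ[ℝ] EuclideanSpace ℝ (Fin 3) :=
    ((stdOrthonormalBasis ℝ E).reindex (finCongr hE)).repr
  refine far6 (fun i => e (v i)) (fun i => ?_) fun i j hij => ?_
  · rw [LinearIsometryEquiv.norm_map, hv]
  · rw [LinearIsometryEquiv.inner_map_map]
    exact h i j hij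

/-- A finite family of unit vectors of a three-dimensional Euclidean space with pairwise inner
products smaller than `1/2` in absolute value has at most six members. -/
theorem far6_card {E κ : Type*} [NormedAddCommGroup E] [InnerProductSpace ℝ E]
    (hE : Module.finrank ℝ E = 3) (v : κ → E) (s : Finset κ) (hv : ∀ i ∈ s, ‖v i‖ = 1)
    (h : ∀ i ∈ s, ∀ j ∈ s, i ≠ j → |inner ℝ (v i) (v j)| < 1 / 2) : s.card ≤ 6 := by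
  by_contra hc
  push Not at hc
  obtain ⟨t, hts, ht⟩ := Finset.exists_subset_card_eq hc
  let f : Fin 7 ≃ t := (t.equivFinOfCardEq ht).symm
  refine far6' hE (fun i => v (f i)) (fun i => hv _ (hts (f i).2)) fun i j hij => ?_
  refine h _ (hts (f i).2) _ (hts (f j).2) fun he => hij ?_
  exact f.injective (Subtype.ext he)

end Pool.Agent.Fc
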