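import Pool.Agent.Lib.MP_1be6c9_co.Fc.St3Geo

/-!
States of dimension three: connectedness of the graph of the polytope (simplex method).
-/

namespace Pool.Agent.Lib.MP_1be6c9_co.Fc

open Finset Pool.Agent.Lib.MP_1be6c9_co
open Pool.Agent.Lib.MP_1be6c9_co.M3 (SL ng sg co uv ng_fst ng_ng ng_ne ng_inj eq_or_ng sg_mul_self
  sg_eq sg_not co_ng co_neg abs_co sg_mul_co uv_ng norm_uv co_smul_uv abs_eq_one_of_co co_le_one
  co_lin)

variable {κ E : Type*} [Fintype κ] [DecidableEq κ] [NormedAddCommGroup E] [InnerProductSpace ℝ E]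
  [FiniteDimensional ℝ E] {v : κ → E} {g : E}

omit [Fintype κ] [DecidableEq κ] in
private theorem conn_co_add (x z : κ → ℝ) (t : ℝ) (a : SL κ) :
    co (fun i => x i + t * z i) a = co x a + t * co z a := by
  simp only [co]; ring

omit [Fintype κ] [DecidableEq κ] in
private theorem conn_val {x : κ → ℝ} {a : SL κ} (h : co x a = 0) : x a.1 = 0 := by
  rw [← sg_mul_co x a, h, mul_zero]

omit [Fintype κ] [DecidableEq κ] in
private theorem conn_le {x : κ → ℝ} (hx : ∀ i, |x i| ≤ 1) (a : SL κ) : co x a ≤ 1 := by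
  have h := le_abs_self (co x a)
  rw [abs_co] at h
  exact h.trans (hx _)

omit [Fintype κ] [DecidableEq κ] in
private theorem conn_zero {z : κ → ℝ} {a : SL κ} (h : z a.1 = 0) : co z a = 0 := by
  simp [co, h]

/-- The simplex identity at a vertex. -/
private theorem conn_decomp (h : St v g 3) {x y za zb zc : κ → ℝ} {a b c : SL κ}
    (hx : IsW v g x a b c) (hy : g + ∑ i, y i • v i = 0)
    (ha0 : ∑ i, za i • v i = 0) (hab : za b.1 = 0) (hac : za c.1 = 0) (haa : co za a = -1)
    (hb0 : ∑ i, zb i • v i = 0) (hba : zb a.1 = 0) (hbc : zb c.1 = 0) (hbb : co zb b = -1)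
    (hc0 : ∑ i, zc i • v i = 0) (hca : zc a.1 = 0) (hcb : zc b.1 = 0) (hcc : co zc c = -1)
    (e : SL κ) :
    co y e = co x e + (1 - co y a) * co za e + (1 - co y b) * co zb e
      + (1 - co y c) * co zc e := by
  set w : κ → ℝ := fun i => y i - x i - (1 - co y a) * za i - (1 - co y b) * zb i
      - (1 - co y c) * zc i with hw
  have hco : ∀ e : SL κ, co w e = co y e - co x e - (1 - co y a) * co za e
      - (1 - co y b) * co zb e - (1 - co y c) * co zc e := by
    intro e
    simp only [hw, co]; ring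
  have h0 : ∑ i, w i • v i = 0 := by
    have : ∀ i, w i • v i = y i • v i - x i • v i - (1 - co y a) • (za i • v i)
        - (1 - co y b) • (zb i • v i) - (1 - co y c) • (zc i • v i) := by
      intro i
      simp only [hw, sub_smul, mul_smul]
    have e1 : ∑ i, y i • v i = ∑ i, x i • v i := add_left_cancel (hy.trans hx.2.1.symm)
    simp only [this, Finset.sum_sub_distrib, ← Finset.smul_sum, e1, ha0, hb0, hc0,
      smul_zero, sub_self]
  obtain ⟨-, -, -, -, -, h6, h7, h8⟩ := id hx
  have hwa : co w a = 0 := by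
    rw [hco, h6, haa, conn_zero hba, conn_zero hca]; ring
  have hwb : co w b = 0 := by
    rw [hco, h7, hbb, conn_zero hab, conn_zero hcb]; ring
  have hwc : co w c = 0 := by
    rw [hco, h8, hcc, conn_zero hac, conn_zero hbc]; ring
  have hw0 : w = 0 := isW_inj h hx w h0
    (conn_val hwa) (conn_val hwb) (conn_val hwc)
  have := hco e
  rw [hw0] at this
  have h9 : co (0 : κ → ℝ) e = 0 := by simp [co]
  rw [h9] at this
  linarith

/-- A tight signed label of a vertex is one of the three. -/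
private theorem conn_mem (h : St v g 3) {x : κ → ℝ} {a b c e : SL κ} (hx : IsW v g x a b c)
    (he : co x e = 1) : e = a ∨ e = b ∨ e = c := by
  by_contra hcon
  push Not at hcon
  obtain ⟨h1, h2, h3⟩ := hcon
  obtain ⟨-, -, -, -, -, h6, h7, h8⟩ := id hx
  have key : ∀ {g : SL κ}, co x g = 1 → e ≠ g → e.1 ≠ g.1 := by
    intro g hg hne heq
    rcases eq_or_ng heq with h | h
    · exact hne h
    · rw [h, co_ng, hg] at he
      norm_num at he
  have hf := isW_free h hx e.1 (key h6 h1) (key h7 h2) (key h8 h3)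
  rw [← abs_co x e, he] at hf
  simp at hf

/-- A set of (ordered) signed triples closed under pivots contains every vertex.
Proof: fix the target vertex `y` (labels `a' b' c'`), `f x = co x a' + co x b' + co x c'`;
take in `S` a vertex `x` with `f x` maximal (finitely many triples); with the directions
`z_a, z_b, z_c` at `x` (`exists_dirW`) one has
`y = x + (1 - co y a) z_a + (1 - co y b) z_b + (1 - co y c) z_c` (`isW_inj`), so if `f x < 3 = f y`
then some `f z > 0` and `ray` gives a vertex of `S` with larger `f`. So `f x = 3`, `x = y`. -/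
theorem connW (h : St v g 3) (S : SL κ → SL κ → SL κ → Prop)
    (s12 : ∀ a b c, S a b c → S b a c) (s23 : ∀ a b c, S a b c → S a c b)
    (hcl : ∀ a b c c', S a b c → TriW v g a b c → TriW v g a b c' → S a b c')
    {a b c : SL κ} (h0 : TriW v g a b c) (hS : S a b c) {a' b' c' : SL κ} (h1 : TriW v g a' b' c') :
    S a' b' c' := by
  classical
  obtain ⟨y, hy⟩ := h1
  set f : (κ → ℝ) → ℝ := fun x => co x a' + co x b' + co x c' with hf
  have hfadd : ∀ (x z : κ → ℝ) (t : ℝ), f (fun i => x i + t * z i) = f x + t * f z := by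
    intro x z t
    simp only [hf, conn_co_add]; ring
  set gg : (SL κ × SL κ × SL κ) → ℝ := fun t =>
    if ht : TriW v g t.1 t.2.1 t.2.2 then f (Classical.choose ht) else 0 with hgd
  have hgval : ∀ (p q r : SL κ) (x : κ → ℝ), IsW v g x p q r → gg (p, q, r) = f x := by
    intro p q r x hx
    have ht : TriW v g p q r := ⟨x, hx⟩
    simp only [hgd]
    rw [dif_pos ht, isW_unique h (Classical.choose_spec ht) hx]
  have hne : ((Finset.univ : Finset (SL κ × SL κ × SL κ)).filter
      (fun t => TriW v g t.1 t.2.1 t.2.2 ∧ S t.1 t.2.1 t.2.2)).Nonempty :=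
    ⟨(a, b, c), by simp [h0, hS]⟩
  obtain ⟨⟨p, q, r⟩, hm, hmax⟩ := Finset.exists_max_image _ gg hne
  simp only [Finset.mem_filter, Finset.mem_univ, true_and] at hm hmax
  obtain ⟨⟨x, hx⟩, hSx⟩ := hm
  have hxm : ∀ (p' q' r' : SL κ) (x' : κ → ℝ), IsW v g x' p' q' r' → S p' q' r' → f x' ≤ f x := by
    intro p' q' r' x' hx' hS'
    have := hmax (p', q', r') ⟨⟨x', hx'⟩, hS'⟩
    rwa [hgval _ _ _ _ hx', hgval _ _ _ _ hx] at this
  -- directions
  obtain ⟨zc, hc0, hca, hcb, hcc⟩ := exists_dirW h hx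
  obtain ⟨zb, hb0, hba, hbc, hbb⟩ := exists_dirW h hx.sym23
  obtain ⟨za, ha0, hab, hac, haa⟩ := exists_dirW h hx.sym12.sym23
  have hzc : f zc ≤ 0 := by
    by_contra hcon
    push Not at hcon
    obtain ⟨t, ht, c1, -, hV⟩ := rayW h hx zc hc0 hca hcb hcc
    have h2 := hxm _ _ _ _ hV (hcl _ _ _ _ hSx ⟨x, hx⟩ ⟨_, hV⟩)
    rw [hfadd] at h2
    have := mul_pos ht hcon
    linarith
  have hzb : f zb ≤ 0 := by
    by_contra hcon
    push Not at hcon
    obtain ⟨t, ht, c1, -, hV⟩ := rayW h hx.sym23 zb hb0 hba hbc hbb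
    have h2 := hxm _ _ _ _ hV (hcl _ _ _ _ (s23 _ _ _ hSx) ⟨x, hx.sym23⟩ ⟨_, hV⟩)
    rw [hfadd] at h2
    have := mul_pos ht hcon
    linarith
  have hza : f za ≤ 0 := by
    by_contra hcon
    push Not at hcon
    obtain ⟨t, ht, c1, -, hV⟩ := rayW h hx.sym12.sym23 za ha0 hab hac haa
    have h2 := hxm _ _ _ _ hV
      (hcl _ _ _ _ (s23 _ _ _ (s12 _ _ _ hSx)) ⟨x, hx.sym12.sym23⟩ ⟨_, hV⟩)
    rw [hfadd] at h2
    have := mul_pos ht hcon
    linarith
  have hdec := conn_decomp h hx hy.2.1 ha0 hab hac haa hb0 hba hbc hbb hc0 hca hcb hcc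
  have hfy : f y = 3 := by
    obtain ⟨-, -, -, -, -, h6, h7, h8⟩ := hy
    simp only [hf, h6, h7, h8]; norm_num
  have hfdec : f y = f x + (1 - co y p) * f za + (1 - co y q) * f zb + (1 - co y r) * f zc := by
    simp only [hf]
    rw [hdec a', hdec b', hdec c']
    ring
  have e1 : 0 ≤ 1 - co y p := by linarith [conn_le hy.1 p]
  have e2 : 0 ≤ 1 - co y q := by linarith [conn_le hy.1 q]
  have e3 : 0 ≤ 1 - co y r := by linarith [conn_le hy.1 r]
  have hfx : 3 ≤ f x := by
    have := mul_nonneg e1 (neg_nonneg.mpr hza)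
    have := mul_nonneg e2 (neg_nonneg.mpr hzb)
    have := mul_nonneg e3 (neg_nonneg.mpr hzc)
    nlinarith
  have k1 := conn_le hx.1 a'
  have k2 := conn_le hx.1 b'
  have k3 := conn_le hx.1 c'
  simp only [hf] at hfx
  have t1 : co x a' = 1 := by linarith
  have t2 : co x b' = 1 := by linarith
  have t3 : co x c' = 1 := by linarith
  have m1 := conn_mem h hx t1
  have m2 := conn_mem h hx t2
  have m3 := conn_mem h hx t3
  obtain ⟨-, -, n1, n2, n3, -, -, -⟩ := hy
  rcases m1 with rfl | rfl | rfl <;> rcases m2 with rfl | rfl | rfl <;>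
    rcases m3 with rfl | rfl | rfl <;>
    first
      | exact absurd rfl n1
      | exact absurd rfl n2
      | exact absurd rfl n3
      | exact hSx
      | exact s12 _ _ _ hSx
      | exact s23 _ _ _ hSx
      | exact s23 _ _ _ (s12 _ _ _ hSx)
      | exact s12 _ _ _ (s23 _ _ _ hSx)
      | exact s12 _ _ _ (s23 _ _ _ (s12 _ _ _ hSx))

end Pool.Agent.Lib.MP_1be6c9_co.Fc
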