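import Pool.Agent.Lib.MP_1be6c9_co.Fc.St3Corner

/-!
States of dimension three: four vertices cannot have private labels.
-/

namespace Pool.Agent.Lib.MP_1be6c9_co.Fc

open Finset Pool.Agent.Lib.MP_1be6c9_co
open Pool.Agent.Lib.MP_1be6c9_co.M3 (SL ng sg co uv ng_fst ng_ng ng_ne ng_inj eq_or_ng sg_mul_self
  sg_eq sg_not co_ng co_neg abs_co sg_mul_co uv_ng norm_uv co_smul_uv abs_eq_one_of_co co_le_one
  co_lin)

variable {κ E : Type*} [Fintype κ] [DecidableEq κ] [NormedAddCommGroup E] [InnerProductSpace ℝ E]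
  [FiniteDimensional ℝ E] {v : κ → E} {g : E}

/-- Private labels: four vertices cannot have private labels. -/
theorem private4W (h : St v g 3) (A B C : Fin 4 → SL κ) (hT : ∀ i, TriW v g (A i) (B i) (C i))
    (hp : ∀ i j, i ≠ j → (A i).1 ≠ (A j).1 ∧ (A i).1 ≠ (B j).1 ∧ (A i).1 ≠ (C j).1) : False := by
  classical
  choose x₁ hx₁ using hT
  have hneg : ∀ j, ∃ x', IsW v g x' (ng (A j)) (ng (B j)) (ng (C j)) := fun j => isW_neg h (hx₁ j)
  choose x₂ hx₂ using hneg
  obtain ⟨x, hxd⟩ : ∃ x : Fin 4 → κ → ℝ, x = fun j i => (x₁ j i - x₂ j i) / 2 := ⟨_, rfl⟩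
  have hxd' : ∀ j i, x j i = (x₁ j i - x₂ j i) / 2 := fun j i => by rw [hxd]
  have hxs : ∀ j, ∑ i, x j i • v i = 0 := by
    intro j
    have e1 : ∑ i, x₁ j i • v i = ∑ i, x₂ j i • v i :=
      add_left_cancel ((hx₁ j).2.1.trans (hx₂ j).2.1.symm)
    have e2 : ∀ i, x j i • v i = (1 / 2 : ℝ) • (x₁ j i • v i - x₂ j i • v i) := by
      intro i
      rw [hxd', ← sub_smul, smul_smul]
      congr 1
      ring
    simp only [e2, ← Finset.smul_sum, Finset.sum_sub_distrib, e1, sub_self, smul_zero]
  have habs : ∀ j i, |x j i| ≤ (|x₁ j i| + |x₂ j i|) / 2 := by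
    intro j i
    rw [hxd', abs_div, abs_two]
    have := abs_sub (x₁ j i) (x₂ j i)
    linarith
  have key : ∀ j p q r : Fin 4, p ≠ j → q ≠ j → r ≠ j → p ≠ q → p ≠ r → q ≠ r →
      |x j (A p).1| + |x j (A q).1| + |x j (A r).1| < 1 := by
    intro j p q r hpj hqj hrj hpq hpr hqr
    have h1 := cornerW h (hx₁ j) (A p).1 (A q).1 (A r).1 (hp p q hpq).1 (hp p r hpr).1
      (hp q r hqr).1 (hp p j hpj) (hp q j hqj) (hp r j hrj)
    have h2 := cornerW h (hx₂ j) (A p).1 (A q).1 (A r).1 (hp p q hpq).1 (hp p r hpr).1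
      (hp q r hqr).1 (hp p j hpj) (hp q j hqj) (hp r j hrj)
    have h3 := habs j (A p).1
    have h4 := habs j (A q).1
    have h5 := habs j (A r).1
    linarith
  have htight : ∀ j (e : SL κ), co (x₁ j) e = 1 → co (x₂ j) (ng e) = 1 → co (x j) e = 1 := by
    intro j e h1 h2
    rw [co_ng] at h2
    have h3 : co (x j) e = (co (x₁ j) e - co (x₂ j) e) / 2 := by
      simp only [co, hxd']
      ring
    rw [h3, h1]
    linarith
  have hdiag : ∀ j, |x j (A j).1| = 1 := by
    intro j
    rw [← abs_co, htight j _ (hx₁ j).2.2.2.2.2.1 (hx₂ j).2.2.2.2.2.1, abs_one]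
  let M : Matrix (Fin 4) (Fin 4) ℝ := fun j i => x j (A i).1
  have hdet : M.det ≠ 0 := by
    apply det_ne_zero_of_sum_row_lt_diag
    intro j
    have h1 : ‖M j j‖ = 1 := hdiag j
    rw [h1]
    have h2 : ∀ i, ‖M j i‖ = |x j (A i).1| := fun i => rfl
    simp only [h2]
    fin_cases j
    · have e : (Finset.univ.erase (0 : Fin 4)) = {1, 2, 3} := by decide
      have := key 0 1 2 3 (by decide) (by decide) (by decide) (by decide) (by decide) (by decide)
      show ∑ i ∈ Finset.univ.erase (0 : Fin 4), |x 0 (A i).1| < 1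
      rw [e, Finset.sum_insert (by decide), Finset.sum_insert (by decide), Finset.sum_singleton]
      linarith
    · have e : (Finset.univ.erase (1 : Fin 4)) = {0, 2, 3} := by decide
      have := key 1 0 2 3 (by decide) (by decide) (by decide) (by decide) (by decide) (by decide)
      show ∑ i ∈ Finset.univ.erase (1 : Fin 4), |x 1 (A i).1| < 1
      rw [e, Finset.sum_insert (by decide), Finset.sum_insert (by decide), Finset.sum_singleton]
      linarith
    · have e : (Finset.univ.erase (2 : Fin 4)) = {0, 1, 3} := by decide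
      have := key 2 0 1 3 (by decide) (by decide) (by decide) (by decide) (by decide) (by decide)
      show ∑ i ∈ Finset.univ.erase (2 : Fin 4), |x 2 (A i).1| < 1
      rw [e, Finset.sum_insert (by decide), Finset.sum_insert (by decide), Finset.sum_singleton]
      linarith
    · have e : (Finset.univ.erase (3 : Fin 4)) = {0, 1, 2} := by decide
      have := key 3 0 1 2 (by decide) (by decide) (by decide) (by decide) (by decide) (by decide)
      show ∑ i ∈ Finset.univ.erase (3 : Fin 4), |x 3 (A i).1| < 1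
      rw [e, Finset.sum_insert (by decide), Finset.sum_insert (by decide), Finset.sum_singleton]
      linarith
  -- a nontrivial combination vanishing at the three tight labels of the first vertex
  let N : Matrix (Fin 4) (Fin 4) ℝ :=
    fun j l => if l = 0 then x j (A 0).1 else if l = 1 then x j (B 0).1 else
      if l = 2 then x j (C 0).1 else 0
  have hN : N.det = 0 := Matrix.det_eq_zero_of_column_eq_zero 3 (fun i => by simp [N])
  obtain ⟨t, ht0, ht⟩ := Matrix.exists_vecMul_eq_zero_iff.mpr hN
  have hcol : ∀ l, ∑ j, t j * N j l = 0 := fun l => congrFun ht l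
  have hz : (fun i => ∑ j, t j * x j i) = (0 : κ → ℝ) := by
    apply isW_inj h (hx₁ 0)
    · have : ∀ i, (∑ j, t j * x j i) • v i = ∑ j, t j • (x j i • v i) := by
        intro i
        rw [Finset.sum_smul]
        exact Finset.sum_congr rfl fun j _ => by rw [smul_smul]
      simp only [this]
      rw [Finset.sum_comm]
      apply Finset.sum_eq_zero
      intro j _
      rw [← Finset.smul_sum, hxs j, smul_zero]
    · simpa [N] using hcol 0
    · simpa [N] using hcol 1
    · simpa [N] using hcol 2
  apply ht0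
  apply Matrix.eq_zero_of_vecMul_eq_zero hdet
  funext i
  exact congrFun hz (A i).1

end Pool.Agent.Lib.MP_1be6c9_co.Fc
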