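import Pool.Agent.Lib.MP_1be6c9_co.Fc.St3Li
import Pool.Agent.Lib.MP_1be6c9_co.Fc.St3Conn
import Pool.Agent.Lib.MP_1be6c9_co.Fc.St3Priv
import Pool.Agent.Lib.MP_1be6c9_co.M3.Comb

/-!
There is no centrally symmetric state of dimension three.
-/

namespace Pool.Agent.Lib.MP_1be6c9_co.Fc

open Finset Pool.Agent.Lib.MP_1be6c9_co
open Pool.Agent.Lib.MP_1be6c9_co.M3 (SL ng sg co uv ng_fst ng_ng ng_ne ng_inj eq_or_ng sg_mul_self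
  sg_eq sg_not co_ng co_neg abs_co sg_mul_co uv_ng norm_uv co_smul_uv abs_eq_one_of_co co_le_one
  co_lin)

open Pool.Agent.Lib.MP_1be6c9_co.M3 (TS Ico exists_ico)

section

variable {κ E : Type*} [Fintype κ] [DecidableEq κ] [NormedAddCommGroup E] [InnerProductSpace ℝ E]
  [FiniteDimensional ℝ E] {v : κ → E} {g : E}

theorem st_ts (h : St v g 3) : TS (TriW v g) where
  sym12 := TriW.sym12
  sym23 := TriW.sym23
  neg := TriW.neg h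
  lab := TriW.lab
  ex := tri_exW h
  uniq := tri_uniqW h
  noflip := noflipW h
  noanti := noantiW h
  priv := private4W h
  conn := fun S s12 s23 hcl _ _ _ h0 hS _ _ _ h1 => connW h S s12 s23 hcl h0 hS h1

/-- `li_lawW` in terms of inner products. -/
theorem li_innerW (h : St v g 3) {a b c : SL κ} (ht : TriW v g a b c) (e₁ e₂ e₃ : SL κ)
    (h12 : e₁.1 ≠ e₂.1) (h13 : e₁.1 ≠ e₃.1) (h23 : e₂.1 ≠ e₃.1)
    (h1 : e₁.1 ≠ a.1 ∧ e₁.1 ≠ b.1 ∧ e₁.1 ≠ c.1) (h2 : e₂.1 ≠ a.1 ∧ e₂.1 ≠ b.1 ∧ e₂.1 ≠ c.1)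
    (h3 : e₃.1 ≠ a.1 ∧ e₃.1 ≠ b.1 ∧ e₃.1 ≠ c.1) :
    inner ℝ (uv v e₁) (uv v e₂) + inner ℝ (uv v e₁) (uv v e₃) + inner ℝ (uv v e₂) (uv v e₃)
      + (inner ℝ (uv v a) (uv v b) + inner ℝ (uv v a) (uv v c) + inner ℝ (uv v b) (uv v c)) < 0 := by
  have hl := li_law0 h ht e₁ e₂ e₃ h12 h13 h23 h1 h2 h3
  rw [norm_add_sq_real, norm_add_sq_real, inner_add_left, norm_uv h.unit, norm_uv h.unit,
    norm_uv h.unit] at hl
  linarith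

/-- The sum of the ten inequalities. -/
theorem ico_falseW (h : St v g 3) {p q₁ q₂ q₃ q₄ q₅ : SL κ} (hI : Ico (TriW v g) p q₁ q₂ q₃ q₄ q₅) :
    False := by
  obtain ⟨⟨p1, p2, p3, p4, p5⟩, ⟨a12, a13, a14, a15⟩, ⟨a23, a24, a25⟩, ⟨a34, a35⟩, a45,
    ⟨t12, t23, t34, t45, t51⟩, ⟨s12, s23, s34, s45, s51⟩⟩ := hI
  have i1 := li_innerW h t12 q₃ (ng q₄) q₅ a34 a35 a45 ⟨p3.symm, a13.symm, a23.symm⟩
    ⟨p4.symm, a14.symm, a24.symm⟩ ⟨p5.symm, a15.symm, a25.symm⟩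
  have i2 := li_innerW h t23 q₄ (ng q₅) q₁ a45 a14.symm a15.symm ⟨p4.symm, a24.symm, a34.symm⟩
    ⟨p5.symm, a25.symm, a35.symm⟩ ⟨p1.symm, a12, a13⟩
  have i3 := li_innerW h t34 q₅ (ng q₁) q₂ a15.symm a25.symm a12 ⟨p5.symm, a35.symm, a45.symm⟩
    ⟨p1.symm, a13, a14⟩ ⟨p2.symm, a23, a24⟩
  have i4 := li_innerW h t45 q₁ (ng q₂) q₃ a12 a13 a23 ⟨p1.symm, a14, a15⟩
    ⟨p2.symm, a24, a25⟩ ⟨p3.symm, a34, a35⟩
  have i5 := li_innerW h t51 q₂ (ng q₃) q₄ a23 a24 a34 ⟨p2.symm, a25, a12.symm⟩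
    ⟨p3.symm, a35, a13.symm⟩ ⟨p4.symm, a45, a14.symm⟩
  have j1 := li_innerW h s12 (ng p) q₃ q₅ p3 p5 a35 ⟨p1, p2, p4⟩
    ⟨a13.symm, a23.symm, a34⟩ ⟨a15.symm, a25.symm, a45.symm⟩
  have j2 := li_innerW h s23 (ng p) q₄ q₁ p4 p1 a14.symm ⟨p2, p3, p5⟩
    ⟨a24.symm, a34.symm, a45⟩ ⟨a12, a13, a15⟩
  have j3 := li_innerW h s34 (ng p) q₅ q₂ p5 p2 a25.symm ⟨p3, p4, p1⟩
    ⟨a35.symm, a45.symm, a15.symm⟩ ⟨a23, a24, a12.symm⟩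
  have j4 := li_innerW h s45 (ng p) q₁ q₃ p1 p3 a13 ⟨p4, p5, p2⟩
    ⟨a14, a15, a12⟩ ⟨a34, a35, a23.symm⟩
  have j5 := li_innerW h s51 (ng p) q₂ q₄ p2 p4 a24 ⟨p5, p1, p3⟩
    ⟨a25, a12.symm, a23⟩ ⟨a45, a14.symm, a34.symm⟩
  simp only [uv_ng, inner_neg_left, inner_neg_right] at i1 i2 i3 i4 i5 j1 j2 j3 j4 j5
  have c12 := real_inner_comm (uv v q₁) (uv v q₂)
  have c13 := real_inner_comm (uv v q₁) (uv v q₃)
  have c14 := real_inner_comm (uv v q₁) (uv v q₄)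
  have c15 := real_inner_comm (uv v q₁) (uv v q₅)
  have c23 := real_inner_comm (uv v q₂) (uv v q₃)
  have c24 := real_inner_comm (uv v q₂) (uv v q₄)
  have c25 := real_inner_comm (uv v q₂) (uv v q₅)
  have c34 := real_inner_comm (uv v q₃) (uv v q₄)
  have c35 := real_inner_comm (uv v q₃) (uv v q₅)
  have c45 := real_inner_comm (uv v q₄) (uv v q₅)
  linarith

end

theorem no_st3 {κ E : Type*} [Fintype κ] [DecidableEq κ] [NormedAddCommGroup E]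
    [InnerProductSpace ℝ E] [FiniteDimensional ℝ E] {v : κ → E} {g : E} (h : St v g 3) : False := by
  obtain ⟨p, q₁, q₂, q₃, q₄, q₅, hI⟩ := exists_ico (st_ts h) (exists_triW h)
  exact ico_falseW h hI

end Pool.Agent.Lib.MP_1be6c9_co.Fc
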