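import Pool.Agent.Lib.MP_1be6c9_co.Fc.StepB
import Pool.Agent.Lib.MP_1be6c9_co.Fc.St3
import Pool.Agent.Lib.MP_1be6c9_co.Fc.Far6

/-!
Dimension three: no centrally symmetric state of odd dimension.
-/

namespace Pool.Agent.Lib.MP_1be6c9_co.Fc

open Finset Pool.Agent.Lib.MP_1be6c9_co

section

variable {κ E : Type*} [Fintype κ] [DecidableEq κ] [NormedAddCommGroup E] [InnerProductSpace ℝ E]
  {v : κ → E} {g : E} {m : ℕ}

omit [DecidableEq κ] in
/-- Two vertices with the same tight labels and signs except for one label with opposite signs. -/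
theorem St.no_flip (h : St v g m) {x x' : κ → ℝ} (hx : Vx v g x) (hx' : Vx v g x') {j : κ}
    (hj : j ∉ fr x) (hf : fr x' = fr x) (hk : ∀ k, k ∉ fr x → k ≠ j → x' k = x k)
    (hxj : x' j = - x j) : False := by
  classical
  have h1 := h.short hx
  have h2 := h.short hx'
  rw [tot_eq hx.1] at h1
  rw [tot_eq hx'.1, hf] at h2
  have hjm : j ∈ (fr x)ᶜ := Finset.mem_compl.mpr hj
  rw [← Finset.add_sum_erase _ _ hjm] at h1 h2
  have e : ∑ k ∈ ((fr x)ᶜ).erase j, x' k • v k = ∑ k ∈ ((fr x)ᶜ).erase j, x k • v k := by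
    refine Finset.sum_congr rfl fun k hkm => ?_
    rw [Finset.mem_erase, Finset.mem_compl] at hkm
    rw [hk k hkm.2 hkm.1]
  rw [e, hxj] at h2
  set S := ∑ k ∈ ((fr x)ᶜ).erase j, x k • v k with hS
  set b := x j • v j with hb
  have hxj1 := (not_mem_fr x hx.1.1 j).mp hj
  have hb1 : ‖b‖ = 1 := by
    rw [hb, norm_smul, h.unit j]
    rcases hxj1 with h | h <;> rw [h] <;> simp
  have e1 : g + (b + S) = (g + S) + b := by abel
  have e2 : g + ((-x j) • v j + S) = (g + S) - b := by rw [neg_smul, hb]; abel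
  rw [e1] at h1
  rw [e2] at h2
  have h3 := parallelogram_law_with_norm ℝ (g + S) b
  have h4 : ‖g + S + b‖ * ‖g + S + b‖ < 1 := by nlinarith [norm_nonneg (g + S + b)]
  have h5 : ‖g + S - b‖ * ‖g + S - b‖ < 1 := by nlinarith [norm_nonneg (g + S - b)]
  nlinarith [sq_nonneg ‖g + S‖]

/-- A state of dimension one. -/
theorem no_st1 (h : St v g 1) : False := by
  obtain ⟨x, hx⟩ := h.ne
  obtain ⟨x', hx', hc⟩ := h.cs x hx
  have hcard : ((fr x)ᶜ).card = 1 := by
    rw [Finset.card_compl, h.card, hx.2]; omega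
  obtain ⟨j, hj⟩ := Finset.card_eq_one.mp hcard
  have hjx : j ∉ fr x := by
    rw [← Finset.mem_compl, hj]; exact Finset.mem_singleton_self j
  refine h.no_flip hx hx' hjx (h.cs_fr hx hx' hc) ?_ (hc j hjx)
  intro k hk hkj
  rw [← Finset.mem_compl, hj, Finset.mem_singleton] at hk
  exact absurd hk hkj

/-- The pivot in a state: releasing a tight label gives a vertex with another tight label, which was
free. -/
theorem St.piv_used [FiniteDimensional ℝ E] (h : St v g m) {x : κ → ℝ} (hx : Vx v g x) {j : κ}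
    (hj : j ∉ fr x) : ∃ k ∈ fr x, Used v g k := by
  have hB := (bas_ex x).mpr hx
  obtain ⟨y, hy, hkeep, hne, k0, hk0, hf, hkn⟩ :=
    h.gp.piv hB (j := some j) (by rwa [mem_fr_ex])
  have hn1 : y none = 1 := by
    rw [hkeep none, ex_none]
    rw [Finset.mem_insert, none_mem_fr]
    simp
  obtain ⟨w, rfl⟩ : ∃ w, y = ex 1 w := ⟨fun k => y (some k), by rw [← hn1, ex_eta]⟩
  have hw := (bas_ex w).mp hy
  rw [Finset.mem_insert] at hk0
  rcases hk0 with hk0 | hk0
  · exfalso
    have h1 := hkn hk0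
    rw [ex_some, ex_some] at h1
    rw [hk0, Finset.erase_insert (by rwa [mem_fr_ex])] at hf
    have hf' : fr w = fr x := by
      ext k
      rw [← mem_fr_ex 1 w, ← mem_fr_ex 1 x, hf]
    refine h.no_flip hx hw hj hf' ?_ h1
    intro k hk hkj
    have := hkeep (some k) (by
      rw [Finset.mem_insert, mem_fr_ex]
      simp [hkj, hk])
    simpa using this
  · cases k0 with
    | none => rw [none_mem_fr] at hk0; simp at hk0
    | some k =>
      refine ⟨k, (mem_fr_ex _ _ _).mp hk0, w, hw, ?_⟩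
      rw [← mem_fr_ex 1 w, hf]
      simp

end

/-- In dimension three a state of odd dimension `m ≥ 5` is not all-far. -/
theorem no_far3 {κ E : Type*} [Fintype κ] [DecidableEq κ] [NormedAddCommGroup E]
    [InnerProductSpace ℝ E] [FiniteDimensional ℝ E] {v : κ → E} {g : E} {m : ℕ} (h : St v g m)
    (hE : Module.finrank ℝ E = 3) (hm : 5 ≤ m) (hf : Far v g) : False := by
  obtain ⟨x, hx⟩ := h.ne
  have hT : ((fr x)ᶜ).card = m := by
    rw [Finset.card_compl, h.card, hx.2]; omega
  have hTu : ∀ i ∈ (fr x)ᶜ, Used v g i := fun i hi => ⟨x, hx, Finset.mem_compl.mp hi⟩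
  -- a used free label
  have hne : ((fr x)ᶜ).Nonempty := by
    rw [← Finset.card_pos, hT]; omega
  obtain ⟨j, hj⟩ := hne
  obtain ⟨k, hk, hku⟩ := h.piv_used hx (Finset.mem_compl.mp hj)
  -- another free label
  have h3 : (fr x).card = 3 := by rw [hx.2, hE]
  obtain ⟨l, hl, hlk⟩ : ∃ l ∈ fr x, l ≠ k := by
    by_contra hcon
    push Not at hcon
    have : fr x ⊆ {k} := fun l hl => Finset.mem_singleton.mpr (hcon l hl)
    have := Finset.card_le_card this
    rw [h3, Finset.card_singleton] at this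
    omega
  have hset : (insert l (insert k (fr x)ᶜ)).card = m + 2 := by
    rw [Finset.card_insert_of_notMem, Finset.card_insert_of_notMem, hT]
    · simp [hk]
    · simp [hlk, hl]
  have hfar : ∀ a ∈ insert l (insert k (fr x)ᶜ), ∀ b ∈ insert l (insert k (fr x)ᶜ), a ≠ b →
      |inner ℝ (v a) (v b)| < 1 / 2 := by
    have hu : ∀ a ∈ insert k (fr x)ᶜ, Used v g a := by
      intro a ha
      rcases Finset.mem_insert.mp ha with rfl | ha
      · exact hku
      · exact hTu a ha
    intro a ha b hb hab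
    rcases Finset.mem_insert.mp ha with rfl | ha'
    · rcases Finset.mem_insert.mp hb with rfl | hb'
      · exact absurd rfl hab
      · rw [real_inner_comm]
        exact hf b a (hu b hb') hab
    · exact hf a b (hu a ha') hab.symm
  have := Pool.Agent.Fc.far6_card hE v _ (fun i _ => h.unit i) hfar
  rw [hset] at this
  omega

/-- Dimension three: no centrally symmetric state of odd dimension. -/
theorem no_st_dim3 : ∀ (n : ℕ) (κ E : Type) [Fintype κ] [DecidableEq κ] [NormedAddCommGroup E]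
    [InnerProductSpace ℝ E] [FiniteDimensional ℝ E] (v : κ → E) (g : E),
    Module.finrank ℝ E = 3 → ¬ St v g (2 * n + 1) := by
  intro n
  induction n with
  | zero =>
    intro κ E _ _ _ _ _ v g _ h
    exact no_st1 h
  | succ n ih =>
    intro κ E _ _ _ _ _ v g hE h
    rcases step_far (m := 2 * n + 1) (by simpa [mul_add, add_assoc] using h) (by omega) with hf | hs
    · rcases Nat.eq_zero_or_pos n with hn | hn
      · subst hn
        exact no_st3 h
      · exact no_far3 h hE (by omega) hf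
    · obtain ⟨κ', _, _, v', g', h'⟩ := hs
      exact ih κ' E v' g' hE h'

/-- The whole section of the cube as a state. -/
theorem st_of_long {κ E : Type*} [Fintype κ] [DecidableEq κ] [NormedAddCommGroup E]
    [InnerProductSpace ℝ E] [FiniteDimensional ℝ E] {v : κ → E} (hv : ∀ i, ‖v i‖ = 1) {m : ℕ}
    (hcard : Fintype.card κ = Module.finrank ℝ E + m)
    (hlong : Long v ((Module.finrank ℝ E : ℝ) - 1)) : St v 0 m where
  unit := hv
  card := hcard
  bad := fun η hη => by rw [zero_add]; exact hlong η hη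
  ne := by
    have hG : Gp v := ⟨fun k => (hv k).le, hlong⟩
    obtain ⟨y, hy, -⟩ := hG.vtx (y := fun _ => 0) ⟨by simp, by simp⟩
    exact ⟨y, ⟨hy.1, by rw [zero_add]; exact hy.2.1⟩, hy.2.2⟩
  cs := fun x hx => by
    refine ⟨fun i => - x i, ⟨⟨fun i => by simpa using hx.1.1 i, ?_⟩, ?_⟩, fun i _ => rfl⟩
    · have := hx.1.2
      rw [zero_add] at this ⊢
      simp only [neg_smul, Finset.sum_neg_distrib, this, neg_zero]
    · rw [fr_neg]; exact hx.2

theorem dim3 {κ : Type} [Fintype κ] [DecidableEq κ] (hpar : Fintype.card κ % 2 = 0)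
    (v : κ → EuclideanSpace ℝ (Fin 3)) (hv : ∀ i, ‖v i‖ = 1) :
    ∃ η : κ → ℝ, (∀ i, η i = 1 ∨ η i = -1) ∧ ‖∑ i, η i • v i‖ ^ 2 ≤ 2 := by
  by_contra hcon
  push Not at hcon
  have hE : Module.finrank ℝ (EuclideanSpace ℝ (Fin 3)) = 3 := by simp
  have hlong : Long v ((Module.finrank ℝ (EuclideanSpace ℝ (Fin 3)) : ℝ) - 1) := by
    intro η hη
    rw [hE]
    have := hcon η hη
    norm_num
    exact this
  -- there are at least three vectors
  have hG : Gp v := ⟨fun k => (hv k).le, hlong⟩
  have h3 : 3 ≤ Fintype.card κ := by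
    have h1 := hG.card_le (y := fun _ => 0) ⟨by simp, by simp⟩
    rw [hE] at h1
    exact h1.trans (Finset.card_le_univ _)
  obtain ⟨n, hn⟩ : ∃ n, Fintype.card κ = 3 + (2 * n + 1) := by
    refine ⟨(Fintype.card κ - 4) / 2, ?_⟩
    omega
  exact no_st_dim3 n κ _ v 0 hE (st_of_long hv (by rw [hE]; exact hn) hlong)

end Pool.Agent.Lib.MP_1be6c9_co.Fc
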