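import Pool.Agent.Lib.MP_1be6c9_co.Fc.Irr

/-!
The choice of an edge in an irreducible state (note 2229, part (1)).
-/

namespace Pool.Agent.Lib.MP_1be6c9_co.Fc

open Finset Pool.Agent.Lib.MP_1be6c9_co

section

variable {κ E : Type*} [Fintype κ] [DecidableEq κ] [NormedAddCommGroup E] [InnerProductSpace ℝ E]
  {v : κ → E} {g : E} {m : ℕ}

/-- Neighbours: the tight coordinates except one are kept. -/
def Nb {κ : Type*} [Fintype κ] [DecidableEq κ] (x x' : κ → ℝ) (i : κ) : Prop :=
  i ∉ fr x ∧ ∀ k, k ∉ insert i (fr x) → x' k = x k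

/-- The tight sum has norm less than one. -/
theorem St.tight_lt (h : St v g m) {x : κ → ℝ} (hx : Vx v g x) :
    ‖∑ k ∈ (fr x)ᶜ, x k • v k‖ ^ 2 < 1 := by
  have h1 := h.norm_add_lt hx
  have h2 : tot v g x - g = ∑ k ∈ (fr x)ᶜ, x k • v k := by
    rw [tot_eq hx.1, add_sub_cancel_left]
  rw [h2] at h1
  nlinarith [sq_nonneg ‖g‖]

/-- No flips: a tight coordinate is not replaced by its opposite. -/
theorem St.no_opp1 (h : St v g m) {x x' : κ → ℝ} (hx : Vx v g x) (hx' : Vx v g x') {i : κ}
    (hn : Nb x x' i) : x' i ≠ - x i := by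
  intro hcon
  have hi : i ∉ fr x' := by
    have h1 := (not_mem_fr x hx.1.1 i).mp hn.1
    rw [mem_fr, hcon, abs_neg, not_lt]
    rcases h1 with h1 | h1 <;> rw [h1] <;> norm_num
  have hfr : fr x' = fr x := by
    symm
    apply Finset.eq_of_subset_of_card_le
    · intro k hk
      by_contra hcon2
      -- then the complement of fr x' is contained in ...
      have hsub : fr x' ⊆ (fr x).erase k := by
        intro l hl
        rw [Finset.mem_erase]
        refine ⟨fun h => hcon2 (h ▸ hl), ?_⟩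
        by_contra hl2
        have hli : l ≠ i := fun h => hi (h ▸ hl)
        have := hn.2 l (by simp [hli, hl2])
        rw [mem_fr] at hl hl2
        rw [this] at hl
        exact hl2 hl
      have h1 := Finset.card_le_card hsub
      rw [Finset.card_erase_of_mem hk, hx'.2, hx.2] at h1
      have h2 : 0 < (fr x).card := Finset.card_pos.mpr ⟨k, hk⟩
      rw [hx.2] at h2
      omega
    · rw [hx'.2, hx.2]
  have h1 := h.tight_lt hx
  have h2 := h.tight_lt hx'
  rw [hfr] at h2
  have hic : i ∈ (fr x)ᶜ := Finset.mem_compl.mpr hn.1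
  rw [← Finset.add_sum_erase _ _ hic] at h1 h2
  have e : ∑ k ∈ (fr x)ᶜ.erase i, x' k • v k = ∑ k ∈ (fr x)ᶜ.erase i, x k • v k := by
    refine Finset.sum_congr rfl fun k hk => ?_
    rw [Finset.mem_erase, Finset.mem_compl] at hk
    rw [hn.2 k (by simp [hk.1, hk.2])]
  rw [e, hcon, neg_smul] at h2
  set z := ∑ k ∈ (fr x)ᶜ.erase i, x k • v k
  have hxi : ‖x i • v i‖ = 1 := by
    rw [norm_smul, h.unit, mul_one, Real.norm_eq_abs]
    rcases (not_mem_fr x hx.1.1 i).mp hn.1 with h3 | h3 <;> rw [h3] <;> norm_num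
  have h3 := parallelogram_law_with_norm ℝ z (x i • v i)
  have h4 : ‖z - x i • v i‖ = ‖-(x i • v i) + z‖ := by congr 1; abel
  have h5 : ‖z + x i • v i‖ = ‖x i • v i + z‖ := by congr 1; abel
  rw [h4, h5, hxi] at h3
  nlinarith [norm_nonneg z]

variable [FiniteDimensional ℝ E]

/-- The pivot. -/
theorem St.piv (h : St v g m) {x : κ → ℝ} (hx : Vx v g x) {i : κ} (hi : i ∉ fr x) :
    ∃ x' : κ → ℝ, Vx v g x' ∧ Nb x x' i ∧ i ∈ fr x' ∧
      ∃ j ∈ fr x, j ∉ fr x' ∧ fr x' = insert i ((fr x).erase j) := by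
  have hB := (bas_ex x).mpr hx
  have hi' : some i ∉ fr (ex 1 x) := by rw [mem_fr_ex]; exact hi
  obtain ⟨y', hy', hk, hne, k0, hk0, hf, hk0j⟩ := h.gp.piv hB hi'
  have hn1 : y' none = 1 := by
    rw [hk none (by rw [Finset.mem_insert, none_mem_fr]; simp), ex_none]
  obtain ⟨x', rfl⟩ : ∃ x', y' = ex 1 x' := ⟨fun k => y' (some k), by rw [← hn1, ex_eta]⟩
  have hx' := (bas_ex x').mp hy'
  have hnb : Nb x x' i := by
    refine ⟨hi, fun k hk' => ?_⟩
    have := hk (some k) (by
      rw [Finset.mem_insert, not_or] at hk' ⊢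
      exact ⟨fun h => hk'.1 (Option.some_injective _ h), by rw [mem_fr_ex]; exact hk'.2⟩)
    simpa using this
  have hk0i : k0 ≠ some i := by
    intro hcon
    have := hk0j hcon
    simp only [ex_some] at this
    exact h.no_opp1 hx hx' hnb this
  obtain ⟨j, rfl⟩ : ∃ j, k0 = some j := by
    cases k0 with
    | none =>
      exfalso
      rw [Finset.mem_insert, none_mem_fr] at hk0
      simp at hk0
    | some j => exact ⟨j, rfl⟩
  have hji : j ≠ i := fun h => hk0i (by rw [h])
  have hj : j ∈ fr x := by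
    rw [Finset.mem_insert, mem_fr_ex] at hk0
    rcases hk0 with h1 | h1
    · exact absurd h1 hk0i
    · exact h1
  have hfr : ∀ k, k ∈ fr x' ↔ k ≠ j ∧ (k = i ∨ k ∈ fr x) := by
    intro k
    rw [← mem_fr_ex 1 x' k, hf, Finset.mem_erase, Finset.mem_insert, mem_fr_ex]
    simp
  refine ⟨x', hx', hnb, (hfr i).mpr ⟨hji.symm, Or.inl rfl⟩, j, hj, fun h => ((hfr j).mp h).1 rfl, ?_⟩
  ext k
  rw [hfr, Finset.mem_insert, Finset.mem_erase]
  constructor
  · rintro ⟨h1, h2 | h2⟩
    · exact Or.inl h2
    · exact Or.inr ⟨h1, h2⟩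
  · rintro (h1 | h1)
    · exact ⟨by rw [h1]; exact hji.symm, Or.inl h1⟩
    · exact ⟨h1.1, Or.inr h1.2⟩

omit [DecidableEq κ] [FiniteDimensional ℝ E] in
/-- A vertex is determined by its tight coordinates. -/
theorem St.uniq (h : St v g m) {x x' : κ → ℝ} (hx : Vx v g x) (hx' : Vx v g x')
    (hk : ∀ k, k ∉ fr x → x' k = x k) : x' = x := by
  have h1 := h.gp.uniq ((bas_ex x).mpr hx) (w := ex 1 x') (((bas_ex x').mpr hx').2.1) (by
    intro o ho
    cases o with
    | none => rfl
    | some k => rw [mem_fr_ex] at ho; exact hk k ho)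
  funext k
  exact congrFun h1 (some k)

/-- Local optima are global. -/
theorem St.opt (h : St v g m) {x : κ → ℝ} (hx : Vx v g x) (c : κ → ℝ)
    (hloc : ∀ i x', Vx v g x' → Nb x x' i → ∑ k, c k * x' k ≤ ∑ k, c k * x k) {w : κ → ℝ}
    (hw : Pt v g w) : ∑ k, c k * w k ≤ ∑ k, c k * x k := by
  set N : ℝ := ∑ k, |c k| with hN
  have hb : ∀ z : κ → ℝ, (∀ k, |z k| ≤ 1) → |∑ k, c k * z k| ≤ N := by
    intro z hz
    refine (Finset.abs_sum_le_sum_abs _ _).trans (Finset.sum_le_sum fun k _ => ?_)
    rw [abs_mul]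
    exact mul_le_of_le_one_right (abs_nonneg _) (hz k)
  have e : ∀ (t : ℝ) (z : κ → ℝ), ∑ o, ex N c o * ex t z o = N * t + ∑ k, c k * z k := by
    intro t z
    rw [Fintype.sum_option]; rfl
  have h1 := h.gp.opt ((bas_ex x).mpr hx) (ex N c) ?_ ((p0_ex w).mpr hw)
  · rw [e, e] at h1
    linarith
  · intro o ho y' hy' hk
    have hyp := h.prism hy'
    obtain ⟨t, x', rfl⟩ : ∃ t x', y' = ex t x' := ⟨_, _, (ex_eta y').symm⟩
    rw [e, e]
    cases o with
    | none =>
      rcases eq_or_eq_neg_of_abs_eq hyp with ht | ht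
      · rw [ex_none] at ht
        subst ht
        have : x' = x := by
          refine h.uniq hx ((bas_ex x').mp hy') fun k hk' => ?_
          have := hk (some k) (by
            rw [Finset.mem_insert, not_or, mem_fr_ex]
            exact ⟨by simp, hk'⟩)
          simpa using this
        rw [this]
      · rw [ex_none] at ht
        subst ht
        have h2 := abs_le.mp (hb x' fun k => hy'.1 (some k))
        have h3 := abs_le.mp (hb x hx.1.1)
        linarith
    | some i =>
      have ht : t = 1 := by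
        have := hk none (by rw [Finset.mem_insert, none_mem_fr]; simp)
        simpa using this
      subst ht
      have := hloc i x' ((bas_ex x').mp hy') ⟨by rw [← mem_fr_ex 1 x]; exact ho, fun k hk' => by
        have := hk (some k) (by
          rw [Finset.mem_insert, not_or] at hk' ⊢
          exact ⟨fun h => hk'.1 (Option.some_injective _ h), by rw [mem_fr_ex]; exact hk'.2⟩)
        simpa using this⟩
      linarith

/-- Connectivity. -/
theorem St.conn (h : St v g m) (S : (κ → ℝ) → Prop) {x0 : κ → ℝ} (h0 : Vx v g x0) (hS0 : S x0)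
    (hcl : ∀ x, Vx v g x → S x → ∀ i x', Vx v g x' → Nb x x' i → S x') {w : κ → ℝ}
    (hw : Vx v g w) : S w := by
  classical
  set c : κ → ℝ := fun i => if i ∈ fr w then 0 else w i with hc
  have hfin : {x : κ → ℝ | Vx v g x ∧ S x}.Finite := by
    refine Set.Finite.of_finite_image (f := fun x => ex (1 : ℝ) x) (h.gp.finite.subset ?_) ?_
    · rintro _ ⟨x, hx, rfl⟩
      exact (bas_ex x).mpr hx.1
    · intro x _ x' _ hxx
      funext k
      exact congrFun hxx (some k)
  obtain ⟨x, ⟨hxB, hxS⟩, hmax⟩ := hfin.exists_maximalFor (fun y => ∑ i, c i * y i) _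
    ⟨x0, h0, hS0⟩
  have hmax' : ∀ y', Vx v g y' → S y' → ∑ i, c i * y' i ≤ ∑ i, c i * x i := by
    intro y' h1 h2
    by_contra hcon
    push Not at hcon
    exact absurd (hmax (show y' ∈ {x : κ → ℝ | Vx v g x ∧ S x} from ⟨h1, h2⟩) hcon.le)
      (not_le.mpr hcon)
  have hopt : ∑ i, c i * w i ≤ ∑ i, c i * x i :=
    h.opt hxB c (fun i x' hx' hn => hmax' x' hx' (hcl x hxB hxS i x' hx' hn)) hw.1
  have hle : ∀ i, c i * x i ≤ c i * w i := by
    intro i
    by_cases hi : i ∈ fr w
    · simp [hc, hi]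
    · simp only [hc, if_neg hi]
      have h1 := (not_mem_fr w hw.1.1 i).mp hi
      have h2 := abs_le.mp (hxB.1.1 i)
      rcases h1 with h1 | h1 <;> rw [h1] <;> linarith [h2.1, h2.2]
  have heq : ∀ i, c i * x i = c i * w i := by
    have hs : ∑ i, c i * x i = ∑ i, c i * w i :=
      le_antisymm (Finset.sum_le_sum fun i _ => hle i) hopt
    intro i
    exact (Finset.sum_eq_sum_iff_of_le (fun i _ => hle i)).mp hs i (Finset.mem_univ _)
  have : x = w := by
    refine h.uniq hw hxB ?_
    intro i hi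
    have h1 := heq i
    simp only [hc, if_neg hi] at h1
    have h2 := (not_mem_fr w hw.1.1 i).mp hi
    rcases h2 with h2 | h2 <;> rw [h2] at h1 ⊢ <;> linarith
  rw [← this]; exact hxS

omit [FiniteDimensional ℝ E] in
/-- The complement of the free set has `m` elements. -/
theorem St.card_tight (h : St v g m) {x : κ → ℝ} (hx : Vx v g x) : ((fr x)ᶜ).card = m := by
  rw [Finset.card_compl, h.card, hx.2]; omega

omit [FiniteDimensional ℝ E] in
/-- The direction of a tight label at a vertex, on a two-face. -/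
theorem inner_neg_face (h : St v g m) (hf : Far v g) (hL : Lng v m) (hm : 4 ≤ m) {x : κ → ℝ}
    (hx : Vx v g x) {i : κ} (hi : i ∉ fr x) {Z : Finset κ} (hZc : Z.card + 2 = m) (hiZ : i ∉ Z)
    (hZ : ∀ k ∈ Z, k ∉ fr x) : inner ℝ (∑ k ∈ Z, x k • v k) (x i • v i) < 0 := by
  -- the remaining tight label
  have hsub : insert i Z ⊆ (fr x)ᶜ := by
    intro k hk
    rw [Finset.mem_compl]
    rcases Finset.mem_insert.mp hk with rfl | hk
    · exact hi
    · exact hZ k hk
  have hcard : ((fr x)ᶜ \ insert i Z).card = 1 := by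
    rw [Finset.card_sdiff_of_subset hsub, h.card_tight hx, Finset.card_insert_of_notMem hiZ]
    omega
  obtain ⟨k, hk⟩ := Finset.card_eq_one.mp hcard
  have hkm : k ∈ (fr x)ᶜ \ insert i Z := by rw [hk]; simp
  rw [Finset.mem_sdiff, Finset.mem_insert, not_or, Finset.mem_compl] at hkm
  obtain ⟨hkt, hki, hkZ⟩ := hkm
  have hset : (fr x)ᶜ = insert i (insert k Z) := by
    rw [← Finset.sdiff_union_of_subset hsub, hk]
    ext l
    simp only [Finset.mem_union, Finset.mem_singleton, Finset.mem_insert]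
    tauto
  have hxi := (not_mem_fr x hx.1.1 i).mp hi
  have hxk := (not_mem_fr x hx.1.1 k).mp hkt
  have hik : i ∉ insert k Z := by
    rw [Finset.mem_insert, not_or]; exact ⟨Ne.symm hki, hiZ⟩
  have h1 := h.tight_lt hx
  rw [hset, Finset.sum_insert hik, norm_add_sq_real] at h1
  -- the long set
  set σ : κ → ℝ := fun l => if l ∈ insert k Z then x l else 0 with hσ
  have hsgn : Sgn σ := by
    intro l
    by_cases hl : l ∈ insert k Z
    · right
      simp only [hσ, if_pos hl]
      refine (not_mem_fr x hx.1.1 l).mp ?_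
      rcases Finset.mem_insert.mp hl with rfl | hl
      · exact hkt
      · exact hZ l hl
    · left; simp only [hσ, if_neg hl]
  have hsp : sp σ = insert k Z := by
    ext l
    rw [mem_sp]
    by_cases hl : l ∈ insert k Z
    · have h2 := (not_mem_fr x hx.1.1 l).mp (by
        rcases Finset.mem_insert.mp hl with rfl | hl
        · exact hkt
        · exact hZ l hl)
      simp only [hσ, if_pos hl, hl, iff_true]
      rcases h2 with h2 | h2 <;> rw [h2] <;> norm_num
    · simp only [hσ, if_neg hl, hl, ne_eq, not_true_eq_false]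
  have hsm : sm v σ = ∑ l ∈ insert k Z, x l • v l := by
    rw [sm]
    simp only [hσ, ite_smul, zero_smul]
    rw [Finset.sum_ite_mem, Finset.univ_inter]
  have hlong := hL σ hsgn (by rw [hsp, Finset.card_insert_of_notMem hkZ]; omega)
    (by rw [hsp, Finset.card_insert_of_notMem hkZ]; omega)
  rw [hsm] at hlong
  have hlong2 : 1 < ‖∑ l ∈ insert k Z, x l • v l‖ ^ 2 := by nlinarith
  have hni : ‖x i • v i‖ ^ 2 = 1 := by
    rw [norm_smul, h.unit, Real.norm_eq_abs]
    rcases hxi with h2 | h2 <;> rw [h2] <;> norm_num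
  have h3 : inner ℝ (x i • v i) (∑ l ∈ insert k Z, x l • v l) < -1 / 2 := by linarith
  rw [Finset.sum_insert hkZ, inner_add_right] at h3
  have h4 : -1 / 2 < inner ℝ (x i • v i) (x k • v k) := by
    have hu : Used v g i := ⟨x, hx, hi⟩
    have h5 := abs_lt.mp (hf i k hu hki)
    rw [real_inner_smul_left, real_inner_smul_right]
    rcases hxi with h2 | h2 <;> rcases hxk with h6 | h6 <;> rw [h2, h6] <;> norm_num <;>
      linarith [h5.1, h5.2]
  rw [real_inner_comm]
  linarith

omit [FiniteDimensional ℝ E] in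
/-- No two opposite labels on a two-face. -/
theorem no_opp2 (h : St v g m) (hf : Far v g) (hL : Lng v m) (hm : 4 ≤ m) {x x' : κ → ℝ}
    (hx : Vx v g x) (hx' : Vx v g x') {i : κ} (hi : i ∉ fr x) (hne : x' i = - x i) {Z : Finset κ}
    (hZc : Z.card + 2 = m) (hiZ : i ∉ Z) (hZ : ∀ k ∈ Z, k ∉ fr x) (hZ' : ∀ k ∈ Z, x' k = x k) :
    False := by
  have hi' : i ∉ fr x' := by rw [mem_fr, hne, abs_neg, ← mem_fr]; exact hi
  have h1 := inner_neg_face h hf hL hm hx hi hZc hiZ hZ
  have h2 := inner_neg_face h hf hL hm hx' hi' hZc hiZ (fun k hk => by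
    rw [mem_fr, hZ' k hk, ← mem_fr]; exact hZ k hk)
  have e : ∑ k ∈ Z, x' k • v k = ∑ k ∈ Z, x k • v k :=
    Finset.sum_congr rfl fun k hk => by rw [hZ' k hk]
  rw [e, hne, neg_smul, inner_neg_right] at h2
  linarith

omit [FiniteDimensional ℝ E] in
/-- Four consecutive vertices of a two-face. -/
theorem chain_lt (h : St v g m) (hf : Far v g) (hL : Lng v m) (hm : 4 ≤ m)
    (hM : ∀ x, Vx v g x → ∀ j, Used v g j → j ∈ fr x → |x j| < 59 / 250)
    {x xa xc x2 : κ → ℝ} {i k : κ} (hx : Vx v g x) (hxa : Vx v g xa) (hxc : Vx v g xc)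
    (hx2 : Vx v g x2) (hna : Nb x xa i) (hnc : Nb x xc k) (hn2 : Nb xa x2 k) (hik : i ≠ k)
    (hia : i ∈ fr xa) (hkc : k ∈ fr xc) (hk2 : k ∈ fr x2) {e : κ} {s : ℝ}
    (hs : s = 1 ∨ s = -1) (he : x2 e = s) (hex : x e ≠ s) (hea : xa e ≠ s) (hec : xc e ≠ s) :
    1 - x k * xc k < 1 - x k * x2 k := by
  have hss : s * s = 1 := by rcases hs with h | h <;> rw [h] <;> norm_num
  have hsabs : |s| = 1 := by rcases hs with h | h <;> rw [h] <;> norm_num
  have he2 : e ∉ fr x2 := by rw [mem_fr, he, hsabs]; exact lt_irrefl _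
  have hkt : k ∉ fr x := hnc.1
  have hit : i ∉ fr x := hna.1
  -- the common tight set
  set Z : Finset κ := ((fr x)ᶜ.erase i).erase k with hZd
  have hZm : ∀ l, l ∈ Z ↔ l ≠ k ∧ l ≠ i ∧ l ∉ fr x := by
    intro l
    rw [hZd, Finset.mem_erase, Finset.mem_erase, Finset.mem_compl]
  have hZc : Z.card + 2 = m := by
    rw [hZd, Finset.card_erase_of_mem, Finset.card_erase_of_mem, h.card_tight hx]
    · omega
    · exact Finset.mem_compl.mpr hit
    · rw [Finset.mem_erase, Finset.mem_compl]; exact ⟨hik.symm, hkt⟩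
  -- values on the tight set
  have va : ∀ l, l ≠ i → l ∉ fr x → xa l = x l := fun l h1 h2 => hna.2 l (by simp [h1, h2])
  have vc : ∀ l, l ≠ k → l ∉ fr x → xc l = x l := fun l h1 h2 => hnc.2 l (by simp [h1, h2])
  have ta : ∀ l, l ≠ i → l ∉ fr x → l ∉ fr xa := fun l h1 h2 => by
    rw [mem_fr, va l h1 h2, ← mem_fr]; exact h2
  have v2 : ∀ l, l ≠ k → l ∉ fr xa → x2 l = xa l := fun l h1 h2 => hn2.2 l (by simp [h1, h2])
  have v2x : ∀ l ∈ Z, x2 l = x l := by
    intro l hl
    obtain ⟨h1, h2, h3⟩ := (hZm l).mp hl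
    rw [v2 l h1 (ta l h2 h3), va l h2 h3]
  have hZx : ∀ l ∈ Z, l ∉ fr x := fun l hl => ((hZm l).mp hl).2.2
  have hiZ : i ∉ Z := fun hh => ((hZm i).mp hh).2.1 rfl
  -- i is free at x2
  have hi2 : i ∈ fr x2 := by
    by_contra hcon
    have h1 := (not_mem_fr x2 hx2.1.1 i).mp hcon
    have h2 := (not_mem_fr x hx.1.1 i).mp hit
    by_cases h3 : x2 i = x i
    · -- then the tight sets of x2 contains Z, i, the label entering at xa and is too large
      -- e = i is excluded, so the tight labels of x2 are Z, e and the label entering at xa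
      have hie : i ≠ e := fun hh => hex (by rw [← hh, ← h3, hh, he])
      -- the new tight label of xa
      have hcard : (fr xa)ᶜ.card = m := h.card_tight hxa
      have hsub : Z ∪ {k} ⊆ (fr xa)ᶜ := by
        intro l hl
        rw [Finset.mem_compl]
        rcases Finset.mem_union.mp hl with hl | hl
        · obtain ⟨h4, h5, h6⟩ := (hZm l).mp hl
          exact ta l h5 h6
        · rw [Finset.mem_singleton] at hl; rw [hl]; exact ta k hik.symm hkt
      have hkZ : k ∉ Z := fun hh => ((hZm k).mp hh).1 rfl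
      have hc1 : (Z ∪ {k}).card + 1 = m := by
        rw [Finset.union_comm, ← Finset.insert_eq, Finset.card_insert_of_notMem hkZ]; omega
      obtain ⟨a', ha', hna'⟩ := Finset.exists_mem_notMem_of_card_lt_card
        (show (Z ∪ {k}).card < ((fr xa)ᶜ).card by omega)
      rw [Finset.mem_compl] at ha'
      rw [Finset.mem_union, Finset.mem_singleton, not_or] at hna'
      have ha'2 : a' ∉ fr x2 := by rw [mem_fr, v2 a' hna'.2 ha', ← mem_fr]; exact ha'
      have ha'i : a' ≠ i := fun hh => ha' (hh ▸ hia)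
      have ha'e : a' ≠ e := by
        intro hh
        exact hea (by rw [← hh, ← v2 a' hna'.2 ha', hh, he])
      have heZ : e ∉ Z := fun hh => hex (by rw [← v2x e hh, he])
      -- too many tight labels at x2
      have hbig : insert i (insert e (insert a' Z)) ⊆ (fr x2)ᶜ := by
        intro l hl
        rw [Finset.mem_compl]
        simp only [Finset.mem_insert] at hl
        rcases hl with rfl | rfl | rfl | hl
        · exact hcon
        · exact he2
        · exact ha'2
        · rw [mem_fr, v2x l hl, ← mem_fr]; exact hZx l hl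
      have := Finset.card_le_card hbig
      rw [h.card_tight hx2, Finset.card_insert_of_notMem, Finset.card_insert_of_notMem,
        Finset.card_insert_of_notMem hna'.1] at this
      · omega
      · simp only [Finset.mem_insert, not_or]; exact ⟨ha'e.symm, heZ⟩
      · simp only [Finset.mem_insert, not_or]; exact ⟨hie, ha'i.symm, hiZ⟩
    · have h4 : x2 i = - x i := by
        rcases h1 with h1 | h1 <;> rcases h2 with h2 | h2
        · exact absurd (h1.trans h2.symm) h3
        · rw [h1, h2, neg_neg]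
        · rw [h1, h2]
        · exact absurd (h1.trans h2.symm) h3
      exact no_opp2 h hf hL hm hx hx2 hit h4 hZc hiZ hZx v2x
  -- e is free at x
  have hefx : e ∈ fr x := by
    by_contra hcon
    by_cases hek : e = k
    · exact he2 (hek ▸ hk2)
    by_cases hei : e = i
    · exact he2 (hei ▸ hi2)
    exact hex (by rw [← v2x e ((hZm e).mpr ⟨hek, hei, hcon⟩), he])
  have hek : e ≠ k := fun hh => he2 (hh ▸ hk2)
  have hei : e ≠ i := fun hh => he2 (hh ▸ hi2)
  -- e is free at xa
  have hefa : e ∈ fr xa := by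
    by_contra hcon
    exact hea (by rw [← v2 e hek hcon, he])
  -- e is free at xc
  have hefc : e ∈ fr xc := by
    by_contra hcon
    have h1 := (not_mem_fr xc hxc.1.1 e).mp hcon
    have h4 : x2 e = - xc e := by
      rw [he]
      rcases h1 with h1 | h1 <;> rcases hs with h2 | h2
      · exact absurd (h1.trans h2.symm) hec
      · rw [h1, h2]
      · rw [h1, h2, neg_neg]
      · exact absurd (h1.trans h2.symm) hec
    refine no_opp2 h hf hL hm hxc hx2 hcon h4 hZc (fun hh => ?_) (fun l hl => ?_) (fun l hl => ?_)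
    · exact (hZx e hh) hefx
    · obtain ⟨h5, h6, h7⟩ := (hZm l).mp hl
      rw [mem_fr, vc l h5 h7, ← mem_fr]; exact h7
    · obtain ⟨h5, h6, h7⟩ := (hZm l).mp hl
      rw [v2x l hl, vc l h5 h7]
  -- the affine relation
  have hxi := (not_mem_fr x hx.1.1 i).mp hit
  have hxk := (not_mem_fr x hx.1.1 k).mp hkt
  have hUi : Used v g i := ⟨x, hx, hit⟩
  have hUk : Used v g k := ⟨x, hx, hkt⟩
  have hUe : Used v g e := ⟨x2, hx2, he2⟩
  have bia := abs_lt.mp (hM xa hxa i hUi hia)
  have bi2 := abs_lt.mp (hM x2 hx2 i hUi hi2)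
  have bkc := abs_lt.mp (hM xc hxc k hUk hkc)
  have bk2 := abs_lt.mp (hM x2 hx2 k hUk hk2)
  have bex := abs_lt.mp (hM x hx e hUe hefx)
  have bea := abs_lt.mp (hM xa hxa e hUe hefa)
  have bec := abs_lt.mp (hM xc hxc e hUe hefc)
  set α : ℝ := (1 - x i * x2 i) / (1 - x i * xa i) with hα
  set γ : ℝ := (1 - x k * x2 k) / (1 - x k * xc k) with hγ
  by_contra hcon
  rw [not_lt] at hcon
  have hden1 : 191 / 250 < 1 - x i * xa i := by rcases hxi with h | h <;> rw [h] <;> linarith
  have hden2 : 191 / 250 < 1 - x k * xc k := by rcases hxk with h | h <;> rw [h] <;> linarith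
  have hnum1 : 1 - x i * x2 i < 309 / 250 := by rcases hxi with h | h <;> rw [h] <;> linarith
  have hnum1' : 0 < 1 - x i * x2 i := by rcases hxi with h | h <;> rw [h] <;> linarith
  have hnum2' : 0 < 1 - x k * x2 k := by rcases hxk with h | h <;> rw [h] <;> linarith
  have hα0 : 0 < α := div_pos hnum1' (by linarith)
  have hγ0 : 0 < γ := div_pos hnum2' (by linarith)
  have hα1 : α < 309 / 191 := by rw [hα, div_lt_iff₀ (by linarith)]; linarith
  have hγ1 : γ ≤ 1 := by rw [hγ, div_le_one (by linarith)]; exact hcon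
  have hαe : α * (1 - x i * xa i) = 1 - x i * x2 i := div_mul_cancel₀ _ (by linarith)
  have hγe : γ * (1 - x k * xc k) = 1 - x k * x2 k := div_mul_cancel₀ _ (by linarith)
  have hxi2 : x i * x i = 1 := by rcases hxi with h | h <;> rw [h] <;> norm_num
  have hxk2 : x k * x k = 1 := by rcases hxk with h | h <;> rw [h] <;> norm_num
  have hrel : (fun o => ex 1 x2 o - (ex 1 x o + α * (ex 1 xa o - ex 1 x o)
      + γ * (ex 1 xc o - ex 1 x o))) = 0 := by
    refine h.gp.inj ((bas_ex x).mpr hx) ?_ ?_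
    · have e1 := ((bas_ex x).mpr hx).2.1
      have e2 := ((bas_ex xa).mpr hxa).2.1
      have e3 := ((bas_ex xc).mpr hxc).2.1
      have e4 := ((bas_ex x2).mpr hx2).2.1
      simp only [sub_smul, add_smul, mul_smul, Finset.sum_sub_distrib, Finset.sum_add_distrib,
        ← Finset.smul_sum, e1, e2, e3, e4]
      simp
    · intro o ho
      cases o with
      | none => simp
      | some l =>
        rw [mem_fr_ex] at ho
        simp only [ex_some]
        by_cases hli : l = i
        · rw [hli, vc i hik hit]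
          have : x i * (x2 i - (x i + α * (xa i - x i) + γ * (x i - x i))) = 0 := by
            linear_combination hαe - (1 - α) * hxi2
          rcases mul_eq_zero.mp this with h1 | h1
          · rw [h1] at hxi2; norm_num at hxi2
          · exact h1
        · by_cases hlk : l = k
          · rw [hlk, va k hik.symm hkt]
            have : x k * (x2 k - (x k + α * (x k - x k) + γ * (xc k - x k))) = 0 := by
              linear_combination hγe - (1 - γ) * hxk2
            rcases mul_eq_zero.mp this with h1 | h1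
            · rw [h1] at hxk2; norm_num at hxk2
            · exact h1
          · rw [v2x l ((hZm l).mpr ⟨hlk, hli, ho⟩), va l hli ho, vc l hlk ho]
            ring
  have hre := congrFun hrel (some e)
  simp only [ex_some, Pi.zero_apply] at hre
  rw [he] at hre
  -- slacks of e
  set t : ℝ := 1 - s * x e with ht
  set s' : ℝ := 1 - s * xa e with hs'
  set r' : ℝ := 1 - s * xc e with hr'
  have hrel2 : t - α * (t - s') - γ * (t - r') = 0 := by
    rw [ht, hs', hr']
    linear_combination s * hre - hss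
  have ht1 : t < 309 / 250 := by rw [ht]; rcases hs with h | h <;> rw [h] <;> linarith
  have ht2 : 191 / 250 < t := by rw [ht]; rcases hs with h | h <;> rw [h] <;> linarith
  have hs1 : 191 / 250 < s' := by rw [hs']; rcases hs with h | h <;> rw [h] <;> linarith
  have hr1 : 191 / 250 < r' := by rw [hr']; rcases hs with h | h <;> rw [h] <;> linarith
  have b1 : α * (t - s') ≤ 309 / 191 * (t - 191 / 250) := by
    have h1 : α * (t - s') ≤ α * (t - 191 / 250) := mul_le_mul_of_nonneg_left (by linarith) hα0.le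
    have h2 : α * (t - 191 / 250) ≤ 309 / 191 * (t - 191 / 250) :=
      mul_le_mul_of_nonneg_right hα1.le (by linarith)
    linarith
  have b2 : γ * (t - r') ≤ 1 * (t - 191 / 250) := by
    have h1 : γ * (t - r') ≤ γ * (t - 191 / 250) := mul_le_mul_of_nonneg_left (by linarith) hγ0.le
    have h2 : γ * (t - 191 / 250) ≤ 1 * (t - 191 / 250) :=
      mul_le_mul_of_nonneg_right hγ1 (by linarith)
    linarith
  linarith

omit [FiniteDimensional ℝ E] in
/-- The free labels of a neighbour. -/
theorem nb_fr {x x' : κ → ℝ} {i : κ} (hx : Vx v g x) (hx' : Vx v g x') (hn : Nb x x' i)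
    (hi : i ∈ fr x') : ∃ j ∈ fr x, j ∉ fr x' ∧ fr x' = insert i ((fr x).erase j) := by
  have hsub : fr x' ⊆ insert i (fr x) := by
    intro l hl
    by_contra hcon
    have := hn.2 l hcon
    rw [Finset.mem_insert, not_or] at hcon
    rw [mem_fr, this, ← mem_fr] at hl
    exact hcon.2 hl
  obtain ⟨j, hj, hj'⟩ : ∃ j ∈ insert i (fr x), j ∉ fr x' := by
    apply Finset.exists_mem_notMem_of_card_lt_card
    rw [Finset.card_insert_of_notMem hn.1, hx.2, hx'.2]
    omega
  have hji : j ≠ i := fun hh => hj' (hh ▸ hi)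
  have hjx : j ∈ fr x := (Finset.mem_insert.mp hj).resolve_left hji
  refine ⟨j, hjx, hj', Finset.eq_of_subset_of_card_le (fun l hl => ?_) ?_⟩
  · rw [Finset.mem_insert, Finset.mem_erase]
    rcases Finset.mem_insert.mp (hsub hl) with h1 | h1
    · exact Or.inl h1
    · exact Or.inr ⟨fun hh => hj' (hh ▸ hl), h1⟩
  · rw [Finset.card_insert_of_notMem (by rw [Finset.mem_erase]; exact fun hh => hn.1 hh.2),
      Finset.card_erase_of_mem hjx, hx.2, hx'.2]
    have : 0 < (fr x).card := Finset.card_pos.mpr ⟨j, hjx⟩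
    rw [hx.2] at this
    omega

omit [FiniteDimensional ℝ E] in
/-- The edge is unique. -/
theorem St.edge_uniq (h : St v g m) {x y z : κ → ℝ} {i : κ} (hx : Vx v g x) (hy : Vx v g y)
    (hz : Vx v g z) (hny : Nb x y i) (hnz : Nb x z i) (hiy : i ∈ fr y) (hiz : i ∈ fr z) :
    y = z := by
  -- the nearer one
  have key : ∀ y z : κ → ℝ, Vx v g y → Vx v g z → Nb x y i → Nb x z i → i ∈ fr y → i ∈ fr z →
      1 - x i * y i < 1 - x i * z i → False := by
    intro y z hy hz hny hnz hiy hiz hlt
    have hxi := (not_mem_fr x hx.1.1 i).mp hny.1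
    have hxi2 : x i * x i = 1 := by rcases hxi with h | h <;> rw [h] <;> norm_num
    have hy1 := abs_lt.mp ((mem_fr y i).mp hiy)
    have hz1 := abs_lt.mp ((mem_fr z i).mp hiz)
    have hypos : 0 < 1 - x i * y i := by rcases hxi with h | h <;> rw [h] <;> linarith
    have hzpos : 0 < 1 - x i * z i := by linarith
    set s : ℝ := (1 - x i * y i) / (1 - x i * z i) with hs
    have hs0 : 0 < s := div_pos hypos hzpos
    have hs1 : s < 1 := by rw [hs, div_lt_one hzpos]; exact hlt
    have hse : s * (1 - x i * z i) = 1 - x i * y i := div_mul_cancel₀ _ hzpos.ne'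
    have hrel : (fun o => ex 1 y o - (ex 1 x o + s * (ex 1 z o - ex 1 x o))) = 0 := by
      refine h.gp.inj ((bas_ex x).mpr hx) ?_ ?_
      · have e1 := ((bas_ex x).mpr hx).2.1
        have e2 := ((bas_ex y).mpr hy).2.1
        have e3 := ((bas_ex z).mpr hz).2.1
        simp only [sub_smul, add_smul, mul_smul, Finset.sum_sub_distrib, Finset.sum_add_distrib,
          ← Finset.smul_sum, e1, e2, e3]
        simp
      · intro o ho
        cases o with
        | none => simp
        | some l =>
          rw [mem_fr_ex] at ho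
          simp only [ex_some]
          by_cases hli : l = i
          · rw [hli]
            have : x i * (y i - (x i + s * (z i - x i))) = 0 := by
              linear_combination hse - (1 - s) * hxi2
            rcases mul_eq_zero.mp this with h1 | h1
            · rw [h1] at hxi2; norm_num at hxi2
            · exact h1
          · rw [hny.2 l (by simp [hli, ho]), hnz.2 l (by simp [hli, ho])]
            ring
    have hval : ∀ l, y l = (1 - s) * x l + s * z l := by
      intro l
      have := congrFun hrel (some l)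
      simp only [ex_some, Pi.zero_apply] at this
      linarith
    have hsub : insert i (fr x) ⊆ fr y := by
      intro l hl
      rcases Finset.mem_insert.mp hl with rfl | hl
      · exact hiy
      · rw [mem_fr] at hl ⊢
        have h3 := abs_le.mp (hz.1.1 l)
        rw [abs_lt] at hl ⊢
        rw [hval l]
        constructor <;> nlinarith [h3.1, h3.2, hl.1, hl.2]
    have hcard := Finset.card_le_card hsub
    rw [Finset.card_insert_of_notMem hny.1, hx.2, hy.2] at hcard
    omega
  have hxi := (not_mem_fr x hx.1.1 i).mp hny.1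
  have hyz : y i = z i := by
    rcases lt_trichotomy (1 - x i * y i) (1 - x i * z i) with h1 | h1 | h1
    · exact (key y z hy hz hny hnz hiy hiz h1).elim
    · rcases hxi with h2 | h2 <;> rw [h2] at h1 <;> linarith
    · exact (key z y hz hy hnz hny hiz hiy h1).elim
  have hrel : (fun o => ex 1 y o - ex 1 z o) = 0 := by
    refine h.gp.inj ((bas_ex x).mpr hx) ?_ ?_
    · have e2 := ((bas_ex y).mpr hy).2.1
      have e3 := ((bas_ex z).mpr hz).2.1
      simp only [sub_smul, Finset.sum_sub_distrib, e2, e3, sub_self]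
    · intro o ho
      cases o with
      | none => simp
      | some l =>
        rw [mem_fr_ex] at ho
        simp only [ex_some]
        by_cases hli : l = i
        · rw [hli, hyz, sub_self]
        · rw [hny.2 l (by simp [hli, ho]), hnz.2 l (by simp [hli, ho]), sub_self]
  funext l
  have := congrFun hrel (some l)
  simp only [ex_some, Pi.zero_apply] at this
  linarith

omit [FiniteDimensional ℝ E] in
/-- The polygon step: the label entering on the opposite edge is an old one. -/
theorem polygon_old (h : St v g m) (hf : Far v g) (hL : Lng v m) (hm : 4 ≤ m)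
    (hM : ∀ x, Vx v g x → ∀ j, Used v g j → j ∈ fr x → |x j| < 59 / 250)
    {x xa xc x2 : κ → ℝ} {i k : κ} (hx : Vx v g x) (hxa : Vx v g xa) (hxc : Vx v g xc)
    (hx2 : Vx v g x2) (hna : Nb x xa i) (hnc : Nb x xc k) (hn2 : Nb xa x2 k) (hik : i ≠ k)
    (hia : i ∈ fr xa) (hkc : k ∈ fr xc) (hk2 : k ∈ fr x2) {e : κ} {s : ℝ}
    (hs : s = 1 ∨ s = -1) (he : x2 e = s) (hex : x e ≠ s) (hea : xa e ≠ s) (hec : xc e ≠ s) :
    False := by
  have h1 := chain_lt h hf hL hm hM hx hxa hxc hx2 hna hnc hn2 hik hia hkc hk2 hs he hex hea hec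
  have hkt : k ∉ fr x := hnc.1
  have hit : i ∉ fr x := hna.1
  have va : ∀ l, l ≠ i → l ∉ fr x → xa l = x l := fun l h1 h2 => hna.2 l (by simp [h1, h2])
  have vc : ∀ l, l ≠ k → l ∉ fr x → xc l = x l := fun l h1 h2 => hnc.2 l (by simp [h1, h2])
  -- the labels entering at xa and at xc
  obtain ⟨i', hi'x, hi'a, hfa⟩ := nb_fr hx hxa hna hia
  obtain ⟨c', hc'x, hc'c, hfc⟩ := nb_fr hx hxc hnc hkc
  have hi'k : i' ≠ k := fun hh => hkt (hh ▸ hi'x)
  have hc'k : c' ≠ k := fun hh => hkt (hh ▸ hc'x)
  have hc'i : c' ≠ i := fun hh => hit (hh ▸ hc'x)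
  -- x is a neighbour of xa
  have hnax : Nb xa x i' := by
    refine ⟨hi'a, fun l hl => ?_⟩
    rw [Finset.mem_insert, not_or, hfa, Finset.mem_insert, not_or, Finset.mem_erase] at hl
    have : l ∉ fr x := fun hh => hl.2.2 ⟨hl.1, hh⟩
    exact (va l hl.2.1 this).symm
  -- the entering labels are different
  have hdiff : xa c' ≠ xc c' := by
    intro hcon
    -- then xc is the neighbour of xa via k
    have hc'a : c' ∉ fr xa := by
      have := (not_mem_fr xc hxc.1.1 c').mp hc'c
      rw [mem_fr, hcon]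
      rcases this with h | h <;> rw [h] <;> norm_num
    have hc'i' : c' = i' := by
      by_contra hne
      exact hc'a (by rw [hfa, Finset.mem_insert, Finset.mem_erase]; exact Or.inr ⟨hne, hc'x⟩)
    have hnk : Nb xa xc k := by
      refine ⟨hn2.1, fun l hl => ?_⟩
      rw [Finset.mem_insert, not_or, hfa, Finset.mem_insert, not_or, Finset.mem_erase] at hl
      by_cases hlc : l = c'
      · rw [hlc, hcon]
      · have hlx : l ∉ fr x := fun hh => hl.2.2 ⟨fun h => hlc (h.trans hc'i'.symm), hh⟩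
        rw [vc l hl.1 hlx, va l hl.2.1 hlx]
    have := h.edge_uniq hxa hxc hx2 hnk hn2 hkc hk2
    exact hec (by rw [this]; exact he)
  set s' : ℝ := xc c' with hs'
  have hs'1 : s' = 1 ∨ s' = -1 := (not_mem_fr xc hxc.1.1 c').mp hc'c
  have hxc' : x c' ≠ s' := by
    intro hh
    rw [mem_fr, hh] at hc'x
    rcases hs'1 with h | h <;> rw [h] at hc'x <;> norm_num at hc'x
  have hx2c' : x2 c' ≠ s' := by
    intro hh
    have ht : c' ∉ fr x2 := by
      rw [mem_fr, hh]
      rcases hs'1 with h | h <;> rw [h] <;> norm_num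
    by_cases hce : c' = e
    · exact hec (by rw [← hce, ← hs', ← hh, hce]; exact he)
    · -- c' is tight at xa
      have hct : c' ∉ fr xa := by
        intro hcf
        -- the tight labels of x2 are those of xa except k, and e
        obtain ⟨j2, hj2a, hj22, hf2⟩ := nb_fr hxa hx2 hn2 hk2
        have he2 : e ∉ fr x2 := by
          rw [mem_fr, he]; rcases hs with h | h <;> rw [h] <;> norm_num
        have hje : j2 = e := by
          by_contra hne
          have hek : e ≠ k := fun hh => he2 (hh ▸ hk2)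
          have : e ∉ fr xa := fun hh => he2 (by
            rw [hf2, Finset.mem_insert, Finset.mem_erase]; exact Or.inr ⟨Ne.symm hne, hh⟩)
          exact hea (by rw [← hn2.2 e (by simp [hek, this])]; exact he)
        exact ht (by
          rw [hf2, Finset.mem_insert, Finset.mem_erase, hje]; exact Or.inr ⟨hce, hcf⟩)
      exact hdiff (by rw [← hn2.2 c' (by simp [hc'k, hct]), hh])
  have h2 := chain_lt h hf hL hm hM hxa hx hx2 hxc hnax hn2 hnc hi'k hi'x hk2 hkc hs'1 hs'.symm
    hdiff hxc' hx2c'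
  rw [va k hik.symm hkt] at h2
  linarith

/-- Some used label has a coordinate `≥ 59/250` at a vertex at which it is free. -/
theorem exists_fifth (h : St v g m) (hf : Far v g) (hL : Lng v m) (hm : 4 ≤ m) :
    ∃ x j, Vx v g x ∧ Used v g j ∧ j ∈ fr x ∧ 59 / 250 ≤ |x j| := by
  by_contra hcon
  have hM : ∀ x, Vx v g x → ∀ j, Used v g j → j ∈ fr x → |x j| < 59 / 250 := by
    intro x hx j hu hj
    by_contra hlt
    exact hcon ⟨x, j, hx, hu, hj, not_lt.mp hlt⟩
  -- a tight label of a neighbour with the old value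
  have hsame : ∀ x x' i, Vx v g x → Vx v g x' → Nb x x' i → i ∉ fr x' → x' = x := by
    intro x x' i hx hx' hn hi
    refine h.uniq hx hx' fun l hl => ?_
    by_cases hli : l = i
    · subst hli
      have h1 := (not_mem_fr x' hx'.1.1 l).mp hi
      have h2 := (not_mem_fr x hx.1.1 l).mp hn.1
      have h4 := h.no_opp1 hx hx' hn
      rcases h1 with h1 | h1 <;> rcases h2 with h2 | h2
      · rw [h1, h2]
      · exact absurd (by rw [h1, h2, neg_neg]) h4
      · exact absurd (by rw [h1, h2]) h4
      · rw [h1, h2]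
    · exact hn.2 l (by simp [hli, hl])
  -- the labels of a vertex and its neighbours
  let L : (κ → ℝ) → κ → ℝ → Prop := fun x j s => ∃ x' i, Vx v g x' ∧ Nb x x' i ∧ x' j = s
  have hself : ∀ x, Vx v g x → ∀ j s, x j = s → L x j s := by
    intro x hx j s hj
    obtain ⟨i, hi⟩ : ((fr x)ᶜ).Nonempty := by
      rw [← Finset.card_pos, h.card_tight hx]; omega
    exact ⟨x, i, hx, ⟨Finset.mem_compl.mp hi, fun _ _ => rfl⟩, hj⟩
  have key : ∀ x, Vx v g x → ∀ i xa, Vx v g xa → Nb x xa i → ∀ e s, (s = 1 ∨ s = -1) →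
      L xa e s → L x e s := by
    intro x hx i xa hxa hna e s hs hL'
    obtain ⟨x2, k, hx2, hn2, he⟩ := hL'
    by_cases hex : x e = s
    · exact hself x hx e s hex
    by_cases hea : xa e = s
    · exact ⟨xa, i, hxa, hna, hea⟩
    by_cases hia : i ∈ fr xa
    swap
    · have h5 := hsame x xa i hx hxa hna hia
      subst h5
      exact ⟨x2, k, hx2, hn2, he⟩
    by_cases hk2 : k ∈ fr x2
    swap
    · have h5 := hsame xa x2 k hxa hx2 hn2 hk2
      subst h5
      exact absurd he hea
    by_cases hkx : k ∈ fr x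
    · refine ⟨x2, i, hx2, ⟨hna.1, fun l hl => ?_⟩, he⟩
      rw [Finset.mem_insert, not_or] at hl
      have hlk : l ≠ k := fun hh => hl.2 (hh ▸ hkx)
      have h6 : xa l = x l := hna.2 l (by simp [hl.1, hl.2])
      have h7 : l ∉ fr xa := by rw [mem_fr, h6, ← mem_fr]; exact hl.2
      rw [hn2.2 l (by simp [hlk, h7]), h6]
    · have hik : i ≠ k := fun hh => hn2.1 (hh ▸ hia)
      obtain ⟨xc, hxc, hnc, hkc, -⟩ := h.piv hx hkx
      by_cases hec : xc e = s
      · exact ⟨xc, k, hxc, hnc, hec⟩
      · exact (polygon_old h hf hL hm hM hx hxa hxc hx2 hna hnc hn2 hik hia hkc hk2 hs he hex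
          hea hec).elim
  obtain ⟨x0, hx0⟩ := h.ne
  obtain ⟨w, hw, hwc⟩ := h.cs x0 hx0
  obtain ⟨i, hi⟩ : ((fr x0)ᶜ).Nonempty := by
    rw [← Finset.card_pos, h.card_tight hx0]; omega
  rw [Finset.mem_compl] at hi
  have hS := h.conn (fun x => ∀ e s, (s = 1 ∨ s = -1) → L x e s → L x0 e s) hx0
    (fun _ _ _ hh => hh) (fun x hx hSx j x' hx' hn e s hs hh =>
      hSx e s hs (key x hx j x' hx' hn e s hs hh)) hw
  have h2 := (not_mem_fr x0 hx0.1.1 i).mp hi
  obtain ⟨x', j, hx', hn, he⟩ := hS i (- x0 i)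
    (by rcases h2 with h2 | h2 <;> rw [h2] <;> norm_num) (hself w hw i _ (hwc i hi))
  by_cases hij : i = j
  · subst hij
    exact h.no_opp1 hx0 hx' hn he
  · have h3 := hn.2 i (by simp [hij, hi])
    rw [h3] at he
    rcases h2 with h2 | h2 <;> rw [h2] at he <;> norm_num at he

/-- The edge. -/
theorem exists_edge (h : St v g m) (hf : Far v g) (hL : Lng v m) (hm : 4 ≤ m) :
    ∃ (x x' : κ → ℝ) (i j : κ), Vx v g x ∧ Vx v g x' ∧ Nb x x' i ∧ i ∈ fr x' ∧ j ∈ fr x ∧
      j ∉ fr x' ∧ fr x' = insert i ((fr x).erase j) ∧ 1 - x' j * x j ≤ 191 / 250 ∧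
      1 - x' j * x j ≤ 1 - x i * x' i ∧ 1 - x i * x' i ≤ 2 - (1 - x' j * x j) := by
  classical
  -- the maximal coordinate
  have hfin : {q : (κ → ℝ) × κ | Vx v g q.1 ∧ Used v g q.2 ∧ q.2 ∈ fr q.1}.Finite := by
    have hfx : {x : κ → ℝ | Vx v g x}.Finite := by
      refine Set.Finite.of_finite_image (f := fun x => ex (1 : ℝ) x) (h.gp.finite.subset ?_) ?_
      · rintro _ ⟨x, hx, rfl⟩
        exact (bas_ex x).mpr hx
      · intro x _ x' _ hxx
        funext k
        exact congrFun hxx (some k)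
    exact (hfx.prod (Set.toFinite (Set.univ : Set κ))).subset fun q hq =>
      ⟨hq.1, Set.mem_univ _⟩
  obtain ⟨x0, j0, hx0, hu0, hj0, h50⟩ := exists_fifth h hf hL hm
  obtain ⟨⟨x, j⟩, ⟨hx, hu, hj⟩, hmax⟩ := Set.exists_max_image _
    (fun q : (κ → ℝ) × κ => |q.1 q.2|) hfin ⟨(x0, j0), hx0, hu0, hj0⟩
  simp only at hx hu hj hmax
  have hM5 : 59 / 250 ≤ |x j| := h50.trans (hmax (x0, j0) ⟨hx0, hu0, hj0⟩)
  have hM1 : |x j| < 1 := (mem_fr x j).mp hj
  -- the sign of x j
  obtain ⟨s, hs, hsx⟩ : ∃ s : ℝ, (s = 1 ∨ s = -1) ∧ s * x j = |x j| := by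
    rcases le_total 0 (x j) with h1 | h1
    · exact ⟨1, Or.inl rfl, by rw [one_mul, abs_of_nonneg h1]⟩
    · exact ⟨-1, Or.inr rfl, by rw [abs_of_nonpos h1]; ring⟩
  have hss : s * s = 1 := by rcases hs with h | h <;> rw [h] <;> norm_num
  -- a vertex with s * w j = 1
  obtain ⟨w, hw, hwj⟩ : ∃ w, Vx v g w ∧ s * w j = 1 := by
    obtain ⟨w, hw, hwj⟩ := hu
    have h1 := (not_mem_fr w hw.1.1 j).mp hwj
    obtain ⟨w', hw', hc⟩ := h.cs w hw
    have h2 := hc j hwj
    rcases hs with h3 | h3 <;> rcases h1 with h1 | h1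
    · exact ⟨w, hw, by rw [h3, h1]; norm_num⟩
    · exact ⟨w', hw', by rw [h3, h2, h1]; norm_num⟩
    · exact ⟨w', hw', by rw [h3, h2, h1]; norm_num⟩
    · exact ⟨w, hw, by rw [h3, h1]; norm_num⟩
  -- an improving neighbour
  obtain ⟨i, x1, hx1, hn1, himp⟩ : ∃ i x', Vx v g x' ∧ Nb x x' i ∧ s * x j < s * x' j := by
    by_contra hcon
    push Not at hcon
    have h1 := h.opt hx (fun k => if k = j then s else 0) (fun i x' hx' hn => by
      simp only [ite_mul, zero_mul, Finset.sum_ite_eq', Finset.mem_univ, if_true]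
      exact hcon i x' hx' hn) hw.1
    simp only [ite_mul, zero_mul, Finset.sum_ite_eq', Finset.mem_univ, if_true] at h1
    rw [hwj, hsx] at h1
    linarith
  -- it is the pivot
  have hji : j ≠ i := fun hh => hn1.1 (hh ▸ hj)
  have hi1 : i ∈ fr x1 := by
    by_contra hcon
    have h1 := (not_mem_fr x1 hx1.1.1 i).mp hcon
    have h2 := (not_mem_fr x hx.1.1 i).mp hn1.1
    have h4 := h.no_opp1 hx hx1 hn1
    have h3 : x1 i = x i := by
      rcases h1 with h1 | h1 <;> rcases h2 with h2 | h2
      · rw [h1, h2]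
      · exact absurd (by rw [h1, h2, neg_neg]) h4
      · exact absurd (by rw [h1, h2]) h4
      · rw [h1, h2]
    have h5 : x1 = x := h.uniq hx hx1 fun l hl => by
      by_cases hli : l = i
      · rw [hli, h3]
      · exact hn1.2 l (by simp [hli, hl])
    rw [h5] at himp
    exact lt_irrefl _ himp
  have hj1 : j ∉ fr x1 := by
    intro hcon
    have h1 := hmax (x1, j) ⟨hx1, hu, hcon⟩
    simp only at h1
    have h2 : s * x1 j ≤ |x1 j| := by
      rcases hs with h | h <;> rw [h]
      · rw [one_mul]; exact le_abs_self _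
      · rw [neg_one_mul]; exact neg_le_abs _
    linarith
  have hx1j : x1 j = s := by
    have h1 := (not_mem_fr x1 hx1.1.1 j).mp hj1
    rcases h1 with h1 | h1 <;> rcases hs with h2 | h2
    · rw [h1, h2]
    · rw [hsx, h1, h2] at himp; linarith [abs_nonneg (x j)]
    · rw [hsx, h1, h2] at himp; linarith [abs_nonneg (x j)]
    · rw [h1, h2]
  -- the free set
  have hfr : fr x1 = insert i ((fr x).erase j) := by
    have hsub : fr x1 ⊆ insert i ((fr x).erase j) := by
      intro l hl
      rw [Finset.mem_insert, Finset.mem_erase]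
      by_cases hli : l = i
      · exact Or.inl hli
      · right
        refine ⟨fun hh => hj1 (hh ▸ hl), ?_⟩
        by_contra hlx
        have := hn1.2 l (by simp [hli, hlx])
        rw [mem_fr, this, ← mem_fr] at hl
        exact hlx hl
    refine Finset.eq_of_subset_of_card_le hsub ?_
    rw [Finset.card_insert_of_notMem (by rw [Finset.mem_erase]; exact fun hh => hn1.1 hh.2),
      Finset.card_erase_of_mem hj, hx.2, hx1.2]
    have : 0 < (fr x).card := Finset.card_pos.mpr ⟨j, hj⟩
    rw [hx.2] at this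
    omega
  have hui : Used v g i := ⟨x, hx, hn1.1⟩
  have hxi := (not_mem_fr x hx.1.1 i).mp hn1.1
  have hMi := hmax (x1, i) ⟨hx1, hui, hi1⟩
  simp only at hMi
  have hab := abs_le.mp hMi
  refine ⟨x, x1, i, j, hx, hx1, hn1, hi1, hj, hj1, hfr, ?_, ?_, ?_⟩
  · rw [hx1j, hsx]; linarith
  · rw [hx1j, hsx]
    rcases hxi with h1 | h1 <;> rw [h1] <;> linarith [hab.1, hab.2]
  · rw [hx1j, hsx]
    rcases hxi with h1 | h1 <;> rw [h1] <;> linarith [hab.1, hab.2]

end

end Pool.Agent.Lib.MP_1be6c9_co.Fc
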