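import Pool.Agent.Lib.MP_1be6c9_co.Fc.BadAt
import Pool.Agent.Lib.MP_1be6c9_co.Fc.Edge

/-!
The laws at an edge of an irreducible state, in coordinates (note 2229 of helper38).
-/

namespace Pool.Agent.Lib.MP_1be6c9_co.Fc

open Finset Pool.Agent.Lib.MP_1be6c9_co

/-- The numerical data of an edge: `e` the eigenvalues of `V Vᵀ - 1` on the span of the `d - 1`
common free labels, `a`, `b`, `p` (and `af`, `bf`, `pf`) the coordinates of the end labels and of
the sum `p` of the common tight sum and of both end labels; `A = 1 - x'_a`, `B = 1 - x_b`. -/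
structure EData {n : ℕ} (e a b p : Fin n → ℝ) (af bf pf A B P T : ℝ) : Prop where
  sum_e : ∑ i, e i = 0
  T_eq : T = ∑ i, max (-e i) 0
  lo : ∀ i, -(P / 2) < e i
  abs_e : ∀ i, |e i| ≤ T
  norm_a : ∑ i, a i ^ 2 + af ^ 2 = 1
  norm_b : ∑ i, b i ^ 2 + bf ^ 2 = 1
  norm_p : ∑ i, p i ^ 2 + pf ^ 2 = P
  far : |∑ i, a i * b i + af * bf| < 1 / 2
  pfA : pf = A * af
  pfB : pf = B * bf
  pf_pos : 0 < pf
  Da : P < 2 * (∑ i, p i * a i + pf * af)
  Db : P < 2 * (∑ i, p i * b i + pf * bf)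
  B_pos : 0 < B
  B_le : B ≤ 191 / 250
  BA : B ≤ A
  A_le : A ≤ 2 - B
  P_lt : P < 43 / 50
  lawT : T + (1 - P / 2) * ∑ i, p i ^ 2 / (1 + e i) < pf ^ 2
  lawT1 : T + (1 - T) * ∑ i, p i ^ 2 / (1 + e i) < pf ^ 2
  lawQ : ∑ i, p i ^ 2 * (1 + e i) / (e i + P / 2) < P / 2
  lawNa : 4 - P - 4 * (2 - A) * af ^ 2 <
    ∑ i, (4 * (e i ^ 2 - e i) * a i ^ 2 + 4 * (e i * (a i * p i)))
  lawNb : 4 - P - 4 * (2 - B) * bf ^ 2 <
    ∑ i, (4 * (e i ^ 2 - e i) * b i ^ 2 + 4 * (e i * (b i * p i)))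
  lawC : ∀ κ, κ * (1 - (∑ i, a i * b i + af * bf)) = 1 →
    A * (2 * (∑ i, p i * a i + pf * af) - P) + B * (2 * (∑ i, p i * b i + pf * bf) - P) + B * P <
    κ * (-2 * ∑ i, (A * a i - B * b i) * (e i * (a i - b i)) +
      A * κ * ∑ i, (e i + e i ^ 2) * (a i - b i) ^ 2)
  /-- The sum of two laws (helper26). -/
  lawC0 : ∀ κ, κ * (1 - (∑ i, a i * b i + af * bf)) = 1 →
    2 * (∑ i, p i * a i + pf * af) + 2 * (∑ i, p i * b i + pf * bf) - P -
      2 * κ * (bf - af) ^ 2 <
    κ * ((κ - 2) * ∑ i, e i * (a i - b i) ^ 2 + κ * ∑ i, e i ^ 2 * (a i - b i) ^ 2)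
  /-- The kernel law. -/
  lawK : ∀ u : Fin n → ℝ, 0 < P * (1 + ∑ i, (1 + e i) * u i ^ 2) +
    4 * ∑ i, (1 + e i) * (p i * u i) + 2 * ∑ i, (1 + e i) ^ 2 * u i ^ 2 -
    2 * ∑ i, (1 + e i) * u i ^ 2
  /-- The mean of the vertex. -/
  lawX : ∑ i, (B * b i - p i) ^ 2 / (1 + e i) < 1
  /-- The deficit law with an arbitrary mean. -/
  lawTu : ∀ u : Fin n → ℝ, ∑ i, (1 + e i) * u i ^ 2 ≤ 1 → ∀ lam, (∀ j, lam ≤ 1 + e j) →
    T + lam * ∑ i, (1 + e i) * u i ^ 2 < pf ^ 2 + ∑ i, (p i + (1 + e i) * u i) ^ 2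
  /-- The deficit law with the mean of the vertex. -/
  lawTx : ∀ lam, (∀ j, lam ≤ 1 + e j) →
    T + lam * ∑ i, (B * b i - p i) ^ 2 / (1 + e i) < B ^ 2

section

variable {κ E : Type*} [Fintype κ] [DecidableEq κ] [NormedAddCommGroup E] [InnerProductSpace ℝ E]
  {v : κ → E} {g : E} {m : ℕ}

/-- The bad offsets at a vertex. -/
theorem St.bad_edge (h : St v g m) {x : κ → ℝ} (hx : Vx v g x) {i j : κ} (hi : i ∉ fr x)
    (hj : j ∈ fr x) {s y : ℝ} (hs : s = 1 ∨ s = -1) (hy : y = 1 ∨ y = -1) :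
    BadAt v ((fr x).erase j) (tot v g x - x i • v i + s • (x i • v i) + y • v j) := by
  intro η hη
  have hij : i ≠ j := fun e => hi (e ▸ hj)
  have hxi := (not_mem_fr x hx.1.1 i).mp hi
  set σ : κ → ℝ := fun k => if k = i then s * x i else if k = j then y else x k with hσ
  have h1 := h.bad_F ((fr x).erase j) (σ := σ) (fun k hk => by
    simp only [hσ]
    by_cases h1 : k = i
    · rw [if_pos h1]
      rcases hs with h | h <;> rcases hxi with h' | h' <;> rw [h, h'] <;> norm_num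
    · rw [if_neg h1]
      by_cases h2 : k = j
      · rw [if_pos h2]; exact hy
      · rw [if_neg h2]
        rw [Finset.mem_erase, not_and_or, not_not] at hk
        rcases hk with hk | hk
        · exact absurd hk h2
        · exact (not_mem_fr x hx.1.1 k).mp hk) η hη
  have e1 : ((fr x).erase j)ᶜ = insert j (fr x)ᶜ := by
    ext k
    rw [Finset.mem_compl, Finset.mem_erase, Finset.mem_insert, Finset.mem_compl]
    tauto
  have e2 : ∑ k ∈ ((fr x).erase j)ᶜ, σ k • v k =
      y • v j + (s • (x i • v i) + ∑ k ∈ (fr x)ᶜ.erase i, x k • v k) := by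
    rw [e1, Finset.sum_insert (by rw [Finset.mem_compl, not_not]; exact hj),
      ← Finset.add_sum_erase _ _ (Finset.mem_compl.mpr hi)]
    congr 1
    · simp only [hσ, if_neg hij.symm, if_true]
    · congr 1
      · simp only [hσ, if_true, mul_smul]
      · refine Finset.sum_congr rfl fun k hk => ?_
        rw [Finset.mem_erase, Finset.mem_compl] at hk
        have hkj : k ≠ j := fun e => hk.2 (e ▸ hj)
        simp only [hσ, if_neg hk.1, if_neg hkj]
  have e3 : g + ∑ k ∈ ((fr x).erase j)ᶜ, σ k • v k =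
      tot v g x - x i • v i + s • (x i • v i) + y • v j := by
    rw [e2, tot_eq hx.1, ← Finset.add_sum_erase _ _ (Finset.mem_compl.mpr hi)]
    abel
  rw [e3] at h1
  exact h1

/-- The free labels of a vertex are independent. -/
theorem St.free_ind [FiniteDimensional ℝ E] (h : St v g m) {x : κ → ℝ} (hx : Vx v g x)
    {G : Finset κ} (hG : G ⊆ fr x) (u : κ → ℝ) (hu : ∑ i ∈ G, u i • v i = 0) :
    ∀ i ∈ G, u i = 0 := by
  have h1 := h.gp.inj ((bas_ex x).mpr hx) (z := ex 0 (fun k => if k ∈ G then u k else 0)) (by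
    rw [sum_ex, zero_smul, zero_add, ← hu]
    simp only [ite_smul, zero_smul]
    rw [Finset.sum_ite_mem, Finset.univ_inter]) (fun o ho => by
      cases o with
      | none => rfl
      | some k =>
        rw [mem_fr_ex] at ho
        rw [ex_some, if_neg fun hk => ho (hG hk)])
  intro i hi
  have := congrFun h1 (some i)
  rw [ex_some, if_pos hi] at this
  exact this

end

/-- The scalar part of the bound for `P`. -/
theorem P_bound {B T X W P q t h : ℝ} (hB0 : 0 < B) (hB : B ≤ 191 / 250) (hT0 : 0 ≤ T)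
    (hTB : T < B ^ 2) (_hX0 : 0 ≤ X) (hT : T + (1 - T) * X < B ^ 2) (hW0 : 0 ≤ W)
    (hW : W ^ 2 ≤ (1 + T) * X) (_hP0 : 0 ≤ P) (hPq : q = P / 2) (hPW : P ≤ (B + W) ^ 2)
    (hh : h = P - t) (ht : t ≤ B ^ 2)
    (hQ1 : 1 ≤ q → h * (1 - T) < q * (q - T)) (hQ2 : q < 1 → h * (1 + T) < q * (q + T)) :
    P < 43 / 50 := by
  have hB2 : B ^ 2 ≤ 73 / 125 := by nlinarith
  have hT1 : T < 73 / 125 := by linarith
  have hW2 : W ^ 2 < 3 / 5 := by
    have h1 : (1 - T) * W ^ 2 ≤ (1 + T) * ((1 - T) * X) := by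
      have := mul_le_mul_of_nonneg_left hW (by linarith : (0 : ℝ) ≤ 1 - T)
      linarith
    have h2 : (1 + T) * ((1 - T) * X) ≤ (1 + T) * (73 / 125 - T) :=
      mul_le_mul_of_nonneg_left (by linarith) (by linarith)
    have h3 : (1 + T) * (73 / 125 - T) < 3 / 5 * (1 - T) := by
      nlinarith [sq_nonneg (T - 23 / 250)]
    by_contra hcon
    push Not at hcon
    nlinarith [mul_le_mul_of_nonneg_left hcon (by linarith : (0 : ℝ) ≤ 1 - T)]
  have hW1 : W < 3873 / 5000 := by nlinarith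
  have hP2 : P < 1184 / 500 := by nlinarith
  by_contra hcon
  push Not at hcon
  rcases le_or_gt 1 q with h1 | h1
  · have h2 := hQ1 h1
    have hq : q < 1184 / 1000 := by linarith
    have h3 : (2 * q - 73 / 125) * (1 - T) ≤ h * (1 - T) :=
      mul_le_mul_of_nonneg_right (by linarith) (by linarith)
    nlinarith [mul_nonneg hT0 (by linarith : (0 : ℝ) ≤ q - 73 / 125),
      mul_nonneg (by linarith : (0 : ℝ) ≤ 73 / 125 - T) (by linarith : (0 : ℝ) ≤ q - 73 / 125),
      mul_nonneg (by linarith : (0 : ℝ) ≤ q - 1) (by linarith : (0 : ℝ) ≤ 1184 / 1000 - q)]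
  · have h2 := hQ2 h1
    have h3 : (P - 73 / 125) * (1 + T) ≤ h * (1 + T) :=
      mul_le_mul_of_nonneg_right (by linarith) (by linarith)
    have h4 : q * (q + T) * (198 / 125) ≤ q * (q + 73 / 125) * (1 + T) := by
      have h5 : (q + T) * (198 / 125) ≤ (q + 73 / 125) * (1 + T) := by
        nlinarith [mul_nonneg (by linarith : (0 : ℝ) ≤ 1 - q)
          (by linarith : (0 : ℝ) ≤ 73 / 125 - T)]
      have h6 := mul_le_mul_of_nonneg_left h5 (by linarith : (0 : ℝ) ≤ q)
      linarith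
    have h7 : (P - 73 / 125) * (198 / 125) * (1 + T) < q * (q + 73 / 125) * (1 + T) := by
      nlinarith
    have h8 : (P - 73 / 125) * (198 / 125) < q * (q + 73 / 125) :=
      lt_of_mul_lt_mul_right h7 (by linarith)
    subst hPq
    nlinarith [mul_nonneg (by linarith : (0 : ℝ) ≤ P - 43 / 50)
      (by linarith : (0 : ℝ) ≤ 2 - P)]

section

variable {κ E : Type*} [Fintype κ] [DecidableEq κ] [NormedAddCommGroup E] [InnerProductSpace ℝ E]
  {v : κ → E} {n : ℕ}

/-- Bounds in the coordinates of the basis which only need two bad offsets. -/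
theorem Spec.P_lt [FiniteDimensional ℝ E] {G : Finset κ}
    {b : OrthonormalBasis (Option (Fin n)) ℝ E} {lam : Fin n → ℝ} (S : Spec v G b lam)
    (hv : ∀ k, ‖v k‖ = 1) (hG : G.card + 1 = Module.finrank ℝ E) {p β : E} {B : ℝ}
    (h : BadAt v G p) (hβ : ‖β‖ = 1) (hB0 : 0 < B) (hB : B ≤ 191 / 250) {x : κ → ℝ}
    (hx : ∀ i ∈ G, |x i| ≤ 1) (hp : p = B • β - ∑ i ∈ G, x i • v i) :
    ‖p‖ ^ 2 < 43 / 50 ∧ ∑ a, max (1 - lam a) 0 < B ^ 2 := by
  set T := ∑ a, max (1 - lam a) 0 with hT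
  have hT0 : 0 ≤ T := Finset.sum_nonneg fun a _ => le_max_right _ _
  have hlT : ∀ a, 1 - T ≤ lam a := by
    intro a
    have h1 : max (1 - lam a) 0 ≤ T :=
      Finset.single_le_sum (f := fun a => max (1 - lam a) 0) (fun a _ => le_max_right _ _)
        (Finset.mem_univ a)
    have := le_max_left (1 - lam a) 0
    linarith
  have hsum : ∑ a, (lam a - 1) = 0 := by
    rw [Finset.sum_sub_distrib, S.tr]; simp
  have huT : ∀ a, lam a ≤ 1 + T := by
    intro a
    have h2 : T = ∑ a, max (lam a - 1) 0 := by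
      have : ∑ a, max (lam a - 1) 0 - T = ∑ a, (lam a - 1) := by
        rw [hT, ← Finset.sum_sub_distrib]
        refine Finset.sum_congr rfl fun a _ => ?_
        rcases le_total (lam a) 1 with h | h
        · rw [max_eq_right (by linarith), max_eq_left (by linarith)]; ring
        · rw [max_eq_left (by linarith), max_eq_right (by linarith)]; ring
      linarith
    have h1 : max (lam a - 1) 0 ≤ T := by
      rw [h2]
      exact Finset.single_le_sum (f := fun a => max (lam a - 1) 0) (fun a _ => le_max_right _ _)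
        (Finset.mem_univ a)
    have := le_max_left (lam a - 1) 0
    linarith
  have hpx : p + ∑ i ∈ G, x i • v i = B • β := by rw [hp]; abel
  have hBn : ‖B • β‖ ^ 2 = B ^ 2 := by
    rw [norm_smul, hβ, mul_one, Real.norm_eq_abs, sq_abs]
  have t1 := S.tlaw hv h (lam0 := 0) (fun a => (S.pos a).le) hx
  have t2 := S.tlaw hv h (lam0 := 1 - T) hlT hx
  rw [hpx, hBn, ← hT] at t1 t2
  rw [zero_mul, add_zero] at t1
  set X := ∑ i ∈ G, x i ^ 2 with hX
  have hX0 : 0 ≤ X := Finset.sum_nonneg fun i _ => sq_nonneg _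
  have hW := S.up huT x
  rw [← hX] at hW
  set h' := ∑ a, inner ℝ p (b (some a)) ^ 2 with hh'
  have hPc : ‖p‖ ^ 2 = inner ℝ p (b none) ^ 2 + h' := norm_coord b p
  have hpn : inner ℝ p (b none) = B * inner ℝ β (b none) := by
    rw [hp, inner_sub_left, inner_smul_left, sum_inner, Finset.sum_eq_zero (fun k hk => by
      rw [inner_smul_left, real_inner_comm, S.normal hk, mul_zero])]
    simp
  have hβn : inner ℝ β (b none) ^ 2 ≤ 1 := by
    have h1 := norm_coord b β
    rw [hβ] at h1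
    have : 0 ≤ ∑ a, inner ℝ β (b (some a)) ^ 2 := Finset.sum_nonneg fun a _ => sq_nonneg _
    linarith
  have ht : inner ℝ p (b none) ^ 2 ≤ B ^ 2 := by
    rw [hpn, mul_pow]
    nlinarith [sq_nonneg B]
  have hQ := S.qlaw hv hG h
  have hlo := S.lam_gt hv hG h
  set P := ‖p‖ ^ 2 with hP
  have hB1 : B ^ 2 < 1 := by nlinarith
  have hT1 : T < 1 := by linarith
  refine ⟨?_, t1⟩
  refine P_bound (q := P / 2) (t := inner ℝ p (b none) ^ 2) (h := h')
    (W := ‖∑ i ∈ G, x i • v i‖) hB0 hB hT0 t1 hX0 t2 (norm_nonneg _) hW (sq_nonneg _) rfl ?_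
    (by linarith) ht ?_ ?_
  · have h1 : ‖p‖ ≤ B + ‖∑ i ∈ G, x i • v i‖ := by
      have h2 := norm_sub_le (B • β) (∑ i ∈ G, x i • v i)
      rw [← hp, norm_smul, hβ, mul_one, Real.norm_eq_abs, abs_of_pos hB0] at h2
      exact h2
    exact pow_le_pow_left₀ (norm_nonneg _) h1 2
  · intro hq
    have hpos : 0 < P / 2 - T := by linarith
    have h1 : h' * ((1 - T) / (P / 2 - T)) ≤
        ∑ a, inner ℝ p (b (some a)) ^ 2 * lam a / (lam a - 1 + P / 2) := by
      rw [hh', Finset.sum_mul]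
      refine Finset.sum_le_sum fun a _ => ?_
      have h3 : 0 < lam a - 1 + P / 2 := by linarith [hlo a]
      rw [mul_div_assoc]
      refine mul_le_mul_of_nonneg_left ?_ (sq_nonneg _)
      rw [div_le_div_iff₀ hpos h3]
      nlinarith [mul_nonneg (sub_nonneg.mpr hq) (sub_nonneg.mpr (hlT a))]
    have h2 := lt_of_le_of_lt h1 hQ
    rw [mul_div_assoc', div_lt_iff₀ hpos] at h2
    linarith
  · intro hq
    have hpos : 0 < P / 2 + T := by
      have : 0 ≤ P := sq_nonneg _
      rcases Nat.eq_zero_or_pos n with hn | hn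
      · subst hn
        have h1 : h' = 0 := by rw [hh']; simp
        have h0 := hQ
        simp only [Finset.univ_eq_empty, Finset.sum_empty] at h0
        linarith
      · have := hlo ⟨0, hn⟩
        have := huT ⟨0, hn⟩
        linarith
    have h1 : h' * ((1 + T) / (P / 2 + T)) ≤
        ∑ a, inner ℝ p (b (some a)) ^ 2 * lam a / (lam a - 1 + P / 2) := by
      rw [hh', Finset.sum_mul]
      refine Finset.sum_le_sum fun a _ => ?_
      have h3 : 0 < lam a - 1 + P / 2 := by linarith [hlo a]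
      rw [mul_div_assoc]
      refine mul_le_mul_of_nonneg_left ?_ (sq_nonneg _)
      rw [div_le_div_iff₀ hpos h3]
      nlinarith [mul_nonneg (sub_nonneg.mpr hq.le) (sub_nonneg.mpr (huT a))]
    have h2 := lt_of_le_of_lt h1 hQ
    rw [mul_div_assoc', div_lt_iff₀ hpos] at h2
    linarith

omit [Fintype κ] [DecidableEq κ] in
/-- The sum of the negative parts bounds all eigenvalues. -/
theorem Spec.abs_le {G : Finset κ} {b : OrthonormalBasis (Option (Fin n)) ℝ E} {lam : Fin n → ℝ}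
    (S : Spec v G b lam) (a : Fin n) : |lam a - 1| ≤ ∑ a, max (1 - lam a) 0 := by
  set T := ∑ a, max (1 - lam a) 0 with hT
  have hsum : ∑ a, (lam a - 1) = 0 := by
    rw [Finset.sum_sub_distrib, S.tr]; simp
  have h0 : max (1 - lam a) 0 ≤ T :=
    Finset.single_le_sum (f := fun a => max (1 - lam a) 0) (fun a _ => le_max_right _ _)
      (Finset.mem_univ a)
  have h2 : T = ∑ a, max (lam a - 1) 0 := by
    have : ∑ a, max (lam a - 1) 0 - T = ∑ a, (lam a - 1) := by
      rw [hT, ← Finset.sum_sub_distrib]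
      refine Finset.sum_congr rfl fun a _ => ?_
      rcases le_total (lam a) 1 with h | h
      · rw [max_eq_right (by linarith), max_eq_left (by linarith)]; ring
      · rw [max_eq_left (by linarith), max_eq_right (by linarith)]; ring
    linarith
  have h1 : max (lam a - 1) 0 ≤ T := by
    rw [h2]
    exact Finset.single_le_sum (f := fun a => max (lam a - 1) 0) (fun a _ => le_max_right _ _)
      (Finset.mem_univ a)
  have h3 := le_max_left (lam a - 1) 0
  have h4 := le_max_left (1 - lam a) 0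
  rw [_root_.abs_le]
  constructor <;> linarith

/-- The deficit law with the mean `- Vᵀ (V Vᵀ)⁻¹ p`. -/
theorem Spec.lawT [FiniteDimensional ℝ E] {G : Finset κ}
    {b : OrthonormalBasis (Option (Fin n)) ℝ E} {lam : Fin n → ℝ} (S : Spec v G b lam)
    (hv : ∀ k, ‖v k‖ = 1) (hG : G.card + 1 = Module.finrank ℝ E) {p : E}
    (h : BadAt v G p) (hP : ‖p‖ ^ 2 < 43 / 50) :
    0 < ‖p‖ ^ 2 ∧ ∀ lam0, (∀ a, lam0 ≤ lam a) → ∑ a, max (1 - lam a) 0 + lam0 *
      ∑ a, inner ℝ p (b (some a)) ^ 2 / lam a < inner ℝ p (b none) ^ 2 := by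
  have hP0 : 0 < ‖p‖ ^ 2 := by
    have := S.klaw hv hG h 1 (fun _ => 0) (by simp)
    simpa using this
  refine ⟨hP0, fun lam0 hlT => ?_⟩
  set P := ‖p‖ ^ 2 with hPd
  set w : E := ∑ a, (-(inner ℝ p (b (some a)) / lam a)) • b (some a) with hw
  have hwa : ∀ a, inner ℝ w (b (some a)) = -(inner ℝ p (b (some a)) / lam a) := by
    intro a
    rw [hw, sum_inner, Finset.sum_eq_single a]
    · rw [inner_smul_left, real_inner_self_eq_norm_sq, b.orthonormal.1]; simp
    · intro c _ hc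
      rw [inner_smul_left, b.orthonormal.2 (fun h => hc (Option.some.inj h)), mul_zero]
    · exact fun h => absurd (Finset.mem_univ _) h
  set X := ∑ a, inner ℝ p (b (some a)) ^ 2 / lam a with hX
  set h' := ∑ a, inner ℝ p (b (some a)) ^ 2 with hh'
  have e1 : ∑ a, lam a * (-(inner ℝ p (b (some a)) / lam a)) ^ 2 = X := by
    refine Finset.sum_congr rfl fun a _ => ?_
    have := (S.pos a).ne'
    field_simp
  have e2 : ∑ a, lam a * (-(inner ℝ p (b (some a)) / lam a) * inner ℝ p (b (some a))) = -h' := by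
    rw [hh', ← Finset.sum_neg_distrib]
    refine Finset.sum_congr rfl fun a _ => ?_
    have := (S.pos a).ne'
    field_simp
  have e3 : ∑ a, lam a ^ 2 * (-(inner ℝ p (b (some a)) / lam a)) ^ 2 = h' := by
    refine Finset.sum_congr rfl fun a _ => ?_
    have := (S.pos a).ne'
    field_simp
  have hX0 : 0 ≤ X := Finset.sum_nonneg fun a _ => div_nonneg (sq_nonneg _) (S.pos a).le
  have hh0 : 0 ≤ h' := Finset.sum_nonneg fun a _ => sq_nonneg _
  have hX1 : X ≤ 1 := by
    rcases hh0.lt_or_eq with hh1 | hh1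
    · have h1 := S.klaw hv hG h (2 * h' / P) (fun a => -(inner ℝ p (b (some a)) / lam a)) (by
        rw [e1]
        have : 0 < 2 * h' / P := div_pos (by linarith) hP0
        positivity)
      rw [e1, e2, e3, ← hPd] at h1
      have e4 : ((2 * h' / P) ^ 2 + X) * P + 4 * (2 * h' / P) * -h' + 2 * h' - 2 * X
          = P / 4 - (P / 2 - 2 * h') ^ 2 / P - (2 - P) * X := by
        field_simp
        ring
      rw [e4] at h1
      have h2 : 0 ≤ (P / 2 - 2 * h') ^ 2 / P := div_nonneg (sq_nonneg _) hP0.le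
      nlinarith
    · have h1 := (Finset.sum_eq_zero_iff_of_nonneg (fun a _ => sq_nonneg _)).mp hh1.symm
      have : X = 0 := Finset.sum_eq_zero fun a ha => by rw [h1 a ha, zero_div]
      linarith
  have hsq : ∑ k ∈ G, inner ℝ w (v k) ^ 2 = X := by
    rw [S.sq, ← e1]
    exact Finset.sum_congr rfl fun a _ => by rw [hwa]
  have hx : ∀ k ∈ G, |inner ℝ w (v k)| ≤ 1 := by
    intro k hk
    have h1 : inner ℝ w (v k) ^ 2 ≤ ∑ k ∈ G, inner ℝ w (v k) ^ 2 :=
      Finset.single_le_sum (f := fun k => inner ℝ w (v k) ^ 2) (fun _ _ => sq_nonneg _) hk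
    rw [hsq] at h1
    exact abs_le_one_iff_mul_self_le_one.mpr (by nlinarith)
  have h1 := S.tlaw hv h hlT hx
  rw [hsq, norm_coord b] at h1
  simp only [inner_add_left, S.img_none, S.img_some, hwa] at h1
  have e5 : ∑ a, (inner ℝ p (b (some a)) + lam a * -(inner ℝ p (b (some a)) / lam a)) ^ 2 = 0 :=
    Finset.sum_eq_zero fun a _ => by
      have := (S.pos a).ne'
      field_simp
      ring
  rw [e5, add_zero, add_zero] at h1
  exact h1

/-- Any signed triple is long, in the form of a bound for inner products. -/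
theorem triple_bound {g : E} {m : ℕ} (h : St v g m) (hL : Lng v m) (hm : 4 ≤ m) {i j k : κ}
    (hij : i ≠ j) (hik : i ≠ k) (hjk : j ≠ k) {s t : ℝ} (hs : s = 1 ∨ s = -1)
    (ht : t = 1 ∨ t = -1) :
    2 * |inner ℝ (s • v i + t • v j) (v k)| < ‖s • v i + t • v j‖ ^ 2 := by
  have key : ∀ r : ℝ, (r = 1 ∨ r = -1) → 1 < ‖s • v i + t • v j + r • v k‖ := by
    intro r hr
    set σ : κ → ℝ := fun l => if l = i then s else if l = j then t else if l = k then r else 0
      with hσ
    have hsgn : Sgn σ := by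
      intro l
      simp only [hσ]
      split_ifs
      · exact Or.inr hs
      · exact Or.inr ht
      · exact Or.inr hr
      · exact Or.inl rfl
    have hs0 : s ≠ 0 := by rcases hs with h | h <;> rw [h] <;> norm_num
    have ht0 : t ≠ 0 := by rcases ht with h | h <;> rw [h] <;> norm_num
    have hr0 : r ≠ 0 := by rcases hr with h | h <;> rw [h] <;> norm_num
    have hsp : sp σ = {i, j, k} := by
      ext l
      rw [mem_sp, Finset.mem_insert, Finset.mem_insert, Finset.mem_singleton]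
      simp only [hσ]
      split_ifs with h1 h2 h3
      · simp [h1, hs0]
      · simp [h2, ht0]
      · simp [h3, hr0]
      · simp [h1, h2, h3]
    have hcard : (sp σ).card = 3 := by
      rw [hsp]
      exact Finset.card_eq_three.mpr ⟨i, j, k, hij, hik, hjk, rfl⟩
    have h1 := hL σ hsgn hcard.ge (by omega)
    have e : sm v σ = s • v i + t • v j + r • v k := by
      rw [sm, ← Finset.sum_subset (Finset.subset_univ (sp σ)) (fun l _ hl => by
        rw [mem_sp, not_not] at hl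
        rw [hl, zero_smul]), hsp, Finset.sum_insert (by simp [hij, hik]),
        Finset.sum_insert (by simp [hjk]), Finset.sum_singleton]
      simp only [hσ, if_true, if_neg hij.symm, if_neg hik.symm, if_neg hjk.symm]
      abel
    rw [e] at h1
    exact h1
  have h1 := key 1 (Or.inl rfl)
  have h2 := key (-1) (Or.inr rfl)
  have hk := h.unit k
  have e1 : ‖s • v i + t • v j + (1 : ℝ) • v k‖ ^ 2 = ‖s • v i + t • v j‖ ^ 2 +
      2 * inner ℝ (s • v i + t • v j) (v k) + 1 := by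
    rw [norm_add_sq_real, one_smul, hk]; ring
  have e2 : ‖s • v i + t • v j + (-1 : ℝ) • v k‖ ^ 2 = ‖s • v i + t • v j‖ ^ 2 -
      2 * inner ℝ (s • v i + t • v j) (v k) + 1 := by
    rw [norm_add_sq_real, neg_smul, one_smul, norm_neg, inner_neg_right, hk]; ring
  have h3 : 1 < ‖s • v i + t • v j + (1 : ℝ) • v k‖ ^ 2 := by nlinarith
  have h4 : 1 < ‖s • v i + t • v j + (-1 : ℝ) • v k‖ ^ 2 := by nlinarith
  rw [e1] at h3
  rw [e2] at h4
  have h5 : |inner ℝ (s • v i + t • v j) (v k)| < ‖s • v i + t • v j‖ ^ 2 / 2 := by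
    rw [abs_lt]; constructor <;> linarith
  linarith

omit [Fintype κ] in
/-- The law `N` with the mean `2 Vᵀ u` at the offset `p - 2 u`. -/
theorem Spec.lawN {G : Finset κ} {b : OrthonormalBasis (Option (Fin n)) ℝ E} {lam : Fin n → ℝ}
    (S : Spec v G b lam) (hv : ∀ k, ‖v k‖ = 1) (hG : G.card + 1 = Module.finrank ℝ E) {p u : E}
    (h : BadAt v G (p - (2 : ℝ) • u)) (hu : ‖u‖ = 1) (hfar : ∀ k ∈ G, |inner ℝ u (v k)| ≤ 1 / 2)
    {A : ℝ} (hA : inner ℝ p (b none) = A * inner ℝ u (b none)) :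
    4 - ‖p‖ ^ 2 - 4 * (2 - A) * inner ℝ u (b none) ^ 2 <
      ∑ a, (4 * ((lam a - 1) ^ 2 - (lam a - 1)) * inner ℝ u (b (some a)) ^ 2 +
        4 * ((lam a - 1) * (inner ℝ u (b (some a)) * inner ℝ p (b (some a))))) := by
  have h1 := S.nlaw hv hG h ((2 : ℝ) • u) (fun k hk => by
    rw [real_inner_smul_left, abs_mul]
    have := hfar k hk
    rw [abs_of_pos (by norm_num : (0 : ℝ) < 2)]
    linarith)
  have h2 : ‖p - (2 : ℝ) • u‖ ^ 2 = ‖p‖ ^ 2 - 4 * inner ℝ p u + 4 := by
    rw [norm_sub_sq_real, real_inner_smul_right, norm_smul, hu]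
    norm_num
    ring
  have h3 := inner_coord b p u
  have h4 := norm_coord b u
  rw [hu, one_pow] at h4
  rw [h2, h3, hA] at h1
  simp only [inner_sub_left, real_inner_smul_left] at h1
  have e : ∑ a, (4 * ((lam a - 1) ^ 2 - (lam a - 1)) * inner ℝ u (b (some a)) ^ 2 +
        4 * ((lam a - 1) * (inner ℝ u (b (some a)) * inner ℝ p (b (some a)))))
      = 2 * ∑ a, lam a * (2 * inner ℝ u (b (some a)) *
          (inner ℝ p (b (some a)) - 2 * inner ℝ u (b (some a)))) +
        ∑ a, (lam a ^ 2 - lam a) * (2 * inner ℝ u (b (some a))) ^ 2 +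
        (8 * ∑ a, inner ℝ u (b (some a)) ^ 2 -
          4 * ∑ a, inner ℝ p (b (some a)) * inner ℝ u (b (some a))) := by
    rw [Finset.mul_sum, Finset.mul_sum, Finset.mul_sum, ← Finset.sum_sub_distrib,
      ← Finset.sum_add_distrib, ← Finset.sum_add_distrib]
    exact Finset.sum_congr rfl fun a _ => by ring
  rw [e]
  nlinarith

omit [Fintype κ] in
/-- helper80's combination of three laws. -/
theorem Spec.lawC {G : Finset κ} {b : OrthonormalBasis (Option (Fin n)) ℝ E} {lam : Fin n → ℝ}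
    (S : Spec v G b lam) (hv : ∀ k, ‖v k‖ = 1) (hG : G.card + 1 = Module.finrank ℝ E)
    {p α β : E} (h1 : BadAt v G (p - (2 : ℝ) • α)) (h2 : BadAt v G (p - (2 : ℝ) • β))
    (h3 : BadAt v G p) (hα : ‖α‖ = 1) (hβ : ‖β‖ = 1)
    (hfar : ∀ k ∈ G, 2 * |inner ℝ (α - β) (v k)| ≤ ‖α - β‖ ^ 2)
    {A B : ℝ} (hA : inner ℝ p (b none) = A * inner ℝ α (b none))
    (hB : inner ℝ p (b none) = B * inner ℝ β (b none)) (hB0 : 0 < B) (hBA : B ≤ A)
    {κ' : ℝ} (hκ : κ' * (1 - inner ℝ α β) = 1) (hg : inner ℝ α β < 1) :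
    A * (2 * inner ℝ p α - ‖p‖ ^ 2) + B * (2 * inner ℝ p β - ‖p‖ ^ 2) + B * ‖p‖ ^ 2 <
    κ' * (-2 * ∑ a, (A * inner ℝ α (b (some a)) - B * inner ℝ β (b (some a))) *
        ((lam a - 1) * (inner ℝ α (b (some a)) - inner ℝ β (b (some a)))) +
      A * κ' * ∑ a, ((lam a - 1) + (lam a - 1) ^ 2) *
        (inner ℝ α (b (some a)) - inner ℝ β (b (some a))) ^ 2) := by
  have hA0 : 0 < A := lt_of_lt_of_le hB0 hBA
  have hg' : 0 < 1 - inner ℝ α β := by linarith
  have hκ0 : 0 < κ' := by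
    by_contra hcon
    push Not at hcon
    nlinarith
  have hy : ‖α - β‖ ^ 2 = 2 * (1 - inner ℝ α β) := by
    rw [norm_sub_sq_real, hα, hβ]; ring
  have hcube : ∀ k ∈ G, |inner ℝ (κ' • (α - β)) (v k)| ≤ 1 := by
    intro k hk
    have h4 := hfar k hk
    rw [hy] at h4
    rw [real_inner_smul_left, abs_mul, abs_of_pos hκ0]
    nlinarith
  have hcube' : ∀ k ∈ G, |inner ℝ ((-κ') • (α - β)) (v k)| ≤ 1 := by
    intro k hk
    rw [neg_smul, inner_neg_left, abs_neg]
    exact hcube k hk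
  have n1 := S.nlaw hv hG h1 _ hcube
  have n2 := S.nlaw hv hG h2 _ hcube'
  have n3 := S.nlaw hv hG h3 _ hcube'
  have e1 : ‖p - (2 : ℝ) • α‖ ^ 2 = ‖p‖ ^ 2 - 4 * inner ℝ p α + 4 := by
    rw [norm_sub_sq_real, real_inner_smul_right, norm_smul, hα]
    norm_num
    ring
  have e2 : ‖p - (2 : ℝ) • β‖ ^ 2 = ‖p‖ ^ 2 - 4 * inner ℝ p β + 4 := by
    rw [norm_sub_sq_real, real_inner_smul_right, norm_smul, hβ]
    norm_num
    ring
  rw [e1] at n1
  rw [e2] at n2
  simp only [inner_sub_left, real_inner_smul_left] at n1 n2 n3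
  -- the coordinates of the inner products
  have c1 := norm_coord b α
  have c2 := norm_coord b β
  have c3 := inner_coord b α β
  rw [hα, one_pow] at c1
  rw [hβ, one_pow] at c2
  set an := inner ℝ α (b none) with han
  set bn := inner ℝ β (b none) with hbn
  have hAB : A * an = B * bn := by rw [← hA, ← hB]
  set U1 := ∑ a, lam a * ((inner ℝ α (b (some a)) - inner ℝ β (b (some a))) *
    inner ℝ p (b (some a))) with hU1
  set U2 := ∑ a, lam a * ((inner ℝ α (b (some a)) - inner ℝ β (b (some a))) *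
    inner ℝ α (b (some a))) with hU2
  set U3 := ∑ a, lam a * ((inner ℝ α (b (some a)) - inner ℝ β (b (some a))) *
    inner ℝ β (b (some a))) with hU3
  set U4 := ∑ a, (lam a ^ 2 - lam a) *
    (inner ℝ α (b (some a)) - inner ℝ β (b (some a))) ^ 2 with hU4
  set Saa := ∑ a, inner ℝ α (b (some a)) ^ 2 with hSaa
  set Sbb := ∑ a, inner ℝ β (b (some a)) ^ 2 with hSbb
  set Sab := ∑ a, inner ℝ α (b (some a)) * inner ℝ β (b (some a)) with hSab
  have f1 : ∑ a, lam a * (κ' * (inner ℝ α (b (some a)) - inner ℝ β (b (some a))) *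
      (inner ℝ p (b (some a)) - 2 * inner ℝ α (b (some a)))) = κ' * (U1 - 2 * U2) := by
    rw [hU1, hU2, Finset.mul_sum, ← Finset.sum_sub_distrib, Finset.mul_sum]
    exact Finset.sum_congr rfl fun a _ => by ring
  have f2 : ∑ a, lam a * (-κ' * (inner ℝ α (b (some a)) - inner ℝ β (b (some a))) *
      (inner ℝ p (b (some a)) - 2 * inner ℝ β (b (some a)))) = -κ' * (U1 - 2 * U3) := by
    rw [hU1, hU3, Finset.mul_sum, ← Finset.sum_sub_distrib, Finset.mul_sum]
    exact Finset.sum_congr rfl fun a _ => by ring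
  have f3 : ∑ a, lam a * (-κ' * (inner ℝ α (b (some a)) - inner ℝ β (b (some a))) *
      inner ℝ p (b (some a))) = -κ' * U1 := by
    rw [hU1, Finset.mul_sum]
    exact Finset.sum_congr rfl fun a _ => by ring
  have f4 : ∑ a, (lam a ^ 2 - lam a) *
      (κ' * (inner ℝ α (b (some a)) - inner ℝ β (b (some a)))) ^ 2 = κ' ^ 2 * U4 := by
    rw [hU4, Finset.mul_sum]
    exact Finset.sum_congr rfl fun a _ => by ring
  have f5 : ∑ a, (lam a ^ 2 - lam a) *
      (-κ' * (inner ℝ α (b (some a)) - inner ℝ β (b (some a)))) ^ 2 = κ' ^ 2 * U4 := by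
    rw [hU4, Finset.mul_sum]
    exact Finset.sum_congr rfl fun a _ => by ring
  have f6 : ∑ a, (A * inner ℝ α (b (some a)) - B * inner ℝ β (b (some a))) *
        ((lam a - 1) * (inner ℝ α (b (some a)) - inner ℝ β (b (some a))))
      = A * U2 - B * U3 - (A * Saa - A * Sab - B * Sab + B * Sbb) := by
    rw [hU2, hU3, hSaa, hSbb, hSab]
    simp only [Finset.mul_sum]
    rw [← Finset.sum_sub_distrib, ← Finset.sum_sub_distrib, ← Finset.sum_sub_distrib,
      ← Finset.sum_add_distrib, ← Finset.sum_sub_distrib]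
    exact Finset.sum_congr rfl fun a _ => by ring
  have f7 : ∑ a, ((lam a - 1) + (lam a - 1) ^ 2) *
        (inner ℝ α (b (some a)) - inner ℝ β (b (some a))) ^ 2 = U4 := by
    rw [hU4]
    exact Finset.sum_congr rfl fun a _ => by ring
  rw [f1, f4] at n1
  rw [f2, f5] at n2
  rw [f3, f5] at n3
  rw [f6, f7]
  have m1 := mul_pos hA0 n1
  have m2 := mul_pos hB0 n2
  have m3 := mul_nonneg (sub_nonneg.mpr hBA) n3.le
  -- the scalar identity
  have hq : A * Saa - A * Sab - B * Sab + B * Sbb = (A + B) * (1 - inner ℝ α β) := by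
    have : Saa = 1 - an ^ 2 := by linarith
    have h5 : Sbb = 1 - bn ^ 2 := by linarith
    have h6 : Sab = inner ℝ α β - an * bn := by linarith
    rw [this, h5, h6]
    linear_combination (bn - an) * hAB
  have hk2 : κ' * (A * Saa - A * Sab - B * Sab + B * Sbb) = A + B := by
    rw [hq]; linear_combination (A + B) * hκ
  linarith

omit [Fintype κ] in
/-- The sum of two laws. -/
theorem Spec.lawC0 {G : Finset κ} {b : OrthonormalBasis (Option (Fin n)) ℝ E} {lam : Fin n → ℝ}
    (S : Spec v G b lam) (hv : ∀ k, ‖v k‖ = 1) (hG : G.card + 1 = Module.finrank ℝ E)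
    {p α β : E} (h1 : BadAt v G (p - (2 : ℝ) • α)) (h2 : BadAt v G (p - (2 : ℝ) • β))
    (hα : ‖α‖ = 1) (hβ : ‖β‖ = 1)
    (hfar : ∀ k ∈ G, 2 * |inner ℝ (α - β) (v k)| ≤ ‖α - β‖ ^ 2)
    {κ' : ℝ} (hκ : κ' * (1 - inner ℝ α β) = 1) (hg : inner ℝ α β < 1) :
    2 * inner ℝ p α + 2 * inner ℝ p β - ‖p‖ ^ 2 -
      2 * κ' * (inner ℝ β (b none) - inner ℝ α (b none)) ^ 2 <
    κ' * ((κ' - 2) * ∑ a, (lam a - 1) *
        (inner ℝ α (b (some a)) - inner ℝ β (b (some a))) ^ 2 +
      κ' * ∑ a, (lam a - 1) ^ 2 *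
        (inner ℝ α (b (some a)) - inner ℝ β (b (some a))) ^ 2) := by
  have hg' : 0 < 1 - inner ℝ α β := by linarith
  have hκ0 : 0 < κ' := by
    by_contra hcon
    push Not at hcon
    nlinarith
  have hy : ‖α - β‖ ^ 2 = 2 * (1 - inner ℝ α β) := by
    rw [norm_sub_sq_real, hα, hβ]; ring
  have hcube : ∀ k ∈ G, |inner ℝ (κ' • (α - β)) (v k)| ≤ 1 := by
    intro k hk
    have h4 := hfar k hk
    rw [hy] at h4
    rw [real_inner_smul_left, abs_mul, abs_of_pos hκ0]
    nlinarith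
  have hcube' : ∀ k ∈ G, |inner ℝ ((-κ') • (α - β)) (v k)| ≤ 1 := by
    intro k hk
    rw [neg_smul, inner_neg_left, abs_neg]
    exact hcube k hk
  have n1 := S.nlaw hv hG h1 _ hcube
  have n2 := S.nlaw hv hG h2 _ hcube'
  have e1 : ‖p - (2 : ℝ) • α‖ ^ 2 = ‖p‖ ^ 2 - 4 * inner ℝ p α + 4 := by
    rw [norm_sub_sq_real, real_inner_smul_right, norm_smul, hα]
    norm_num
    ring
  have e2 : ‖p - (2 : ℝ) • β‖ ^ 2 = ‖p‖ ^ 2 - 4 * inner ℝ p β + 4 := by
    rw [norm_sub_sq_real, real_inner_smul_right, norm_smul, hβ]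
    norm_num
    ring
  rw [e1] at n1
  rw [e2] at n2
  simp only [inner_sub_left, real_inner_smul_left] at n1 n2
  have c1 := norm_coord b (α - β)
  rw [hy] at c1
  simp only [inner_sub_left] at c1
  set an := inner ℝ α (b none) with han
  set bn := inner ℝ β (b none) with hbn
  set Y1 := ∑ a, (lam a - 1) * (inner ℝ α (b (some a)) - inner ℝ β (b (some a))) ^ 2 with hY1
  set Y2 := ∑ a, (lam a - 1) ^ 2 * (inner ℝ α (b (some a)) - inner ℝ β (b (some a))) ^ 2 with hY2
  set Y0 := ∑ a, (inner ℝ α (b (some a)) - inner ℝ β (b (some a))) ^ 2 with hY0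
  set U1 := ∑ a, lam a * ((inner ℝ α (b (some a)) - inner ℝ β (b (some a))) *
    inner ℝ p (b (some a))) with hU1
  have f1 : ∑ a, lam a * (κ' * (inner ℝ α (b (some a)) - inner ℝ β (b (some a))) *
      (inner ℝ p (b (some a)) - 2 * inner ℝ α (b (some a)))) +
      ∑ a, lam a * (-κ' * (inner ℝ α (b (some a)) - inner ℝ β (b (some a))) *
      (inner ℝ p (b (some a)) - 2 * inner ℝ β (b (some a)))) = -2 * κ' * (Y0 + Y1) := by
    rw [hY0, hY1, ← Finset.sum_add_distrib, ← Finset.sum_add_distrib, Finset.mul_sum]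
    exact Finset.sum_congr rfl fun a _ => by ring
  have f4 : ∑ a, (lam a ^ 2 - lam a) *
      (κ' * (inner ℝ α (b (some a)) - inner ℝ β (b (some a)))) ^ 2 = κ' ^ 2 * (Y1 + Y2) := by
    rw [hY1, hY2, ← Finset.sum_add_distrib, Finset.mul_sum]
    exact Finset.sum_congr rfl fun a _ => by ring
  have f5 : ∑ a, (lam a ^ 2 - lam a) *
      (-κ' * (inner ℝ α (b (some a)) - inner ℝ β (b (some a)))) ^ 2 = κ' ^ 2 * (Y1 + Y2) := by
    rw [hY1, hY2, ← Finset.sum_add_distrib, Finset.mul_sum]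
    exact Finset.sum_congr rfl fun a _ => by ring
  rw [f4] at n1
  rw [f5] at n2
  have hk : κ' * ((an - bn) ^ 2 + Y0) = 2 := by rw [← c1]; linear_combination 2 * hκ
  nlinarith

omit [Fintype κ] [DecidableEq κ] in
/-- The square sum of a fractional signing in coordinates. -/
theorem Spec.sum_sq {G : Finset κ} {b : OrthonormalBasis (Option (Fin n)) ℝ E} {lam : Fin n → ℝ}
    (S : Spec v G b lam) (z : κ → ℝ) :
    ∑ k ∈ G, z k ^ 2 = ∑ a, inner ℝ (∑ k ∈ G, z k • v k) (b (some a)) ^ 2 / lam a := by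
  obtain ⟨w, hw⟩ := S.repr z
  have e1 : ∑ k ∈ G, z k ^ 2 = ∑ k ∈ G, inner ℝ w (v k) ^ 2 :=
    Finset.sum_congr rfl fun k hk => by rw [hw k hk]
  have e2 : ∑ k ∈ G, z k • v k = ∑ k ∈ G, inner ℝ w (v k) • v k :=
    Finset.sum_congr rfl fun k hk => by rw [hw k hk]
  rw [e1, e2, S.sq]
  refine Finset.sum_congr rfl fun a _ => ?_
  rw [S.img_some]
  have := (S.pos a).ne'
  field_simp

omit [Fintype κ] [DecidableEq κ] in
/-- The deficit law with the mean `Vᵀ u`. -/
theorem Spec.lawTu [FiniteDimensional ℝ E] {G : Finset κ}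
    {b : OrthonormalBasis (Option (Fin n)) ℝ E} {lam : Fin n → ℝ} (S : Spec v G b lam)
    (hv : ∀ k, ‖v k‖ = 1) {p : E} (h : BadAt v G p) (u : Fin n → ℝ)
    (hu : ∑ a, lam a * u a ^ 2 ≤ 1) {lam0 : ℝ} (hl : ∀ a, lam0 ≤ lam a) :
    ∑ a, max (1 - lam a) 0 + lam0 * ∑ a, lam a * u a ^ 2 <
      inner ℝ p (b none) ^ 2 + ∑ a, (inner ℝ p (b (some a)) + lam a * u a) ^ 2 := by
  set w : E := ∑ a, u a • b (some a) with hw
  have hwa : ∀ a, inner ℝ w (b (some a)) = u a := by
    intro a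
    rw [hw, sum_inner, Finset.sum_eq_single a]
    · rw [inner_smul_left, real_inner_self_eq_norm_sq, b.orthonormal.1]; simp
    · intro c _ hc
      rw [inner_smul_left, b.orthonormal.2 (fun h => hc (Option.some.inj h)), mul_zero]
    · exact fun h => absurd (Finset.mem_univ _) h
  have hsq : ∑ k ∈ G, inner ℝ w (v k) ^ 2 = ∑ a, lam a * u a ^ 2 := by
    rw [S.sq]
    exact Finset.sum_congr rfl fun a _ => by rw [hwa]
  have hx : ∀ k ∈ G, |inner ℝ w (v k)| ≤ 1 := by
    intro k hk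
    have h1 : inner ℝ w (v k) ^ 2 ≤ ∑ k ∈ G, inner ℝ w (v k) ^ 2 :=
      Finset.single_le_sum (f := fun k => inner ℝ w (v k) ^ 2) (fun _ _ => sq_nonneg _) hk
    rw [hsq] at h1
    exact abs_le_one_iff_mul_self_le_one.mpr (by nlinarith)
  have h1 := S.tlaw hv h hl hx
  rw [hsq, norm_coord b] at h1
  simp only [inner_add_left, S.img_none, S.img_some, hwa, add_zero] at h1
  exact h1

/-- **The data of an edge.** -/
theorem St.edge_data [FiniteDimensional ℝ E] {g : E} {m : ℕ} (h : St v g m) (hf : Far v g)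
    (hL : Lng v m) (hm : 4 ≤ m) {x x' : κ → ℝ} {i j : κ} (hx : Vx v g x) (hx' : Vx v g x')
    (hn : Nb x x' i) (hj : j ∈ fr x) (hj' : j ∉ fr x')
    (hfr : fr x' = insert i ((fr x).erase j)) (hB : 1 - x' j * x j ≤ 191 / 250)
    (hBA : 1 - x' j * x j ≤ 1 - x i * x' i) (hA : 1 - x i * x' i ≤ 2 - (1 - x' j * x j)) :
    ∃ (n : ℕ) (e a b p : Fin n → ℝ) (af bf pf A B P T : ℝ), EData e a b p af bf pf A B P T := by
  have hi : i ∉ fr x := hn.1
  have hij : i ≠ j := fun e => hi (e ▸ hj)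
  have hAdj : Adj v g x x' i j := ⟨hx, hx', hi, hj, by
    rw [hfr, Finset.erase_insert_of_ne hij], fun k hk => hn.2 k hk⟩
  set G := (fr x).erase j with hG
  have hGc : G.card + 1 = Module.finrank ℝ E := by
    rw [hG, Finset.card_erase_of_mem hj, hx.2]
    have : 0 < (fr x).card := Finset.card_pos.mpr ⟨j, hj⟩
    rw [hx.2] at this
    omega
  have hxi := (not_mem_fr x hx.1.1 i).mp hi
  have hxj := (not_mem_fr x' hx'.1.1 j).mp hj'
  have hui : Used v g i := ⟨x, hx, hi⟩
  have huj : Used v g j := ⟨x', hx', hj'⟩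
  set α : E := x i • v i with hα
  set β : E := x' j • v j with hβ
  have hα1 : ‖α‖ = 1 := by
    rw [hα, norm_smul, h.unit]; rcases hxi with h | h <;> rw [h] <;> norm_num
  have hβ1 : ‖β‖ = 1 := by
    rw [hβ, norm_smul, h.unit]; rcases hxj with h | h <;> rw [h] <;> norm_num
  set p : E := tot v g x + β with hp
  have htot : tot v g x' = p - α := by rw [hAdj.tot, hp]; abel
  set A := 1 - x i * x' i with hAd
  set B := 1 - x' j * x j with hBd
  have hB0 : 0 < B := by
    have h1 : |x' j * x j| < 1 := by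
      rw [abs_mul]
      have h2 := (mem_fr x j).mp hj
      rcases hxj with h | h <;> rw [h] <;> simpa using h2
    rw [abs_lt] at h1
    linarith
  have hxi2 : x i * x i = 1 := by rcases hxi with h | h <;> rw [h] <;> norm_num
  have hxj2 : x' j * x' j = 1 := by rcases hxj with h | h <;> rw [h] <;> norm_num
  have hiG : i ∉ G := by rw [hG, Finset.mem_erase]; exact fun hh => hi hh.2
  have hpB : p = B • β - ∑ k ∈ G, x k • v k := by
    have h1 : tot v g x = -(x j • v j + ∑ k ∈ G, x k • v k) := by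
      rw [tot, hG, Finset.add_sum_erase _ (fun k => x k • v k) hj]
    rw [hp, h1, hBd, sub_smul, one_smul, hβ, smul_smul]
    have : x' j * x j * x' j = x j := by linear_combination x j * hxj2
    rw [this]
    abel
  have hpA : p = A • α - ∑ k ∈ G, x' k • v k := by
    have h1 : tot v g x' = -(x' i • v i + ∑ k ∈ G, x' k • v k) := by
      rw [tot, hfr, Finset.sum_insert hiG]
    have h2 : p = tot v g x' + α := by rw [htot]; abel
    rw [h2, h1, hAd, sub_smul, one_smul, hα, smul_smul]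
    have : x i * x' i * x i = x' i := by linear_combination x' i * hxi2
    rw [this]
    abel
  -- the bad offsets
  have b1 : BadAt v G p := by
    have := h.bad_edge hx hi hj (Or.inl rfl : (1 : ℝ) = 1 ∨ (1 : ℝ) = -1) hxj
    rw [one_smul, ← hβ] at this
    have e : tot v g x - x i • v i + x i • v i + β = p := by rw [hp]; abel
    rw [e] at this
    exact this
  have b2 : BadAt v G (p - (2 : ℝ) • α) := by
    have := h.bad_edge hx hi hj (Or.inr rfl : (-1 : ℝ) = 1 ∨ (-1 : ℝ) = -1) hxj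
    rw [neg_smul, one_smul, ← hβ] at this
    have e : tot v g x - x i • v i + -(x i • v i) + β = p - (2 : ℝ) • α := by
      rw [hp, hα, two_smul]; abel
    rw [e] at this
    exact this
  have b3 : BadAt v G (p - (2 : ℝ) • β) := by
    have := h.bad_edge hx hi hj (Or.inl rfl : (1 : ℝ) = 1 ∨ (1 : ℝ) = -1) (y := -x' j)
      (by rcases hxj with h | h <;> rw [h] <;> norm_num)
    rw [one_smul, neg_smul, ← hβ] at this
    have e : tot v g x - x i • v i + x i • v i + -β = p - (2 : ℝ) • β := by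
      rw [hp, two_smul]; abel
    rw [e] at this
    exact this
  -- far pairs
  have habs : ∀ (s : ℝ) (u w : E), (s = 1 ∨ s = -1) →
      |inner ℝ (s • u) w| = |inner ℝ u w| := by
    intro s u w hs
    rw [real_inner_smul_left, abs_mul]
    rcases hs with h | h <;> rw [h] <;> simp
  have hGi : ∀ k ∈ G, k ≠ i := fun k hk e => hiG (e ▸ hk)
  have hGj : ∀ k ∈ G, k ≠ j := fun k hk => (Finset.mem_erase.mp hk).1
  have fa : ∀ k ∈ G, |inner ℝ α (v k)| ≤ 1 / 2 := fun k hk => by
    rw [hα, habs _ _ _ hxi]; exact (hf i k hui (hGi k hk)).le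
  have fb : ∀ k ∈ G, |inner ℝ β (v k)| ≤ 1 / 2 := fun k hk => by
    rw [hβ, habs _ _ _ hxj]; exact (hf j k huj (hGj k hk)).le
  have fab : |inner ℝ α β| < 1 / 2 := by
    rw [hα, habs _ _ _ hxi, real_inner_comm, hβ, habs _ _ _ hxj, real_inner_comm]
    exact hf i j hui hij.symm
  have fy : ∀ k ∈ G, 2 * |inner ℝ (α - β) (v k)| ≤ ‖α - β‖ ^ 2 := by
    intro k hk
    have := triple_bound h hL hm hij (hGi k hk).symm (hGj k hk).symm hxi
      (t := -x' j) (by rcases hxj with h | h <;> rw [h] <;> norm_num)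
    rw [neg_smul, ← hα, ← hβ, ← sub_eq_add_neg] at this
    exact this.le
  -- the basis
  obtain ⟨bs, lam, S⟩ := exists_spec h.unit (rfl : G.card = G.card) hGc
    (h.free_ind hx (Finset.erase_subset _ _))
  have hnone : ∀ (c : ℝ) (w : E) (z : κ → ℝ), inner ℝ (c • w - ∑ k ∈ G, z k • v k) (bs none)
      = c * inner ℝ w (bs none) := by
    intro c w z
    rw [inner_sub_left, real_inner_smul_left, sum_inner, Finset.sum_eq_zero (fun k hk => by
      rw [real_inner_smul_left, real_inner_comm, S.normal hk, mul_zero]), sub_zero]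
  have nA : inner ℝ p (bs none) = A * inner ℝ α (bs none) := by
    conv_lhs => rw [hpA]
    exact hnone _ _ _
  have nB : inner ℝ p (bs none) = B * inner ℝ β (bs none) := by
    conv_lhs => rw [hpB]
    exact hnone _ _ _
  obtain ⟨hP, hT⟩ := S.P_lt h.unit hGc b1 hβ1 hB0 hB (fun k _ => hx.1.1 k) hpB
  obtain ⟨hP0, hT0⟩ := S.lawT h.unit hGc b1 hP
  have hT' := hT0 _ fun a => by
    have := (_root_.abs_le.mp (S.abs_le a)).1
    show 1 - ∑ a, max (1 - lam a) 0 ≤ lam a
    linarith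
  have hT2 := hT0 (1 - ‖p‖ ^ 2 / 2) fun a => by
    have := S.lam_gt h.unit hGc b1 a
    linarith
  set T := ∑ a, max (1 - lam a) 0 with hTd
  have hpn : inner ℝ p (bs none) ≠ 0 := by
    intro h0
    rw [h0] at hT'
    have h1 : 0 ≤ T := Finset.sum_nonneg fun a _ => le_max_right _ _
    have h2 : 0 ≤ ∑ a, inner ℝ p (bs (some a)) ^ 2 / lam a :=
      Finset.sum_nonneg fun a _ => div_nonneg (sq_nonneg _) (S.pos a).le
    have h3 : B ^ 2 < 1 := by nlinarith
    nlinarith [mul_nonneg (by linarith : (0 : ℝ) ≤ 1 - T) h2]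
  obtain ⟨s, hs, hspos⟩ : ∃ s : ℝ, s * s = 1 ∧ 0 < s * inner ℝ p (bs none) := by
    rcases lt_or_gt_of_ne hpn with h1 | h1
    · exact ⟨-1, by norm_num, by linarith⟩
    · exact ⟨1, by norm_num, by linarith⟩
  have hDa : ‖p - α‖ ^ 2 < 1 := by
    have := h.short hx'
    rw [htot] at this
    nlinarith [norm_nonneg (p - α)]
  have hDb : ‖p - β‖ ^ 2 < 1 := by
    have := h.short hx
    have e : tot v g x = p - β := by rw [hp]; abel
    rw [e] at this
    nlinarith [norm_nonneg (p - β)]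
  rw [norm_sub_sq_real, hα1] at hDa
  rw [norm_sub_sq_real, hβ1] at hDb
  have cab := inner_coord bs α β
  have cpa := inner_coord bs p α
  have cpb := inner_coord bs p β
  have cp := norm_coord bs p
  have ca := norm_coord bs α
  have cb := norm_coord bs β
  rw [hα1, one_pow] at ca
  rw [hβ1, one_pow] at cb
  have hss : ∀ y z : ℝ, s * y * (s * z) = y * z := fun y z => by
    linear_combination (y * z) * hs
  have hss2 : ∀ y : ℝ, (s * y) ^ 2 = y ^ 2 := fun y => by
    linear_combination (y ^ 2) * hs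
  have hX1 : ∑ k ∈ G, x k ^ 2 < 1 := by
    have h1 := h.gp.pl ((p0_ex x).mpr hx.1)
    rw [fr_ex (by simp), Finset.sum_map] at h1
    have h2 : ∑ k ∈ fr x, (1 - x k ^ 2) * ‖v k‖ ^ 2
        = Module.finrank ℝ E - ∑ k ∈ fr x, x k ^ 2 := by
      rw [← hx.2, Finset.cast_card, ← Finset.sum_sub_distrib]
      exact Finset.sum_congr rfl fun k _ => by rw [h.unit]; ring
    simp only [Function.Embedding.some_apply, ex_some, ext_some] at h1
    rw [h2] at h1
    have h3 : ∑ k ∈ G, x k ^ 2 ≤ ∑ k ∈ fr x, x k ^ 2 :=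
      Finset.sum_le_sum_of_subset_of_nonneg (Finset.erase_subset _ _) fun _ _ _ => sq_nonneg _
    linarith
  have hXsum : ∑ k ∈ G, x k ^ 2 = ∑ a, (B * inner ℝ β (bs (some a)) -
      inner ℝ p (bs (some a))) ^ 2 / lam a := by
    rw [S.sum_sq]
    refine Finset.sum_congr rfl fun a _ => ?_
    have h2 : ∑ k ∈ G, x k • v k = B • β - p := by rw [hpB]; abel
    rw [h2, inner_sub_left, real_inner_smul_left]
  refine ⟨G.card, fun a => lam a - 1, fun a => inner ℝ α (bs (some a)),
    fun a => inner ℝ β (bs (some a)), fun a => inner ℝ p (bs (some a)),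
    s * inner ℝ α (bs none), s * inner ℝ β (bs none), s * inner ℝ p (bs none), A, B, ‖p‖ ^ 2, T,
    ?_⟩
  constructor
  · rw [Finset.sum_sub_distrib, S.tr]; simp
  · rw [hTd]; simp only [neg_sub]
  · intro a
    have := S.lam_gt h.unit hGc b1 a
    linarith
  · exact fun a => S.abs_le a
  · rw [hss2]; linarith
  · rw [hss2]; linarith
  · rw [hss2]; linarith
  · rw [hss, add_comm, ← cab]; exact fab
  · rw [nA]; ring
  · rw [nB]; ring
  · exact hspos
  · rw [hss, add_comm, ← cpa]; linarith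
  · rw [hss, add_comm, ← cpb]; linarith
  · exact hB0
  · exact hB
  · exact hBA
  · exact hA
  · exact hP
  · rw [hss2]
    simp only [add_sub_cancel]
    exact hT2
  · rw [hss2]
    simp only [add_sub_cancel]
    exact hT'
  · simp only [add_sub_cancel]
    exact S.qlaw h.unit hGc b1
  · rw [hss2]
    exact S.lawN h.unit hGc b2 hα1 fa nA
  · rw [hss2]
    exact S.lawN h.unit hGc b3 hβ1 fb nB
  · intro κ' hκ
    rw [hss, hss, add_comm (∑ a, inner ℝ p (bs (some a)) * inner ℝ α (bs (some a))),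
      add_comm (∑ a, inner ℝ p (bs (some a)) * inner ℝ β (bs (some a))), ← cpa, ← cpb]
    rw [hss, add_comm, ← cab] at hκ
    exact S.lawC h.unit hGc b2 b3 b1 hα1 hβ1 fy nA nB hB0 hBA hκ (by
      have := (_root_.abs_lt.mp fab).2
      linarith)
  · intro κ' hκ
    rw [hss, hss, add_comm (∑ a, inner ℝ p (bs (some a)) * inner ℝ α (bs (some a))),
      add_comm (∑ a, inner ℝ p (bs (some a)) * inner ℝ β (bs (some a))), ← cpa, ← cpb,
      ← mul_sub, hss2]
    rw [hss, add_comm, ← cab] at hκ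
    exact S.lawC0 h.unit hGc b2 b3 hα1 hβ1 fy hκ (by
      have := (_root_.abs_lt.mp fab).2
      linarith)
  · intro u
    have h1 := S.klaw h.unit hGc b1 1 u (by
      have : 0 ≤ ∑ a, lam a * u a ^ 2 :=
        Finset.sum_nonneg fun a _ => mul_nonneg (S.pos a).le (sq_nonneg _)
      linarith)
    have e1 : ∑ a, lam a * (u a * inner ℝ p (bs (some a)))
        = ∑ a, lam a * (inner ℝ p (bs (some a)) * u a) :=
      Finset.sum_congr rfl fun a _ => by ring
    rw [e1] at h1
    simp only [add_sub_cancel]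
    linarith
  · simp only [add_sub_cancel]
    rw [← hXsum]
    exact hX1
  · intro u hu lam0 hl
    simp only [add_sub_cancel] at hu hl ⊢
    rw [hss2]
    exact S.lawTu h.unit b1 u hu hl
  · intro lam0 hl
    simp only [add_sub_cancel] at hl ⊢
    have h1 := S.tlaw h.unit b1 hl (x := x) (fun k _ => hx.1.1 k)
    have h2 : p + ∑ k ∈ G, x k • v k = B • β := by rw [hpB]; abel
    rw [h2, norm_smul, hβ1, mul_one, Real.norm_eq_abs, sq_abs, hXsum] at h1
    exact h1

end

end Pool.Agent.Lib.MP_1be6c9_co.Fc
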