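import Pool.Agent.Lib.MP_1be6c9_co.Fc.Gp

/-!
The family with the offset as an additional member; states as such families.
-/

namespace Pool.Agent.Lib.MP_1be6c9_co.Fc

open Finset Pool.Agent.Lib.MP_1be6c9_co

/-- The family with the offset as the member `none`. -/
def ext {κ E : Type*} (v : κ → E) (g : E) : Option κ → E := fun o => o.elim g v

/-- A point with offset coordinate `t`. -/
def ex {κ : Type*} (t : ℝ) (x : κ → ℝ) : Option κ → ℝ := fun o => o.elim t x

@[simp] theorem ext_none {κ E : Type*} (v : κ → E) (g : E) : ext v g none = g := rfl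
@[simp] theorem ext_some {κ E : Type*} (v : κ → E) (g : E) (k : κ) : ext v g (some k) = v k := rfl
@[simp] theorem ex_none {κ : Type*} (t : ℝ) (x : κ → ℝ) : ex t x none = t := rfl
@[simp] theorem ex_some {κ : Type*} (t : ℝ) (x : κ → ℝ) (k : κ) : ex t x (some k) = x k := rfl

theorem ex_eta {κ : Type*} (y : Option κ → ℝ) : ex (y none) (fun k => y (some k)) = y := by
  funext o; cases o <;> rfl

section

variable {κ E : Type*} [Fintype κ] [NormedAddCommGroup E] [InnerProductSpace ℝ E]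
  {v : κ → E} {g : E} {m : ℕ}

theorem sum_ex (t : ℝ) (x : κ → ℝ) (v : κ → E) (g : E) :
    ∑ o, ex t x o • ext v g o = t • g + ∑ k, x k • v k := by
  rw [Fintype.sum_option]; rfl

theorem mem_fr_ex (t : ℝ) (x : κ → ℝ) (k : κ) : some k ∈ fr (ex t x) ↔ k ∈ fr x := by
  rw [mem_fr, mem_fr, ex_some]

theorem none_mem_fr (t : ℝ) (x : κ → ℝ) : none ∈ fr (ex t x) ↔ |t| < 1 := by
  rw [mem_fr, ex_none]

theorem fr_ex {t : ℝ} (ht : |t| = 1) (x : κ → ℝ) :
    fr (ex t x) = (fr x).map Function.Embedding.some := by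
  ext o
  cases o with
  | none => simp [mem_fr, ht]
  | some k => simp [mem_fr]

theorem card_fr_ex {t : ℝ} (ht : |t| = 1) (x : κ → ℝ) : (fr (ex t x)).card = (fr x).card := by
  rw [fr_ex ht, Finset.card_map]

theorem card_fr_ex' {t : ℝ} (ht : |t| < 1) (x : κ → ℝ) :
    (fr (ex t x)).card = (fr x).card + 1 := by
  classical
  have : fr (ex t x) = insert none ((fr x).map Function.Embedding.some) := by
    ext o
    cases o with
    | none => simp [mem_fr, ht]
    | some k => simp [mem_fr]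
  rw [this, Finset.card_insert_of_notMem (by simp), Finset.card_map]

theorem p0_ex (x : κ → ℝ) : P0 (ext v g) (ex 1 x) ↔ Pt v g x := by
  unfold P0 Pt
  rw [sum_ex, one_smul]
  refine and_congr_left fun _ => ⟨fun h i => h (some i), fun h o => ?_⟩
  cases o with
  | none => simp
  | some k => exact h k

theorem bas_ex (x : κ → ℝ) : Bas (ext v g) (ex 1 x) ↔ Vx v g x := by
  unfold Bas Vx
  rw [← p0_ex, card_fr_ex (by simp)]
  exact ⟨fun h => ⟨⟨h.1, h.2.1⟩, h.2.2⟩, fun h => ⟨h.1.1, h.1.2, h.2⟩⟩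

theorem long_ext {R : ℝ} (h : ∀ η : κ → ℝ, (∀ i, η i = 1 ∨ η i = -1) →
    R < ‖g + ∑ i, η i • v i‖ ^ 2) : Long (ext v g) R := by
  intro η hη
  rw [← ex_eta η, sum_ex]
  rcases hη none with h1 | h1
  · rw [h1, one_smul]
    exact h _ fun i => hη (some i)
  · have h2 := h (fun k => - η (some k)) (fun i => by rcases hη (some i) with h | h <;> simp [h])
    have e : (-1 : ℝ) • g + ∑ k, η (some k) • v k = -(g + ∑ k, (- η (some k)) • v k) := by
      simp only [neg_smul, one_smul, Finset.sum_neg_distrib, neg_add, neg_neg]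
    rw [h1, e, norm_neg]
    exact h2

theorem gp_ext (hv : ∀ k, ‖v k‖ ≤ 1) (hg : ‖g‖ ≤ 1)
    (h : ∀ η : κ → ℝ, (∀ i, η i = 1 ∨ η i = -1) →
      (Module.finrank ℝ E : ℝ) - 1 < ‖g + ∑ i, η i • v i‖ ^ 2) : Gp (ext v g) where
  le := fun o => by
    cases o with
    | none => exact hg
    | some k => exact hv k
  long := long_ext h

/-- The sum of the tight vectors at a vertex. -/
noncomputable def tot (v : κ → E) (g : E) (x : κ → ℝ) : E := -∑ i ∈ fr x, x i • v i

theorem tot_eq [DecidableEq κ] {x : κ → ℝ} (h : Pt v g x) :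
    tot v g x = g + ∑ i ∈ (fr x)ᶜ, x i • v i := by
  have h1 := h.2
  rw [← Finset.sum_add_sum_compl (fr x)] at h1
  rw [tot]
  have h2 : g + ∑ i ∈ (fr x)ᶜ, x i • v i + ∑ i ∈ fr x, x i • v i = 0 := by
    rw [← h1]; abel
  exact (eq_neg_of_add_eq_zero_left h2).symm

/-- The law for the tight sum, with an offset of arbitrary norm. -/
theorem short_of_bad (hv : ∀ k, ‖v k‖ = 1)
    (h : ∀ η : κ → ℝ, (∀ i, η i = 1 ∨ η i = -1) →
      (Module.finrank ℝ E : ℝ) - 1 < ‖g + ∑ i, η i • v i‖ ^ 2) {x : κ → ℝ} (hx : Vx v g x) :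
    ‖tot v g x‖ < 1 := by
  classical
  obtain ⟨R', hR', hL⟩ := long_strict' (long_ext h)
  have hb := (bas_ex x).mpr hx
  obtain ⟨η, hη, hle0⟩ := rounding_aux v x hx.1.1 (fr x) (tot v g x)
  obtain ⟨ε, hε, hle⟩ := kernel_aux v x R' (fr x) 1 (tot v g x)
  have hsub : ∀ ε : κ → ℝ, (∀ i, ε i = 1 ∨ ε i = -1) →
      R' < ‖tot v g x + ∑ i ∈ fr x, ε i • v i‖ ^ 2 := by
    intro ε hε
    have h1 := hL (ex 1 fun i => if i ∈ fr x then ε i else x i) (by
      intro o
      cases o with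
      | none => left; rfl
      | some k =>
        rw [ex_some]
        split_ifs with hk
        · exact hε k
        · exact (not_mem_fr x hx.1.1 k).mp hk)
    rw [sum_ex, one_smul] at h1
    rw [tot_eq hx.1]
    have e : ∑ k, (if k ∈ fr x then ε k else x k) • v k
        = ∑ i ∈ fr x, ε i • v i + ∑ i ∈ (fr x)ᶜ, x i • v i := by
      rw [← Finset.sum_add_sum_compl (fr x)]
      congr 1
      · refine Finset.sum_congr rfl fun i hi => by simp [hi]
      · refine Finset.sum_congr rfl fun i hi => by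
          rw [Finset.mem_compl] at hi
          simp [hi]
    rw [e] at h1
    have e2 : g + (∑ i ∈ fr x, ε i • v i + ∑ i ∈ (fr x)ᶜ, x i • v i)
        = g + ∑ i ∈ (fr x)ᶜ, x i • v i + ∑ i ∈ fr x, ε i • v i := by abel
    rw [e2] at h1
    exact h1
  have h0 := hsub η hη
  have h1 := hsub ε hε
  have h2 : ∑ i ∈ fr x, x i • v i = - tot v g x := by simp [tot]
  rw [h2, norm_neg, inner_neg_right, real_inner_self_eq_norm_sq] at hle
  have hcard : ∑ i ∈ fr x, (1 : ℝ) = (Module.finrank ℝ E : ℝ) := by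
    rw [Finset.sum_const, hx.2, nsmul_eq_mul, mul_one]
  have e1 : ∑ i ∈ fr x, ‖v i‖ ^ 2 = (Module.finrank ℝ E : ℝ) := by
    rw [← hcard]; exact Finset.sum_congr rfl fun i _ => by rw [hv i]; norm_num
  have e2 : ∑ i ∈ fr x, x i ^ 2 * ‖v i‖ ^ 2 = ∑ i ∈ fr x, x i ^ 2 :=
    Finset.sum_congr rfl fun i _ => by rw [hv i]; ring
  have e3 : ∑ i ∈ fr x, (1 - x i ^ 2) * ‖v i‖ ^ 2
      = (Module.finrank ℝ E : ℝ) - ∑ i ∈ fr x, x i ^ 2 := by
    rw [← hcard, ← Finset.sum_sub_distrib]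
    exact Finset.sum_congr rfl fun i _ => by rw [hv i]; ring
  rw [e1, e2] at hle
  rw [h2, e3, add_neg_cancel, norm_zero] at hle0
  have hX0 : 0 ≤ ∑ i ∈ fr x, x i ^ 2 := Finset.sum_nonneg fun i _ => sq_nonneg _
  have h5 : 0 ≤ (1 + ∑ i ∈ fr x, ε i * x i) ^ 2 *
      (‖tot v g x + ∑ i ∈ fr x, ε i • v i‖ ^ 2 - R') :=
    mul_nonneg (sq_nonneg _) (by linarith)
  set X : ℝ := ∑ i ∈ fr x, x i ^ 2 with hX
  set P : ℝ := ‖tot v g x‖ ^ 2 with hP
  have hX1 : X < 1 := by nlinarith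
  have key : 0 < (1 - X) * (1 - P) := by
    have h00 : 0 < (R' - ((Module.finrank ℝ E : ℝ) - 1)) * (1 + X) :=
      mul_pos (by linarith) (by linarith)
    nlinarith
  have hP1 : P < 1 := by
    by_contra hcon
    push Not at hcon
    have := mul_nonpos_of_nonneg_of_nonpos (by linarith : 0 ≤ 1 - X) (by linarith : 1 - P ≤ 0)
    linarith
  have hn := norm_nonneg (tot v g x)
  by_contra hcon
  push Not at hcon
  have : 1 ≤ P := by rw [hP]; nlinarith
  linarith

theorem St.short (h : St v g m) {x : κ → ℝ} (hx : Vx v g x) : ‖tot v g x‖ < 1 :=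
  short_of_bad h.unit h.bad hx

/-- The opposite vertex has the same free labels. -/
theorem St.cs_fr (h : St v g m) {x x' : κ → ℝ} (hx : Vx v g x) (hx' : Vx v g x')
    (hc : ∀ i, i ∉ fr x → x' i = - x i) : fr x' = fr x := by
  have hsub : fr x' ⊆ fr x := by
    intro i hi
    by_contra hcon
    have h1 := hc i hcon
    rw [mem_fr] at hi hcon
    rw [h1, abs_neg] at hi
    exact hcon hi
  exact Finset.eq_of_subset_of_card_le hsub (by rw [hx.2, hx'.2])

theorem St.norm_add_lt (h : St v g m) {x : κ → ℝ} (hx : Vx v g x) :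
    ‖g‖ ^ 2 + ‖tot v g x - g‖ ^ 2 < 1 := by
  classical
  obtain ⟨x', hx', hc⟩ := h.cs x hx
  have hf := h.cs_fr hx hx' hc
  have h1 := h.short hx
  have h2 := h.short hx'
  have e1 : tot v g x = g + ∑ i ∈ (fr x)ᶜ, x i • v i := tot_eq hx.1
  have e2 : tot v g x' = g - ∑ i ∈ (fr x)ᶜ, x i • v i := by
    rw [tot_eq hx'.1, hf, sub_eq_add_neg, ← Finset.sum_neg_distrib]
    congr 1
    refine Finset.sum_congr rfl fun i hi => ?_
    rw [hc i (Finset.mem_compl.mp hi), neg_smul]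
  set Y := ∑ i ∈ (fr x)ᶜ, x i • v i with hY
  rw [e1] at h1 ⊢
  rw [e2] at h2
  have h3 := parallelogram_law_with_norm ℝ g Y
  have e3 : g + Y - g = Y := by abel
  rw [e3]
  have h4 : ‖g + Y‖ * ‖g + Y‖ < 1 := by nlinarith [norm_nonneg (g + Y)]
  have h5 : ‖g - Y‖ * ‖g - Y‖ < 1 := by nlinarith [norm_nonneg (g - Y)]
  nlinarith

theorem St.norm_g (h : St v g m) : ‖g‖ < 1 := by
  obtain ⟨x, hx⟩ := h.ne
  have h1 := h.norm_add_lt hx
  have h2 : ‖g‖ ^ 2 < 1 := by nlinarith [sq_nonneg ‖tot v g x - g‖]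
  nlinarith [norm_nonneg g]

theorem St.gp (h : St v g m) : Gp (ext v g) :=
  gp_ext (fun k => (h.unit k).le) h.norm_g.le h.bad

end

end Pool.Agent.Lib.MP_1be6c9_co.Fc
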