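import Pool.Agent.Lib.MP_1be6c9_co.Fc.StepB

/-!
The family in which a signed set of labels is merged into one vector.
-/

namespace Pool.Agent.Lib.MP_1be6c9_co.Fc

open Finset Pool.Agent.Lib.MP_1be6c9_co

/-- A partial signing. -/
def Sgn {κ : Type*} (σ : κ → ℝ) : Prop := ∀ i, σ i = 0 ∨ σ i = 1 ∨ σ i = -1

/-- Its support. -/
noncomputable def sp {κ : Type*} [Fintype κ] (σ : κ → ℝ) : Finset κ :=
  Finset.univ.filter fun i => σ i ≠ 0

/-- The remaining labels. -/
abbrev Rs {κ : Type*} (σ : κ → ℝ) : Type _ := {k : κ // σ k = 0}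

/-- The signed sum. -/
noncomputable def sm {κ E : Type*} [Fintype κ] [NormedAddCommGroup E] [InnerProductSpace ℝ E]
    (v : κ → E) (σ : κ → ℝ) : E := ∑ i, σ i • v i

/-- The fractional signing with coefficient `θ` on the merged labels. -/
noncomputable def lf {κ : Type*} (σ : κ → ℝ) (θ : ℝ) (x : Rs σ → ℝ) : κ → ℝ :=
  fun k => if h : σ k = 0 then x ⟨k, h⟩ else θ * σ k

/-- The tight part of a fractional signing. -/
noncomputable def tx {κ : Type*} (x : κ → ℝ) : κ → ℝ := fun k => if |x k| < 1 then 0 else x k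

/-- The remaining vectors. -/
def rsv {κ E : Type*} (v : κ → E) (σ : κ → ℝ) : Rs σ → E := fun k => v k

/-- The merged family. -/
noncomputable def fam {κ E : Type*} [Fintype κ] [NormedAddCommGroup E] [InnerProductSpace ℝ E]
    (v : κ → E) (g : E) (σ : κ → ℝ) : Option (Option (Rs σ)) → E :=
  ext (ext (rsv v σ) (sm v σ)) g

/-- The tight labels outside `σ`, as a partial signing. -/
noncomputable def tg {κ : Type*} (σ : κ → ℝ) (x : Rs σ → ℝ) : κ → ℝ := lf σ 0 (tx x)

section comb

variable {κ : Type*} [Fintype κ] {σ : κ → ℝ}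

theorem mem_sp {k : κ} : k ∈ sp σ ↔ σ k ≠ 0 := by simp [sp]

theorem card_rs (σ : κ → ℝ) : Fintype.card (Rs σ) + (sp σ).card = Fintype.card κ := by
  classical
  rw [Fintype.card_subtype, sp]
  exact Finset.card_filter_add_card_filter_not (s := (Finset.univ : Finset κ)) fun k => σ k = 0

omit [Fintype κ] in
theorem lf_rs (θ : ℝ) (x : Rs σ → ℝ) (k : Rs σ) : lf σ θ x k = x k := by
  simp [lf, k.2]

omit [Fintype κ] in
theorem lf_sp (θ : ℝ) (x : Rs σ → ℝ) {k : κ} (hk : σ k ≠ 0) : lf σ θ x k = θ * σ k := by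
  simp [lf, hk]

omit [Fintype κ] in
theorem Sgn.abs (hσ : Sgn σ) {k : κ} (hk : σ k ≠ 0) : |σ k| = 1 := by
  rcases hσ k with h | h | h
  · exact absurd h hk
  · simp [h]
  · simp [h]

theorem fr_lf (hσ : Sgn σ) {θ : ℝ} (hθ : |θ| = 1) (x : Rs σ → ℝ) :
    fr (lf σ θ x) = (fr x).map (Function.Embedding.subtype _) := by
  ext k
  rw [mem_fr, Finset.mem_map]
  constructor
  · intro hk
    by_cases h0 : σ k = 0
    · refine ⟨⟨k, h0⟩, ?_, rfl⟩
      rw [mem_fr]
      have := lf_rs θ x ⟨k, h0⟩
      rwa [this] at hk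
    · rw [lf_sp θ x h0, abs_mul, hθ, hσ.abs h0] at hk
      norm_num at hk
  · rintro ⟨k', hk', rfl⟩
    rw [mem_fr] at hk'
    simp only [Function.Embedding.subtype_apply]
    rwa [lf_rs]

theorem card_fr_lf (hσ : Sgn σ) {θ : ℝ} (hθ : |θ| = 1) (x : Rs σ → ℝ) :
    (fr (lf σ θ x)).card = (fr x).card := by
  rw [fr_lf hσ hθ, Finset.card_map]

omit [Fintype κ] in
theorem lf_le (hσ : Sgn σ) {θ : ℝ} (hθ : |θ| ≤ 1) {x : Rs σ → ℝ} (hx : ∀ k, |x k| ≤ 1) (k : κ) :
    |lf σ θ x k| ≤ 1 := by
  by_cases h0 : σ k = 0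
  · rw [lf_rs θ x ⟨k, h0⟩]; exact hx _
  · rw [lf_sp θ x h0, abs_mul, hσ.abs h0, mul_one]; exact hθ

theorem sgn_tg {x : Rs σ → ℝ} (hx : ∀ k, |x k| ≤ 1) : Sgn (tg σ x) := by
  intro k
  by_cases h0 : σ k = 0
  · rw [tg, lf_rs 0 (tx x) ⟨k, h0⟩, tx]
    split_ifs with h1
    · exact Or.inl rfl
    · right
      exact (not_mem_fr x hx ⟨k, h0⟩).mp (by rw [mem_fr]; exact h1)
  · left
    rw [tg, lf_sp 0 _ h0, zero_mul]

/-- The support of the tight part. -/
theorem sp_tg {x : Rs σ → ℝ} (hx : ∀ k, |x k| ≤ 1) :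
    sp (tg σ x) = (Finset.univ.filter fun k : Rs σ => ¬ |x k| < 1).map
      (Function.Embedding.subtype _) := by
  ext k
  rw [mem_sp, Finset.mem_map]
  constructor
  · intro hk
    by_cases h0 : σ k = 0
    · refine ⟨⟨k, h0⟩, ?_, rfl⟩
      rw [Finset.mem_filter]
      refine ⟨Finset.mem_univ _, fun hlt => hk ?_⟩
      rw [tg, lf_rs 0 (tx x) ⟨k, h0⟩, tx, if_pos hlt]
    · exact absurd (by rw [tg, lf_sp 0 _ h0, zero_mul]) hk
  · rintro ⟨k', hk', rfl⟩
    have h1 := (Finset.mem_filter.mp hk').2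
    simp only [Function.Embedding.subtype_apply]
    rw [tg, lf_rs, tx, if_neg h1]
    intro h0
    rw [h0, abs_zero] at h1
    norm_num at h1

theorem card_tg {x : Rs σ → ℝ} (hx : ∀ k, |x k| ≤ 1) :
    (sp (tg σ x)).card + (fr x).card + (sp σ).card = Fintype.card κ := by
  rw [sp_tg hx, Finset.card_map, add_comm _ (fr x).card, fr,
    Finset.card_filter_add_card_filter_not, Finset.card_univ, card_rs]

theorem mem_tg {x : Rs σ → ℝ} (hx : ∀ k, |x k| ≤ 1) {k : κ} (hk : k ∈ sp (tg σ x)) :
    ∃ h0 : σ k = 0, ⟨k, h0⟩ ∉ fr x := by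
  rw [sp_tg hx, Finset.mem_map] at hk
  obtain ⟨k', hk', rfl⟩ := hk
  exact ⟨k'.2, by rw [mem_fr]; exact (Finset.mem_filter.mp hk').2⟩

end comb

section

variable {κ E : Type*} [Fintype κ] [NormedAddCommGroup E] [InnerProductSpace ℝ E]
  {v : κ → E} {g : E} {m : ℕ} {σ : κ → ℝ}

theorem sum_lf (v : κ → E) (σ : κ → ℝ) (θ : ℝ) (x : Rs σ → ℝ) :
    ∑ k, lf σ θ x k • v k = θ • sm v σ + ∑ k, x k • rsv v σ k := by
  classical
  have e1 : ∀ k, lf σ θ x k • v k = θ • (σ k • v k)
      + (if σ k = 0 then lf σ θ x k • v k else 0) := by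
    intro k
    by_cases h0 : σ k = 0
    · rw [if_pos h0, h0, zero_smul, smul_zero, zero_add]
    · rw [if_neg h0, lf_sp θ x h0, add_zero, mul_smul]
  rw [Finset.sum_congr rfl fun k _ => e1 k, Finset.sum_add_distrib, ← Finset.smul_sum, sm]
  congr 1
  rw [← Finset.sum_filter]
  have e2 : ∑ k : Rs σ, x k • rsv v σ k = ∑ k : Rs σ, lf σ θ x k • v k :=
    Finset.sum_congr rfl fun k _ => by rw [lf_rs, rsv]
  rw [e2]
  exact Finset.sum_subtype _ (fun k => by simp) (fun k => lf σ θ x k • v k)

theorem sum_tx {ι : Type*} [Fintype ι] (w : ι → E) (x : ι → ℝ) :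
    ∑ k, tx x k • w k = ∑ k, x k • w k - ∑ k ∈ fr x, x k • w k := by
  classical
  have e1 : ∀ k, tx x k • w k = x k • w k - (if k ∈ fr x then x k • w k else 0) := by
    intro k
    by_cases h : |x k| < 1
    · rw [tx, if_pos h, if_pos (by rw [mem_fr]; exact h), zero_smul, sub_self]
    · rw [tx, if_neg h, if_neg (by rw [mem_fr]; exact h), sub_zero]
  rw [Finset.sum_congr rfl fun k _ => e1 k, Finset.sum_sub_distrib]
  congr 1
  rw [Finset.sum_ite_mem, Finset.univ_inter]

theorem sm_tg (v : κ → E) (σ : κ → ℝ) (x : Rs σ → ℝ) :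
    sm v (tg σ x) = ∑ k, x k • rsv v σ k - ∑ k ∈ fr x, x k • rsv v σ k := by
  rw [sm, tg, sum_lf, zero_smul, zero_add, sum_tx]

theorem sum_fam (t θ : ℝ) (x : Rs σ → ℝ) :
    ∑ o, ex t (ex θ x) o • fam v g σ o = t • g + (θ • sm v σ + ∑ k, x k • rsv v σ k) := by
  rw [fam, sum_ex, sum_ex]

theorem gp_fam (h : St v g m) (hσ : Sgn σ) (hY : ‖sm v σ‖ ≤ 1) : Gp (fam v g σ) := by
  refine gp_ext (fun o => ?_) h.norm_g.le (fun η hη => ?_)
  · cases o with
    | none => exact hY
    | some k => exact (h.unit k).le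
  · have e : ∑ o, η o • ext (rsv v σ) (sm v σ) o
        = ∑ k, lf σ (η none) (fun k => η (some k)) k • v k := by
      conv_lhs => rw [← ex_eta η]
      rw [sum_ex, sum_lf]
    rw [e]
    refine h.bad _ fun k => ?_
    by_cases h0 : σ k = 0
    · rw [lf_rs _ _ ⟨k, h0⟩]; exact hη _
    · rw [lf_sp _ _ h0]
      rcases hη none with h1 | h1 <;> rcases hσ k with h2 | h2 | h2 <;>
        first
        | exact absurd h2 h0
        | simp [h1, h2]

/-- All vertices of a state have the offset coordinate `±1`. -/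
theorem St.prism [FiniteDimensional ℝ E] (h : St v g m) {y : Option κ → ℝ} (hy : Bas (ext v g) y) :
    |y none| = 1 := by
  classical
  have hG := h.gp
  obtain ⟨x0, hx0⟩ := h.ne
  refine hG.conn (fun y => |y none| = 1) ((bas_ex x0).mpr hx0) (by simp) ?_ hy
  intro y hy hyn j hj y' hy' hk hne
  by_cases hjn : j = none
  · subst hjn
    -- the opposite vertex
    have hopp : ∃ w, Bas (ext v g) w ∧ w none = - y none ∧
        ∀ k, k ∉ insert none (fr y) → w k = y k := by
      have hyn' : y none = 1 ∨ y none = -1 := (not_mem_fr y hy.1 none).mp hj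
      rcases hyn' with h1 | h1
      · obtain ⟨x, rfl⟩ : ∃ x, y = ex 1 x := ⟨fun k => y (some k), by rw [← h1, ex_eta]⟩
        have hx := (bas_ex x).mp hy
        obtain ⟨x', hx', hc⟩ := h.cs x hx
        refine ⟨_, Bas.neg' ((bas_ex x').mpr hx'), by simp, fun k hk => ?_⟩
        rw [Finset.mem_insert, not_or] at hk
        cases k with
        | none => exact absurd rfl hk.1
        | some k =>
          simp only [ex_some]
          rw [hc k (by rw [← mem_fr_ex 1 x]; exact hk.2), neg_neg]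
      · obtain ⟨x, hxy⟩ : ∃ x, (fun o => - y o) = ex 1 x :=
          ⟨fun k => - y (some k), by
            rw [← ex_eta (fun o => - y o)]; simp [h1]⟩
        have hx := (bas_ex x).mp (by rw [← hxy]; exact Bas.neg' hy)
        obtain ⟨x', hx', hc⟩ := h.cs x hx
        refine ⟨ex 1 x', (bas_ex x').mpr hx', by simp [h1], fun k hk => ?_⟩
        rw [Finset.mem_insert, not_or] at hk
        cases k with
        | none => exact absurd rfl hk.1
        | some k =>
          have e1 : y (some k) = - x k := by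
            have := congrFun hxy (some k)
            simp only [ex_some] at this
            linarith
          have e2 : k ∉ fr x := by
            rw [mem_fr]
            have := hk.2
            rw [mem_fr, e1, abs_neg] at this
            exact this
          rw [ex_some, hc k e2, e1]
    obtain ⟨w, hw, hwn, hwk⟩ := hopp
    by_contra hcon
    have hlt : |y' none| < 1 := lt_of_le_of_ne (hy'.1 none) hcon
    -- y' is on the segment from y to w
    set s : ℝ := (1 - y' none * y none) / 2 with hs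
    have hyn2 : y none * y none = 1 := by
      rcases (not_mem_fr y hy.1 none).mp hj with h1 | h1 <;> rw [h1] <;> norm_num
    have hb1 : |y' none * y none| < 1 := by rw [abs_mul, hyn, mul_one]; exact hlt
    rw [abs_lt] at hb1
    have hs0 : 0 < s := by rw [hs]; linarith
    have hs1 : s < 1 := by rw [hs]; linarith
    have hz : (fun k => y' k - (y k + s * (w k - y k))) = 0 := by
      refine hG.inj hy ?_ ?_
      · simp only [sub_smul, add_smul, mul_smul, Finset.sum_sub_distrib, Finset.sum_add_distrib,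
          ← Finset.smul_sum, hy'.2.1, hy.2.1, hw.2.1]
        simp
      · intro k hk'
        by_cases hkn : k = none
        · subst hkn
          rw [hwn, hs]
          linear_combination (-(y' none)) * hyn2
        · have hk2 : k ∉ insert none (fr y) := by simp [hkn, hk']
          rw [hk k hk2, hwk k hk2]; ring
    -- all coordinates free at y are free at y'
    have hsub : insert none (fr y) ⊆ fr y' := by
      intro k hk'
      rw [Finset.mem_insert] at hk'
      rcases hk' with rfl | hk'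
      · rw [mem_fr]; exact hlt
      · rw [mem_fr] at hk' ⊢
        have h1 := congrFun hz k
        simp only [Pi.zero_apply] at h1
        have h2 : y' k = (1 - s) * y k + s * w k := by linarith
        have h3 := hw.1 k
        rw [abs_lt] at hk' ⊢
        rw [abs_le] at h3
        rw [h2]
        constructor <;> nlinarith [h3.1, h3.2, hk'.1, hk'.2]
    have hcard := Finset.card_le_card hsub
    rw [Finset.card_insert_of_notMem hj, hy.2.2, hy'.2.2] at hcard
    omega
  · have hn : none ∉ insert j (fr y) := by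
      rw [Finset.mem_insert, mem_fr, hyn]
      push Not
      exact ⟨fun h => hjn h.symm, le_rfl⟩
    show |y' none| = 1
    rw [hk none hn]; exact hyn

end

end Pool.Agent.Lib.MP_1be6c9_co.Fc
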