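import Mathlib

/-!
MP_1be6c9_co, framework, module Far7: seven unit vectors of a three-dimensional Euclidean space are
not pairwise far (`|⟨v, w⟩| < 1 / 2`).

Linear programming bound: `t ^ 4 - t ^ 2 / 4 - 7 / 60` is a positive definite function on the sphere
(`g ^ 4 - g ^ 2 / 4 - 7 / 60 = ∑ c_k φ_k(v) φ_k(w)` with explicit quartic forms `φ_k`, `c_k > 0`), so
`7 / 60 * 49 ≤ ∑_(i,j) (g ^ 4 - g ^ 2 / 4) ≤ 3 / 4 * 7`.
-/

set_option autoImplicit false

namespace Pool.Agent.Lib.MP_1be6c9_co.Fc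

open Finset

private noncomputable def Far7_n (x y z : ℝ) : ℝ := x ^ 2 + y ^ 2 + z ^ 2

private noncomputable def Far7_a (x y z : ℝ) : ℝ :=
  8 * y ^ 2 * z ^ 2 + x ^ 2 * z ^ 2 + x ^ 2 * y ^ 2 - (y ^ 2 + z ^ 2) * Far7_n x y z

private noncomputable def Far7_b (x y z : ℝ) : ℝ := Far7_a x y z - Far7_a y x z

private noncomputable def Far7_m (x y z : ℝ) : ℝ := (x ^ 2 - y ^ 2) * Far7_n x y z

private noncomputable def Far7_s (x y z : ℝ) : ℝ := x * y * Far7_n x y z

private noncomputable def Far7_c (x y z : ℝ) : ℝ := x ^ 3 * y - 3 / 7 * Far7_s x y z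

private noncomputable def Far7_d (x y z : ℝ) : ℝ := x * y * z ^ 2 - 1 / 7 * Far7_s x y z

/-- The block of the two coordinates `x, y`. -/
private noncomputable def Far7_blk (x y z X Y Z : ℝ) : ℝ :=
  17 / 14 * (Far7_s x y z * Far7_s X Y Z) + 4 * (Far7_c x y z * Far7_c X Y Z) +
    4 * (Far7_c y x z * Far7_c Y X Z) + 12 * (Far7_d x y z * Far7_d X Y Z)

private noncomputable def Far7_ev (x y z X Y Z : ℝ) : ℝ :=
  1 / 10 * (Far7_a x y z * Far7_a X Y Z) + 1 / 10 * (Far7_a y x z * Far7_a Y X Z) +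
    1 / 10 * (Far7_a z y x * Far7_a Z Y X)

private noncomputable def Far7_bv (x y z X Y Z : ℝ) : ℝ :=
  1 / 70 * (Far7_b x y z * Far7_b X Y Z) + 1 / 70 * (Far7_b y z x * Far7_b Y Z X) +
    1 / 70 * (Far7_b z x y * Far7_b Z X Y)

private noncomputable def Far7_mv (x y z X Y Z : ℝ) : ℝ :=
  17 / 84 * (Far7_m x y z * Far7_m X Y Z) + 17 / 84 * (Far7_m y z x * Far7_m Y Z X) +
    17 / 84 * (Far7_m z x y * Far7_m Z X Y)

/-- The decomposition of the kernel into products. -/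
private theorem Far7_ident (x y z X Y Z : ℝ) :
    (x * X + y * Y + z * Z) ^ 4
      - (x * X + y * Y + z * Z) ^ 2 * (Far7_n x y z * Far7_n X Y Z) / 4
      - 7 / 60 * (Far7_n x y z ^ 2 * Far7_n X Y Z ^ 2) =
    Far7_ev x y z X Y Z + Far7_bv x y z X Y Z + Far7_mv x y z X Y Z +
      Far7_blk x y z X Y Z + Far7_blk y z x Y Z X + Far7_blk z x y Z X Y := by
  unfold Far7_ev Far7_bv Far7_mv Far7_blk Far7_b Far7_d Far7_c Far7_s Far7_m Far7_a Far7_n
  ring

private theorem Far7_kernel {ι : Type*} (s : Finset ι) (φ : ι → ℝ) {c : ℝ} (hc : 0 ≤ c) :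
    0 ≤ ∑ i ∈ s, ∑ j ∈ s, c * (φ i * φ j) := by
  have h : ∑ i ∈ s, ∑ j ∈ s, c * (φ i * φ j) = c * ((∑ i ∈ s, φ i) * ∑ j ∈ s, φ j) := by
    rw [Finset.sum_mul_sum, Finset.mul_sum]
    exact Finset.sum_congr rfl fun i _ => (Finset.mul_sum _ _ _).symm
  rw [h]
  exact mul_nonneg hc (mul_self_nonneg _)

private theorem Far7_blk_nonneg {ι : Type*} (s : Finset ι) (x y z : ι → ℝ) :
    0 ≤ ∑ i ∈ s, ∑ j ∈ s, Far7_blk (x i) (y i) (z i) (x j) (y j) (z j) := by
  unfold Far7_blk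
  simp only [Finset.sum_add_distrib]
  refine add_nonneg (add_nonneg (add_nonneg ?_ ?_) ?_) ?_
  · exact Far7_kernel s (fun i => Far7_s (x i) (y i) (z i)) (by norm_num)
  · exact Far7_kernel s (fun i => Far7_c (x i) (y i) (z i)) (by norm_num)
  · exact Far7_kernel s (fun i => Far7_c (y i) (x i) (z i)) (by norm_num)
  · exact Far7_kernel s (fun i => Far7_d (x i) (y i) (z i)) (by norm_num)

private theorem Far7_ev_nonneg {ι : Type*} (s : Finset ι) (x y z : ι → ℝ) :
    0 ≤ ∑ i ∈ s, ∑ j ∈ s, Far7_ev (x i) (y i) (z i) (x j) (y j) (z j) := by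
  unfold Far7_ev
  simp only [Finset.sum_add_distrib]
  refine add_nonneg (add_nonneg ?_ ?_) ?_
  · exact Far7_kernel s (fun i => Far7_a (x i) (y i) (z i)) (by norm_num)
  · exact Far7_kernel s (fun i => Far7_a (y i) (x i) (z i)) (by norm_num)
  · exact Far7_kernel s (fun i => Far7_a (z i) (y i) (x i)) (by norm_num)

private theorem Far7_bv_nonneg {ι : Type*} (s : Finset ι) (x y z : ι → ℝ) :
    0 ≤ ∑ i ∈ s, ∑ j ∈ s, Far7_bv (x i) (y i) (z i) (x j) (y j) (z j) := by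
  unfold Far7_bv
  simp only [Finset.sum_add_distrib]
  refine add_nonneg (add_nonneg ?_ ?_) ?_
  · exact Far7_kernel s (fun i => Far7_b (x i) (y i) (z i)) (by norm_num)
  · exact Far7_kernel s (fun i => Far7_b (y i) (z i) (x i)) (by norm_num)
  · exact Far7_kernel s (fun i => Far7_b (z i) (x i) (y i)) (by norm_num)

private theorem Far7_mv_nonneg {ι : Type*} (s : Finset ι) (x y z : ι → ℝ) :
    0 ≤ ∑ i ∈ s, ∑ j ∈ s, Far7_mv (x i) (y i) (z i) (x j) (y j) (z j) := by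
  unfold Far7_mv
  simp only [Finset.sum_add_distrib]
  refine add_nonneg (add_nonneg ?_ ?_) ?_
  · exact Far7_kernel s (fun i => Far7_m (x i) (y i) (z i)) (by norm_num)
  · exact Far7_kernel s (fun i => Far7_m (y i) (z i) (x i)) (by norm_num)
  · exact Far7_kernel s (fun i => Far7_m (z i) (x i) (y i)) (by norm_num)

/-- The kernel is positive on finite families of unit vectors in coordinates. -/
private theorem Far7_pos {ι : Type*} (s : Finset ι) (x y z : ι → ℝ)
    (hn : ∀ i, x i ^ 2 + y i ^ 2 + z i ^ 2 = 1) :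
    0 ≤ ∑ i ∈ s, ∑ j ∈ s, ((x i * x j + y i * y j + z i * z j) ^ 4
      - (x i * x j + y i * y j + z i * z j) ^ 2 / 4 - 7 / 60) := by
  have hn' : ∀ i, Far7_n (x i) (y i) (z i) = 1 := hn
  have h : ∀ i j, (x i * x j + y i * y j + z i * z j) ^ 4
      - (x i * x j + y i * y j + z i * z j) ^ 2 / 4 - 7 / 60 =
      Far7_ev (x i) (y i) (z i) (x j) (y j) (z j) + Far7_bv (x i) (y i) (z i) (x j) (y j) (z j) +
      Far7_mv (x i) (y i) (z i) (x j) (y j) (z j) + Far7_blk (x i) (y i) (z i) (x j) (y j) (z j) +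
      Far7_blk (y i) (z i) (x i) (y j) (z j) (x j) +
      Far7_blk (z i) (x i) (y i) (z j) (x j) (y j) := fun i j => by
    have h1 := Far7_ident (x i) (y i) (z i) (x j) (y j) (z j)
    rw [hn' i, hn' j] at h1
    rw [← h1]
    ring
  rw [Finset.sum_congr rfl fun i _ => Finset.sum_congr rfl fun j _ => h i j]
  simp only [Finset.sum_add_distrib]
  have h1 := Far7_ev_nonneg s x y z
  have h2 := Far7_bv_nonneg s x y z
  have h3 := Far7_mv_nonneg s x y z
  have h4 := Far7_blk_nonneg s x y z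
  have h5 := Far7_blk_nonneg s y z x
  have h6 := Far7_blk_nonneg s z x y
  linarith

theorem far7 {E : Type*} [NormedAddCommGroup E] [InnerProductSpace ℝ E] [FiniteDimensional ℝ E]
    (hE : Module.finrank ℝ E = 3) (w : Fin 7 → E) (hw : ∀ i, ‖w i‖ = 1)
    (hf : ∀ i j, i ≠ j → |inner ℝ (w i) (w j)| < 1 / 2) : False := by
  let b : OrthonormalBasis (Fin 3) ℝ E := (stdOrthonormalBasis ℝ E).reindex (finCongr hE)
  have hin : ∀ u v : E, inner ℝ u v = inner ℝ (b 0) u * inner ℝ (b 0) v +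
      inner ℝ (b 1) u * inner ℝ (b 1) v + inner ℝ (b 2) u * inner ℝ (b 2) v := by
    intro u v
    rw [← b.sum_inner_mul_inner u v, Fin.sum_univ_three, real_inner_comm u, real_inner_comm u,
      real_inner_comm u]
  have hn : ∀ i, (inner ℝ (b 0) (w i)) ^ 2 + (inner ℝ (b 1) (w i)) ^ 2 +
      (inner ℝ (b 2) (w i)) ^ 2 = 1 := by
    intro i
    have h1 := hin (w i) (w i)
    rw [real_inner_self_eq_norm_sq, hw i] at h1
    rw [sq, sq, sq, ← h1, one_pow]
  have h0 := Far7_pos (Finset.univ : Finset (Fin 7)) (fun i => inner ℝ (b 0) (w i))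
    (fun i => inner ℝ (b 1) (w i)) (fun i => inner ℝ (b 2) (w i)) hn
  simp only [← hin] at h0
  have h1 : ∀ i ∈ (Finset.univ : Finset (Fin 7)), ∑ j ∈ (Finset.univ : Finset (Fin 7)),
      ((inner ℝ (w i) (w j)) ^ 4 - (inner ℝ (w i) (w j)) ^ 2 / 4 - 7 / 60 : ℝ) ≤
      3 / 4 - 7 * (7 / 60) := by
    intro i _
    have h2 : ∀ j ∈ (Finset.univ : Finset (Fin 7)),
        ((inner ℝ (w i) (w j)) ^ 4 - (inner ℝ (w i) (w j)) ^ 2 / 4 - 7 / 60 : ℝ) ≤
        (if i = j then (3 / 4 : ℝ) else 0) - 7 / 60 := by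
      intro j _
      by_cases hij : i = j
      · subst hij
        rw [if_pos rfl, real_inner_self_eq_norm_sq, hw i]
        norm_num
      · rw [if_neg hij]
        have h3 := hf i j hij
        have h4 : (inner ℝ (w i) (w j) : ℝ) ^ 2 ≤ 1 / 4 := by
          have h5 := abs_lt.mp h3
          nlinarith [h5.1, h5.2]
        nlinarith [sq_nonneg (inner ℝ (w i) (w j) : ℝ), h4]
    refine (Finset.sum_le_sum h2).trans ?_
    rw [Finset.sum_sub_distrib, Finset.sum_ite_eq, if_pos (Finset.mem_univ i), Finset.sum_const,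
      Finset.card_univ, Fintype.card_fin]
    norm_num
  have h2 := h0.trans (Finset.sum_le_sum h1)
  rw [Finset.sum_const, Finset.card_univ, Fintype.card_fin] at h2
  norm_num at h2

end Pool.Agent.Lib.MP_1be6c9_co.Fc
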