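import Pool.Agent.Lib.MP_1be6c9_co.Fc.Defs

/-!
Families of vectors of norm at most one all of whose signed sums are long: vertices of the section
of the cube, pivots, the law for the tight sum, local optima, connectivity.
-/

namespace Pool.Agent.Lib.MP_1be6c9_co.Fc

open Finset Pool.Agent.Lib.MP_1be6c9_co

/-- A family of vectors of norm at most one all of whose signed sums are long. -/
structure Gp {ι E : Type*} [Fintype ι] [NormedAddCommGroup E] [InnerProductSpace ℝ E]
    (a : ι → E) : Prop where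
  le : ∀ k, ‖a k‖ ≤ 1
  long : Long a ((Module.finrank ℝ E : ℝ) - 1)

/-- A point of the section of the cube. -/
def P0 {ι E : Type*} [Fintype ι] [NormedAddCommGroup E] [InnerProductSpace ℝ E]
    (a : ι → E) (y : ι → ℝ) : Prop := (∀ i, |y i| ≤ 1) ∧ ∑ i, y i • a i = 0

theorem long_strict' {κ E : Type*} [Fintype κ] [NormedAddCommGroup E] [InnerProductSpace ℝ E]
    {v : κ → E} {R : ℝ} (h : Long v R) : ∃ R', R < R' ∧ Long v R' := by
  classical
  let s : (κ → Bool) → (κ → ℝ) := fun b i => if b i then 1 else -1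
  obtain ⟨b0, -, hb0⟩ := Finset.exists_min_image (Finset.univ : Finset (κ → Bool))
    (fun b => ‖∑ i, s b i • v i‖ ^ 2) ⟨fun _ => true, Finset.mem_univ _⟩
  have hs : ∀ b : κ → Bool, ∀ i, s b i = 1 ∨ s b i = -1 := by
    intro b i
    by_cases hb : b i = true
    · left; simp [s, hb]
    · right; simp [s, hb]
  have h0 : R < ‖∑ i, s b0 i • v i‖ ^ 2 := h _ (hs b0)
  refine ⟨(R + ‖∑ i, s b0 i • v i‖ ^ 2) / 2, by linarith, ?_⟩
  intro η hη
  have h1 : s (fun i => decide (η i = 1)) = η := by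
    funext i
    rcases hη i with h2 | h2
    · simp [s, h2]
    · have h3 : η i ≠ 1 := by rw [h2]; norm_num
      simp only [s, decide_eq_true_eq]
      rw [if_neg h3, h2]
  have h2 := hb0 (fun i => decide (η i = 1)) (Finset.mem_univ _)
  rw [h1] at h2
  linarith

section

variable {ι E : Type*} [Fintype ι] [NormedAddCommGroup E] [InnerProductSpace ℝ E]
  {a : ι → E}

theorem P0.neg {y : ι → ℝ} (h : P0 a y) : P0 a (fun i => - y i) := by
  refine ⟨fun i => by simpa using h.1 i, ?_⟩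
  simp only [neg_smul, Finset.sum_neg_distrib, h.2, neg_zero]

theorem fr_neg (y : ι → ℝ) : fr (fun i => - y i) = fr y := by
  ext i; simp [mem_fr]

theorem Bas.neg' {y : ι → ℝ} (h : Bas a y) : Bas a (fun i => - y i) :=
  ⟨(P0.neg ⟨h.1, h.2.1⟩).1, (P0.neg ⟨h.1, h.2.1⟩).2, by rw [fr_neg]; exact h.2.2⟩

/-- The product law. -/
theorem Gp.pl (h : Gp a) {y : ι → ℝ} (hy : P0 a y) :
    (Module.finrank ℝ E : ℝ) - 1 < ∑ i ∈ fr y, (1 - y i ^ 2) * ‖a i‖ ^ 2 := by
  classical
  obtain ⟨η, hη, hle⟩ := rounding a y hy.1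
  have h0 := h.long η hη
  rw [hy.2, norm_zero] at hle
  have h1 : ∑ i, (1 - y i ^ 2) * ‖a i‖ ^ 2 = ∑ i ∈ fr y, (1 - y i ^ 2) * ‖a i‖ ^ 2 := by
    symm
    apply Finset.sum_subset (Finset.subset_univ _)
    intro i _ hi
    rcases (not_mem_fr y hy.1 i).mp hi with h | h <;> simp [h]
  rw [h1] at hle
  have h5 : (0 : ℝ) ^ 2 = 0 := by norm_num
  rw [h5, zero_add] at hle
  exact lt_of_lt_of_le h0 hle

theorem Gp.card_le (h : Gp a) {y : ι → ℝ} (hy : P0 a y) :
    Module.finrank ℝ E ≤ (fr y).card := by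
  have h1 := h.pl hy
  have h2 : ∑ i ∈ fr y, (1 - y i ^ 2) * ‖a i‖ ^ 2 ≤ ((fr y).card : ℝ) := by
    have : ∑ i ∈ fr y, (1 - y i ^ 2) * ‖a i‖ ^ 2 ≤ ∑ i ∈ fr y, (1 : ℝ) := by
      refine Finset.sum_le_sum fun i hi => ?_
      have h3 : y i ^ 2 ≤ 1 := by
        have := hy.1 i
        rw [abs_le] at this
        nlinarith [this.1, this.2]
      have h4 : ‖a i‖ ^ 2 ≤ 1 := pow_le_one₀ (norm_nonneg _) (h.le i)
      have h5 : 0 ≤ ‖a i‖ ^ 2 := sq_nonneg _
      nlinarith [sq_nonneg (y i)]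
    rw [Finset.sum_const, nsmul_eq_mul, mul_one] at this
    exact this
  by_contra hcon
  push Not at hcon
  have h3 : ((fr y).card : ℝ) + 1 ≤ Module.finrank ℝ E := by exact_mod_cast hcon
  linarith

/-- Reduction to independent free coordinates, keeping the tight ones. -/
theorem lp_keep (a : ι → E) : ∀ (n : ℕ) (y : ι → ℝ), (fr y).card ≤ n → P0 a y →
    ∃ y' : ι → ℝ, P0 a y' ∧ LinearIndepOn ℝ a (fr y' : Set ι) ∧ fr y' ⊆ fr y ∧
      ∀ i, i ∉ fr y → y' i = y i := by
  classical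
  intro n
  induction n with
  | zero =>
    intro y hn hy
    have h0 : fr y = ∅ := Finset.card_eq_zero.mp (Nat.le_zero.mp hn)
    refine ⟨y, hy, ?_, subset_rfl, fun _ _ => rfl⟩
    rw [h0]; simp
  | succ n ih =>
    intro y hn hy
    by_cases hli : LinearIndepOn ℝ a (fr y : Set ι)
    · exact ⟨y, hy, hli, subset_rfl, fun _ _ => rfl⟩
    · rw [linearIndepOn_finset_iff] at hli
      push Not at hli
      obtain ⟨f, hf, i1, hi1, hfi1⟩ := hli
      set z : ι → ℝ := fun i => if i ∈ fr y then f i else 0 with hz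
      have hzsum : ∑ i, z i • a i = 0 := by
        rw [← hf]
        simp only [hz, ite_smul, zero_smul]
        rw [Finset.sum_ite_mem, Finset.univ_inter]
      have hz1 : ∀ i, y i = 1 → z i ≤ 0 := by
        intro i hi
        have : i ∉ fr y := (not_mem_fr y hy.1 i).mpr (Or.inl hi)
        simp [hz, this]
      have hz2 : ∀ i, y i = -1 → 0 ≤ z i := by
        intro i hi
        have : i ∉ fr y := (not_mem_fr y hy.1 i).mpr (Or.inr hi)
        simp [hz, this]
      obtain ⟨t, ht, hc, j, hj, hj2⟩ := move y z hy.1 hz1 hz2 ⟨i1, by simp [hz, hi1, hfi1]⟩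
      have hkeep : ∀ i, i ∉ fr y → y i + t * z i = y i := by
        intro i hi
        simp [hz, hi]
      have hsub : fr (fun i => y i + t * z i) ⊆ fr y := by
        intro i hi
        by_contra hcon
        have h1 := hkeep i hcon
        rw [mem_fr] at hi hcon
        rw [h1] at hi
        exact hcon hi
      have hlt : (fr (fun i => y i + t * z i)).card < (fr y).card := by
        apply Finset.card_lt_card
        rw [Finset.ssubset_iff_of_subset hsub]
        refine ⟨j, ?_, ?_⟩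
        · by_contra hcon
          exact hj (by simp [hz, hcon])
        · rw [mem_fr, not_lt]
          rcases hj2 with ⟨_, h⟩ | ⟨_, h⟩ <;> simp only [h] <;> simp
      have hP : P0 a (fun i => y i + t * z i) := by
        refine ⟨hc, ?_⟩
        simp only [add_smul, mul_smul, Finset.sum_add_distrib, ← Finset.smul_sum, hy.2, hzsum]
        simp
      obtain ⟨y', h1, h2, h3, h4⟩ := ih _ (by omega) hP
      refine ⟨y', h1, h2, h3.trans hsub, ?_⟩
      intro i hi
      rw [h4 i (fun hcon => hi (hsub hcon)), hkeep i hi]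

variable [FiniteDimensional ℝ E]

/-- Every point can be moved to a vertex, keeping the tight coordinates. -/
theorem Gp.vtx (h : Gp a) {y : ι → ℝ} (hy : P0 a y) :
    ∃ y', Bas a y' ∧ fr y' ⊆ fr y ∧ ∀ i, i ∉ fr y → y' i = y i := by
  obtain ⟨y', h1, h2, h3, h4⟩ := lp_keep a _ y le_rfl hy
  exact ⟨y', ⟨h1.1, h1.2, le_antisymm (card_le_of_indep a _ h2) (h.card_le h1)⟩, h3, h4⟩

omit [FiniteDimensional ℝ E] in
theorem Gp.indep (h : Gp a) {y : ι → ℝ} (hy : Bas a y) : LinearIndepOn ℝ a (fr y : Set ι) := by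
  by_contra hcon
  obtain ⟨x', h1, h2, h3⟩ := dep_move a y hy.1 hy.2.1 hcon
  have h4 := h.card_le ⟨h1, h2⟩
  have h5 := Finset.card_lt_card h3
  rw [hy.2.2] at h5
  omega

omit [FiniteDimensional ℝ E] in
/-- A relation which vanishes on the tight coordinates is zero. -/
theorem Gp.inj (h : Gp a) {y : ι → ℝ} (hy : Bas a y) {z : ι → ℝ} (hz : ∑ i, z i • a i = 0)
    (h0 : ∀ i, i ∉ fr y → z i = 0) : z = 0 := by
  have hi := h.indep hy
  rw [linearIndepOn_finset_iff] at hi
  have hsum : ∑ i ∈ fr y, z i • a i = 0 := by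
    rw [← hz]
    refine Finset.sum_subset (Finset.subset_univ _) fun i _ hi => ?_
    rw [h0 i hi, zero_smul]
  funext i
  by_cases hm : i ∈ fr y
  · exact hi z hsum i hm
  · exact h0 i hm

omit [FiniteDimensional ℝ E] in
theorem Gp.uniq (h : Gp a) {y w : ι → ℝ} (hy : Bas a y) (hw : ∑ i, w i • a i = 0)
    (h0 : ∀ i, i ∉ fr y → w i = y i) : w = y := by
  have := h.inj hy (z := fun i => w i - y i)
    (by simp only [sub_smul, Finset.sum_sub_distrib, hy.2.1, hw, sub_zero])
    (fun i hi => by rw [h0 i hi, sub_self])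
  funext i
  have := congrFun this i
  simp only [Pi.zero_apply] at this
  linarith

omit [FiniteDimensional ℝ E] in
/-- The law for the tight sum. -/
theorem Gp.law (h : Gp a) {y : ι → ℝ} (hy : Bas a y) :
    ‖cc a y‖ ^ 2 < 1 - ∑ i ∈ fr y, (1 - ‖a i‖ ^ 2) := by
  classical
  obtain ⟨R', hR', hL⟩ := long_strict' h.long
  obtain ⟨ε, hε, hle⟩ := kernel_aux a y R' (fr y) 1 (cc a y)
  have h1 := long_sub a _ hL y hy.1 hy.2.1 ε hε
  have h2 : ∑ i ∈ fr y, y i • a i = - cc a y := by simp [cc]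
  rw [h2, norm_neg, inner_neg_right, real_inner_self_eq_norm_sq] at hle
  have h5 : 0 ≤ (1 + ∑ i ∈ fr y, ε i * y i) ^ 2 *
      (‖cc a y + ∑ i ∈ fr y, ε i • a i‖ ^ 2 - R') :=
    mul_nonneg (sq_nonneg _) (by linarith)
  have hpl := h.pl ⟨hy.1, hy.2.1⟩
  set P : ℝ := ‖cc a y‖ ^ 2 with hP
  set X : ℝ := ∑ i ∈ fr y, y i ^ 2 with hX
  set S1 : ℝ := ∑ i ∈ fr y, (1 - ‖a i‖ ^ 2) with hS1
  set S2 : ℝ := ∑ i ∈ fr y, y i ^ 2 * (1 - ‖a i‖ ^ 2) with hS2
  set d : ℝ := (Module.finrank ℝ E : ℝ) with hd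
  have hcard : ∑ i ∈ fr y, (1 : ℝ) = d := by
    rw [Finset.sum_const, hy.2.2, nsmul_eq_mul, mul_one]
  have e1 : ∑ i ∈ fr y, ‖a i‖ ^ 2 = d - S1 := by
    rw [hS1, Finset.sum_sub_distrib, hcard]; ring
  have e2 : ∑ i ∈ fr y, y i ^ 2 * ‖a i‖ ^ 2 = X - S2 := by
    rw [hS2, hX, ← Finset.sum_sub_distrib]
    refine Finset.sum_congr rfl fun i _ => by ring
  have e3 : ∑ i ∈ fr y, (1 - y i ^ 2) * ‖a i‖ ^ 2 = d - S1 - (X - S2) := by
    rw [← e1, ← e2, ← Finset.sum_sub_distrib]
    refine Finset.sum_congr rfl fun i _ => by ring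
  rw [e1, e2] at hle
  rw [e3] at hpl
  have hD : ∀ i, 0 ≤ 1 - ‖a i‖ ^ 2 := fun i => by
    have := pow_le_one₀ (n := 2) (norm_nonneg _) (h.le i)
    linarith
  have hX0 : 0 ≤ X := Finset.sum_nonneg fun i _ => sq_nonneg _
  have hS10 : 0 ≤ S1 := Finset.sum_nonneg fun i _ => hD i
  have hyX : ∀ i ∈ fr y, y i ^ 2 ≤ X := fun i hi =>
    Finset.single_le_sum (f := fun i => y i ^ 2) (fun i _ => sq_nonneg _) hi
  have hS2X : S2 ≤ X * S1 := by
    rw [hS2, hS1, Finset.mul_sum]
    exact Finset.sum_le_sum fun i hi => mul_le_mul_of_nonneg_right (hyX i hi) (hD i)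
  have hS21 : S2 ≤ S1 := by
    rw [hS2, hS1]
    refine Finset.sum_le_sum fun i hi => ?_
    have h3 : y i ^ 2 ≤ 1 := by
      have := hy.1 i
      rw [abs_le] at this
      nlinarith [this.1, this.2]
    have := mul_le_mul_of_nonneg_right h3 (hD i)
    linarith
  have hX1 : X < 1 := by linarith
  have hX00 : 0 < 1 + X := by linarith
  have key : 0 < (1 - X) * (1 - P - S1) := by
    have h7 : 0 ≤ (1 + X) * (P + (d - S1)) + 4 * 1 * (-P) + 2 * (P - (X - S2))
        - R' * (1 + X) := by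
      have : (1 : ℝ) ^ 2 + X = 1 + X := by ring
      rw [this] at hle
      linarith
    nlinarith
  have h8 : 0 < 1 - P - S1 := by
    by_contra hcon
    push Not at hcon
    have : (1 - X) * (1 - P - S1) ≤ 0 := mul_nonpos_of_nonneg_of_nonpos (by linarith) hcon
    linarith
  linarith

/-- Edge directions. -/
theorem Gp.dir [DecidableEq ι] (h : Gp a) {y : ι → ℝ} (hy : Bas a y) {j : ι} (hj : j ∉ fr y) :
    ∃ z : ι → ℝ, ∑ i, z i • a i = 0 ∧ z j = - y j ∧ ∀ k, k ∉ insert j (fr y) → z k = 0 := by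
  have hi := h.indep hy
  have hli : LinearIndependent ℝ (fun i : fr y => a i) := hi
  have hsp := hli.span_eq_top_of_card_eq_finrank' (by simpa using hy.2.2)
  have hmem : y j • a j ∈ Submodule.span ℝ (Set.range (fun i : fr y => a i)) := by
    rw [hsp]; trivial
  rw [Submodule.mem_span_range_iff_exists_fun] at hmem
  obtain ⟨f, hf⟩ := hmem
  set g : ι → ℝ := fun i => if hi : i ∈ fr y then f ⟨i, hi⟩ else 0 with hg
  have hgs : ∑ i, g i • a i = y j • a j := by
    rw [← hf]
    have e0 : ∑ i, g i • a i = ∑ i ∈ fr y, g i • a i := by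
      symm
      refine Finset.sum_subset (Finset.subset_univ _) fun i _ hi => ?_
      simp only [hg, dif_neg hi, zero_smul]
    rw [e0, ← Finset.sum_coe_sort]
    refine Finset.sum_congr rfl fun i _ => ?_
    simp [hg]
  refine ⟨fun i => g i - (if i = j then y j else 0), ?_, ?_, ?_⟩
  · simp only [sub_smul, Finset.sum_sub_distrib, hgs, ite_smul, zero_smul,
      Finset.sum_ite_eq', Finset.mem_univ, if_true, sub_self]
  · simp [hg, hj]
  · intro k hk
    simp only [Finset.mem_insert, not_or] at hk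
    simp only [hg, dif_neg hk.2, if_neg hk.1, sub_self]

omit [FiniteDimensional ℝ E] in
/-- Moving along an edge. -/
theorem Gp.ray [DecidableEq ι] (h : Gp a) {y : ι → ℝ} (hy : Bas a y) {j : ι} (hj : j ∉ fr y)
    {z : ι → ℝ} (hz : ∑ i, z i • a i = 0) (hzj : z j = - y j)
    (hzk : ∀ k, k ∉ insert j (fr y) → z k = 0) :
    ∃ t : ℝ, 0 < t ∧ Bas a (fun i => y i + t * z i) ∧ ∃ k0 ∈ insert j (fr y),
      fr (fun i => y i + t * z i) = (insert j (fr y)).erase k0 ∧
        (k0 = j → y j + t * z j = - y j) := by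
  have hyj := (not_mem_fr y hy.1 j).mp hj
  have hyj0 : y j ≠ 0 := by rcases hyj with h | h <;> rw [h] <;> norm_num
  have hz1 : ∀ i, y i = 1 → z i ≤ 0 := by
    intro i hi
    by_cases hij : i = j
    · subst hij; rw [hzj, hi]; norm_num
    · have : i ∉ fr y := (not_mem_fr y hy.1 i).mpr (Or.inl hi)
      rw [hzk i (by simp [hij, this])]
  have hz2 : ∀ i, y i = -1 → 0 ≤ z i := by
    intro i hi
    by_cases hij : i = j
    · subst hij; rw [hzj, hi]; norm_num
    · have : i ∉ fr y := (not_mem_fr y hy.1 i).mpr (Or.inr hi)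
      rw [hzk i (by simp [hij, this])]
  obtain ⟨t, ht, hc, k0, hk0, hk⟩ := move y z hy.1 hz1 hz2
    ⟨j, by rw [hzj]; exact neg_ne_zero.mpr hyj0⟩
  have hk0m : k0 ∈ insert j (fr y) := by
    by_contra hcon
    exact hk0 (hzk k0 hcon)
  have hP : P0 a (fun i => y i + t * z i) := by
    refine ⟨hc, ?_⟩
    simp only [add_smul, mul_smul, Finset.sum_add_distrib, ← Finset.smul_sum, hy.2.1, hz]
    simp
  have hsub : fr (fun i => y i + t * z i) ⊆ (insert j (fr y)).erase k0 := by
    intro i hi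
    rw [mem_fr] at hi
    rw [Finset.mem_erase]
    constructor
    · rintro rfl
      rcases hk with ⟨_, h⟩ | ⟨_, h⟩ <;> simp only [h] at hi <;> norm_num at hi
    · by_contra hcon
      rw [hzk i hcon, mul_zero, add_zero] at hi
      simp only [Finset.mem_insert, not_or] at hcon
      exact hcon.2 (by rw [mem_fr]; exact hi)
  have hcard : ((insert j (fr y)).erase k0).card = Module.finrank ℝ E := by
    rw [Finset.card_erase_of_mem hk0m, Finset.card_insert_of_notMem hj, hy.2.2]
    simp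
  have hge := h.card_le hP
  have heq := Finset.eq_of_subset_of_card_le hsub (by rw [hcard]; exact hge)
  refine ⟨t, ht, ⟨hP.1, hP.2, by rw [heq, hcard]⟩, k0, hk0m, heq, ?_⟩
  rintro rfl
  rcases hk with ⟨h1, h2⟩ | ⟨h1, h2⟩
  · rw [h2]
    rw [hzj] at h1
    rcases hyj with h | h
    · rw [h] at h1; norm_num at h1
    · rw [h]; norm_num
  · rw [h2]
    rw [hzj] at h1
    rcases hyj with h | h
    · rw [h]
    · rw [h] at h1; norm_num at h1

/-- The pivot at a tight coordinate. -/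
theorem Gp.piv [DecidableEq ι] (h : Gp a) {y : ι → ℝ} (hy : Bas a y) {j : ι} (hj : j ∉ fr y) :
    ∃ y' : ι → ℝ, Bas a y' ∧ (∀ k, k ∉ insert j (fr y) → y' k = y k) ∧ y' j ≠ y j ∧
      ∃ k0 ∈ insert j (fr y), fr y' = (insert j (fr y)).erase k0 ∧ (k0 = j → y' j = - y j) := by
  obtain ⟨z, h1, h2, h3⟩ := h.dir hy hj
  obtain ⟨t, ht, hb, k0, hk0, hf, hk⟩ := h.ray hy hj h1 h2 h3
  have hyj := (not_mem_fr y hy.1 j).mp hj
  refine ⟨_, hb, fun k hk => by rw [h3 k hk, mul_zero, add_zero], ?_, k0, hk0, hf, hk⟩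
  intro hcon
  have : t * z j = 0 := by simpa using hcon
  rcases mul_eq_zero.mp this with h | h
  · linarith
  · rw [h2] at h
    rcases hyj with h' | h' <;> rw [h'] at h <;> norm_num at h

/-- A local optimum is a global optimum. -/
theorem Gp.opt [DecidableEq ι] (h : Gp a) {y : ι → ℝ} (hy : Bas a y) (c : ι → ℝ)
    (hloc : ∀ j, j ∉ fr y → ∀ y', Bas a y' → (∀ k, k ∉ insert j (fr y) → y' k = y k) →
      ∑ i, c i * y' i ≤ ∑ i, c i * y i) {w : ι → ℝ} (hw : P0 a w) :
    ∑ i, c i * w i ≤ ∑ i, c i * y i := by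
  classical
  have hdir : ∀ j, ∃ z : ι → ℝ, j ∉ fr y → (∑ i, z i • a i = 0 ∧ z j = - y j ∧
      (∀ k, k ∉ insert j (fr y) → z k = 0) ∧ ∑ i, c i * z i ≤ 0) := by
    intro j
    by_cases hj : j ∈ fr y
    · exact ⟨0, fun h => absurd hj h⟩
    · obtain ⟨z, h1, h2, h3⟩ := h.dir hy hj
      refine ⟨z, fun _ => ⟨h1, h2, h3, ?_⟩⟩
      obtain ⟨t, ht, hb, -⟩ := h.ray hy hj h1 h2 h3
      have h4 := hloc j hj _ hb (fun k hk => by rw [h3 k hk, mul_zero, add_zero])
      have e : ∑ i, c i * (y i + t * z i) = ∑ i, c i * y i + t * ∑ i, c i * z i := by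
        rw [Finset.mul_sum, ← Finset.sum_add_distrib]
        refine Finset.sum_congr rfl fun i _ => by ring
      rw [e] at h4
      by_contra hcon
      push Not at hcon
      have := mul_pos ht hcon
      linarith
  choose z hz using hdir
  set lam : ι → ℝ := fun j => 1 - w j * y j with hlam
  have hlam0 : ∀ j, 0 ≤ lam j := by
    intro j
    have h1 : |w j * y j| ≤ 1 := by
      rw [abs_mul]; exact mul_le_one₀ (hw.1 j) (abs_nonneg _) (hy.1 j)
    have := (abs_le.mp h1).2
    simp only [hlam]; linarith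
  have hr : (fun i => w i - y i - ∑ j ∈ (fr y)ᶜ, lam j * z j i) = 0 := by
    refine h.inj hy ?_ ?_
    · have e : ∑ i, (w i - y i - ∑ j ∈ (fr y)ᶜ, lam j * z j i) • a i
          = ∑ i, w i • a i - ∑ i, y i • a i - ∑ j ∈ (fr y)ᶜ, lam j • ∑ i, z j i • a i := by
        simp only [sub_smul, Finset.sum_sub_distrib, Finset.sum_smul, Finset.smul_sum, smul_smul]
        congr 1
        rw [Finset.sum_comm]
      rw [e, hw.2, hy.2.1]
      rw [Finset.sum_eq_zero (fun j hj => ?_)]
      · simp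
      · rw [(hz j (Finset.mem_compl.mp hj)).1, smul_zero]
    · intro i hi
      have hyi := (not_mem_fr y hy.1 i).mp hi
      have hy2 : y i * y i = 1 := by rcases hyi with h | h <;> rw [h] <;> norm_num
      rw [Finset.sum_eq_single i]
      · rw [(hz i hi).2.1]
        simp only [hlam]
        linear_combination (-(w i)) * hy2
      · intro j hj hji
        rw [(hz j (Finset.mem_compl.mp hj)).2.2.1 i (by simp [hji.symm, hi]), mul_zero]
      · intro hcon
        exact absurd (Finset.mem_compl.mpr hi) hcon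
  have hwi : ∀ i, w i = y i + ∑ j ∈ (fr y)ᶜ, lam j * z j i := by
    intro i
    have := congrFun hr i
    simp only [Pi.zero_apply] at this
    linarith
  have e : ∑ i, c i * w i = ∑ i, c i * y i + ∑ j ∈ (fr y)ᶜ, lam j * ∑ i, c i * z j i := by
    calc ∑ i, c i * w i = ∑ i, (c i * y i + ∑ j ∈ (fr y)ᶜ, c i * (lam j * z j i)) := by
          refine Finset.sum_congr rfl fun i _ => ?_
          rw [hwi i, mul_add, Finset.mul_sum]
      _ = _ := by
          rw [Finset.sum_add_distrib, Finset.sum_comm]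
          congr 1
          refine Finset.sum_congr rfl fun j _ => ?_
          rw [Finset.mul_sum]
          refine Finset.sum_congr rfl fun i _ => by ring
  rw [e]
  have : ∑ j ∈ (fr y)ᶜ, lam j * ∑ i, c i * z j i ≤ 0 :=
    Finset.sum_nonpos fun j hj =>
      mul_nonpos_of_nonneg_of_nonpos (hlam0 j) (hz j (Finset.mem_compl.mp hj)).2.2.2
  linarith

theorem Gp.finite (h : Gp a) : {y : ι → ℝ | Bas a y}.Finite := by
  classical
  have hf : (Set.pi Set.univ (fun _ : ι => ({-1, 0, 1} : Set ℝ))).Finite :=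
    Set.Finite.pi fun _ => Set.toFinite _
  refine Set.Finite.of_injOn (f := fun y i => if i ∈ fr y then (0 : ℝ) else y i) ?_ ?_ hf
  · intro y hy i _
    by_cases hi : i ∈ fr y
    · simp [hi]
    · rcases (not_mem_fr y (show Bas a y from hy).1 i).mp hi with h' | h' <;> simp [hi, h']
  · intro y hy w hw hyw
    have hy' : Bas a y := hy
    have hw' : Bas a w := hw
    have e : ∀ i, i ∉ fr y → w i = y i := by
      intro i hi
      have h1 := congrFun hyw i
      simp only [if_neg hi] at h1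
      by_cases hi' : i ∈ fr w
      · rw [if_pos hi'] at h1
        rcases (not_mem_fr y hy'.1 i).mp hi with h2 | h2 <;> rw [h2] at h1 <;> norm_num at h1
      · rw [if_neg hi'] at h1
        exact h1.symm
    exact (h.uniq hy' hw'.2.1 e).symm

/-- Connectivity of the graph: a property of vertices which is invariant under pivots and holds at
one vertex holds at all. -/
theorem Gp.conn [DecidableEq ι] (h : Gp a) (S : (ι → ℝ) → Prop) {y0 : ι → ℝ} (h0 : Bas a y0)
    (hS0 : S y0)
    (hcl : ∀ y, Bas a y → S y → ∀ j, j ∉ fr y → ∀ y', Bas a y' →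
      (∀ k, k ∉ insert j (fr y) → y' k = y k) → y' j ≠ y j → S y') {w : ι → ℝ} (hw : Bas a w) :
    S w := by
  classical
  set c : ι → ℝ := fun i => if i ∈ fr w then 0 else w i with hc
  have hfin : {y : ι → ℝ | Bas a y ∧ S y}.Finite := h.finite.subset fun y hy => hy.1
  obtain ⟨y, ⟨hyB, hyS⟩, hmax⟩ := hfin.exists_maximalFor (fun y => ∑ i, c i * y i) _
    ⟨y0, h0, hS0⟩
  have hmax' : ∀ y', Bas a y' → S y' → ∑ i, c i * y' i ≤ ∑ i, c i * y i := by
    intro y' h1 h2
    by_contra hcon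
    push Not at hcon
    exact absurd (hmax (show y' ∈ {y : ι → ℝ | Bas a y ∧ S y} from ⟨h1, h2⟩) hcon.le)
      (not_le.mpr hcon)
  have hopt : ∑ i, c i * w i ≤ ∑ i, c i * y i := by
    refine h.opt hyB c ?_ ⟨hw.1, hw.2.1⟩
    intro j hj y' hy' hk
    by_cases hjj : y' j = y j
    · have : y' = y := by
        refine h.uniq hyB hy'.2.1 ?_
        intro i hi
        by_cases hij : i = j
        · rw [hij]; exact hjj
        · exact hk i (by simp [hij, hi])
      rw [this]
    · exact hmax' y' hy' (hcl y hyB hyS j hj y' hy' hk hjj)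
  have hle : ∀ i, c i * y i ≤ c i * w i := by
    intro i
    by_cases hi : i ∈ fr w
    · simp [hc, hi]
    · simp only [hc, if_neg hi]
      have h1 := (not_mem_fr w hw.1 i).mp hi
      have h2 := abs_le.mp (hyB.1 i)
      rcases h1 with h1 | h1 <;> rw [h1] <;> linarith [h2.1, h2.2]
  have heq : ∀ i, c i * y i = c i * w i := by
    have hs : ∑ i, c i * y i = ∑ i, c i * w i :=
      le_antisymm (Finset.sum_le_sum fun i _ => hle i) hopt
    intro i
    exact (Finset.sum_eq_sum_iff_of_le (fun i _ => hle i)).mp hs i (Finset.mem_univ _)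
  have : y = w := by
    refine h.uniq hw hyB.2.1 ?_
    intro i hi
    have h1 := heq i
    simp only [hc, if_neg hi] at h1
    have h2 := (not_mem_fr w hw.1 i).mp hi
    rcases h2 with h2 | h2 <;> rw [h2] at h1 ⊢ <;> linarith
  rw [← this]; exact hyS

end

end Pool.Agent.Lib.MP_1be6c9_co.Fc
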