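import Pool.Agent.Lib.MP_1be6c9_co.Fc.Sets
import Pool.Agent.Lib.MP_1be6c9_co.Fc.Dim3

/-!
The set step (note 2214) and the reduction of the conjecture to irreducible states.
-/

namespace Pool.Agent.Lib.MP_1be6c9_co.Fc

open Finset Pool.Agent.Lib.MP_1be6c9_co

/-- All signed sets of sizes `3, …, m - 1` are long. -/
def Lng {κ E : Type*} [Fintype κ] [NormedAddCommGroup E] [InnerProductSpace ℝ E]
    (v : κ → E) (m : ℕ) : Prop :=
  ∀ σ : κ → ℝ, Sgn σ → 3 ≤ (sp σ).card → (sp σ).card + 1 ≤ m → 1 < ‖sm v σ‖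

section

variable {κ E : Type*} [Fintype κ] [NormedAddCommGroup E] [InnerProductSpace ℝ E]
  {v : κ → E} {g : E} {m : ℕ} {σ : κ → ℝ}

/-- Signed pairs of used labels are long. -/
theorem far_pair (h : St v g m) (hf : Far v g) (hσ : Sgn σ) (hc : (sp σ).card = 2)
    (hu : ∀ k ∈ sp σ, Used v g k) : 1 < ‖sm v σ‖ ^ 2 := by
  classical
  obtain ⟨i, j, hij, hs⟩ := Finset.card_eq_two.mp hc
  have hi : i ∈ sp σ := by rw [hs]; simp
  have hj : j ∈ sp σ := by rw [hs]; simp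
  have e : sm v σ = σ i • v i + σ j • v j := by
    rw [sm, ← Finset.sum_subset (Finset.subset_univ (sp σ)), hs, Finset.sum_pair hij]
    intro k _ hk
    rw [mem_sp, not_not] at hk
    rw [hk, zero_smul]
  have h1 := hf i j (hu i hi) hij.symm
  rw [abs_lt] at h1
  have hi1 := hσ.abs (mem_sp.mp hi)
  have hj1 := hσ.abs (mem_sp.mp hj)
  rw [e, norm_add_sq_real, norm_smul, norm_smul, h.unit, h.unit, real_inner_smul_left,
    real_inner_smul_right, Real.norm_eq_abs, Real.norm_eq_abs, hi1, hj1]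
  rcases eq_or_eq_neg_of_abs_eq hi1 with h2 | h2 <;>
    rcases eq_or_eq_neg_of_abs_eq hj1 with h3 | h3 <;> rw [h2, h3] <;> norm_num <;>
    linarith [h1.1, h1.2]

/-- The finitely many partial signings. -/
theorem finite_sgn : {σ : κ → ℝ | Sgn σ}.Finite := by
  have hf : (Set.pi Set.univ (fun _ : κ => ({0, 1, -1} : Set ℝ))).Finite :=
    Set.Finite.pi fun _ => Set.toFinite _
  refine hf.subset fun σ hσ i _ => ?_
  have := hσ i
  simpa using this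

theorem exists_min (P : (κ → ℝ) → Prop) (hP : ∀ σ, P σ → Sgn σ) (hne : ∃ σ, P σ) :
    ∃ σ, P σ ∧ ∀ τ, P τ → ‖sm v σ‖ ≤ ‖sm v τ‖ := by
  have hf : {σ : κ → ℝ | P σ}.Finite := finite_sgn.subset hP
  obtain ⟨σ, h1, h2⟩ := Set.exists_min_image _ (fun σ => ‖sm v σ‖) hf hne
  exact ⟨σ, h1, h2⟩

variable [FiniteDimensional ℝ E]

/-- The even case. -/
theorem even_case (h : St v g m) (hf : Far v g) (hm : m % 2 = 1) (hσ : Sgn σ)
    (hev : (sp σ).card % 2 = 0) (h4 : 4 ≤ (sp σ).card) (hle : (sp σ).card + 1 ≤ m)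
    (hY : ‖sm v σ‖ ≤ 1)
    (hmin : ∀ τ, Sgn τ → (sp τ).card % 2 = 0 → 4 ≤ (sp τ).card → (sp τ).card + 1 ≤ m →
      ‖sm v σ‖ ≤ ‖sm v τ‖)
    (hodd : ∀ τ, Sgn τ → (sp τ).card % 2 = 1 → 3 ≤ (sp τ).card → (sp τ).card + 2 ≤ m →
      ‖g‖ ^ 2 + ‖sm v σ‖ ^ 2 - 1 ≤ ‖sm v τ‖ ^ 2) :
    ∀ t θ (x : Rs σ → ℝ), Bas (fam v g σ) (ex t (ex θ x)) → |t| = 1 ∧ |θ| = 1 := by
  have hd : ∀ t θ (x : Rs σ → ℝ), Bas (fam v g σ) (ex t (ex θ x)) → |t| < 1 → |θ| < 1 →
      False := by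
    intro t θ x hy ht hθ
    have h1 := law_d h hσ hY ht hθ hy
    have h2 := size_tg h hy
    rw [if_pos ht, if_pos hθ] at h2
    have h3 := hodd (tg σ x) (sgn_tg fun k => hy.1 (some (some k))) (by omega) (by omega)
      (by omega)
    linarith
  intro t θ x hy
  have hb : |θ| = 1 := by
    by_contra hcon
    have hθ : |θ| < 1 := lt_of_le_of_ne (hy.1 (some none)) hcon
    have ht : |t| = 1 := by
      by_contra hcon2
      exact hd t θ x hy (lt_of_le_of_ne (hy.1 none) hcon2) hθ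
    have h1 := law_b' h hσ hY hd ht hθ hy
    have h2 := size_tg h hy
    rw [if_neg (by rw [ht]; exact lt_irrefl _), if_pos hθ] at h2
    have hg : 0 ≤ ‖g‖ ^ 2 := sq_nonneg _
    have hs := sgn_tg (σ := σ) (x := x) fun k => hy.1 (some (some k))
    by_cases h3 : (sp (tg σ x)).card = 2
    · have h5 := far_pair h hf hs h3 fun k hk =>
        used_tg h hσ ht ⟨hy.1, hy.2.1⟩ hk
      have h6 : ‖sm v σ‖ ^ 2 ≤ 1 := pow_le_one₀ (norm_nonneg _) hY
      linarith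
    · have h5 := hmin (tg σ x) hs (by omega) (by omega) (by omega)
      have h6 : ‖sm v σ‖ ^ 2 ≤ ‖sm v (tg σ x)‖ ^ 2 := pow_le_pow_left₀ (norm_nonneg _) h5 2
      linarith
  exact ⟨no_c h hσ hb hy, hb⟩

/-- The set step, for a fixed state. -/
theorem set_step_aux (h : St v g m) (hf : Far v g) (hm : m % 2 = 1) (hL : ¬ Lng v m) :
    ∃ σ : κ → ℝ, Sgn σ ∧ (sp σ).card % 2 = 0 ∧ 4 ≤ (sp σ).card ∧ (sp σ).card + 1 ≤ m ∧
      ‖sm v σ‖ ≤ 1 ∧
      ∀ t θ (x : Rs σ → ℝ), Bas (fam v g σ) (ex t (ex θ x)) → |t| = 1 ∧ |θ| = 1 := by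
  have hg : ‖g‖ ^ 2 < 1 := by
    have := h.norm_g
    nlinarith [norm_nonneg g]
  have hg0 : 0 ≤ ‖g‖ ^ 2 := sq_nonneg _
  simp only [Lng, not_forall, not_lt] at hL
  obtain ⟨σ0, hs0, h30, hm0, hY0⟩ := hL
  obtain ⟨σ, ⟨hσ, h3, hm3⟩, hmin⟩ := exists_min (v := v)
    (fun σ : κ → ℝ => Sgn σ ∧ 3 ≤ (sp σ).card ∧ (sp σ).card + 1 ≤ m) (fun σ h => h.1)
    ⟨σ0, hs0, h30, hm0⟩
  have hY : ‖sm v σ‖ ≤ 1 := (hmin σ0 ⟨hs0, h30, hm0⟩).trans hY0
  have hY2 : ‖sm v σ‖ ^ 2 ≤ 1 := pow_le_one₀ (norm_nonneg _) hY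
  rcases Nat.mod_two_eq_zero_or_one (sp σ).card with hp | hp
  · refine ⟨σ, hσ, hp, by omega, hm3, hY, ?_⟩
    refine even_case h hf hm hσ hp (by omega) hm3 hY
      (fun τ h1 h2 h4 h5 => hmin τ ⟨h1, by omega, h5⟩) ?_
    intro τ h1 h2 h4 h5
    have h6 : ‖sm v σ‖ ^ 2 ≤ ‖sm v τ‖ ^ 2 :=
      pow_le_pow_left₀ (norm_nonneg _) (hmin τ ⟨h1, h4, by omega⟩) 2
    linarith
  · -- the odd case
    have hd : ∀ t θ (x : Rs σ → ℝ), Bas (fam v g σ) (ex t (ex θ x)) → |t| < 1 → |θ| < 1 →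
        False := by
      intro t θ x hy ht hθ
      have h1 := law_d h hσ hY ht hθ hy
      have h2 := size_tg h hy
      rw [if_pos ht, if_pos hθ] at h2
      have h5 := hmin (tg σ x) ⟨sgn_tg fun k => hy.1 (some (some k)), by omega, by omega⟩
      have h6 : ‖sm v σ‖ ^ 2 ≤ ‖sm v (tg σ x)‖ ^ 2 := pow_le_pow_left₀ (norm_nonneg _) h5 2
      linarith
    have ha : ∀ t θ (x : Rs σ → ℝ), Bas (fam v g σ) (ex t (ex θ x)) → |t| = 1 ∧ |θ| = 1 := by
      intro t θ x hy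
      have hb : |θ| = 1 := by
        by_contra hcon
        have hθ : |θ| < 1 := lt_of_le_of_ne (hy.1 (some none)) hcon
        have ht : |t| = 1 := by
          by_contra hcon2
          exact hd t θ x hy (lt_of_le_of_ne (hy.1 none) hcon2) hθ
        have h1 := law_b' h hσ hY hd ht hθ hy
        have h2 := size_tg h hy
        rw [if_neg (by rw [ht]; exact lt_irrefl _), if_pos hθ] at h2
        have h5 := hmin (tg σ x) ⟨sgn_tg fun k => hy.1 (some (some k)), by omega, by omega⟩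
        have h6 : ‖sm v σ‖ ^ 2 ≤ ‖sm v (tg σ x)‖ ^ 2 := pow_le_pow_left₀ (norm_nonneg _) h5 2
        linarith
      exact ⟨no_c h hσ hb hy, hb⟩
    -- a vertex
    obtain ⟨y, hy, -⟩ := (gp_fam h hσ hY).vtx (y := fun _ => 0) ⟨by simp, by simp⟩
    obtain ⟨t, θ, x, rfl⟩ : ∃ t θ x, y = ex t (ex θ x) := ⟨_, _, _, (exx_eta y).symm⟩
    obtain ⟨ht, hθ⟩ := ha _ _ _ hy
    have h1 := law_a' h hσ hY ha hy
    have h2 := size_tg h hy
    rw [if_neg (by rw [ht]; exact lt_irrefl _), if_neg (by rw [hθ]; exact lt_irrefl _)] at h2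
    have hs := sgn_tg (σ := σ) (x := x) fun k => hy.1 (some (some k))
    have hn : 0 ≤ ‖sm v σ‖ ^ 2 := sq_nonneg _
    have h4 : 4 ≤ (sp (tg σ x)).card := by
      by_contra hcon
      have h3 : (sp (tg σ x)).card = 2 := by
        have : 1 ≤ (sp (tg σ x)).card := by omega
        omega
      have h5 := far_pair h hf hs h3 fun k hk => used_tg h hσ ht ⟨hy.1, hy.2.1⟩ hk
      linarith
    obtain ⟨ρ, ⟨hρ, hρ0, hρ4, hρm⟩, hminρ⟩ := exists_min (v := v)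
      (fun σ : κ → ℝ => Sgn σ ∧ (sp σ).card % 2 = 0 ∧ 4 ≤ (sp σ).card ∧ (sp σ).card + 1 ≤ m)
      (fun σ h => h.1) ⟨tg σ x, hs, by omega, h4, by omega⟩
    have h5 : ‖sm v ρ‖ ^ 2 ≤ ‖sm v (tg σ x)‖ ^ 2 :=
      pow_le_pow_left₀ (norm_nonneg _) (hminρ _ ⟨hs, by omega, h4, by omega⟩) 2
    have h6 : ‖sm v ρ‖ ≤ 1 := by
      have : ‖sm v ρ‖ ^ 2 ≤ 1 ^ 2 := by linarith
      exact (pow_le_pow_iff_left₀ (norm_nonneg _) zero_le_one two_ne_zero).mp this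
    refine ⟨ρ, hρ, hρ0, hρ4, hρm, h6, ?_⟩
    refine even_case h hf hm hρ hρ0 hρ4 hρm h6 (fun τ h1 h2 h4 h5 => hminρ τ ⟨h1, h2, h4, h5⟩) ?_
    intro τ h1 h2 h4 h5
    have : 0 ≤ ‖sm v τ‖ ^ 2 := sq_nonneg _
    linarith

end

/-- The set step. -/
theorem set_step {κ E : Type} [Fintype κ] [DecidableEq κ] [NormedAddCommGroup E]
    [InnerProductSpace ℝ E] [FiniteDimensional ℝ E] {v : κ → E} {g : E} {m : ℕ}
    (h : St v g m) (hm : m % 2 = 1) (h3 : 3 ≤ m) :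
    (Far v g ∧ Lng v m) ∨ ∃ m' : ℕ, m' < m ∧ m' % 2 = 1 ∧
      ∃ (κ' : Type) (_ : Fintype κ') (_ : DecidableEq κ') (v' : κ' → E) (g' : E),
        St v' g' m' := by
  obtain ⟨k, rfl⟩ : ∃ k, m = k + 2 := ⟨m - 2, by omega⟩
  rcases step_far h (by omega) with hf | hs
  · by_cases hL : Lng v (k + 2)
    · exact Or.inl ⟨hf, hL⟩
    · right
      obtain ⟨σ, hσ, hp, h4, hle, hY, ha⟩ := set_step_aux h hf hm hL
      exact ⟨k + 2 - (sp σ).card, by omega, by omega, Rs σ, inferInstance, inferInstance, _, _,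
        new_state h hσ hY (by omega) ha⟩
  · exact Or.inr ⟨k, by omega, by omega, hs⟩

/-- The reduction of the conjecture to irreducible states of dimension at least five. -/
theorem no_st_of {E : Type} [NormedAddCommGroup E] [InnerProductSpace ℝ E]
    [FiniteDimensional ℝ E]
    (H : ∀ (κ : Type) [Fintype κ] [DecidableEq κ] (v : κ → E) (g : E) (m : ℕ), m % 2 = 1 →
      5 ≤ m → St v g m → Far v g → Lng v m → False) :
    ∀ (m : ℕ) (κ : Type) [Fintype κ] [DecidableEq κ] (v : κ → E) (g : E), m % 2 = 1 →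
      ¬ St v g m := by
  intro m
  induction m using Nat.strong_induction_on with
  | _ m ih =>
    intro κ _ _ v g hm h
    by_cases h1 : m = 1
    · subst h1; exact no_st1 h
    by_cases h3 : m = 3
    · subst h3; exact no_st3 h
    rcases set_step h hm (by omega) with ⟨hf, hL⟩ | ⟨m', hlt, hp, κ', _, _, v', g', h'⟩
    · exact H κ v g m hm (by omega) h hf hL
    · exact ih m' hlt κ' v' g' hp h'

end Pool.Agent.Lib.MP_1be6c9_co.Fc
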