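import Mathlib

set_option autoImplicit false

/-!
The last lemma: numerical inequalities.
-/

namespace Pool.Agent.Lib.MP_1be6c9_co.Fc

/-- bounds for `ρ = |p_H|²` from the operator law and the trace law. -/
theorem num_rho {t ρ h θ : ℝ} (ht : 0 < t) (ht1 : t ≤ 36481 / 62500) (hρ : 0 ≤ ρ)
    (hh : h = (t + ρ) / 2) (hh1 : h ≤ 43 / 100) (hθ0 : 0 ≤ θ) (hθ : θ ≤ t)
    (hT : (1 - h) * ρ ≤ (t - θ) * (1 + θ)) (hQ : ρ * (1 + θ) ≤ h * (h + θ)) :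
    ρ ≤ 76 / 100 * t ^ 2 ∧ (t ≤ 5476 / 10000 → ρ ≤ 75 / 100 * t ^ 2) ∧
      (t ≤ 53364 / 100000 → ρ ≤ 75 / 100 * t ^ 2 ∧ 4 / 10 * ρ ≤ t - θ) := by
  have hρ1 : ρ ≤ 86 / 100 - t := by linarith
  have hQ' : 4 * ρ * (1 + θ) ≤ (t + ρ) * (t + ρ + 2 * θ) := by
    rw [hh] at hQ
    nlinarith
  have hρt : ρ ≤ t := by
    by_contra hcon
    push Not at hcon
    have h1 : (t + ρ) * (t + ρ + 2 * θ) < 2 * ρ * (2 * ρ + 2 * θ) := by
      have h2 : t + ρ < 2 * ρ := by linarith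
      have h3 : t + ρ + 2 * θ < 2 * ρ + 2 * θ := by linarith
      exact mul_lt_mul'' h2 h3 (by linarith) (by linarith)
    nlinarith
  -- a general step
  have step : ∀ c : ℝ, 0 ≤ c → c * ρ ≤ t - θ →
      4 * ρ + 2 * c * t * ρ - (1 + 2 * c) * ρ ^ 2 ≤ 3 * t ^ 2 := by
    intro c hc hcρ
    have h1 : θ * (t - ρ) ≤ (t - c * ρ) * (t - ρ) :=
      mul_le_mul_of_nonneg_right (by linarith) (by linarith)
    nlinarith
  have hθ1 : 1 + θ ≤ 1583696 / 1000000 := by linarith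
  have hc : ∀ h' c : ℝ, h ≤ h' → c * (1583696 / 1000000) ≤ 1 - h' → c * ρ ≤ t - θ := by
    intro h' c hh' hc
    have h1 : (t - θ) * (1 + θ) ≤ (t - θ) * (1583696 / 1000000) :=
      mul_le_mul_of_nonneg_left hθ1 (by linarith)
    have h2 : (1 - h') * ρ ≤ (1 - h) * ρ := mul_le_mul_of_nonneg_right (by linarith) hρ
    have h3 : c * (1583696 / 1000000) * ρ ≤ (1 - h') * ρ := mul_le_mul_of_nonneg_right hc hρ
    nlinarith
  have h76 : ρ ≤ 76 / 100 * t ^ 2 := by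
    have h1 := step (359 / 1000) (by norm_num) (hc (43 / 100) _ hh1 (by norm_num))
    by_contra hcon
    push Not at hcon
    have h2 : 0 < (ρ - 76 / 100 * t ^ 2) * (4 + 718 / 1000 * t -
        1718 / 1000 * (ρ + 76 / 100 * t ^ 2)) := by
      refine mul_pos (by linarith) ?_
      nlinarith
    have h3 : 0 < 4 / 100 + 54568 / 100000 * t - 99233 / 100000 * t ^ 2 := by nlinarith
    have h4 : 0 < t ^ 2 * (4 / 100 + 54568 / 100000 * t - 99233 / 100000 * t ^ 2) := by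
      positivity
    nlinarith
  have h75 : t ≤ 5476 / 10000 → ρ ≤ 75 / 100 * t ^ 2 := by
    intro ht2
    have h0 : h ≤ 4213 / 10000 := by nlinarith
    have h1 := step (365 / 1000) (by norm_num) (hc (4213 / 10000) _ h0 (by norm_num))
    by_contra hcon
    push Not at hcon
    have h2 : 0 < (ρ - 75 / 100 * t ^ 2) * (4 + 73 / 100 * t -
        173 / 100 * (ρ + 75 / 100 * t ^ 2)) := by
      refine mul_pos (by linarith) ?_
      nlinarith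
    have h3 : 0 < t ^ 3 * (5475 / 10000 - 973125 / 1000000 * t) := by
      refine mul_pos (by positivity) ?_
      linarith
    nlinarith
  refine ⟨h76, h75, ?_⟩
  intro ht2
  have h1 := h75 (by linarith)
  refine ⟨h1, ?_⟩
  have h2 : t ^ 2 ≤ 53364 / 100000 * t := by nlinarith
  have h0 : h ≤ 37362 / 100000 := by
    have h3 : t ^ 2 ≤ (53364 / 100000) ^ 2 := by nlinarith
    nlinarith
  have h4 : (t - θ) * (1 + θ) ≤ (t - θ) * (153364 / 100000) :=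
    mul_le_mul_of_nonneg_left (by linarith) (by linarith)
  have h5 : 62638 / 100000 * ρ ≤ (1 - h) * ρ := mul_le_mul_of_nonneg_right (by linarith) hρ
  nlinarith

/-- the quantity of the law `(N)`. -/
def phiN (l α h τ : ℝ) : ℝ :=
  (1 - α ^ 2) * (4 * h ^ 2 + 4 * h) + l * h - 4 + 2 * h + 8 * α ^ 2 - 4 * α * τ

/-- `phiN` is convex in `α`. -/
theorem phiN_conv {l α h τ c : ℝ} (hα : 0 ≤ α) (hαc : α ≤ c) (hc : 0 < c) (hh : 0 ≤ h)
    (hh1 : h ≤ 43 / 100) (hl : 0 ≤ l) (hl1 : l ≤ 1 / 2) (h1 : phiN l c h τ ≤ 0) :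
    phiN l α h τ ≤ 0 := by
  have h0 : phiN l 0 h τ ≤ 0 := by
    unfold phiN
    nlinarith
  have e : c * phiN l α h τ = (c - α) * phiN l 0 h τ + α * phiN l c h τ -
      c * (8 - (4 * h ^ 2 + 4 * h)) * (α * (c - α)) := by
    unfold phiN
    ring
  have h2 : 0 ≤ c * (8 - (4 * h ^ 2 + 4 * h)) * (α * (c - α)) := by
    refine mul_nonneg (mul_nonneg hc.le ?_) (mul_nonneg hα (by linarith))
    nlinarith
  have h3 : (c - α) * phiN l 0 h τ ≤ 0 := mul_nonpos_of_nonneg_of_nonpos (by linarith) h0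
  have h4 : α * phiN l c h τ ≤ 0 := mul_nonpos_of_nonneg_of_nonpos hα h1
  have h5 : c * phiN l α h τ ≤ 0 := by linarith
  by_contra hcon
  push Not at hcon
  have := mul_pos hc hcon
  linarith

/-- `(N)` gives `α > 7/10`. -/
theorem num_N1 {α h τ : ℝ} (hα : 0 ≤ α) (hh : 0 ≤ h) (hh1 : h ≤ 43 / 100) (hτ : 0 ≤ τ)
    (hτ1 : τ ≤ 191 / 250) (hht : 2 * h ≤ τ ^ 2 + 76 / 100 * (τ ^ 2) ^ 2)
    (h1 : 0 < phiN (31 / 100) α h τ) : 7 / 10 < α := by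
  by_contra hcon
  push Not at hcon
  refine absurd (phiN_conv hα hcon (by norm_num) hh hh1 (by norm_num) (by norm_num) ?_)
    (not_le.mpr h1)
  have h2 : τ ^ 2 ≤ (191 / 250) ^ 2 := by nlinarith
  have h3 : h ≤ 5515 / 10000 * τ := by
    have h4 : τ + 76 / 100 * (τ * τ ^ 2) ≤ 1103 / 1000 := by
      have : τ * τ ^ 2 ≤ (191 / 250) * (191 / 250) ^ 2 :=
        mul_le_mul hτ1 h2 (by positivity) (by norm_num)
      nlinarith
    have h5 : τ * (τ + 76 / 100 * (τ * τ ^ 2)) ≤ τ * (1103 / 1000) :=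
      mul_le_mul_of_nonneg_left h4 hτ
    nlinarith
  have h4 : h ≤ 42135 / 100000 := by nlinarith
  unfold phiN
  nlinarith

/-- `(N)` gives `α > 74/100` in the middle range. -/
theorem num_N2 {α h τ : ℝ} (hα : 0 ≤ α) (hh : 0 ≤ h) (hh1 : h ≤ 43 / 100)
    (hτ : 45 / 100 ≤ τ) (hτ1 : τ ≤ 7305 / 10000)
    (hht : 2 * h ≤ τ ^ 2 + 75 / 100 * (τ ^ 2) ^ 2)
    (h1 : 0 < phiN (27 / 100) α h τ) : 74 / 100 < α := by
  by_contra hcon
  push Not at hcon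
  refine absurd (phiN_conv hα hcon (by norm_num) hh hh1 (by norm_num) (by norm_num) ?_)
    (not_le.mpr h1)
  have h2 : τ ^ 2 ≤ 11805 / 10000 * τ - 328725 / 1000000 := by nlinarith
  have h3 : (2025 / 10000 : ℝ) ≤ τ ^ 2 := by nlinarith
  have h4 : τ ^ 2 ≤ 53363025 / 100000000 := by nlinarith
  have h5 : (τ ^ 2) ^ 2 ≤ (2025 / 10000 + 53363025 / 100000000) * τ ^ 2 -
      2025 / 10000 * (53363025 / 100000000) := by
    nlinarith
  have h6 : h ≤ 91613 / 100000 * τ - 29562 / 100000 := by nlinarith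
  have h7 : h ≤ 37361 / 100000 := by nlinarith
  unfold phiN
  nlinarith

/-- `(N)` and the pairs exclude `τ ∈ [.7305, .74]`. -/
theorem num_N3 {α β h τ : ℝ} (hα : 7 / 10 < α) (hh : 0 ≤ h) (hh1 : h ≤ 43 / 100)
    (hβ : τ ≤ 191 / 250 * β)
    (hp : α ^ 2 - α * β + β ^ 2 ≤ 3 / 4) (hτ : 7305 / 10000 ≤ τ) (hτ1 : τ ≤ 74 / 100)
    (hht : 2 * h ≤ τ ^ 2 + 75 / 100 * (τ ^ 2) ^ 2)
    (h1 : 0 < phiN (27 / 100) α h τ) : False := by
  have hβ1 : 95615 / 100000 ≤ β := by linarith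
  have hα1 : α ≤ 7318 / 10000 := by
    by_contra hcon
    push Not at hcon
    nlinarith [mul_nonneg (sub_nonneg.mpr hcon.le) (sub_nonneg.mpr hβ1), sq_nonneg (α - 7318 / 10000),
      sq_nonneg (β - 95615 / 100000)]
  refine absurd (phiN_conv (by linarith) hα1 (by norm_num) hh hh1 (by norm_num) (by norm_num) ?_)
    (not_le.mpr h1)
  have h2 : τ ^ 2 ≤ 14705 / 10000 * τ - 54057 / 100000 := by nlinarith
  have h3 : (5336 / 10000 : ℝ) ≤ τ ^ 2 := by nlinarith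
  have h4 : τ ^ 2 ≤ 5476 / 10000 := by nlinarith
  have h5 : (τ ^ 2) ^ 2 ≤ (5336 / 10000 + 5476 / 10000) * τ ^ 2 -
      5336 / 10000 * (5476 / 10000) := by
    nlinarith
  have h6 : h ≤ 13315 / 10000 * τ - 59904 / 100000 := by nlinarith
  have h7 : h ≤ 3864 / 10000 := by nlinarith
  unfold phiN
  nlinarith

/-- The pairs exclude `τ ≥ .74`. -/
theorem num_N4 {α β τ : ℝ} (hα : 7 / 10 < α) (hβ : τ ≤ 191 / 250 * β)
    (hp : α ^ 2 - α * β + β ^ 2 ≤ 3 / 4) (hτ : 74 / 100 ≤ τ) : False := by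
  have hβ1 : 968586 / 1000000 ≤ β := by linarith
  nlinarith [mul_nonneg (sub_nonneg.mpr hα.le) (sub_nonneg.mpr hβ1), sq_nonneg (α - 7 / 10),
      sq_nonneg (β - 968586 / 1000000)]

/-- The pair law. -/
theorem num_pair {α β S : ℝ} (hα : 7 / 10 < α) (hαβ : α ≤ β) (hβ : β ≤ 1)
    (hS : α * β + S < 1 / 2) (hCS : S ^ 2 ≤ (1 - α ^ 2) * (1 - β ^ 2)) :
    α ^ 2 - α * β + β ^ 2 ≤ 3 / 4 := by
  rcases le_total (1 / 2) (α * β) with h | h
  · have h1 : (α * β - 1 / 2) ^ 2 ≤ S ^ 2 := by nlinarith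
    nlinarith
  · have h1 : β ≤ 72 / 100 := by nlinarith
    nlinarith

/-- the cross term. -/
theorem num_cross {α β w : ℝ} (hw : w * β = α) (hw1 : w ≤ 1) (hα : 74 / 100 ≤ α) (hβ : β ≤ 1)
    (hβ' : 0 ≤ β) :
    (1 - w) * (5 / 2 * (1 - β ^ 2) + 2 / 5) ≤ 157 / 1000 := by
  have hβ0 : 74 / 100 ≤ β := by
    have := mul_le_mul_of_nonneg_right hw1 hβ'
    linarith
  have h1 : (β - 74 / 100) * (29 / 10 - 5 / 2 * β ^ 2) ≤ 157 / 1000 * β := by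
    nlinarith [mul_nonneg (sq_nonneg (β - 9 / 10)) (by linarith : (0 : ℝ) ≤ β + 106 / 100)]
  have h2 : 0 ≤ 29 / 10 - 5 / 2 * β ^ 2 := by nlinarith
  have h3 : (1 - w) * β ≤ β - 74 / 100 := by linarith
  have h4 : ((1 - w) * (5 / 2 * (1 - β ^ 2) + 2 / 5)) * β ≤ 157 / 1000 * β := by
    have h5 := mul_le_mul_of_nonneg_right h3 h2
    linarith
  exact le_of_mul_le_mul_right h4 (by linarith)

theorem num_cross' {α β w : ℝ} (hw : w * β = α) (hw1 : w ≤ 1) (hα : 7 / 10 ≤ α) (hβ : β ≤ 1)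
    (hβ' : 0 ≤ β) :
    (1 - w) * (5 / 2 * (1 - β ^ 2) + 2 / 5) ≤ 1 / 5 := by
  have hβ0 : 7 / 10 ≤ β := by
    have := mul_le_mul_of_nonneg_right hw1 hβ'
    linarith
  have h1 : (β - 7 / 10) * (29 / 10 - 5 / 2 * β ^ 2) ≤ 1 / 5 * β := by
    nlinarith [mul_nonneg (sq_nonneg (β - 877 / 1000)) (by linarith : (0 : ℝ) ≤ β + 1054 / 1000)]
  have h2 : 0 ≤ 29 / 10 - 5 / 2 * β ^ 2 := by nlinarith
  have h3 : (1 - w) * β ≤ β - 7 / 10 := by linarith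
  have h4 : ((1 - w) * (5 / 2 * (1 - β ^ 2) + 2 / 5)) * β ≤ 1 / 5 * β := by
    have h5 := mul_le_mul_of_nonneg_right h3 h2
    linarith
  exact le_of_mul_le_mul_right h4 (by linarith)

/-- The law `(C)` for `τ ≤ .45`. -/
theorem num_C1 {α β τ t ρ h w B z : ℝ} (ht : t = τ ^ 2) (hτ0 : 0 < τ) (hτ : τ ≤ 45 / 100)
    (hρ : 0 ≤ ρ) (hρ1 : ρ ≤ 75 / 100 * t ^ 2) (hh : h = (t + ρ) / 2)
    (hw : w * β = α) (hw0 : 0 ≤ w) (hw1 : w ≤ 1) (hα : 7 / 10 ≤ α) (hβ : β ≤ 1)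
    (hβ' : 0 ≤ β) (hB : 1 ≤ B) (hB4 : B ≤ 4) (hz : z * (17 / 20 * t) = ρ)
    (hI : 4 * α * τ - t - ρ - z - 17 / 20 * t * ((1 + w) ^ 2 - 4 * α ^ 2 - w * B) <
      4 * (t ^ 2 + (B - 1) * h) / B + 2 * (1 - w) * t * (5 / 2 * (1 - β ^ 2) + 2 / 5)) : False := by
  have ht0 : 0 < t := by rw [ht]; positivity
  have hc := num_cross' hw hw1 hα hβ hβ'
  have hcross : 2 * (1 - w) * t * (5 / 2 * (1 - β ^ 2) + 2 / 5) ≤ 2 / 5 * t := by
    nlinarith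
  have hz1 : z ≤ 88236 / 100000 * t := by
    have h1 : z * (17 / 20 * t) ≤ 88236 / 100000 * t * (17 / 20 * t) := by
      rw [hz]
      nlinarith
    exact le_of_mul_le_mul_right h1 (by linarith)
  have hs : (1 + w) ^ 2 - 4 * α ^ 2 - w * B ≤ 104 / 100 := by nlinarith
  have hs1 : 17 / 20 * t * ((1 + w) ^ 2 - 4 * α ^ 2 - w * B) ≤ 17 / 20 * t * (104 / 100) :=
    mul_le_mul_of_nonneg_left hs (by linarith)
  have hh0 : 0 ≤ h := by rw [hh]; linarith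
  have hBt : 4 * (t ^ 2 + (B - 1) * h) / B ≤ 4 * t ^ 2 + 3 * h := by
    rw [div_le_iff₀ (by linarith)]
    nlinarith [mul_nonneg hh0 (by linarith : (0 : ℝ) ≤ 4 - B), mul_nonneg (sq_nonneg t)
      (by linarith : (0 : ℝ) ≤ B - 1)]
  have hατ : 28 / 10 * τ ≤ 4 * α * τ := by nlinarith
  have h1 : 28 / 10 * τ < 466637 / 100000 * t + 5875 / 1000 * t ^ 2 := by
    nlinarith
  rw [ht] at h1
  have h2 : τ * (28 / 10) < τ * (466637 / 100000 * τ + 5875 / 1000 * τ ^ 3) := by nlinarith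
  have h3 := lt_of_mul_lt_mul_left h2 hτ0.le
  have h4 : τ ^ 3 ≤ (45 / 100) ^ 3 := pow_le_pow_left₀ hτ0.le hτ 3
  nlinarith

/-- `w ≥ .776` in the middle range. -/
theorem num_w {α β w : ℝ} (hw : w * β = α) (hw0 : 0 ≤ w) (hα : 74 / 100 ≤ α)
    (hp : α ^ 2 - α * β + β ^ 2 ≤ 3 / 4) : 776 / 1000 ≤ w := by
  have h1 : (w ^ 2 - w + 1) * β ^ 2 ≤ 3 / 4 := by
    have e : (w ^ 2 - w + 1) * β ^ 2 = α ^ 2 - α * β + β ^ 2 := by
      rw [← hw]
      ring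
    linarith
  have h2 : (w ^ 2 - w + 1) * α ^ 2 ≤ 3 / 4 * w ^ 2 := by
    have e : (w ^ 2 - w + 1) * α ^ 2 = (w ^ 2 - w + 1) * β ^ 2 * w ^ 2 := by
      rw [← hw]
      ring
    rw [e]
    exact mul_le_mul_of_nonneg_right h1 (sq_nonneg w)
  have h3 : (5476 / 10000 : ℝ) ≤ α ^ 2 := by nlinarith
  have h4 : (w ^ 2 - w + 1) * (5476 / 10000) ≤ 3 / 4 * w ^ 2 := by
    have h5 : 0 ≤ w ^ 2 - w + 1 := by nlinarith [sq_nonneg (w - 1 / 2)]
    have := mul_le_mul_of_nonneg_left h3 h5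
    linarith
  by_contra hcon
  push Not at hcon
  nlinarith

/-- monotonicity in `ρ`. -/
theorem num_mono {t ρ z : ℝ} (ht0 : 2025 / 10000 ≤ t) (ht1 : t ≤ 53363025 / 100000000)
    (hρ : 0 ≤ ρ) (hρ1 : ρ ≤ 75 / 100 * t ^ 2) (hz : z * (21 / 10 * t) = ρ) :
    ρ + z + 4 * (t - 2 / 5 * ρ) ^ 2 + 314 / 1000 * (t - 2 / 5 * ρ) ≤
      75 / 100 * t ^ 2 + 35715 / 100000 * t + 4 * (t - 3 / 10 * t ^ 2) ^ 2 +
        314 / 1000 * (t - 3 / 10 * t ^ 2) := by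
  have ht : 0 < t := by linarith
  -- `z` against `ρ`
  have hz1 : z ≤ 35715 / 100000 * t - 8923 / 10000 * (75 / 100 * t ^ 2 - ρ) := by
    have h1 : z * (21 / 10 * t) ≤
        (35715 / 100000 * t - 8923 / 10000 * (75 / 100 * t ^ 2 - ρ)) * (21 / 10 * t) := by
      rw [hz]
      have h2 : 8923 / 10000 * (21 / 10 * t) ≤ 1 := by nlinarith
      have h3 := mul_le_mul_of_nonneg_right h2 (by linarith : 0 ≤ 75 / 100 * t ^ 2 - ρ)
      nlinarith [sq_nonneg t]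
    exact le_of_mul_le_mul_right h1 (by linarith)
  have h4 : 0 ≤ (75 / 100 * t ^ 2 - ρ) * (1 + 8923 / 10000 - 1256 / 10000 - 16 / 5 * t) :=
    mul_nonneg (by linarith) (by linarith)
  have h5 : 0 ≤ (75 / 100 * t ^ 2 - ρ) * (ρ + 75 / 100 * t ^ 2) :=
    mul_nonneg (by linarith) (by positivity)
  nlinarith

/-- the final polynomial. -/
theorem num_fin {τ t : ℝ} (ht : t = τ ^ 2) (hτ0 : 45 / 100 ≤ τ) (hτ : τ ≤ 7305 / 10000)
    {ψ : ℝ} (h1 : 296 / 100 * τ - 17002 / 10000 * t ≤ ψ)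
    (h2 : 17727 / 10000 * τ + 24998 / 10000 * t - 6714 / 10000 ≤ ψ) :
    t + 75 / 100 * t ^ 2 + 35715 / 100000 * t + 4 * (t - 3 / 10 * t ^ 2) ^ 2 +
        314 / 1000 * (t - 3 / 10 * t ^ 2) < ψ := by
  have ht0 : 2025 / 10000 ≤ t := by rw [ht]; nlinarith
  have ht1 : t ≤ 53363025 / 100000000 := by rw [ht]; nlinarith
  have h0 : 0 < t := by linarith
  rcases le_total τ (5654 / 10000) with h | h
  · have h3 : t ≤ 5654 / 10000 * τ := by rw [ht]; nlinarith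
    have h4 : t ≤ 3197 / 10000 := by rw [ht]; nlinarith
    have h5 : 4 * (t - 3 / 10 * t ^ 2) ^ 2 ≤ 4 * t ^ 2 := by
      have : (t - 3 / 10 * t ^ 2) ^ 2 ≤ t ^ 2 := by
        apply pow_le_pow_left₀ <;> nlinarith
      linarith
    nlinarith
  · have h3 : (3196 / 10000 : ℝ) ≤ t := by rw [ht]; nlinarith
    have h4 : t ^ 2 * (46558 / 10000 - 22078 / 10000 * t) ≤ 27418 / 10000 * t - 47270 / 100000 := by
      have h7 : 0 ≤ (t - 3196 / 10000) * (53363025 / 100000000 - t) * (12555 / 10000 - t) :=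
        mul_nonneg (mul_nonneg (by linarith) (by linarith)) (by linarith)
      nlinarith
    have h5 : 75 / 100 * t ^ 2 + 4 * (t - 3 / 10 * t ^ 2) ^ 2 - 314 / 1000 * (3 / 10 * t ^ 2) ≤
        t ^ 2 * (46558 / 10000 - 22078 / 10000 * t) := by
      have h6 : 36 / 100 * t ^ 4 ≤ 36 / 100 * (53364 / 100000) * t ^ 3 := by
        have : t ^ 4 = t * t ^ 3 := by ring
        rw [this]
        have h7 := mul_le_mul_of_nonneg_right ht1 (by positivity : 0 ≤ t ^ 3)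
        have h8 : 0 ≤ t ^ 3 := by positivity
        nlinarith
      have h8 : 0 ≤ t ^ 3 := by positivity
      nlinarith
    have h6 : t ≤ (5654 / 10000 + 7305 / 10000) * τ - 5654 / 10000 * (7305 / 10000) := by
      rw [ht]
      nlinarith
    nlinarith

/-- the bound for the `α`-terms. -/
theorem num_psi {α β τ t w : ℝ} (ht : t = τ ^ 2) (hτ0 : 45 / 100 ≤ τ)
    (hτ : τ ≤ 7305 / 10000) (hτβ : τ ≤ 191 / 250 * β)
    (hw : w * β = α) (hw0 : 0 ≤ w) (hw1 : w ≤ 1) (hα : 74 / 100 ≤ α) (hα1 : α ≤ 1) :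
    296 / 100 * τ - 17002 / 10000 * t ≤
      4 * α * τ - 21 / 10 * t * (1 + w + w ^ 2 - 4 * α ^ 2) ∧
    17727 / 10000 * τ + 24998 / 10000 * t - 6714 / 10000 ≤
      4 * α * τ - 21 / 10 * t * (1 + w + w ^ 2 - 4 * α ^ 2) := by
  have ht0 : 2025 / 10000 ≤ t := by rw [ht]; nlinarith
  have ht1 : t ≤ 53363025 / 100000000 := by rw [ht]; nlinarith
  have hα2 : (5476 / 10000 : ℝ) ≤ α ^ 2 := by nlinarith
  have hατ : 74 / 100 * τ ≤ α * τ := mul_le_mul_of_nonneg_right hα (by linarith)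
  have hw2 : w ^ 2 ≤ 1 := by nlinarith
  constructor
  · have h1 : t * (1 + w + w ^ 2 - 4 * α ^ 2) ≤ t * (3 - 4 * (5476 / 10000)) :=
      mul_le_mul_of_nonneg_left (by linarith) (by linarith)
    linarith
  · -- `τ w ≤ .764 α`
    have h1 : τ * w ≤ 191 / 250 * α := by
      rw [← hw]
      nlinarith
    have h2 : t * w ≤ 191 / 250 * (α * τ) := by
      rw [ht]
      nlinarith
    have h3 : t * w ^ 2 ≤ (191 / 250) ^ 2 * α ^ 2 := by
      have h4 : (τ * w) ^ 2 ≤ (191 / 250 * α) ^ 2 :=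
        pow_le_pow_left₀ (mul_nonneg (by linarith) hw0) h1 2
      rw [ht]
      nlinarith
    have h4 : 0 ≤ (α ^ 2 - 5476 / 10000) * (84 / 10 * t - 21 / 10 * (191 / 250) ^ 2) :=
      mul_nonneg (by linarith) (by nlinarith)
    nlinarith

theorem num_theta {t ρ : ℝ} (ht0 : 2025 / 10000 ≤ t) (ht1 : t ≤ 53363025 / 100000000)
    (hρ1 : ρ ≤ 75 / 100 * t ^ 2) :
    371 / 1000 * t + 2 * ρ ≤ 4 * (t - 2 / 5 * ρ) ^ 2 := by
  have hΘ0 : 0 ≤ t - 3 / 10 * t ^ 2 := by nlinarith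
  have h1 : (t - 3 / 10 * t ^ 2) ^ 2 ≤ (t - 2 / 5 * ρ) ^ 2 :=
    pow_le_pow_left₀ hΘ0 (by linarith) 2
  have h3 : 371 / 1000 + 15 / 10 * t ≤ 4 * t - 24 / 10 * t ^ 2 := by
    nlinarith [mul_nonneg (sub_nonneg.mpr ht0) (sub_nonneg.mpr ht1)]
  have h4 := mul_le_mul_of_nonneg_left h3 (by linarith : 0 ≤ t)
  have h5 : 0 ≤ t ^ 4 := by positivity
  have e : 4 * (t - 3 / 10 * t ^ 2) ^ 2 = t * (4 * t - 24 / 10 * t ^ 2) + 36 / 100 * t ^ 4 := by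
    ring
  have e2 : t * (371 / 1000 + 15 / 10 * t) = 371 / 1000 * t + 15 / 10 * t ^ 2 := by ring
  linarith

/-- The law `(C)` for `.45 ≤ τ ≤ .7305`. -/
theorem num_C2 {α β τ t ρ h w B z : ℝ} (ht : t = τ ^ 2) (hτ0 : 45 / 100 ≤ τ)
    (hτ : τ ≤ 7305 / 10000) (hτβ : τ ≤ 191 / 250 * β)
    (hρ : 0 ≤ ρ) (hρ1 : ρ ≤ 75 / 100 * t ^ 2) (hh : h = (t + ρ) / 2)
    (hw : w * β = α) (hw0 : 0 ≤ w) (hw1 : w ≤ 1) (hα : 74 / 100 ≤ α) (hα1 : α ≤ 1) (hβ : β ≤ 1)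
    (hp : α ^ 2 - α * β + β ^ 2 ≤ 3 / 4)
    (hB : 1 ≤ B) (hz : z * (21 / 10 * t) = ρ)
    (hI : 4 * α * τ - t - ρ - z - 21 / 10 * t * ((1 + w) ^ 2 - 4 * α ^ 2 - w * B) <
      4 * ((t - 2 / 5 * ρ) ^ 2 + (B - 1) * h) / B +
        2 * (1 - w) * (t - 2 / 5 * ρ) * (5 / 2 * (1 - β ^ 2) + 2 / 5)) : False := by
  have ht0 : 2025 / 10000 ≤ t := by rw [ht]; nlinarith
  have ht1 : t ≤ 53363025 / 100000000 := by rw [ht]; nlinarith
  have hΘ : 0 ≤ t - 2 / 5 * ρ := by nlinarith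
  have hc := num_cross hw hw1 hα hβ (by linarith)
  have hcross : 2 * (1 - w) * (t - 2 / 5 * ρ) * (5 / 2 * (1 - β ^ 2) + 2 / 5) ≤
      314 / 1000 * (t - 2 / 5 * ρ) := by
    have := mul_le_mul_of_nonneg_left hc hΘ
    linarith
  have hw2 := num_w hw hw0 hα hp
  obtain ⟨hψ1, hψ2⟩ := num_psi ht hτ0 hτ hτβ hw hw0 hw1 hα hα1
  have hfin := num_fin ht hτ0 hτ hψ1 hψ2
  have hmono := num_mono ht0 ht1 hρ hρ1 hz
  -- the dependence on `B`
  have hΘ2 := num_theta ht0 ht1 hρ1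
  obtain ⟨Q, hQ⟩ : ∃ Q, Q = (t - 2 / 5 * ρ) ^ 2 := ⟨_, rfl⟩
  rw [← hQ] at hI hΘ2 hmono
  have hBt : 4 * (Q + (B - 1) * h) / B ≤ 4 * Q + 21 / 10 * t * (w * (B - 1)) := by
    rw [div_le_iff₀ (by linarith)]
    have h0 : t * (776 / 1000) ≤ t * w := mul_le_mul_of_nonneg_left hw2 (by linarith)
    have h1 : 4 * h ≤ 4 * Q + 21 / 10 * (t * w) := by
      rw [hh]
      linarith
    have h2 := mul_le_mul_of_nonneg_left h1 (by linarith : 0 ≤ B - 1)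
    have h3 : 0 ≤ 21 / 10 * (t * w) * (B - 1) ^ 2 := by
      have : 0 ≤ t * w := mul_nonneg (by linarith) hw0
      positivity
    have e : (4 * Q + 21 / 10 * t * (w * (B - 1))) * B = 4 * Q + (B - 1) * (4 * Q + 21 / 10 * (t * w)) +
        21 / 10 * (t * w) * (B - 1) ^ 2 := by ring
    rw [e]
    linarith
  have e : 21 / 10 * t * ((1 + w) ^ 2 - 4 * α ^ 2 - w * B) =
      21 / 10 * t * (1 + w + w ^ 2 - 4 * α ^ 2) - 21 / 10 * t * (w * (B - 1)) := by ring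
  rw [e] at hI
  linarith

end Pool.Agent.Lib.MP_1be6c9_co.Fc
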