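import Pool.Agent.Lib.MP_1be6c9_co.Fc.EdgeLaw
import Pool.Agent.Lib.MP_1be6c9_co.Fc.ScalNum

set_option autoImplicit false

/-!
The data of an edge are contradictory.
-/

namespace Pool.Agent.Lib.MP_1be6c9_co.Fc

open Finset

/-- The condition on `l` in the law `(N)`. -/
theorem scal_lam {e h t l : ℝ} (ht : 0 < t) (hh : t / 2 ≤ h) (hh1 : h ≤ 43 / 100)
    (hl : 0 < l) (hl1 : l ≤ 1 / 2) (hl2 : 27 / 100 ≤ l)
    (h1 : (1 + l / 2) * t ^ 2 ≤ l * t / 2 + l) (he : -h ≤ e) (he1 : e ≤ t) :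
    e ^ 2 ≤ l * (1 + e) * (1 + h - e) := by
  have e1 : (1 + l) * ((t - h) * e + t * h) - l * h * e - l * (1 + h) ≤ 0 := by
    have h2 : (1 + l) * t ^ 2 - l * h * t - l * (1 + h) ≤ 0 := by
      have h3 : l * (t / 2) * t ≤ l * h * t := by
        have := mul_le_mul_of_nonneg_right (mul_le_mul_of_nonneg_left hh hl.le) ht.le
        linarith
      have h4 := mul_le_mul_of_nonneg_left hh hl.le
      linarith
    have h3 : (1 + 2 * l) * h ^ 2 - l * h - l ≤ 0 := by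
      have h0 : 0 ≤ h := by linarith
      have h4 : (1 + 2 * l) * h ^ 2 ≤ 2 * h ^ 2 := by nlinarith [sq_nonneg h]
      have h5 : h ^ 2 ≤ 43 / 100 * h := by nlinarith
      nlinarith
    have h4 : (t + h) * ((1 + l) * ((t - h) * e + t * h) - l * h * e - l * (1 + h)) =
        (e + h) * ((1 + l) * t ^ 2 - l * h * t - l * (1 + h)) +
          (t - e) * ((1 + 2 * l) * h ^ 2 - l * h - l) := by ring
    have h5 : (e + h) * ((1 + l) * t ^ 2 - l * h * t - l * (1 + h)) ≤ 0 :=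
      mul_nonpos_of_nonneg_of_nonpos (by linarith) h2
    have h6 : (t - e) * ((1 + 2 * l) * h ^ 2 - l * h - l) ≤ 0 :=
      mul_nonpos_of_nonneg_of_nonpos (by linarith) h3
    have h7 : (t + h) * ((1 + l) * ((t - h) * e + t * h) - l * h * e - l * (1 + h)) ≤ 0 := by
      linarith
    by_contra hcon
    push Not at hcon
    have := mul_pos (by linarith : 0 < t + h) hcon
    linarith
  have e2 : 0 ≤ (e + h) * (t - e) := mul_nonneg (by linarith) (by linarith)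
  have e3 : 0 ≤ (1 + l) * ((e + h) * (t - e)) := mul_nonneg (by linarith) e2
  nlinarith

/-- One term of the law `(N)`. -/
theorem scal_N {e a p h l : ℝ} (he : 0 < e + h) (he1 : 0 < 1 + e) (hl : 0 < l)
    (h1 : e ^ 2 ≤ l * (1 + e) * (1 + h - e)) :
    4 * (e ^ 2 - e) * a ^ 2 + 4 * (e * (a * p)) ≤
      (4 * h ^ 2 + 4 * h) * a ^ 2 + l * (p ^ 2 * (1 + e) / (e + h)) := by
  have h2 : 0 ≤ l * (1 + e) * (l * (1 + e) * p ^ 2 - 4 * e * (e + h) * a * p +
      4 * (e + h) ^ 2 * (1 + h - e) * a ^ 2) := by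
    have e1 : l * (1 + e) * (l * (1 + e) * p ^ 2 - 4 * e * (e + h) * a * p +
        4 * (e + h) ^ 2 * (1 + h - e) * a ^ 2) = (l * (1 + e) * p - 2 * e * (e + h) * a) ^ 2 +
          4 * ((e + h) * a) ^ 2 * (l * (1 + e) * (1 + h - e) - e ^ 2) := by ring
    rw [e1]
    have : 0 ≤ l * (1 + e) * (1 + h - e) - e ^ 2 := by linarith
    positivity
  have h3 : 0 ≤ l * (1 + e) * p ^ 2 - 4 * e * (e + h) * a * p +
      4 * (e + h) ^ 2 * (1 + h - e) * a ^ 2 := by
    by_contra hcon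
    push Not at hcon
    have := mul_neg_of_pos_of_neg (mul_pos hl he1) hcon
    linarith
  have h4 : (4 * h ^ 2 + 4 * h) * a ^ 2 + l * (p ^ 2 * (1 + e) / (e + h)) -
      (4 * (e ^ 2 - e) * a ^ 2 + 4 * (e * (a * p))) =
      (l * (1 + e) * p ^ 2 - 4 * e * (e + h) * a * p +
        4 * (e + h) ^ 2 * (1 + h - e) * a ^ 2) / (e + h) := by
    field_simp
    ring
  have h5 := div_nonneg h3 he.le
  rw [← h4] at h5
  linarith

/-- One term of the law `(C)`. -/
theorem scal_C {e b y h Θ D w : ℝ} (hD : 1 ≤ D) (hw : w ≤ 1) (he : -h ≤ e) (hΘ : |e| ≤ Θ) :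
    ((2 / D) ^ 2 * (e + e ^ 2) - 2 * (2 / D) * e) * y ^ 2 - 2 * (2 / D) * (1 - w) * (e * (b * y)) ≤
      4 / D ^ 2 * (Θ ^ 2 + (D - 1) * h) * y ^ 2 +
        2 / D * (1 - w) * Θ * (5 / 2 * b ^ 2 + 2 / 5 * y ^ 2) := by
  have hD0 : 0 < D := by linarith
  have h1 : (2 / D) ^ 2 * (e + e ^ 2) - 2 * (2 / D) * e = 4 / D ^ 2 * (e ^ 2 - (D - 1) * e) := by
    field_simp
    ring
  have h2 : e ^ 2 - (D - 1) * e ≤ Θ ^ 2 + (D - 1) * h := by
    have h3 : e ^ 2 ≤ Θ ^ 2 := by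
      rw [← sq_abs e]
      exact pow_le_pow_left₀ (abs_nonneg e) hΘ 2
    have h4 := mul_le_mul_of_nonneg_left he (by linarith : 0 ≤ D - 1)
    linarith
  have h3 : 4 / D ^ 2 * (e ^ 2 - (D - 1) * e) * y ^ 2 ≤
      4 / D ^ 2 * (Θ ^ 2 + (D - 1) * h) * y ^ 2 :=
    mul_le_mul_of_nonneg_right (mul_le_mul_of_nonneg_left h2 (by positivity)) (sq_nonneg y)
  have h4 : -(2 * (e * (b * y))) ≤ Θ * (5 / 2 * b ^ 2 + 2 / 5 * y ^ 2) := by
    have h5 : -(2 * (e * (b * y))) ≤ |e| * (2 * |b * y|) := by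
      have h6 : |e * (b * y)| = |e| * |b * y| := abs_mul _ _
      have h7 := neg_abs_le (e * (b * y))
      rw [h6] at h7
      linarith
    have h6 : 2 * |b * y| ≤ 5 / 2 * b ^ 2 + 2 / 5 * y ^ 2 := by
      rw [abs_mul]
      have h7 : 5 / 2 * b ^ 2 + 2 / 5 * y ^ 2 - 2 * (|b| * |y|) = 2 / 5 * (5 / 2 * |b| - |y|) ^ 2 := by
        rw [← sq_abs b, ← sq_abs y]
        ring
      nlinarith [sq_nonneg (5 / 2 * |b| - |y|)]
    have h7 : |e| * (2 * |b * y|) ≤ Θ * (5 / 2 * b ^ 2 + 2 / 5 * y ^ 2) :=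
      mul_le_mul hΘ h6 (by positivity) ((abs_nonneg e).trans hΘ)
    linarith
  have h5 : 0 ≤ 2 / D * (1 - w) := mul_nonneg (by positivity) (by linarith)
  have h6 := mul_le_mul_of_nonneg_left h4 h5
  rw [h1]
  nlinarith

section

variable {n : ℕ} {e a b p : Fin n → ℝ} {af bf pf A B P T : ℝ}

/-- The basic facts about the numbers of an edge. -/
theorem EData.basic (D : EData e a b p af bf pf A B P T) :
    0 ≤ T ∧ 0 ≤ ∑ i, p i ^ 2 ∧ 0 < P ∧ 0 < A ∧ 0 < af ∧ 0 < bf ∧ af ≤ bf ∧ bf ≤ 1 ∧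
      (∀ i, 0 < 1 + e i) ∧ (∀ i, 0 < e i + P / 2) ∧ (∀ i, e i ≤ T) := by
  have h1 : 0 ≤ T := by
    rw [D.T_eq]
    exact Finset.sum_nonneg fun i _ => le_max_right _ _
  have h2 : 0 ≤ ∑ i, p i ^ 2 := Finset.sum_nonneg fun i _ => sq_nonneg _
  have h3 : 0 < P := by
    have := D.norm_p
    have := D.pf_pos
    nlinarith
  have h4 : 0 < A := lt_of_lt_of_le D.B_pos D.BA
  have h5 : 0 < af := by
    by_contra hcon
    push Not at hcon
    have := D.pfA
    have := D.pf_pos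
    nlinarith
  have h6 : 0 < bf := by
    by_contra hcon
    push Not at hcon
    have := D.pfB
    have := D.pf_pos
    have := D.B_pos
    nlinarith
  have h7 : af ≤ bf := by
    have e1 : A * af = B * bf := by rw [← D.pfA, ← D.pfB]
    by_contra hcon
    push Not at hcon
    have h8 : A * bf < A * af := mul_lt_mul_of_pos_left hcon h4
    have h9 : B * bf ≤ A * bf := mul_le_mul_of_nonneg_right D.BA h6.le
    linarith
  have h8 : bf ≤ 1 := by
    have := D.norm_b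
    have : 0 ≤ ∑ i, b i ^ 2 := Finset.sum_nonneg fun i _ => sq_nonneg _
    nlinarith
  refine ⟨h1, h2, h3, h4, h5, h6, h7, h8, fun i => ?_, fun i => ?_, fun i => ?_⟩
  · have := D.lo i
    have := D.P_lt
    linarith
  · have := D.lo i
    linarith
  · exact (le_abs_self _).trans (D.abs_e i)

/-- The trace law gives a bound for `ρ`. -/
theorem EData.rhoT (D : EData e a b p af bf pf A B P T) :
    (1 - P / 2) * ∑ i, p i ^ 2 ≤ (pf ^ 2 - T) * (1 + T) := by
  obtain ⟨h1, h2, h3, -, -, -, -, -, h4, -, h5⟩ := D.basic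
  have h6 : ∑ i, p i ^ 2 ≤ (∑ i, p i ^ 2 / (1 + e i)) * (1 + T) := by
    rw [Finset.sum_mul]
    refine Finset.sum_le_sum fun i _ => ?_
    rw [div_mul_eq_mul_div, le_div_iff₀ (h4 i)]
    exact mul_le_mul_of_nonneg_left (by linarith [h5 i]) (sq_nonneg _)
  have h7 := D.lawT
  have h8 := D.P_lt
  have h9 := mul_le_mul_of_nonneg_left h6 (by linarith : 0 ≤ 1 - P / 2)
  have h10 : (T + (1 - P / 2) * ∑ i, p i ^ 2 / (1 + e i)) * (1 + T) ≤ pf ^ 2 * (1 + T) :=
    mul_le_mul_of_nonneg_right h7.le (by linarith)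
  linarith

/-- The operator law gives a bound for `ρ`. -/
theorem EData.rhoQ (D : EData e a b p af bf pf A B P T) :
    (∑ i, p i ^ 2) * (1 + T) ≤ P / 2 * (P / 2 + T) := by
  obtain ⟨h1, h2, h3, -, -, -, -, -, h4, h5, h6⟩ := D.basic
  have h7 : 0 < P / 2 + T := by linarith
  have h8 : (∑ i, p i ^ 2) * (1 + T) ≤
      (∑ i, p i ^ 2 * (1 + e i) / (e i + P / 2)) * (P / 2 + T) := by
    rw [Finset.sum_mul, Finset.sum_mul]
    refine Finset.sum_le_sum fun i _ => ?_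
    rw [div_mul_eq_mul_div, le_div_iff₀ (h5 i)]
    have h9 : (1 + T) * (e i + P / 2) ≤ (1 + e i) * (P / 2 + T) := by
      have := mul_nonneg (by linarith [D.P_lt] : 0 ≤ 1 - P / 2) (by linarith [h6 i] : 0 ≤ T - e i)
      nlinarith
    have := mul_le_mul_of_nonneg_left h9 (sq_nonneg (p i))
    linarith
  have h9 := mul_le_mul_of_nonneg_right D.lawQ.le h7.le
  linarith

/-- The bounds for `ρ`. -/
theorem EData.rho (D : EData e a b p af bf pf A B P T) :
    ∑ i, p i ^ 2 ≤ 76 / 100 * (pf ^ 2) ^ 2 ∧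
      (pf ^ 2 ≤ 5476 / 10000 → ∑ i, p i ^ 2 ≤ 75 / 100 * (pf ^ 2) ^ 2) ∧
      (pf ^ 2 ≤ 53364 / 100000 → ∑ i, p i ^ 2 ≤ 75 / 100 * (pf ^ 2) ^ 2 ∧
        4 / 10 * ∑ i, p i ^ 2 ≤ pf ^ 2 - T) := by
  obtain ⟨h1, h2, h3, -, -, hb, -, hb1, h4, h5, h6⟩ := D.basic
  have hP := D.P_lt
  have hn := D.norm_p
  have hpf := D.pf_pos
  have hlt : pf ≤ 191 / 250 := by
    have := D.pfB
    have := D.B_le
    have := D.B_pos
    nlinarith
  have hT : T ≤ pf ^ 2 := by
    have h7 : 0 ≤ ∑ i, p i ^ 2 / (1 + e i) :=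
      Finset.sum_nonneg fun i _ => div_nonneg (sq_nonneg _) (h4 i).le
    have h8 := mul_nonneg (by linarith : 0 ≤ 1 - P / 2) h7
    have := D.lawT
    linarith
  exact num_rho (h := P / 2) (θ := T) (by positivity) (by nlinarith) h2 (by linarith) (by linarith)
    h1 hT D.rhoT D.rhoQ

/-- The law `(N)` for the long label. -/
theorem EData.N (D : EData e a b p af bf pf A B P T) {l : ℝ} (hl1 : l ≤ 1 / 2)
    (hl2 : 27 / 100 ≤ l) (h1 : (1 + l / 2) * (pf ^ 2) ^ 2 ≤ l * pf ^ 2 / 2 + l) :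
    0 < phiN l af (P / 2) pf := by
  obtain ⟨hT, hρ, h3, -, -, hb, -, hb1, h4, h5, h6⟩ := D.basic
  have hP := D.P_lt
  have hn := D.norm_p
  have hpf := D.pf_pos
  have hT : T ≤ pf ^ 2 := by
    have h7 : 0 ≤ ∑ i, p i ^ 2 / (1 + e i) :=
      Finset.sum_nonneg fun i _ => div_nonneg (sq_nonneg _) (h4 i).le
    have h8 := mul_nonneg (by linarith : 0 ≤ 1 - P / 2) h7
    have := D.lawT
    linarith
  have hl : 0 < l := by linarith
  have h7 : ∑ i, (4 * (e i ^ 2 - e i) * a i ^ 2 + 4 * (e i * (a i * p i))) ≤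
      (4 * (P / 2) ^ 2 + 4 * (P / 2)) * ∑ i, a i ^ 2 +
        l * ∑ i, p i ^ 2 * (1 + e i) / (e i + P / 2) := by
    rw [Finset.mul_sum, Finset.mul_sum, ← Finset.sum_add_distrib]
    refine Finset.sum_le_sum fun i _ => ?_
    refine scal_N (h5 i) (h4 i) hl ?_
    exact scal_lam (t := pf ^ 2) (by positivity) (by linarith) (by linarith) hl hl1 hl2 h1
      (by linarith [h5 i]) ((h6 i).trans hT)
  have h8 := D.lawNa
  have h9 := mul_le_mul_of_nonneg_left D.lawQ.le hl.le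
  have h10 := D.norm_a
  have h11 := D.pfA
  have h12 : ∑ i, a i ^ 2 = 1 - af ^ 2 := by linarith
  rw [h12] at h7
  have h13 : 4 * (2 - A) * af ^ 2 = 8 * af ^ 2 - 4 * af * pf := by
    rw [h11]
    ring
  unfold phiN
  linarith

/-- The law `(C)`. -/
theorem EData.C (D : EData e a b p af bf pf A B P T) {g w Θ γ z : ℝ}
    (hg : g = ∑ i, a i * b i + af * bf) (hw : w * A = B) (hΘ : T ≤ Θ) (hγ : 0 < γ)
    (hz : z * γ = ∑ i, p i ^ 2) :
    4 * af * pf - pf ^ 2 - ∑ i, p i ^ 2 - z - γ * ((1 + w) ^ 2 - 4 * af ^ 2 - w * (2 - 2 * g)) <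
      4 * (Θ ^ 2 + ((2 - 2 * g) - 1) * (P / 2)) / (2 - 2 * g) +
        2 * (1 - w) * Θ * (5 / 2 * (1 - bf ^ 2) + 2 / 5) := by
  obtain ⟨hT, hρ, h3, hA, ha, hb, hab, hb1, h4, h5, h6⟩ := D.basic
  have hgl := D.far
  rw [← hg, abs_lt] at hgl
  obtain ⟨Dd, hDd⟩ : ∃ Dd, Dd = 2 - 2 * g := ⟨_, rfl⟩
  rw [← hDd]
  have hD1 : 1 ≤ Dd := by linarith
  have hD0 : 0 < Dd := by linarith
  have hw1 : w ≤ 1 := by
    by_contra hcon
    push Not at hcon
    have := mul_lt_mul_of_pos_right hcon hA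
    have := D.BA
    linarith
  have hw0 : 0 ≤ w := by
    by_contra hcon
    push Not at hcon
    have := mul_neg_of_neg_of_pos hcon hA
    have := D.B_pos
    linarith
  have hwb : w * bf = af := by
    have e1 : A * (w * bf) = A * af := by
      rw [← D.pfA, D.pfB, ← hw]
      ring
    exact mul_left_cancel₀ hA.ne' e1
  have hC := D.lawC (2 / Dd) (by
    rw [← hg, hDd]
    rw [div_mul_eq_mul_div, div_eq_one_iff_eq (by linarith)]
    ring)
  -- sums
  have hΘ0 : 0 ≤ Θ := hT.trans hΘ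
  have hna := D.norm_a
  have hnb := D.norm_b
  have hnp := D.norm_p
  have sy : ∑ i, (a i - b i) ^ 2 = Dd - (bf - af) ^ 2 := by
    have e1 : ∑ i, (a i - b i) ^ 2 = ∑ i, a i ^ 2 - 2 * ∑ i, a i * b i + ∑ i, b i ^ 2 := by
      rw [Finset.mul_sum, ← Finset.sum_sub_distrib, ← Finset.sum_add_distrib]
      exact Finset.sum_congr rfl fun i _ => by ring
    rw [e1, hDd, hg]
    linarith
  have sw : ∑ i, (a i + w * b i) ^ 2 = (1 + w) ^ 2 - 4 * af ^ 2 - w * Dd := by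
    have e1 : ∑ i, (a i + w * b i) ^ 2 =
        ∑ i, a i ^ 2 + 2 * w * ∑ i, a i * b i + w ^ 2 * ∑ i, b i ^ 2 := by
      rw [Finset.mul_sum, Finset.mul_sum, ← Finset.sum_add_distrib, ← Finset.sum_add_distrib]
      exact Finset.sum_congr rfl fun i _ => by ring
    have e2 : ∑ i, a i ^ 2 = 1 - af ^ 2 := by linarith
    have e3 : ∑ i, b i ^ 2 = 1 - bf ^ 2 := by linarith
    have e4 : ∑ i, a i * b i = 1 - Dd / 2 - af * bf := by rw [hDd, hg]; ring
    rw [e1, e2, e3, e4, ← hwb]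
    ring
  -- the left side
  have hL : -z - γ * ((1 + w) ^ 2 - 4 * af ^ 2 - w * Dd) ≤ ∑ i, 2 * (p i * (a i + w * b i)) := by
    have h7 : ∀ i, -(p i ^ 2 / γ) - γ * (a i + w * b i) ^ 2 ≤ 2 * (p i * (a i + w * b i)) := by
      intro i
      have e1 : 2 * (p i * (a i + w * b i)) - (-(p i ^ 2 / γ) - γ * (a i + w * b i) ^ 2) =
          (p i + γ * (a i + w * b i)) ^ 2 / γ := by
        field_simp
        ring
      have := div_nonneg (sq_nonneg (p i + γ * (a i + w * b i))) hγ.le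
      linarith
    have h8 := Finset.sum_le_sum fun i (_ : i ∈ Finset.univ) => h7 i
    rw [Finset.sum_sub_distrib, Finset.sum_neg_distrib, ← Finset.sum_div, ← Finset.mul_sum, sw]
      at h8
    have h9 : (∑ i, p i ^ 2) / γ = z := by
      rw [← hz]
      field_simp
    rw [h9] at h8
    exact h8
  -- the right side
  have hR : ∑ i, (((2 / Dd) ^ 2 * (e i + e i ^ 2) - 2 * (2 / Dd) * e i) * (a i - b i) ^ 2 -
      2 * (2 / Dd) * (1 - w) * (e i * (b i * (a i - b i)))) ≤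
      4 * (Θ ^ 2 + (Dd - 1) * (P / 2)) / Dd +
        2 * (1 - w) * Θ * (5 / 2 * (1 - bf ^ 2) + 2 / 5) := by
    have h7 := Finset.sum_le_sum fun i (_ : i ∈ Finset.univ) =>
      scal_C (b := b i) (y := a i - b i) hD1 hw1 (by linarith [h5 i] : -(P / 2) ≤ e i)
        ((D.abs_e i).trans hΘ)
    refine h7.trans ?_
    rw [Finset.sum_add_distrib, ← Finset.mul_sum, ← Finset.mul_sum, Finset.sum_add_distrib,
      ← Finset.mul_sum, ← Finset.mul_sum]
    have h8 : ∑ i, (a i - b i) ^ 2 ≤ Dd := by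
      rw [sy]
      nlinarith [sq_nonneg (bf - af)]
    have h9 : 4 / Dd ^ 2 * (Θ ^ 2 + (Dd - 1) * (P / 2)) * ∑ i, (a i - b i) ^ 2 ≤
        4 * (Θ ^ 2 + (Dd - 1) * (P / 2)) / Dd := by
      have h10 : 4 / Dd ^ 2 * (Θ ^ 2 + (Dd - 1) * (P / 2)) * ∑ i, (a i - b i) ^ 2 ≤
          4 / Dd ^ 2 * (Θ ^ 2 + (Dd - 1) * (P / 2)) * Dd := by
        refine mul_le_mul_of_nonneg_left h8 ?_
        have : 0 ≤ (Dd - 1) * (P / 2) := mul_nonneg (by linarith) (by linarith)
        positivity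
      refine h10.trans (le_of_eq ?_)
      field_simp
    have h11 : 2 / Dd * (1 - w) * Θ * (5 / 2 * ∑ i, b i ^ 2 + 2 / 5 * ∑ i, (a i - b i) ^ 2) ≤
        2 * (1 - w) * Θ * (5 / 2 * (1 - bf ^ 2) + 2 / 5) := by
      have e3 : ∑ i, b i ^ 2 = 1 - bf ^ 2 := by linarith
      rw [e3]
      have hbb : 0 ≤ 1 - bf ^ 2 := by nlinarith
      have h12 : 5 / 2 * (1 - bf ^ 2) + 2 / 5 * ∑ i, (a i - b i) ^ 2 ≤
          Dd * (5 / 2 * (1 - bf ^ 2) + 2 / 5) := by
        have := mul_nonneg (by linarith : 0 ≤ Dd - 1) (by linarith : 0 ≤ 5 / 2 * (1 - bf ^ 2))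
        nlinarith
      have h13 : 0 ≤ 2 / Dd * (1 - w) * Θ :=
        mul_nonneg (mul_nonneg (by positivity) (by linarith)) hΘ0
      refine (mul_le_mul_of_nonneg_left h12 h13).trans (le_of_eq ?_)
      field_simp
    linarith
  -- dividing by `A`
  have e1 : A * (2 * (∑ i, p i * a i + pf * af) - P) + B * (2 * (∑ i, p i * b i + pf * bf) - P) +
      B * P = A * (4 * af * pf - P + ∑ i, 2 * (p i * (a i + w * b i))) := by
    have e2 : ∑ i, 2 * (p i * (a i + w * b i)) =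
        2 * ∑ i, p i * a i + 2 * w * ∑ i, p i * b i := by
      rw [Finset.mul_sum, Finset.mul_sum, ← Finset.sum_add_distrib]
      exact Finset.sum_congr rfl fun i _ => by ring
    rw [e2, ← hw]
    have e3 : w * A * (pf * bf) = A * (pf * af) := by rw [← hwb]; ring
    linear_combination 2 * e3
  have e4 : 2 / Dd * (-2 * ∑ i, (A * a i - B * b i) * (e i * (a i - b i)) +
      A * (2 / Dd) * ∑ i, (e i + e i ^ 2) * (a i - b i) ^ 2) =
      A * ∑ i, (((2 / Dd) ^ 2 * (e i + e i ^ 2) - 2 * (2 / Dd) * e i) * (a i - b i) ^ 2 -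
      2 * (2 / Dd) * (1 - w) * (e i * (b i * (a i - b i)))) := by
    rw [Finset.mul_sum, Finset.mul_sum, ← Finset.sum_add_distrib, Finset.mul_sum, Finset.mul_sum]
    refine Finset.sum_congr rfl fun i _ => ?_
    rw [← hw]
    ring
  rw [e1, e4] at hC
  have hC' := lt_of_mul_lt_mul_left hC hA.le
  linarith

/-- **The data of an edge are contradictory.** -/
theorem no_edata (D : EData e a b p af bf pf A B P T) : False := by
  obtain ⟨hT, hρ, h3, hA, ha, hb, hab, hb1, h4, h5, h6⟩ := D.basic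
  obtain ⟨r1, r2, r3⟩ := D.rho
  have hP := D.P_lt
  have hnp := D.norm_p
  have hpf := D.pf_pos
  have hpb : pf ≤ 191 / 250 * bf := by
    rw [D.pfB]
    exact mul_le_mul_of_nonneg_right D.B_le hb.le
  have hpf1 : pf ≤ 191 / 250 := by linarith
  have hp2 : pf ^ 2 ≤ 36481 / 62500 := by nlinarith
  have hN1 := D.N (l := 31 / 100) (by norm_num) (by norm_num) (by nlinarith [sq_nonneg (pf ^ 2)])
  have hα := num_N1 ha.le (by linarith) (by linarith) hpf.le hpf1 (by linarith) hN1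
  have hCS : (∑ i, a i * b i) ^ 2 ≤ (1 - af ^ 2) * (1 - bf ^ 2) := by
    have h7 := Finset.sum_mul_sq_le_sq_mul_sq Finset.univ a b
    have h8 := D.norm_a
    have h9 := D.norm_b
    have e2 : ∑ i, a i ^ 2 = 1 - af ^ 2 := by linarith
    have e3 : ∑ i, b i ^ 2 = 1 - bf ^ 2 := by linarith
    rwa [e2, e3] at h7
  have hfar := D.far
  rw [abs_lt] at hfar
  have hpair := num_pair hα hab hb1 (by linarith [hfar.2]) hCS
  rcases le_total (74 / 100) pf with hc1 | hc1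
  · exact num_N4 hα hpb hpair hc1
  have hp3 : pf ^ 2 ≤ 5476 / 10000 := by nlinarith
  have hN2 := D.N (l := 27 / 100) (by norm_num) (by norm_num) (by nlinarith [sq_nonneg (pf ^ 2)])
  have r4 := r2 hp3
  rcases le_total (7305 / 10000) pf with hc2 | hc2
  · exact num_N3 hα (by linarith) (by linarith) hpb hpair hc2 hc1 (by linarith) hN2
  obtain ⟨r5, r6⟩ := r3 (by nlinarith)
  have hw : B / A * A = B := div_mul_cancel₀ _ hA.ne'
  obtain ⟨w, hw'⟩ : ∃ w, w = B / A := ⟨_, rfl⟩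
  rw [← hw'] at hw
  have hw1 : w ≤ 1 := by
    rw [hw']
    exact (div_le_one hA).mpr D.BA
  have hw0 : 0 ≤ w := by
    rw [hw']
    exact div_nonneg D.B_pos.le hA.le
  have hwb : w * bf = af := by
    have e1 : A * (w * bf) = A * af := by
      rw [← D.pfA, D.pfB, ← hw]
      ring
    exact mul_left_cancel₀ hA.ne' e1
  obtain ⟨g, hg⟩ : ∃ g, g = ∑ i, a i * b i + af * bf := ⟨_, rfl⟩
  rw [← hg] at hfar
  rcases le_total (45 / 100) pf with hc3 | hc3
  · have hα2 := num_N2 ha.le (by linarith) (by linarith) hc3 hc2 (by linarith) hN2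
    have hI := D.C (Θ := pf ^ 2 - 2 / 5 * ∑ i, p i ^ 2) (γ := 21 / 10 * pf ^ 2)
      (z := (∑ i, p i ^ 2) / (21 / 10 * pf ^ 2)) hg hw (by linarith) (by positivity)
      (div_mul_cancel₀ _ (by positivity))
    exact num_C2 rfl hc3 hc2 hpb hρ r4 (by linarith) hwb hw0 hw1 hα2.le (hab.trans hb1) hb1 hpair
      (by linarith [hfar.2]) (div_mul_cancel₀ _ (by positivity)) hI
  · have hI := D.C (Θ := pf ^ 2) (γ := 17 / 20 * pf ^ 2)
      (z := (∑ i, p i ^ 2) / (17 / 20 * pf ^ 2)) hg hw (by linarith) (by positivity)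
      (div_mul_cancel₀ _ (by positivity))
    exact num_C1 rfl hpf hc3 hρ r4 (by linarith) hwb hw0 hw1 hα.le hb1 hb.le
      (by linarith [hfar.2]) (by linarith [hfar.1]) (div_mul_cancel₀ _ (by positivity)) hI

end

end Pool.Agent.Lib.MP_1be6c9_co.Fc
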