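import Pool.Agent.Lib.MP_1be6c9_co.Fc.Red
import Pool.Agent.Lib.MP_1be6c9_co.Fc.Edge
import Pool.Agent.Lib.MP_1be6c9_co.Fc.Scal

/-!
The balancing theorem.
-/

namespace Pool.Agent.Lib.MP_1be6c9_co.Fc

open Finset Pool.Agent.Lib.MP_1be6c9_co

/-- There are no irreducible states of dimension at least four. -/
theorem no_irr {κ E : Type} [Fintype κ] [DecidableEq κ] [NormedAddCommGroup E]
    [InnerProductSpace ℝ E] [FiniteDimensional ℝ E] {v : κ → E} {g : E} {m : ℕ}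
    (hm : 4 ≤ m) (h : St v g m) (hf : Far v g) (hL : Lng v m) : False := by
  obtain ⟨x, x', i, j, hx, hx', hn, -, hj, hj', hfr, hB, hBA, hA⟩ := exists_edge h hf hL hm
  obtain ⟨n, e, a, b, p, af, bf, pf, A, B, P, T, D⟩ :=
    h.edge_data hf hL hm hx hx' hn hj hj' hfr hB hBA hA
  exact no_edata D

/-- The balancing theorem in a Euclidean space. -/
theorem balance {E : Type} [NormedAddCommGroup E] [InnerProductSpace ℝ E]
    [FiniteDimensional ℝ E] {κ : Type} [Fintype κ] [DecidableEq κ]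
    (hpar : Fintype.card κ % 2 ≠ Module.finrank ℝ E % 2) (v : κ → E) (hv : ∀ i, ‖v i‖ = 1) :
    ∃ η : κ → ℝ, (∀ i, η i = 1 ∨ η i = -1) ∧
      ‖∑ i, η i • v i‖ ^ 2 ≤ (Module.finrank ℝ E : ℝ) - 1 :=
  balance_of (fun _ _ _ _ _ _ _ hm h hf hL => no_irr (by omega) h hf hL) hpar v hv

end Pool.Agent.Lib.MP_1be6c9_co.Fc
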