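import Pool.Agent.Lib.MP_1be6c9_co.Fc.Irr

/-!
The vertex with the longest tight sum (notes 2222 of helper41 and 2226 of helper65): if the unions
of neighbouring vertices are long, then some vertex has a long tight sum.
-/

namespace Pool.Agent.Lib.MP_1be6c9_co.Fc

open Finset Pool.Agent.Lib.MP_1be6c9_co

section

variable {κ E : Type*} [Fintype κ] [DecidableEq κ] [NormedAddCommGroup E] [InnerProductSpace ℝ E]
  {v : κ → E} {g : E} {m : ℕ}

/-- `x'` is the other end of the edge on which the tight label `j` of `x` is released; there the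
label `k` is tight, which is free at `x`. -/
structure Adj (v : κ → E) (g : E) (x x' : κ → ℝ) (j k : κ) : Prop where
  vx : Vx v g x
  vx' : Vx v g x'
  j_tight : j ∉ fr x
  k_free : k ∈ fr x
  fr_eq : fr x' = (insert j (fr x)).erase k
  keep : ∀ i, i ∉ insert j (fr x) → x' i = x i

theorem Adj.ne {x x' : κ → ℝ} {j k : κ} (h : Adj v g x x' j k) : k ≠ j :=
  fun e => h.j_tight (e ▸ h.k_free)

theorem Adj.k_tight {x x' : κ → ℝ} {j k : κ} (h : Adj v g x x' j k) : k ∉ fr x' := by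
  rw [h.fr_eq]; simp

theorem Adj.symm {x x' : κ → ℝ} {j k : κ} (h : Adj v g x x' j k) : Adj v g x' x k j where
  vx := h.vx'
  vx' := h.vx
  j_tight := h.k_tight
  k_free := by rw [h.fr_eq]; simp [h.ne.symm]
  fr_eq := by
    rw [h.fr_eq, Finset.insert_erase (Finset.mem_insert_of_mem h.k_free),
      Finset.erase_insert h.j_tight]
  keep := fun i hi => by
    rw [h.fr_eq, Finset.insert_erase (Finset.mem_insert_of_mem h.k_free)] at hi
    exact (h.keep i hi).symm

/-- Releasing a tight label leads to a vertex with another tight label. -/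
theorem St.adj [FiniteDimensional ℝ E] (h : St v g m) {x : κ → ℝ} (hx : Vx v g x) {j : κ}
    (hj : j ∉ fr x) : ∃ x' k, Adj v g x x' j k := by
  have hB := (bas_ex x).mpr hx
  obtain ⟨y, hy, hkeep, hne, k0, hk0, hf, hkn⟩ :=
    h.gp.piv hB (j := some j) (by rwa [mem_fr_ex])
  have hn1 : y none = 1 := by
    rw [hkeep none, ex_none]
    rw [Finset.mem_insert, none_mem_fr]
    simp
  obtain ⟨w, rfl⟩ : ∃ w, y = ex 1 w := ⟨fun k => y (some k), by rw [← hn1, ex_eta]⟩
  have hw := (bas_ex w).mp hy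
  have hkeep' : ∀ i, i ∉ insert j (fr x) → w i = x i := by
    intro i hi
    rw [Finset.mem_insert, not_or] at hi
    have := hkeep (some i) (by
      rw [Finset.mem_insert, mem_fr_ex]
      simp [hi.1, hi.2])
    simpa using this
  rw [Finset.mem_insert] at hk0
  rcases hk0 with hk0 | hk0
  · exfalso
    have h1 := hkn hk0
    rw [ex_some, ex_some] at h1
    rw [hk0, Finset.erase_insert (by rwa [mem_fr_ex])] at hf
    have hf' : fr w = fr x := by
      ext k
      rw [← mem_fr_ex 1 w, ← mem_fr_ex 1 x, hf]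
    exact h.no_flip hx hw hj hf' (fun k hk hkj => hkeep' k (by simp [hk, hkj])) h1
  · cases k0 with
    | none => rw [none_mem_fr] at hk0; simp at hk0
    | some k =>
      refine ⟨w, k, hx, hw, hj, (mem_fr_ex _ _ _).mp hk0, ?_, hkeep'⟩
      ext i
      rw [← mem_fr_ex 1 w, hf, Finset.mem_erase, Finset.mem_erase, Finset.mem_insert,
        Finset.mem_insert, mem_fr_ex]
      simp

/-- The tight sums of neighbouring vertices. -/
theorem Adj.tot {x x' : κ → ℝ} {j k : κ} (h : Adj v g x x' j k) :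
    tot v g x' = tot v g x - x j • v j + x' k • v k := by
  rw [tot_eq h.vx'.1, tot_eq h.vx.1]
  have h1 : (fr x')ᶜ = insert k (((fr x)ᶜ).erase j) := by
    ext i
    rw [Finset.mem_compl, h.fr_eq, Finset.mem_erase, Finset.mem_insert, Finset.mem_insert,
      Finset.mem_erase, Finset.mem_compl]
    by_cases hik : i = k
    · simp [hik]
    · simp [hik]
  have h2 : k ∉ ((fr x)ᶜ).erase j := by
    rw [Finset.mem_erase, Finset.mem_compl]
    exact fun hh => hh.2 h.k_free
  have h3 : ∑ i ∈ ((fr x)ᶜ).erase j, x' i • v i = ∑ i ∈ ((fr x)ᶜ).erase j, x i • v i := by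
    refine Finset.sum_congr rfl fun i hi => ?_
    rw [Finset.mem_erase, Finset.mem_compl] at hi
    rw [h.keep i (by simp [hi.1, hi.2])]
  rw [h1, Finset.sum_insert h2, h3, ← Finset.add_sum_erase _ _ (Finset.mem_compl.mpr h.j_tight)]
  abel

/-- The mirror vertex. -/
theorem St.mirror (h : St v g m) {x : κ → ℝ} (hx : Vx v g x) :
    ∃ x', Vx v g x' ∧ fr x' = fr x ∧ (∀ i, i ∉ fr x → x' i = - x i) ∧
      tot v g x' = g - (tot v g x - g) := by
  obtain ⟨x', hx', hc⟩ := h.cs x hx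
  have hf := h.cs_fr hx hx' hc
  refine ⟨x', hx', hf, hc, ?_⟩
  rw [tot_eq hx.1, tot_eq hx'.1, hf, add_sub_cancel_left, sub_eq_add_neg,
    ← Finset.sum_neg_distrib]
  congr 1
  refine Finset.sum_congr rfl fun i hi => ?_
  rw [hc i (Finset.mem_compl.mp hi), neg_smul]

/-- The inner products with the tight vectors. -/
theorem sum_inner_tot {x : κ → ℝ} (hx : Pt v g x) :
    ∑ j ∈ (fr x)ᶜ, inner ℝ (tot v g x - g) (x j • v j) = ‖tot v g x - g‖ ^ 2 := by
  rw [← inner_sum, tot_eq hx, add_sub_cancel_left, real_inner_self_eq_norm_sq]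

omit [DecidableEq κ] in
/-- A vertex with maximal length of the tight sum (without the offset). -/
theorem St.exists_max [FiniteDimensional ℝ E] (h : St v g m) : ∃ x, Vx v g x ∧ ∀ x', Vx v g x' →
    ‖tot v g x' - g‖ ^ 2 ≤ ‖tot v g x - g‖ ^ 2 := by
  have hfin : {x : κ → ℝ | Vx v g x}.Finite := by
    have h1 := h.gp.finite
    refine Set.Finite.of_injOn (f := fun x => ex 1 x) (t := {y | Bas (ext v g) y}) ?_ ?_ h1
    · intro x hx
      exact (bas_ex x).mpr hx
    · intro x _ y _ hxy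
      funext k
      exact congrFun hxy (some k)
  obtain ⟨x0, hx0⟩ := h.ne
  obtain ⟨x, h1, h2⟩ := Set.exists_max_image _ (fun x => ‖tot v g x - g‖ ^ 2) hfin ⟨x0, hx0⟩
  exact ⟨x, h1, h2⟩

/-- If the unions of neighbouring vertices are long, then some vertex has a long tight sum. -/
theorem St.max_vertex' [FiniteDimensional ℝ E] (h : St v g m) (hf : Far v g) (hm : 0 < m) (W : ℝ)
    (hW : ∀ x x' j k, Adj v g x x' j k → W ≤ ‖g‖ ^ 2 + ‖tot v g x - g + x' k • v k‖ ^ 2) :
    ∃ x, Vx v g x ∧ (∀ x', Vx v g x' → ‖tot v g x' - g‖ ^ 2 ≤ ‖tot v g x - g‖ ^ 2) ∧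
      (m * W + 2 * ‖g‖ ^ 2) / (m + 2) < ‖g‖ ^ 2 + ‖tot v g x - g‖ ^ 2 := by
  obtain ⟨x, hx, hmax⟩ := h.exists_max
  refine ⟨x, hx, hmax, ?_⟩
  set Y := tot v g x - g with hY
  have hcard : ((fr x)ᶜ).card = m := by
    rw [Finset.card_compl, h.card, hx.2]; omega
  have key : ∀ j ∈ (fr x)ᶜ, W < ‖g‖ ^ 2 + ‖Y‖ ^ 2 + 2 * inner ℝ Y (x j • v j) := by
    intro j hj
    have hj' := Finset.mem_compl.mp hj
    obtain ⟨x', k, hA⟩ := h.adj hx hj'
    have h1 := hW x x' j k hA
    have h2 := hmax x' hA.vx'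
    rw [← hY] at h1
    have h3 : tot v g x' - g = Y - x j • v j + x' k • v k := by rw [hA.tot, hY]; abel
    rw [h3] at h2
    have hj1 := (not_mem_fr x hx.1.1 j).mp hj'
    have hk1 := (not_mem_fr x' hA.vx'.1.1 k).mp hA.k_tight
    have hfar := hf j k ⟨x, hx, hj'⟩ hA.ne
    rw [abs_lt] at hfar
    have hab : inner ℝ (x j • v j) (x' k • v k) < 1 / 2 := by
      rw [real_inner_smul_left, real_inner_smul_right]
      rcases hj1 with h | h <;> rcases hk1 with h' | h' <;> rw [h, h'] <;> linarith [hfar.1, hfar.2]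
    have hna : ‖x j • v j‖ ^ 2 = 1 := by
      rw [norm_smul, h.unit j]
      rcases hj1 with h | h <;> rw [h] <;> norm_num
    set a := x j • v j with ha
    set b := x' k • v k with hb
    have e1 : ‖Y - a + b‖ ^ 2 = ‖Y + b‖ ^ 2 - 2 * inner ℝ (Y + b) a + ‖a‖ ^ 2 := by
      have : Y - a + b = (Y + b) - a := by abel
      rw [this, norm_sub_sq_real]
    have e2 : inner ℝ (Y + b) a = inner ℝ Y a + inner ℝ a b := by
      rw [inner_add_left, real_inner_comm a b]
    rw [e1, e2, hna] at h2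
    linarith
  have hne : ((fr x)ᶜ).Nonempty := by
    rw [← Finset.card_pos, hcard]; exact hm
  have hsum := Finset.sum_lt_sum_of_nonempty hne key
  rw [Finset.sum_const, hcard, nsmul_eq_mul, Finset.sum_add_distrib, Finset.sum_const, hcard,
    nsmul_eq_mul, ← Finset.mul_sum, sum_inner_tot hx.1, ← hY] at hsum
  have hm0 : (0 : ℝ) < m + 2 := by positivity
  rw [div_lt_iff₀ hm0]
  linarith

/-- If all unions of a vertex with a used free label are long, then some vertex has a long tight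
sum. -/
theorem St.max_vertex_used [FiniteDimensional ℝ E] (h : St v g m) (hf : Far v g) (hm : 0 < m)
    (W : ℝ)
    (hW : ∀ x, Vx v g x → ∀ i ∈ fr x, Used v g i → ∀ s : ℝ, (s = 1 ∨ s = -1) →
      W ≤ ‖tot v g x + s • v i‖ ^ 2) :
    ∃ x, Vx v g x ∧ (m * W + 2 * ‖g‖ ^ 2) / (m + 2) < ‖tot v g x‖ ^ 2 := by
  obtain ⟨x, hx, -, hlt⟩ := h.max_vertex' hf hm W (by
    intro x x' j k hA
    obtain ⟨y, hy, hfy, -, hty⟩ := h.mirror hA.vx
    have hk1 := (not_mem_fr x' hA.vx'.1.1 k).mp hA.k_tight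
    have hu : Used v g k := ⟨x', hA.vx', hA.k_tight⟩
    have h1 := hW x hA.vx k hA.k_free hu _ hk1
    have h2 := hW y hy k (by rw [hfy]; exact hA.k_free) hu (- x' k)
      (by rcases hk1 with h | h <;> rw [h] <;> norm_num)
    set Z := tot v g x - g + x' k • v k with hZ
    have e1 : tot v g x + x' k • v k = g + Z := by rw [hZ]; abel
    have e2 : tot v g y + (- x' k) • v k = g - Z := by rw [hty, hZ, neg_smul]; abel
    rw [e1] at h1
    rw [e2] at h2
    have h3 := parallelogram_law_with_norm ℝ g Z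
    nlinarith)
  obtain ⟨y, hy, -, -, hty⟩ := h.mirror hx
  set Y := tot v g x - g with hY
  have e1 : tot v g x = g + Y := by rw [hY]; abel
  have h3 := parallelogram_law_with_norm ℝ g Y
  by_cases hc : (m * W + 2 * ‖g‖ ^ 2) / (m + 2) < ‖tot v g x‖ ^ 2
  · exact ⟨x, hx, hc⟩
  · refine ⟨y, hy, ?_⟩
    rw [e1] at hc
    rw [hty]
    push Not at hc
    nlinarith

/-- If all unions of a vertex with a free label are long, then some vertex has a long tight
sum. -/
theorem St.max_vertex [FiniteDimensional ℝ E] (h : St v g m) (hf : Far v g) (hm : 5 ≤ m) (W : ℝ)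
    (hW : ∀ x, Vx v g x → ∀ i ∈ fr x, ∀ s : ℝ, (s = 1 ∨ s = -1) →
      W ≤ ‖tot v g x + s • v i‖ ^ 2) :
    ∃ x, Vx v g x ∧ (m * W + 2 * ‖g‖ ^ 2) / (m + 2) < ‖tot v g x‖ ^ 2 :=
  h.max_vertex_used hf (by omega) W fun x hx i hi _ s hs => hW x hx i hi s hs

/-- The bound which does not depend on the dimension. -/
theorem St.max_vertex57 [FiniteDimensional ℝ E] (h : St v g m) (hf : Far v g) (hm : 5 ≤ m)
    (W : ℝ) (hW0 : 0 ≤ W)
    (hW : ∀ x, Vx v g x → ∀ i ∈ fr x, ∀ s : ℝ, (s = 1 ∨ s = -1) →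
      W ≤ ‖tot v g x + s • v i‖ ^ 2) :
    ∃ x, Vx v g x ∧ 5 / 7 * W < ‖tot v g x‖ ^ 2 := by
  obtain ⟨x, hx, hlt⟩ := h.max_vertex hf hm W hW
  refine ⟨x, hx, lt_of_le_of_lt ?_ hlt⟩
  have h5 : (5 : ℝ) ≤ m := by exact_mod_cast hm
  have hm0 : (0 : ℝ) < m + 2 := by linarith
  rw [le_div_iff₀ hm0]
  nlinarith [sq_nonneg ‖g‖, mul_nonneg hW0 (sub_nonneg.mpr h5)]

end

end Pool.Agent.Lib.MP_1be6c9_co.Fc
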