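import Pool.Agent.Lib.MP_1be6c9_co.Fc.Ext

/-!
The polygon argument (note 2185): a point with `d + 1` free labels whose tight sum `z` has norm at
most one gives a pair of signed labels, the first one used, with a sum shorter than `z`.
-/

namespace Pool.Agent.Lib.MP_1be6c9_co.Fc

open Finset Pool.Agent.Lib.MP_1be6c9_co

variable {κ E : Type*} [Fintype κ] [DecidableEq κ] [NormedAddCommGroup E] [InnerProductSpace ℝ E]
  {v : κ → E} {g : E}

/-- The family in which the tight labels of `x` are merged with the offset. -/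
noncomputable def mrg (v : κ → E) (x : κ → ℝ) : κ → E := fun k => if k ∈ fr x then v k else 0

theorem sum_mrg (v : κ → E) (x y : κ → ℝ) : ∑ k, y k • mrg v x k = ∑ k ∈ fr x, y k • v k := by
  simp only [mrg, smul_ite, smul_zero]
  rw [Finset.sum_ite_mem, Finset.univ_inter]

theorem bad_mrg (hbad : ∀ η : κ → ℝ, (∀ i, η i = 1 ∨ η i = -1) →
      (Module.finrank ℝ E : ℝ) - 1 < ‖g + ∑ i, η i • v i‖ ^ 2) {x : κ → ℝ} (hx : Pt v g x)
    (η : κ → ℝ) (hη : ∀ i, η i = 1 ∨ η i = -1) :
    (Module.finrank ℝ E : ℝ) - 1 < ‖tot v g x + ∑ i, η i • mrg v x i‖ ^ 2 := by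
  have h1 := hbad (fun i => if i ∈ fr x then η i else x i) (fun i => by
    by_cases hi : i ∈ fr x
    · simp only [if_pos hi]; exact hη i
    · simp only [if_neg hi]; exact (not_mem_fr x hx.1 i).mp hi)
  have e : ∑ k, (if k ∈ fr x then η k else x k) • v k
      = ∑ i ∈ fr x, η i • v i + ∑ i ∈ (fr x)ᶜ, x i • v i := by
    rw [← Finset.sum_add_sum_compl (fr x)]
    congr 1
    · refine Finset.sum_congr rfl fun i hi => by simp [hi]
    · refine Finset.sum_congr rfl fun i hi => by
        rw [Finset.mem_compl] at hi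
        simp [hi]
  rw [e] at h1
  rw [tot_eq hx, sum_mrg]
  have e2 : g + (∑ i ∈ fr x, η i • v i + ∑ i ∈ (fr x)ᶜ, x i • v i)
      = g + ∑ i ∈ (fr x)ᶜ, x i • v i + ∑ i ∈ fr x, η i • v i := by abel
  rw [e2] at h1
  exact h1

variable [FiniteDimensional ℝ E]

omit [FiniteDimensional ℝ E] in
theorem gp_mrg (hv : ∀ k, ‖v k‖ = 1)
    (hbad : ∀ η : κ → ℝ, (∀ i, η i = 1 ∨ η i = -1) →
      (Module.finrank ℝ E : ℝ) - 1 < ‖g + ∑ i, η i • v i‖ ^ 2) {x : κ → ℝ} (hx : Pt v g x)
    (hz : ‖tot v g x‖ ≤ 1) : Gp (ext (mrg v x) (tot v g x)) := by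
  refine gp_ext (fun k => ?_) hz (bad_mrg hbad hx)
  unfold mrg
  split_ifs
  · exact (hv k).le
  · simp

/-- The polygon argument. -/
theorem polygon {m : ℕ} (h : St v g m) {x : κ → ℝ} (hx : Pt v g x)
    (hcard : (fr x).card = Module.finrank ℝ E + 1) (hz : ‖tot v g x‖ ≤ 1) :
    ∃ i j : κ, Used v g i ∧ j ≠ i ∧ ∃ s t : ℝ, (s = 1 ∨ s = -1) ∧ (t = 1 ∨ t = -1) ∧
      ‖s • v i + t • v j‖ < ‖tot v g x‖ := by
  -- an end of the edge
  obtain ⟨y0, hy0, hsub0, hkeep0⟩ := h.gp.vtx ((p0_ex x).mpr hx)
  have hn0 : y0 none = 1 := by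
    rw [hkeep0 none (by rw [none_mem_fr]; simp), ex_none]
  obtain ⟨x', rfl⟩ : ∃ x', y0 = ex 1 x' := ⟨fun k => y0 (some k), by rw [← hn0, ex_eta]⟩
  have hx' : Vx v g x' := (bas_ex x').mp hy0
  have hsub : fr x' ⊆ fr x := fun k hk => by
    rw [← mem_fr_ex 1] at hk ⊢
    exact hsub0 hk
  have hkeep : ∀ k, k ∉ fr x → x' k = x k := fun k hk => by
    have := hkeep0 (some k) (by rwa [mem_fr_ex])
    simpa using this
  obtain ⟨a, ha, hax⟩ : ∃ a, a ∈ fr x ∧ a ∉ fr x' := by
    by_contra hcon
    push Not at hcon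
    have h1 := Finset.card_le_card (show fr x ⊆ fr x' from fun k hk => hcon k hk)
    rw [hcard, hx'.2] at h1
    omega
  have hfr : fr x = insert a (fr x') := by
    symm
    apply Finset.eq_of_subset_of_card_le
    · exact Finset.insert_subset ha hsub
    · rw [Finset.card_insert_of_notMem hax, hcard, hx'.2]
  set z := tot v g x with hzdef
  have hs : x' a = 1 ∨ x' a = -1 := (not_mem_fr x' hx'.1.1 a).mp hax
  -- the merged family
  have hG := gp_mrg h.unit h.bad hx hz
  rw [← hzdef] at hG
  -- the starting vertex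
  set u : κ → ℝ := fun k => if k ∈ fr x then x' k else 1 with hu
  have hfru : fr u = fr x' := by
    ext k
    rw [mem_fr]
    by_cases hk : k ∈ fr x
    · simp only [hu, if_pos hk]
      rw [mem_fr]
    · simp only [hu, if_neg hk]
      constructor
      · intro h; norm_num at h
      · intro h; exact absurd (hsub h) hk
  have hxsum : ∑ k ∈ fr x, x' k • v k = - z := by
    have h1 := hx'.1.2
    rw [← Finset.sum_add_sum_compl (fr x)] at h1
    have h2 : ∑ i ∈ (fr x)ᶜ, x' i • v i = ∑ i ∈ (fr x)ᶜ, x i • v i :=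
      Finset.sum_congr rfl fun i hi => by rw [hkeep i (Finset.mem_compl.mp hi)]
    rw [h2] at h1
    have h3 : z = g + ∑ i ∈ (fr x)ᶜ, x i • v i := tot_eq hx
    rw [h3]
    have h4 : ∑ k ∈ fr x, x' k • v k + (g + ∑ i ∈ (fr x)ᶜ, x i • v i) = 0 := by
      rw [← h1]; abel
    exact eq_neg_of_add_eq_zero_left h4
  have husum : ∑ k, u k • mrg v x k = - z := by
    rw [sum_mrg, ← hxsum]
    exact Finset.sum_congr rfl fun k hk => by simp only [hu, if_pos hk]
  have hB : Bas (ext (mrg v x) z) (ex 1 u) := by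
    refine ⟨?_, ?_, ?_⟩
    · intro o
      cases o with
      | none => simp
      | some k =>
        rw [ex_some]
        by_cases hk : k ∈ fr x
        · simp only [hu, if_pos hk]; exact hx'.1.1 k
        · simp only [hu, if_neg hk]; norm_num
    · rw [sum_ex, husum, one_smul, add_neg_cancel]
    · rw [card_fr_ex (by simp), hfru, hx'.2]
  have hnone : none ∉ fr (ex 1 u) := by rw [none_mem_fr]; simp
  obtain ⟨y', hy', hk', hne, k0, hk0, hf', hkn⟩ := hG.piv hB hnone
  rw [ex_none] at hne hkn
  have hfra : ∀ k, some k ∈ fr (ex 1 u) ↔ k ∈ fr x' := fun k => by rw [mem_fr_ex, hfru]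
  have hya : y' (some a) = x' a := by
    rw [hk' (some a) (by
      rw [Finset.mem_insert, hfra]
      simp [hax])]
    simp only [ex_some, hu, if_pos ha]
  by_cases hk0n : k0 = none
  · -- a flip
    exfalso
    have hyn := hkn hk0n
    have hl1 := hG.law hB
    have hl2 := hG.law hy'
    have hfy : fr y' = fr (ex 1 u) := by
      rw [hf', hk0n, Finset.erase_insert hnone]
    have hsz : ∀ y : Option κ → ℝ, fr y = fr (ex 1 u) → 
        ∑ i ∈ fr y, (1 - ‖ext (mrg v x) z i‖ ^ 2) = 0 := by
      intro y hy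
      refine Finset.sum_eq_zero fun o ho => ?_
      rw [hy] at ho
      cases o with
      | none => exact absurd ho hnone
      | some k =>
        have hkx : k ∈ fr x := hsub ((hfra k).mp ho)
        rw [ext_some, mrg, if_pos hkx, h.unit k]; norm_num
    have hcc : ∀ y : Option κ → ℝ, Bas (ext (mrg v x) z) y → fr y = fr (ex 1 u) →
        cc (ext (mrg v x) z) y = y none • z + y (some a) • v a := by
      intro y hy hfy
      have h1 := hy.2.1
      rw [sum_fr] at h1
      rw [cc, ← eq_neg_of_add_eq_zero_right h1, hfy, Finset.sum_subset_zero_on_sdiff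
        (s₁ := {none, some a}) (s₂ := (fr (ex 1 u))ᶜ) (g := fun o => y o • ext (mrg v x) z o)
        (f := fun o => y o • ext (mrg v x) z o) ?_ ?_ (fun _ _ => rfl) |>.symm]
      · rw [Finset.sum_pair (by simp), ext_none, ext_some, mrg, if_pos ha]
      · intro o ho
        simp only [Finset.mem_insert, Finset.mem_singleton] at ho
        rw [Finset.mem_compl]
        rcases ho with rfl | rfl
        · exact hnone
        · rw [hfra]; exact hax
      · intro o ho
        simp only [Finset.mem_sdiff, Finset.mem_compl, Finset.mem_insert,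
          Finset.mem_singleton, not_or] at ho
        obtain ⟨h1, h2, h3⟩ := ho
        cases o with
        | none => exact absurd rfl h2
        | some k =>
          have hkx : k ∉ fr x := by
            rw [hfr, Finset.mem_insert, not_or]
            refine ⟨fun h => h3 (by rw [h]), fun h => h1 ((hfra k).mpr h)⟩
          rw [ext_some, mrg, if_neg hkx, smul_zero]
    rw [hcc _ hB rfl, hsz _ rfl, ex_none, one_smul, sub_zero] at hl1
    rw [hcc _ hy' hfy, hsz _ hfy, hyn, hya, sub_zero] at hl2
    have e0 : ex 1 u (some a) = x' a := by simp only [ex_some, hu, if_pos ha]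
    rw [e0] at hl1
    set b := x' a • v a with hb
    have hb1 : ‖b‖ = 1 := by
      rw [hb, norm_smul, h.unit a]
      rcases hs with h | h <;> rw [h] <;> simp
    have e1 : (-1 : ℝ) • z + b = -(z - b) := by rw [neg_smul, one_smul]; abel
    rw [e1, norm_neg] at hl2
    have h3 := parallelogram_law_with_norm ℝ z b
    nlinarith [sq_nonneg ‖z‖]
  · -- a pair
    have hnf : none ∈ fr y' := by
      rw [hf', Finset.mem_erase]
      exact ⟨fun h => hk0n h.symm, Finset.mem_insert_self _ _⟩
    obtain ⟨b, rfl⟩ : ∃ b, k0 = some b := Option.ne_none_iff_exists'.mp hk0n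
    have hbx' : b ∈ fr x' := by
      rw [Finset.mem_insert] at hk0
      rcases hk0 with hk0 | hk0
      · exact absurd hk0 (by simp)
      · exact (hfra b).mp hk0
    have hba : b ≠ a := fun h => hax (h ▸ hbx')
    have hyb : y' (some b) = 1 ∨ y' (some b) = -1 :=
      (not_mem_fr y' hy'.1 (some b)).mp (by rw [hf']; simp)
    have hlaw := hG.law hy'
    have hsz : ∑ i ∈ fr y', (1 - ‖ext (mrg v x) z i‖ ^ 2) = 1 - ‖z‖ ^ 2 := by
      rw [Finset.sum_eq_single_of_mem none hnf, ext_none]
      intro o ho hon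
      cases o with
      | none => exact absurd rfl hon
      | some k =>
        rw [hf', Finset.mem_erase, Finset.mem_insert] at ho
        have hkx : k ∈ fr x := by
          rcases ho.2 with h1 | h1
          · exact absurd h1 (by simp)
          · exact hsub ((hfra k).mp h1)
        rw [ext_some, mrg, if_pos hkx, h.unit k]; norm_num
    have hcc : cc (ext (mrg v x) z) y' = x' a • v a + y' (some b) • v b := by
      have h1 := hy'.2.1
      rw [sum_fr] at h1
      rw [cc, ← eq_neg_of_add_eq_zero_right h1, Finset.sum_subset_zero_on_sdiff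
        (s₁ := {some a, some b}) (s₂ := (fr y')ᶜ) (g := fun o => y' o • ext (mrg v x) z o)
        (f := fun o => y' o • ext (mrg v x) z o) ?_ ?_ (fun _ _ => rfl) |>.symm]
      · rw [Finset.sum_pair (by simp [hba.symm]), ext_some, ext_some, mrg, if_pos ha, mrg,
          if_pos (hsub hbx'), hya]
      · intro o ho
        simp only [Finset.mem_insert, Finset.mem_singleton] at ho
        rw [Finset.mem_compl, hf']
        rcases ho with rfl | rfl
        · rw [Finset.mem_erase, Finset.mem_insert, hfra]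
          simp [hax]
        · simp
      · intro o ho
        rw [Finset.mem_sdiff, Finset.mem_compl, hf', Finset.mem_erase, Finset.mem_insert] at ho
        simp only [Finset.mem_insert, Finset.mem_singleton, not_or, not_and] at ho
        obtain ⟨h1, h2, h3⟩ := ho
        cases o with
        | none => exact absurd rfl (h1 (by simp)).1
        | some k =>
          have hkx : k ∉ fr x := by
            rw [hfr, Finset.mem_insert, not_or]
            refine ⟨fun h => h2 (by rw [h]), fun h => (h1 h3).2 ((hfra k).mpr h)⟩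
          rw [ext_some, mrg, if_neg hkx, smul_zero]
    rw [hcc, hsz] at hlaw
    refine ⟨a, b, ⟨x', hx', hax⟩, hba, x' a, y' (some b), hs, hyb, ?_⟩
    have h1 : ‖x' a • v a + y' (some b) • v b‖ ^ 2 < ‖z‖ ^ 2 := by linarith
    exact lt_of_pow_lt_pow_left₀ 2 (norm_nonneg _) h1

end Pool.Agent.Lib.MP_1be6c9_co.Fc
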