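import Pool.Agent.Lib.MP_1be6c9_co.Fc.Irr

/-!
The conjecture in a given space, from the exclusion of irreducible states of dimension at least
five.
-/

namespace Pool.Agent.Lib.MP_1be6c9_co.Fc

open Finset Pool.Agent.Lib.MP_1be6c9_co

theorem balance_of {E : Type} [NormedAddCommGroup E] [InnerProductSpace ℝ E]
    [FiniteDimensional ℝ E]
    (H : ∀ (κ : Type) [Fintype κ] [DecidableEq κ] (v : κ → E) (g : E) (m : ℕ), m % 2 = 1 →
      5 ≤ m → St v g m → Far v g → Lng v m → False)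
    {κ : Type} [Fintype κ] [DecidableEq κ]
    (hpar : Fintype.card κ % 2 ≠ Module.finrank ℝ E % 2) (v : κ → E) (hv : ∀ i, ‖v i‖ = 1) :
    ∃ η : κ → ℝ, (∀ i, η i = 1 ∨ η i = -1) ∧
      ‖∑ i, η i • v i‖ ^ 2 ≤ (Module.finrank ℝ E : ℝ) - 1 := by
  by_contra hcon
  push Not at hcon
  have hlong : Long v ((Module.finrank ℝ E : ℝ) - 1) := fun η hη => hcon η hη
  have hG : Gp v := ⟨fun k => (hv k).le, hlong⟩
  have h3 : Module.finrank ℝ E ≤ Fintype.card κ := by
    have h1 := hG.card_le (y := fun _ => 0) ⟨by simp, by simp⟩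
    exact h1.trans (Finset.card_le_univ _)
  obtain ⟨m, hm⟩ : ∃ m, Fintype.card κ = Module.finrank ℝ E + m :=
    ⟨Fintype.card κ - Module.finrank ℝ E, by omega⟩
  exact no_st_of H m κ v 0 (by omega) (st_of_long hv hm hlong)

end Pool.Agent.Lib.MP_1be6c9_co.Fc
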