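import Mathlib

/-!
# MP_1be6c9_co, route 2229, part (2): the scalar consequences of the laws (K), (X), (T0)

Coordinates in an orthonormal eigenbasis: `e i > -1` the eigenvalues of `Phi - 1` on the span of the
free labels, `p, b` the coordinates of the offset and of the label `b`, `pf`, `bf` their normal
components, `P = pf ^ 2 + ∑ p ^ 2`.
-/

set_option autoImplicit false

open Finset

namespace Pool.Agent.Fc.Sc

variable {ι : Type*} [Fintype ι] {e p b : ι → ℝ} {pf bf Bo P : ℝ}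

/-- The law (K) at the mean of the vertex: `P < 2 Bo ^ 2`. -/
theorem P_lt (he : ∀ i, -1 < e i) (hpf : pf = Bo * bf) (hb : bf ^ 2 + ∑ i, b i ^ 2 = 1)
    (hP : P = pf ^ 2 + ∑ i, p i ^ 2)
    (hK : ∀ u : ι → ℝ, 0 < P * (1 + ∑ i, (1 + e i) * u i ^ 2) + 4 * ∑ i, (1 + e i) * p i * u i +
      2 * ∑ i, (1 + e i) ^ 2 * u i ^ 2 - 2 * ∑ i, (1 + e i) * u i ^ 2)
    (hX : ∑ i, (Bo * b i - p i) ^ 2 / (1 + e i) < 1) (hBo : Bo ^ 2 < 1) : P < 2 * Bo ^ 2 := by
  have h := hK fun i => (Bo * b i - p i) / (1 + e i)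
  have hne : ∀ i, 1 + e i ≠ 0 := fun i => by linarith [he i]
  have e1 : ∑ i, (1 + e i) * ((Bo * b i - p i) / (1 + e i)) ^ 2 =
      ∑ i, (Bo * b i - p i) ^ 2 / (1 + e i) :=
    sum_congr rfl fun i _ => by
      have := hne i
      field_simp
  have e2 : ∑ i, (1 + e i) * p i * ((Bo * b i - p i) / (1 + e i)) =
      Bo * ∑ i, p i * b i - ∑ i, p i ^ 2 := by
    rw [mul_sum, ← sum_sub_distrib]
    refine sum_congr rfl fun i _ => ?_
    have := hne i
    field_simp
  have e3 : ∑ i, (1 + e i) ^ 2 * ((Bo * b i - p i) / (1 + e i)) ^ 2 =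
      Bo ^ 2 * ∑ i, b i ^ 2 - 2 * Bo * ∑ i, p i * b i + ∑ i, p i ^ 2 := by
    rw [mul_sum, mul_sum, ← sum_sub_distrib, ← sum_add_distrib]
    refine sum_congr rfl fun i _ => ?_
    have := hne i
    field_simp
    ring
  rw [e1, e2, e3] at h
  set X := ∑ i, (Bo * b i - p i) ^ 2 / (1 + e i) with hXdef
  have hX0 : 0 ≤ X := sum_nonneg fun i _ => div_nonneg (sq_nonneg _) (by linarith [he i])
  set S := ∑ i, p i * b i
  set pp := ∑ i, p i ^ 2
  set bb := ∑ i, b i ^ 2
  have hbb : bb = 1 - bf ^ 2 := by linarith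
  have hpp : pp = P - Bo ^ 2 * bf ^ 2 := by
    rw [hP, hpf]
    ring
  rw [hbb, hpp] at h
  have h2 : 0 < X * (P - 2) - P + 2 * Bo ^ 2 := by nlinarith
  by_contra hcon
  push Not at hcon
  rcases le_or_gt P 2 with h3 | h3
  · nlinarith
  · nlinarith

/-- The operator bound `- P / 2 ≤ e i`. -/
theorem neg_half_le (he : ∀ i, -1 < e i)
    (hK : ∀ u : ι → ℝ, 0 < P * (1 + ∑ i, (1 + e i) * u i ^ 2) + 4 * ∑ i, (1 + e i) * p i * u i +
      2 * ∑ i, (1 + e i) ^ 2 * u i ^ 2 - 2 * ∑ i, (1 + e i) * u i ^ 2) (i : ι) :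
    0 ≤ P / 2 + e i := by
  classical
  by_contra hcon
  push Not at hcon
  -- test with a large multiple of the basis vector
  have key : ∀ s : ℝ, 0 < P + 2 * (1 + e i) * ((P / 2 + e i) * s ^ 2 + 2 * p i * s) := by
    intro s
    have h := hK (Pi.single i s)
    have e1 : ∑ j, (1 + e j) * (Pi.single i s : ι → ℝ) j ^ 2 = (1 + e i) * s ^ 2 := by
      rw [sum_eq_single i]
      · rw [Pi.single_eq_same]
      · intro j _ hj
        rw [Pi.single_eq_of_ne hj]
        ring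
      · intro h
        exact absurd (mem_univ i) h
    have e2 : ∑ j, (1 + e j) * p j * (Pi.single i s : ι → ℝ) j = (1 + e i) * p i * s := by
      rw [sum_eq_single i]
      · rw [Pi.single_eq_same]
      · intro j _ hj
        rw [Pi.single_eq_of_ne hj]
        ring
      · intro h
        exact absurd (mem_univ i) h
    have e3 : ∑ j, (1 + e j) ^ 2 * (Pi.single i s : ι → ℝ) j ^ 2 = (1 + e i) ^ 2 * s ^ 2 := by
      rw [sum_eq_single i]
      · rw [Pi.single_eq_same]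
      · intro j _ hj
        rw [Pi.single_eq_of_ne hj]
        ring
      · intro h
        exact absurd (mem_univ i) h
    rw [e1, e2, e3] at h
    nlinarith
  have hpos : 0 < 1 + e i := by linarith [he i]
  set c := -(P / 2 + e i) with hc
  have hc0 : 0 < c := by linarith
  -- choose `s` with `(1 + e) c s ^ 2` large
  obtain ⟨s, hs⟩ : ∃ s : ℝ, P + 2 * (1 + e i) * (-c * s ^ 2 + 2 * p i * s) ≤ 0 := by
    refine ⟨(2 * |p i| + |P| / (1 + e i) + 1) / c + 1, ?_⟩
    set A := 2 * |p i| + |P| / (1 + e i) + 1 with hA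
    have hA0 : 1 ≤ A := by
      have : 0 ≤ |P| / (1 + e i) := div_nonneg (abs_nonneg _) hpos.le
      have := abs_nonneg (p i)
      linarith
    set s := A / c + 1 with hs
    have hs1 : 1 ≤ s := by
      have : 0 ≤ A / c := div_nonneg (by linarith) hc0.le
      linarith
    have hcs : c * s = A + c := by
      rw [hs]
      field_simp
    have h1 : -c * s ^ 2 + 2 * p i * s = s * (2 * p i - c * s) := by ring
    have h2 : 2 * p i - c * s ≤ -(|P| / (1 + e i)) := by
      rw [hcs, hA]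
      have := le_abs_self (p i)
      linarith
    have h3 : s * (2 * p i - c * s) ≤ -(|P| / (1 + e i)) := by
      have h4 : 0 ≤ |P| / (1 + e i) := div_nonneg (abs_nonneg _) hpos.le
      nlinarith
    have h5 : 2 * (1 + e i) * (s * (2 * p i - c * s)) ≤ -(2 * |P|) := by
      have h6 : (1 + e i) * (|P| / (1 + e i)) = |P| := by field_simp
      nlinarith
    rw [h1]
    have := le_abs_self P
    have := abs_nonneg P
    linarith
  have h6 := key s
  have h7 : (P / 2 + e i) = -c := by rw [hc]; ring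
  rw [h7] at h6
  linarith

/-- At an eigenvalue `- P / 2` there is no component of `p`. -/
theorem zero_of_half (he : ∀ i, -1 < e i)
    (hK : ∀ u : ι → ℝ, 0 < P * (1 + ∑ i, (1 + e i) * u i ^ 2) + 4 * ∑ i, (1 + e i) * p i * u i +
      2 * ∑ i, (1 + e i) ^ 2 * u i ^ 2 - 2 * ∑ i, (1 + e i) * u i ^ 2) (i : ι)
    (hi : P / 2 + e i = 0) : p i = 0 := by
  classical
  by_contra hcon
  have hpos : 0 < 1 + e i := by linarith [he i]
  set s := -(P / 2 + 1) / (2 * (1 + e i) * p i) with hs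
  have h := hK (Pi.single i s)
  have e1 : ∑ j, (1 + e j) * (Pi.single i s : ι → ℝ) j ^ 2 = (1 + e i) * s ^ 2 := by
    rw [sum_eq_single i]
    · rw [Pi.single_eq_same]
    · intro j _ hj
      rw [Pi.single_eq_of_ne hj]
      ring
    · intro h
      exact absurd (mem_univ i) h
  have e2 : ∑ j, (1 + e j) * p j * (Pi.single i s : ι → ℝ) j = (1 + e i) * p i * s := by
    rw [sum_eq_single i]
    · rw [Pi.single_eq_same]
    · intro j _ hj
      rw [Pi.single_eq_of_ne hj]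
      ring
    · intro h
      exact absurd (mem_univ i) h
  have e3 : ∑ j, (1 + e j) ^ 2 * (Pi.single i s : ι → ℝ) j ^ 2 = (1 + e i) ^ 2 * s ^ 2 := by
    rw [sum_eq_single i]
    · rw [Pi.single_eq_same]
    · intro j _ hj
      rw [Pi.single_eq_of_ne hj]
      ring
    · intro h
      exact absurd (mem_univ i) h
  rw [e1, e2, e3] at h
  have h1 : (1 + e i) * p i * s = -(P / 2 + 1) / 2 := by
    rw [hs]
    have := hpos.ne'
    field_simp
  have h2 : e i = -(P / 2) := by linarith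
  rw [h1, h2] at h
  nlinarith

/-- The law (Q). -/
theorem sum_lt
    (hK : ∀ u : ι → ℝ, 0 < P * (1 + ∑ i, (1 + e i) * u i ^ 2) + 4 * ∑ i, (1 + e i) * p i * u i +
      2 * ∑ i, (1 + e i) ^ 2 * u i ^ 2 - 2 * ∑ i, (1 + e i) * u i ^ 2) :
    ∑ i, p i ^ 2 * (1 + e i) / (e i + P / 2) < P / 2 := by
  have h := hK fun i => -p i / (e i + P / 2)
  have e1 : ∀ i, P * ((1 + e i) * (-p i / (e i + P / 2)) ^ 2) +
      4 * ((1 + e i) * p i * (-p i / (e i + P / 2))) +
      2 * ((1 + e i) ^ 2 * (-p i / (e i + P / 2)) ^ 2) -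
      2 * ((1 + e i) * (-p i / (e i + P / 2)) ^ 2) =
      -2 * (p i ^ 2 * (1 + e i) / (e i + P / 2)) := by
    intro i
    by_cases h0 : e i + P / 2 = 0
    · rw [h0, div_zero, div_zero]
      ring
    · set D := e i + P / 2 with hD
      have hP : P = 2 * (D - e i) := by rw [hD]; ring
      have h1 : p i ^ 2 * (1 + e i) / D = (1 + e i) * D * (p i / D) ^ 2 := by
        field_simp
      have h2 : -p i / D = -(p i / D) := neg_div _ _
      have h3 : p i = D * (p i / D) := by field_simp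
      rw [h1, h2, hP]
      set z := p i / D with hz
      rw [h3]
      ring
  have e2 : P * (1 + ∑ i, (1 + e i) * (-p i / (e i + P / 2)) ^ 2) +
      4 * ∑ i, (1 + e i) * p i * (-p i / (e i + P / 2)) +
      2 * ∑ i, (1 + e i) ^ 2 * (-p i / (e i + P / 2)) ^ 2 -
      2 * ∑ i, (1 + e i) * (-p i / (e i + P / 2)) ^ 2 =
      P - 2 * ∑ i, p i ^ 2 * (1 + e i) / (e i + P / 2) := by
    have h4 : -2 * ∑ i, p i ^ 2 * (1 + e i) / (e i + P / 2) =
        P * ∑ i, (1 + e i) * (-p i / (e i + P / 2)) ^ 2 +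
        4 * ∑ i, (1 + e i) * p i * (-p i / (e i + P / 2)) +
        2 * ∑ i, (1 + e i) ^ 2 * (-p i / (e i + P / 2)) ^ 2 -
        2 * ∑ i, (1 + e i) * (-p i / (e i + P / 2)) ^ 2 := by
      rw [mul_sum, mul_sum, mul_sum, mul_sum, mul_sum, ← sum_add_distrib, ← sum_add_distrib,
        ← sum_sub_distrib]
      exact sum_congr rfl fun i _ => (e1 i).symm
    linarith
  linarith

/-- The law (Q) with an upper bound of the eigenvalues. -/
theorem rho_lt (he : ∀ i, -1 < e i) (hP0 : 0 < P) (hP2 : P < 2)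
    (hK : ∀ u : ι → ℝ, 0 < P * (1 + ∑ i, (1 + e i) * u i ^ 2) + 4 * ∑ i, (1 + e i) * p i * u i +
      2 * ∑ i, (1 + e i) ^ 2 * u i ^ 2 - 2 * ∑ i, (1 + e i) * u i ^ 2) {th : ℝ} (hth : 0 ≤ th)
    (hle : ∀ i, e i ≤ th) : (∑ i, p i ^ 2) * (1 + th) < P / 2 * (th + P / 2) := by
  have hQ := sum_lt (e := e) (p := p) hK
  have h1 : ∀ i, p i ^ 2 * (1 + th) / (th + P / 2) ≤ p i ^ 2 * (1 + e i) / (e i + P / 2) := by
    intro i
    have h2 := neg_half_le he hK i
    rcases h2.lt_or_eq with h3 | h3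
    · have h4 : 0 < e i + P / 2 := by linarith
      have h5 : 0 < th + P / 2 := by linarith
      rw [div_le_div_iff₀ h5 h4]
      have h6 := hle i
      have h7 := sq_nonneg (p i)
      have h8 : (1 + th) * (e i + P / 2) ≤ (1 + e i) * (th + P / 2) := by nlinarith
      nlinarith
    · rw [zero_of_half he hK i h3.symm]
      simp
  have h2 : (∑ i, p i ^ 2) * (1 + th) / (th + P / 2) < P / 2 := by
    refine lt_of_le_of_lt ?_ hQ
    rw [sum_mul, sum_div]
    exact sum_le_sum fun i _ => h1 i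
  rwa [div_lt_iff₀ (by linarith)] at h2

/-- `P < 43 / 50` if the eigenvalues are at most `292 / 500`. -/
theorem P_lt' (he : ∀ i, -1 < e i) (hP0 : 0 < P) (hP2 : P < 2) {t : ℝ}
    (hP : P = t + ∑ i, p i ^ 2) (ht : t ≤ 73 / 125)
    (hK : ∀ u : ι → ℝ, 0 < P * (1 + ∑ i, (1 + e i) * u i ^ 2) + 4 * ∑ i, (1 + e i) * p i * u i +
      2 * ∑ i, (1 + e i) ^ 2 * u i ^ 2 - 2 * ∑ i, (1 + e i) * u i ^ 2)
    (hle : ∀ i, e i ≤ 73 / 125) : P < 43 / 50 := by
  have h := rho_lt he hP0 hP2 hK (by norm_num) hle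
  have h1 : ∑ i, p i ^ 2 = P - t := by linarith
  rw [h1] at h
  by_contra hcon
  push Not at hcon
  nlinarith

/-- The mean `- V ^ T Phi ^ (-1) p` is in the unit ball. -/
theorem x_lt (he : ∀ i, -1 < e i) (hP2 : P < 43 / 50)
    (hK : ∀ u : ι → ℝ, 0 < P * (1 + ∑ i, (1 + e i) * u i ^ 2) + 4 * ∑ i, (1 + e i) * p i * u i +
      2 * ∑ i, (1 + e i) ^ 2 * u i ^ 2 - 2 * ∑ i, (1 + e i) * u i ^ 2) :
    ∑ i, p i ^ 2 / (1 + e i) < 1 := by
  have hQ := sum_lt (e := e) (p := p) hK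
  have hq : 0 < 4 * (1 - P / 2) := by linarith
  have h1 : ∀ i, p i ^ 2 / (1 + e i) ≤
      (p i ^ 2 * (1 + e i) / (e i + P / 2)) / (4 * (1 - P / 2)) := by
    intro i
    have h2 := neg_half_le he hK i
    have hpos : 0 < 1 + e i := by linarith [he i]
    rcases h2.lt_or_eq with h3 | h3
    · have h4 : 0 < e i + P / 2 := by linarith
      rw [div_div, div_le_div_iff₀ hpos (by positivity)]
      have h7 := sq_nonneg (p i)
      have h8 : (e i + P / 2) * (4 * (1 - P / 2)) ≤ (1 + e i) * (1 + e i) := by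
        nlinarith [sq_nonneg (1 + e i - 2 * (1 - P / 2))]
      calc p i ^ 2 * ((e i + P / 2) * (4 * (1 - P / 2))) ≤ p i ^ 2 * ((1 + e i) * (1 + e i)) :=
            mul_le_mul_of_nonneg_left h8 h7
        _ = p i ^ 2 * (1 + e i) * (1 + e i) := by ring
    · rw [zero_of_half he hK i h3.symm]
      simp
  have h2 : ∑ i, p i ^ 2 / (1 + e i) ≤
      (∑ i, p i ^ 2 * (1 + e i) / (e i + P / 2)) / (4 * (1 - P / 2)) := by
    rw [sum_div]
    exact sum_le_sum fun i _ => h1 i
  refine lt_of_le_of_lt h2 ?_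
  rw [div_lt_one hq]
  linarith

end Pool.Agent.Fc.Sc
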