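import Pool.Agent.Lib.MP_1be6c9_co.Fc.EdgeLaw

/-!
The scalar part, sums: from the data of the edge to an inequality between a few real numbers.
-/

namespace Pool.Agent.Lib.MP_1be6c9_co.Fc

open Finset

/-- The numbers of an edge. `x`, `y` are the components of `a`, `b` along the normal, `q = A x = B y`,
`t = q ^ 2`, `s = P / 2`, `g = ⟨a, b⟩`, `κ = 2 / |a - b| ^ 2`. -/
structure SNum (A B x y q s t g κ Fx Fz W R : ℝ) : Prop where
  B_pos : 0 < B
  B_le : B ≤ 191 / 250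
  BA : B ≤ A
  A_le : A ≤ 2 - B
  x_pos : 0 < x
  y_pos : 0 < y
  x_le : x ^ 2 ≤ 1
  y_le : y ^ 2 ≤ 1
  qA : q = A * x
  qB : q = B * y
  t_eq : t = q ^ 2
  g_lt : g < 1 / 2
  lt_g : -(1 / 2) < g
  hκ : κ * (1 - g) = 1
  two_s : t ≤ 2 * s
  s_lt : s < 43 / 100
  lawQ : (2 * s - t) * (1 + t) ≤ s * (t + s)
  R_nonneg : 0 ≤ R
  R_sq : R ^ 2 = 2 * s - t
  W_nonneg : 0 ≤ W
  W_sq : W ^ 2 = 1 + (B / A) ^ 2 + 2 * (B / A) * g - 4 * x ^ 2
  s_le : 2 * s ≤ t + 81 / 100 * t ^ 2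
  t_le : t ≤ 73 / 125
  half : 1 / 2 ≤ x * y
  pair : x ^ 2 - x * y + y ^ 2 ≤ 3 / 4
  Fx_nonneg : 0 ≤ Fx
  Fx_le : Fx ≤ (t + s) * (1 - x ^ 2)
  Fz_nonneg : 0 ≤ Fz
  Fz_le : Fz ≤ (t + s) * (1 - y ^ 2)
  lawN : 4 * (1 + s - t - t / (1 + t)) * Fx <
    4 * (s ^ 2 + s) * (1 - x ^ 2) + t * s - (4 - 2 * s - 4 * (2 - A) * x ^ 2)
  lawC : 4 * t / A < 2 * s + 2 * (R * W) + 2 * s * (2 - κ * (1 - s)) +
    κ * ((2 * max 0 (κ * (1 + t - s) - 2) + (1 - B / A)) * Fx +
      (2 * max 0 (κ * (1 + t - s) - 2) + 3 * (1 - B / A)) * Fz +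
      2 * (1 - B / A) * s * (g - x * y - 1 + y ^ 2))

section

variable {n : ℕ} {e a b p : Fin n → ℝ} {af bf pf A B P T : ℝ}

theorem EData.t_le (D : EData e a b p af bf pf A B P T) : pf ^ 2 ≤ 73 / 125 := by
  have h1 := D.norm_b
  have h2 : 0 ≤ ∑ i, b i ^ 2 := Finset.sum_nonneg fun i _ => sq_nonneg _
  have h3 := D.pfB
  have h4 := D.B_le
  have h5 := D.B_pos
  have h6 : B ^ 2 ≤ (191 / 250) ^ 2 := by
    apply pow_le_pow_left₀ h5.le h4
  have h7 : pf ^ 2 = B ^ 2 * bf ^ 2 := by rw [h3]; ring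
  have h8 : bf ^ 2 ≤ 1 := by linarith
  rw [h7]
  nlinarith [sq_nonneg B, sq_nonneg bf]

theorem EData.T_lt (D : EData e a b p af bf pf A B P T) : T < pf ^ 2 := by
  have h2 := D.lawT
  have hP := D.P_lt
  have hX0 : 0 ≤ ∑ i, p i ^ 2 / (1 + e i) := by
    refine Finset.sum_nonneg fun i _ => div_nonneg (sq_nonneg _) ?_
    have := D.lo i
    linarith
  have := mul_nonneg (by linarith : 0 ≤ 1 - P / 2) hX0
  linarith

theorem EData.e_lt (D : EData e a b p af bf pf A B P T) (i : Fin n) : |e i| < pf ^ 2 :=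
  (D.abs_e i).trans_lt D.T_lt

theorem EData.lawQ' (D : EData e a b p af bf pf A B P T) :
    (P - pf ^ 2) * (1 + pf ^ 2) ≤ P / 2 * (pf ^ 2 + P / 2) := by
  set t := pf ^ 2 with ht
  have ht0 : 0 < t := pow_pos D.pf_pos 2
  have hP := D.P_lt
  have hn := D.norm_p
  have hs0 : 0 ≤ ∑ i, p i ^ 2 := Finset.sum_nonneg fun i _ => sq_nonneg _
  have h0 : 0 < P := by linarith
  have h1 : ∀ i, p i ^ 2 * ((1 + t) / (t + P / 2)) ≤ p i ^ 2 * (1 + e i) / (e i + P / 2) := by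
    intro i
    have hl := D.lo i
    have hu := (abs_lt.1 (D.e_lt i)).2
    have h3 : 0 < e i + P / 2 := by linarith
    rw [mul_div_assoc]
    refine mul_le_mul_of_nonneg_left ?_ (sq_nonneg _)
    rw [div_le_div_iff₀ (by linarith) h3]
    nlinarith
  have h2 := Finset.sum_le_sum fun i (_ : i ∈ Finset.univ) => h1 i
  rw [← Finset.sum_mul] at h2
  have h3 : (∑ i, p i ^ 2) * ((1 + t) / (t + P / 2)) < P / 2 := h2.trans_lt D.lawQ
  have h4 : ∑ i, p i ^ 2 = P - t := by linarith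
  rw [h4, mul_div_assoc', div_lt_iff₀ (by linarith)] at h3
  exact h3.le

/-- The law `N` at `a`, per coordinate. -/
theorem lawN_coord {e a p s t : ℝ} (hs : 0 < e + s) (ht : |e| ≤ t) (ht0 : 0 < t)
    (ht1 : t + t ^ 2 ≤ 1) (hs1 : s < 1) :
    4 * (e ^ 2 - e) * a ^ 2 + 4 * (e * (a * p)) ≤
      4 * (s ^ 2 + s) * a ^ 2 - 4 * (1 + s - t - t / (1 + t)) * ((e + s) * a ^ 2) +
        t * (p ^ 2 * (1 + e) / (e + s)) := by
  obtain ⟨hl, hu⟩ := abs_le.1 ht
  have h1 : 0 < 1 + e := by linarith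
  have h1t : 0 < 1 + t := by linarith
  set w := (1 + e) / (e + s) with hw
  have hw0 : 0 < w := div_pos h1 hs
  have hw1 : w * (e + s) = 1 + e := by rw [hw]; field_simp
  set Q := (e + s) * (4 * (t - e) + 4 * (t / (1 + t))) with hQ
  have key : 4 * e ^ 2 ≤ t * w * Q := by
    have e1 : t * w * Q = t * (1 + e) * (4 * (t - e) + 4 * (t / (1 + t))) := by
      rw [hQ]
      calc t * w * ((e + s) * (4 * (t - e) + 4 * (t / (1 + t)))) =
          t * (w * (e + s)) * (4 * (t - e) + 4 * (t / (1 + t))) := by ring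
        _ = _ := by rw [hw1]
    rw [e1]
    have e2 : t * (1 + e) * (4 * (t - e) + 4 * (t / (1 + t))) - 4 * e ^ 2 =
        4 * (t - e) * (t * (2 + t) + e * (1 + t) ^ 2) / (1 + t) := by
      field_simp
      ring
    have e3 : 0 ≤ t * (2 + t) + e * (1 + t) ^ 2 := by nlinarith [sq_nonneg (1 + t)]
    have e4 : 0 ≤ 4 * (t - e) * (t * (2 + t) + e * (1 + t) ^ 2) / (1 + t) := by
      apply div_nonneg _ h1t.le
      exact mul_nonneg (by linarith) e3
    linarith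
  have e5 : 4 * (s ^ 2 + s) * a ^ 2 - 4 * (1 + s - t - t / (1 + t)) * ((e + s) * a ^ 2) -
      4 * (e ^ 2 - e) * a ^ 2 = Q * a ^ 2 := by
    rw [hQ]
    ring
  have e6 : p ^ 2 * (1 + e) / (e + s) = w * p ^ 2 := by rw [hw]; ring
  have htw : 0 < t * w := mul_pos ht0 hw0
  have e7 : 0 ≤ (t * w) * (Q * a ^ 2 + t * w * p ^ 2 - 4 * (e * (a * p))) := by
    have : (t * w) * (Q * a ^ 2 + t * w * p ^ 2 - 4 * (e * (a * p))) =
        (t * w * p - 2 * e * a) ^ 2 + (t * w * Q - 4 * e ^ 2) * a ^ 2 := by ring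
    rw [this]
    have := mul_nonneg (sub_nonneg.2 key) (sq_nonneg a)
    positivity
  have e8 := nonneg_of_mul_nonneg_right e7 htw
  rw [e6]
  nlinarith

theorem EData.lawN' (D : EData e a b p af bf pf A B P T) :
    4 * (1 + P / 2 - pf ^ 2 - pf ^ 2 / (1 + pf ^ 2)) * ∑ i, (e i + P / 2) * a i ^ 2 <
      4 * ((P / 2) ^ 2 + P / 2) * (1 - af ^ 2) + pf ^ 2 * (P / 2) -
        (4 - P - 4 * (2 - A) * af ^ 2) := by
  set t := pf ^ 2 with ht
  have ht0 : 0 < t := pow_pos D.pf_pos 2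
  have htl : t ≤ 73 / 125 := D.t_le
  have hP := D.P_lt
  have h1 : ∀ i, 4 * (e i ^ 2 - e i) * a i ^ 2 + 4 * (e i * (a i * p i)) ≤
      4 * ((P / 2) ^ 2 + P / 2) * a i ^ 2 -
        4 * (1 + P / 2 - t - t / (1 + t)) * ((e i + P / 2) * a i ^ 2) +
        t * (p i ^ 2 * (1 + e i) / (e i + P / 2)) := fun i =>
    lawN_coord (by have := D.lo i; linarith) (D.e_lt i).le ht0 (by nlinarith) (by linarith)
  have h2 := Finset.sum_le_sum fun i (_ : i ∈ Finset.univ) => h1 i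
  have e1 : ∑ i, (4 * ((P / 2) ^ 2 + P / 2) * a i ^ 2 -
        4 * (1 + P / 2 - t - t / (1 + t)) * ((e i + P / 2) * a i ^ 2) +
        t * (p i ^ 2 * (1 + e i) / (e i + P / 2))) =
      4 * ((P / 2) ^ 2 + P / 2) * ∑ i, a i ^ 2 -
        4 * (1 + P / 2 - t - t / (1 + t)) * ∑ i, (e i + P / 2) * a i ^ 2 +
        t * ∑ i, p i ^ 2 * (1 + e i) / (e i + P / 2) := by
    rw [Finset.sum_add_distrib, Finset.sum_sub_distrib, ← Finset.mul_sum, ← Finset.mul_sum,
      ← Finset.mul_sum]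
  rw [e1] at h2
  have h3 := D.lawNa
  have h4 := D.norm_a
  have h5 : t * ∑ i, p i ^ 2 * (1 + e i) / (e i + P / 2) ≤ t * (P / 2) :=
    mul_le_mul_of_nonneg_left D.lawQ.le ht0.le
  have h6 : ∑ i, a i ^ 2 = 1 - af ^ 2 := by linarith
  rw [h6] at h2
  linarith

theorem lawC_coord {e a b s t κ r : ℝ} (hs : 0 < e + s) (ht : e ≤ t) (hκ : 0 < κ) (hr : 0 ≤ r) :
    -2 * ((a - (1 - r) * b) * (e * (a - b))) + κ * ((e + e ^ 2) * (a - b) ^ 2) ≤
      s * (2 - κ * (1 - s)) * (a - b) ^ 2 +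
        ((2 * max 0 (κ * (1 + t - s) - 2) + r) * ((e + s) * a ^ 2) +
          (2 * max 0 (κ * (1 + t - s) - 2) + 3 * r) * ((e + s) * b ^ 2)) +
        2 * r * s * (b * (a - b)) := by
  set kp := max 0 (κ * (1 + t - s) - 2) with hkp
  have h1 : κ * (1 + t - s) - 2 ≤ kp := le_max_right _ _
  have h0 : 0 ≤ kp := le_max_left _ _
  -- `e ^ 2 ≤ (t - s) e + s t`
  have h2 : 0 ≤ κ * ((e + s) * (t - e)) * (a - b) ^ 2 :=
    mul_nonneg (mul_nonneg hκ.le (mul_nonneg hs.le (by linarith))) (sq_nonneg _)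
  have h3 : (κ * (1 + t - s) - 2) * ((e + s) * (a - b) ^ 2) ≤ kp * ((e + s) * (a - b) ^ 2) :=
    mul_le_mul_of_nonneg_right h1 (mul_nonneg hs.le (sq_nonneg _))
  have h4 : kp * ((e + s) * (a - b) ^ 2) ≤ kp * (2 * ((e + s) * a ^ 2) + 2 * ((e + s) * b ^ 2)) := by
    refine mul_le_mul_of_nonneg_left ?_ h0
    nlinarith [mul_nonneg hs.le (sq_nonneg (a + b))]
  have h5 : r * (-2 * ((e + s) * (b * (a - b)))) ≤
      r * ((e + s) * a ^ 2 + 3 * ((e + s) * b ^ 2)) := by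
    refine mul_le_mul_of_nonneg_left ?_ hr
    nlinarith [mul_nonneg hs.le (sq_nonneg (a + b))]
  have e1 : -2 * ((a - (1 - r) * b) * (e * (a - b))) + κ * ((e + e ^ 2) * (a - b) ^ 2) =
      (κ * (1 + t - s) - 2) * ((e + s) * (a - b) ^ 2) + s * (2 - κ * (1 - s)) * (a - b) ^ 2 -
        κ * ((e + s) * (t - e)) * (a - b) ^ 2 + r * (-2 * ((e + s) * (b * (a - b)))) +
        2 * r * s * (b * (a - b)) := by
    ring
  rw [e1]
  linarith

/-- The law `C`. -/
theorem EData.lawC' (D : EData e a b p af bf pf A B P T) {κ : ℝ}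
    (hκ : κ * (1 - (∑ i, a i * b i + af * bf)) = 1) :
    4 * pf ^ 2 / A < 2 * (P / 2) +
      2 * (√(P - pf ^ 2) * √(1 + (B / A) ^ 2 + 2 * (B / A) * (∑ i, a i * b i + af * bf) -
        4 * af ^ 2)) + 2 * (P / 2) * (2 - κ * (1 - P / 2)) +
      κ * ((2 * max 0 (κ * (1 + pf ^ 2 - P / 2) - 2) + (1 - B / A)) *
          ∑ i, (e i + P / 2) * a i ^ 2 +
        (2 * max 0 (κ * (1 + pf ^ 2 - P / 2) - 2) + 3 * (1 - B / A)) *
          ∑ i, (e i + P / 2) * b i ^ 2 +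
        2 * (1 - B / A) * (P / 2) * ((∑ i, a i * b i + af * bf) - af * bf - 1 + bf ^ 2)) := by
  set s := P / 2 with hs
  set t := pf ^ 2 with ht
  set g := ∑ i, a i * b i + af * bf with hg
  set ρ := B / A with hρ
  have hB := D.B_pos
  have hA : 0 < A := hB.trans_le D.BA
  have hfar := abs_lt.1 D.far
  have hg1 : 0 < 1 - g := by linarith [hfar.2]
  have hκ0 : 0 < κ := by
    by_contra hcon
    push Not at hcon
    nlinarith
  have hκ2 : κ ≤ 2 := by nlinarith [hfar.2]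
  have ht0 : 0 < t := pow_pos D.pf_pos 2
  have hP := D.P_lt
  have hnp := D.norm_p
  have hna := D.norm_a
  have hnb := D.norm_b
  have hs0 : 0 ≤ ∑ i, p i ^ 2 := Finset.sum_nonneg fun i _ => sq_nonneg _
  have hP0 : 0 < P := by linarith
  have hρ1 : ρ ≤ 1 := by rw [hρ, div_le_one hA]; exact D.BA
  have hρ0 : 0 < ρ := div_pos hB hA
  have hAρ : A * ρ = B := by rw [hρ]; field_simp
  have hρb : ρ * bf = af := by
    have h1 : A * (ρ * bf) = A * af := by
      rw [← mul_assoc, hAρ, ← D.pfB, ← D.pfA]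
    exact mul_left_cancel₀ hA.ne' h1
  -- the law
  have h1 := D.lawC κ hκ
  -- left side
  have e1 : A * (2 * (∑ i, p i * a i + pf * af) - P) + B * (2 * (∑ i, p i * b i + pf * bf) - P) +
      B * P = A * (2 * ∑ i, p i * (a i + ρ * b i) + 4 * t / A - P) := by
    have h2 : ∑ i, p i * (a i + ρ * b i) = ∑ i, p i * a i + ρ * ∑ i, p i * b i := by
      rw [Finset.mul_sum, ← Finset.sum_add_distrib]
      exact Finset.sum_congr rfl fun i _ => by ring
    have h3 : A * (pf * af) = t := by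
      calc A * (pf * af) = pf * (A * af) := by ring
        _ = t := by rw [← D.pfA, ht]; ring
    have h4 : B * (pf * bf) = t := by
      calc B * (pf * bf) = pf * (B * bf) := by ring
        _ = t := by rw [← D.pfB, ht]; ring
    have h5 : A * (4 * t / A) = 4 * t := mul_div_cancel₀ _ hA.ne'
    rw [h2]
    linear_combination 2 * h3 + 2 * h4 - h5 - 2 * (∑ i, p i * b i) * hAρ
  have e2 : κ * (-2 * ∑ i, (A * a i - B * b i) * (e i * (a i - b i)) +
      A * κ * ∑ i, (e i + e i ^ 2) * (a i - b i) ^ 2) =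
      A * (κ * ∑ i, (-2 * ((a i - (1 - (1 - ρ)) * b i) * (e i * (a i - b i))) +
        κ * ((e i + e i ^ 2) * (a i - b i) ^ 2))) := by
    rw [Finset.sum_add_distrib, ← Finset.mul_sum, ← Finset.mul_sum]
    have h2 : ∑ i, (A * a i - B * b i) * (e i * (a i - b i)) =
        A * ∑ i, (a i - (1 - (1 - ρ)) * b i) * (e i * (a i - b i)) := by
      rw [Finset.mul_sum]
      refine Finset.sum_congr rfl fun i _ => ?_
      rw [← hAρ]
      ring
    rw [h2]
    ring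
  rw [e1, e2] at h1
  have h2 := lt_of_mul_lt_mul_left h1 hA.le
  -- the coordinates
  have h3 : ∀ i, -2 * ((a i - (1 - (1 - ρ)) * b i) * (e i * (a i - b i))) +
        κ * ((e i + e i ^ 2) * (a i - b i) ^ 2) ≤
      s * (2 - κ * (1 - s)) * (a i - b i) ^ 2 +
        ((2 * max 0 (κ * (1 + t - s) - 2) + (1 - ρ)) * ((e i + s) * a i ^ 2) +
          (2 * max 0 (κ * (1 + t - s) - 2) + 3 * (1 - ρ)) * ((e i + s) * b i ^ 2)) +
        2 * (1 - ρ) * s * (b i * (a i - b i)) := fun i =>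
    lawC_coord (by have := D.lo i; linarith) (abs_lt.1 (D.e_lt i)).2.le hκ0 (by linarith)
  have h4 := Finset.sum_le_sum fun i (_ : i ∈ Finset.univ) => h3 i
  have e3 : ∑ i, (s * (2 - κ * (1 - s)) * (a i - b i) ^ 2 +
        ((2 * max 0 (κ * (1 + t - s) - 2) + (1 - ρ)) * ((e i + s) * a i ^ 2) +
          (2 * max 0 (κ * (1 + t - s) - 2) + 3 * (1 - ρ)) * ((e i + s) * b i ^ 2)) +
        2 * (1 - ρ) * s * (b i * (a i - b i))) =
      s * (2 - κ * (1 - s)) * ∑ i, (a i - b i) ^ 2 +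
        ((2 * max 0 (κ * (1 + t - s) - 2) + (1 - ρ)) * ∑ i, (e i + s) * a i ^ 2 +
          (2 * max 0 (κ * (1 + t - s) - 2) + 3 * (1 - ρ)) * ∑ i, (e i + s) * b i ^ 2) +
        2 * (1 - ρ) * s * ∑ i, b i * (a i - b i) := by
    rw [Finset.sum_add_distrib, Finset.sum_add_distrib, Finset.sum_add_distrib, ← Finset.mul_sum,
      ← Finset.mul_sum, ← Finset.mul_sum, ← Finset.mul_sum]
  rw [e3] at h4
  have e4 : ∑ i, (a i - b i) ^ 2 = 2 * (1 - g) - (af - bf) ^ 2 := by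
    have : ∑ i, (a i - b i) ^ 2 = ∑ i, a i ^ 2 + ∑ i, b i ^ 2 - 2 * ∑ i, a i * b i := by
      rw [Finset.mul_sum, ← Finset.sum_add_distrib, ← Finset.sum_sub_distrib]
      exact Finset.sum_congr rfl fun i _ => by ring
    rw [this, hg]
    nlinarith
  have e5 : ∑ i, b i * (a i - b i) = g - af * bf - 1 + bf ^ 2 := by
    have : ∑ i, b i * (a i - b i) = ∑ i, a i * b i - ∑ i, b i ^ 2 := by
      rw [← Finset.sum_sub_distrib]
      exact Finset.sum_congr rfl fun i _ => by ring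
    rw [this, hg]
    linarith
  rw [e4, e5] at h4
  have h5 : κ * (s * (2 - κ * (1 - s)) * (2 * (1 - g) - (af - bf) ^ 2)) ≤
      2 * s * (2 - κ * (1 - s)) := by
    have h6 : 0 ≤ s * (2 - κ * (1 - s)) := by
      apply mul_nonneg (by linarith)
      nlinarith
    have h7 : κ * (s * (2 - κ * (1 - s)) * (2 * (1 - g) - (af - bf) ^ 2)) =
        s * (2 - κ * (1 - s)) * (2 * (κ * (1 - g))) -
          κ * (s * (2 - κ * (1 - s))) * (af - bf) ^ 2 := by ring
    rw [h7, hκ]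
    have := mul_nonneg (mul_nonneg hκ0.le h6) (sq_nonneg (af - bf))
    linarith
  -- the term with `p`
  have e6 : ∑ i, (a i + ρ * b i) ^ 2 = 1 + ρ ^ 2 + 2 * ρ * g - 4 * af ^ 2 := by
    have : ∑ i, (a i + ρ * b i) ^ 2 =
        ∑ i, a i ^ 2 + ρ ^ 2 * ∑ i, b i ^ 2 + 2 * ρ * ∑ i, a i * b i := by
      rw [Finset.mul_sum, Finset.mul_sum, ← Finset.sum_add_distrib, ← Finset.sum_add_distrib]
      exact Finset.sum_congr rfl fun i _ => by ring
    have h6 : ∑ i, a i * b i = g - af * bf := by rw [hg]; ring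
    have h7 : ∑ i, a i ^ 2 = 1 - af ^ 2 := by linarith
    have h8 : ∑ i, b i ^ 2 = 1 - bf ^ 2 := by linarith
    rw [this, h6, h7, h8]
    have h9 : ρ ^ 2 * bf ^ 2 = af ^ 2 := by rw [← hρb]; ring
    have h10 : ρ * (af * bf) = af ^ 2 := by
      calc ρ * (af * bf) = af * (ρ * bf) := by ring
        _ = af ^ 2 := by rw [hρb]; ring
    linear_combination -h9 - 2 * h10
  have h6 : -(√(P - t) * √(1 + ρ ^ 2 + 2 * ρ * g - 4 * af ^ 2)) ≤
      ∑ i, p i * (a i + ρ * b i) := by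
    have h7 := Finset.sum_mul_sq_le_sq_mul_sq Finset.univ p (fun i => a i + ρ * b i)
    rw [e6, show ∑ i, p i ^ 2 = P - t by linarith] at h7
    have h8 : 0 ≤ P - t := by linarith
    rw [← Real.sqrt_mul h8]
    have h9 := Real.abs_le_sqrt h7
    linarith [(abs_le.1 h9).1]
  have h7 : κ * ∑ i, (-2 * ((a i - (1 - (1 - ρ)) * b i) * (e i * (a i - b i))) +
        κ * ((e i + e i ^ 2) * (a i - b i) ^ 2)) ≤ _ := mul_le_mul_of_nonneg_left h4 hκ0.le
  have h8 : P = 2 * s := by rw [hs]; ring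
  rw [mul_add, mul_add] at h7
  have e7 : 4 * pf ^ 2 / A = 4 * t / A := rfl
  nlinarith

theorem scal_s {t P : ℝ} (ht0 : 0 < t) (htl : t ≤ 73 / 125) (hP : P < 43 / 50)
    (hQ : (P - t) * (1 + t) ≤ P / 2 * (t + P / 2)) : 2 * (P / 2) ≤ t + 81 / 100 * t ^ 2 := by
  by_contra hcon
  push Not at hcon
  set u := P - t with hu
  have h1 : u * (4 - u) ≤ 3 * t ^ 2 := by nlinarith
  have h2 : 81 / 100 * t ^ 2 < u := by linarith
  have h3 : u < 2 := by linarith
  have h4 : t ^ 2 ≤ (73 / 125) ^ 2 := by nlinarith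
  have h5 : 0 < t ^ 2 := pow_pos ht0 2
  have h6 : 81 / 100 * t ^ 2 * (4 - 81 / 100 * t ^ 2) < u * (4 - u) := by nlinarith
  nlinarith

theorem scal_half {A B x y q t s F : ℝ} (hx : 0 < x) (hB : 0 < B)
    (hBl : B ≤ 191 / 250) (hBA : B ≤ A) (hqA : q = A * x) (hqB : q = B * y) (htq : q ^ 2 = t)
    (htl : t ≤ 73 / 125) (hs : 2 * s ≤ t + 81 / 100 * t ^ 2) (hs0 : t ≤ 2 * s)
    (hs1 : s < 43 / 100) (hF : 0 ≤ F)
    (hN : 4 * (1 + s - t - t / (1 + t)) * F <
      4 * (s ^ 2 + s) * (1 - x ^ 2) + t * s - (4 - 2 * s - 4 * (2 - A) * x ^ 2)) :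
    1 / 2 ≤ x * y := by
  by_contra hcon
  push Not at hcon
  have hA : 0 < A := hB.trans_le hBA
  have hq : 0 < q := by rw [hqA]; exact mul_pos hA hx
  have ht0 : 0 < t := by rw [← htq]; positivity
  have hxy : x ≤ y := by
    by_contra h
    push Not at h
    have : B * y < A * x := by nlinarith
    linarith
  have hx2 : x ^ 2 < 1 / 2 := by nlinarith
  have ht1 : t = A * B * (x * y) := by
    rw [← htq, sq]
    nth_rewrite 1 [hqA]
    rw [hqB]
    ring
  have htA : t ≤ 191 / 500 * A := by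
    rw [ht1]
    nlinarith [mul_pos hA hB, mul_nonneg hA.le (sub_nonneg.2 hBl)]
  have hc : 0 ≤ 1 + s - t - t / (1 + t) := by
    have h1 : t / (1 + t) ≤ 73 / 198 := by
      rw [div_le_iff₀ (by linarith)]
      linarith
    linarith
  have h0 : 0 ≤ 4 * (1 + s - t - t / (1 + t)) * F := by positivity
  have h1 : 4 * s ^ 2 + 6 * s + t * s - 4 < 0 := by nlinarith
  have h2 : 2 * s ^ 2 + 4 * s + t * s - 2 * A < 0 := by
    -- `A ≥ (500 / 191) t`
    have h3 : s ≤ t * (7366 / 10000) := by nlinarith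
    rcases le_or_gt t (12 / 25) with h4 | h4
    · have h5 : s ≤ t * (6944 / 10000) := by nlinarith
      have h6 : s ≤ 1 / 3 := by linarith
      nlinarith
    · exfalso
      nlinarith
  nlinarith

/-- **The numbers of an edge.** -/
theorem EData.num (D : EData e a b p af bf pf A B P T) : ∃ κ : ℝ,
    SNum A B af bf pf (P / 2) (pf ^ 2) (∑ i, a i * b i + af * bf) κ
      (∑ i, (e i + P / 2) * a i ^ 2) (∑ i, (e i + P / 2) * b i ^ 2)
      √(1 + (B / A) ^ 2 + 2 * (B / A) * (∑ i, a i * b i + af * bf) - 4 * af ^ 2)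
      √(P - pf ^ 2) := by
  have hB := D.B_pos
  have hA : 0 < A := hB.trans_le D.BA
  have hfar := abs_lt.1 D.far
  set g := ∑ i, a i * b i + af * bf with hg
  have hg1 : 0 < 1 - g := by linarith [hfar.2]
  have ht0 : 0 < pf ^ 2 := pow_pos D.pf_pos 2
  have hP := D.P_lt
  have hnp := D.norm_p
  have hna := D.norm_a
  have hnb := D.norm_b
  have hs0 : 0 ≤ ∑ i, p i ^ 2 := Finset.sum_nonneg fun i _ => sq_nonneg _
  have ha0 : 0 ≤ ∑ i, a i ^ 2 := Finset.sum_nonneg fun i _ => sq_nonneg _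
  have hb0 : 0 ≤ ∑ i, b i ^ 2 := Finset.sum_nonneg fun i _ => sq_nonneg _
  have hx : 0 < af := by
    have h := D.pf_pos
    rw [D.pfA] at h
    exact (mul_pos_iff_of_pos_left hA).1 h
  have hy : 0 < bf := by
    have h := D.pf_pos
    rw [D.pfB] at h
    exact (mul_pos_iff_of_pos_left hB).1 h
  have hρb : B / A * bf = af := by
    have h1 : A * (B / A * bf) = A * af := by
      rw [← mul_assoc, mul_div_cancel₀ _ hA.ne', ← D.pfB, ← D.pfA]
    exact mul_left_cancel₀ hA.ne' h1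
  have hW : 0 ≤ 1 + (B / A) ^ 2 + 2 * (B / A) * g - 4 * af ^ 2 := by
    have : 1 + (B / A) ^ 2 + 2 * (B / A) * g - 4 * af ^ 2 = ∑ i, (a i + B / A * b i) ^ 2 := by
      have h5 : ∑ i, (a i + B / A * b i) ^ 2 =
          ∑ i, a i ^ 2 + (B / A) ^ 2 * ∑ i, b i ^ 2 + 2 * (B / A) * ∑ i, a i * b i := by
        rw [Finset.mul_sum, Finset.mul_sum, ← Finset.sum_add_distrib, ← Finset.sum_add_distrib]
        exact Finset.sum_congr rfl fun i _ => by ring
      have h6 : ∑ i, a i * b i = g - af * bf := by rw [hg]; ring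
      have h7 : ∑ i, a i ^ 2 = 1 - af ^ 2 := by linarith
      have h8 : ∑ i, b i ^ 2 = 1 - bf ^ 2 := by linarith
      rw [h5, h6, h7, h8]
      have h9 : (B / A) ^ 2 * bf ^ 2 = af ^ 2 := by rw [← hρb]; ring
      have h10 : B / A * (af * bf) = af ^ 2 := by
        calc B / A * (af * bf) = af * (B / A * bf) := by ring
          _ = af ^ 2 := by rw [hρb]; ring
      linear_combination h9 + 2 * h10
    rw [this]
    exact Finset.sum_nonneg fun i _ => sq_nonneg _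
  have hcs : (g - af * bf) ^ 2 ≤ (1 - af ^ 2) * (1 - bf ^ 2) := by
    have h7 := Finset.sum_mul_sq_le_sq_mul_sq Finset.univ a b
    rwa [show ∑ i, a i ^ 2 = 1 - af ^ 2 by linarith, show ∑ i, b i ^ 2 = 1 - bf ^ 2 by linarith,
      show ∑ i, a i * b i = g - af * bf by rw [hg]; ring] at h7
  have hFle : ∀ c : Fin n → ℝ, ∀ cf : ℝ, ∑ i, c i ^ 2 + cf ^ 2 = 1 →
      ∑ i, (e i + P / 2) * c i ^ 2 ≤ (pf ^ 2 + P / 2) * (1 - cf ^ 2) := by
    intro c cf hc
    rw [show 1 - cf ^ 2 = ∑ i, c i ^ 2 by linarith, Finset.mul_sum]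
    refine Finset.sum_le_sum fun i _ => mul_le_mul_of_nonneg_right ?_ (sq_nonneg _)
    linarith [(abs_lt.1 (D.e_lt i)).2]
  have hF0 : ∀ c : Fin n → ℝ, 0 ≤ ∑ i, (e i + P / 2) * c i ^ 2 := fun c =>
    Finset.sum_nonneg fun i _ => mul_nonneg (by linarith [D.lo i]) (sq_nonneg _)
  -- `s` and `t`
  have htl := D.t_le
  have hsle : 2 * (P / 2) ≤ pf ^ 2 + 81 / 100 * (pf ^ 2) ^ 2 := by
    have hQ := D.lawQ'
    exact scal_s ht0 htl (by linarith) hQ
  have hN := D.lawN'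
  have hhalf : 1 / 2 ≤ af * bf := by
    have hF := hF0 a
    exact scal_half hx hB D.B_le D.BA D.pfA D.pfB rfl htl hsle (by linarith)
      (by linarith) hF (by rw [show 2 * (P / 2) = P by ring]; exact hN)
  refine ⟨(1 - g)⁻¹, ?_⟩
  have hκ : (1 - g)⁻¹ * (1 - g) = 1 := inv_mul_cancel₀ hg1.ne'
  constructor
  · exact hB
  · exact D.B_le
  · exact D.BA
  · exact D.A_le
  · exact hx
  · exact hy
  · linarith
  · linarith
  · exact D.pfA
  · exact D.pfB
  · rfl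
  · exact hfar.2
  · exact hfar.1
  · exact hκ
  · linarith
  · linarith
  · have h := D.lawQ'
    rw [show 2 * (P / 2) = P by ring]
    exact h
  · exact Real.sqrt_nonneg _
  · rw [Real.sq_sqrt (by linarith)]
    ring
  · exact Real.sqrt_nonneg _
  · rw [Real.sq_sqrt hW]
  · exact hsle
  · exact D.t_le
  · exact hhalf
  · nlinarith [mul_pos hx hy, hfar.2]
  · exact hF0 a
  · exact hFle a af hna
  · exact hF0 b
  · exact hFle b bf hnb
  · have h := D.lawN'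
    rw [show 2 * (P / 2) = P by ring]
    exact h
  · exact D.lawC' hκ

end

end Pool.Agent.Lib.MP_1be6c9_co.Fc
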