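import Pool.Agent.Lib.MP_1be6c9_co.Fc.Fam

/-!
The set step (note 2214): a state all of whose smaller states are excluded has only long signed
sets.
-/

namespace Pool.Agent.Lib.MP_1be6c9_co.Fc

open Finset Pool.Agent.Lib.MP_1be6c9_co

section

variable {κ E : Type*} [Fintype κ] [NormedAddCommGroup E] [InnerProductSpace ℝ E]
  {v : κ → E} {g : E} {m : ℕ} {σ : κ → ℝ}

omit [Fintype κ] in
theorem exx_eta (y : Option (Option (Rs σ)) → ℝ) :
    ex (y none) (ex (y (some none)) fun k => y (some (some k))) = y := by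
  funext o; rcases o with _ | _ | k <;> rfl

/-- Vertices of the merged family with `θ = ±1` are vertices of the state. -/
theorem bas_fam_tight (hσ : Sgn σ) {t θ : ℝ} {x : Rs σ → ℝ} (hθ : |θ| = 1)
    (hy : Bas (fam v g σ) (ex t (ex θ x))) : Bas (ext v g) (ex t (lf σ θ x)) := by
  have hx : ∀ k, |x k| ≤ 1 := fun k => hy.1 (some (some k))
  refine ⟨fun o => ?_, ?_, ?_⟩
  · cases o with
    | none => exact hy.1 none
    | some k => exact lf_le hσ hθ.le hx k
  · rw [sum_ex, sum_lf, ← sum_fam (g := g)]; exact hy.2.1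
  · rw [← hy.2.2]
    by_cases ht : |t| < 1
    · rw [card_fr_ex' ht, card_fr_ex' ht, card_fr_lf hσ hθ, card_fr_ex hθ]
    · have ht1 : |t| = 1 := le_antisymm (hy.1 none) (not_lt.mp ht)
      rw [card_fr_ex ht1, card_fr_ex ht1, card_fr_lf hσ hθ, card_fr_ex hθ]

theorem bas_fam_of (hσ : Sgn σ) {t θ : ℝ} {x : Rs σ → ℝ} (hθ : |θ| = 1)
    (hy : Bas (ext v g) (ex t (lf σ θ x))) : Bas (fam v g σ) (ex t (ex θ x)) := by
  refine ⟨fun o => ?_, ?_, ?_⟩
  · rcases o with _ | _ | k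
    · exact hy.1 none
    · exact hθ.le
    · have := hy.1 (some (k : κ))
      rw [ex_some, lf_rs] at this
      exact this
  · rw [sum_fam, ← sum_lf, ← sum_ex (g := g)]; exact hy.2.1
  · rw [← hy.2.2]
    by_cases ht : |t| < 1
    · rw [card_fr_ex' ht, card_fr_ex' ht, card_fr_lf hσ hθ, card_fr_ex hθ]
    · have ht1 : |t| = 1 := le_antisymm (hy.1 none) (not_lt.mp ht)
      rw [card_fr_ex ht1, card_fr_ex ht1, card_fr_lf hσ hθ, card_fr_ex hθ]

/-- A tight label of a point with `t = ±1` is used. -/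
theorem used_of_point [FiniteDimensional ℝ E] (h : St v g m) {t : ℝ} {x : κ → ℝ} (ht : |t| = 1)
    (hy : P0 (ext v g) (ex t x)) {k : κ} (hk : k ∉ fr x) : Used v g k := by
  have key : ∀ x : κ → ℝ, P0 (ext v g) (ex 1 x) → k ∉ fr x → Used v g k := by
    intro x hy hk
    obtain ⟨y', hb, -, hkeep⟩ := h.gp.vtx hy
    have hn : y' none = 1 := by rw [hkeep none (by rw [none_mem_fr]; simp), ex_none]
    obtain ⟨z, rfl⟩ : ∃ z, y' = ex 1 z := ⟨fun k => y' (some k), by rw [← hn, ex_eta]⟩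
    refine ⟨z, (bas_ex z).mp hb, ?_⟩
    have hk' : some k ∉ fr (ex 1 x) := by rw [mem_fr_ex]; exact hk
    have h1 := hkeep _ hk'
    simp only [ex_some] at h1
    rw [mem_fr, h1, ← mem_fr]; exact hk
  rcases eq_or_eq_neg_of_abs_eq ht with rfl | rfl
  · exact key x hy hk
  · refine key (fun i => - x i) ?_ (by rw [fr_neg]; exact hk)
    have e : ex 1 (fun i => - x i) = fun o => - ex (-1) x o := by
      funext o; cases o <;> simp
    rw [e]; exact hy.neg

theorem norm_expand (A B C : E) :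
    ‖A + B + C‖ ^ 2 + ‖-A + B + C‖ ^ 2 + ‖A - B + C‖ ^ 2 + ‖-A - B + C‖ ^ 2
      = 4 * (‖A‖ ^ 2 + ‖B‖ ^ 2 + ‖C‖ ^ 2) := by
  have e1 : -A + B + C = (B + C) - A := by abel
  have e2 : A + B + C = (B + C) + A := by abel
  have e3 : -A - B + C = (C - B) - A := by abel
  have e4 : A - B + C = (C - B) + A := by abel
  rw [e1, e2, e3, e4, norm_add_sq_real, norm_sub_sq_real, norm_add_sq_real (C - B) A,
    norm_sub_sq_real (C - B) A, norm_add_sq_real B C, norm_sub_sq_real C B]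
  rw [real_inner_comm C B]
  ring

/-- The law, type (a). -/
theorem law_a (h : St v g m) (hσ : Sgn σ) (hY : ‖sm v σ‖ ≤ 1) {t θ : ℝ} {x : Rs σ → ℝ}
    (ht : |t| = 1) (hθ : |θ| = 1) (hy : Bas (fam v g σ) (ex t (ex θ x))) :
    ‖t • g + θ • sm v σ + sm v (tg σ x)‖ ^ 2 < 1 := by
  have hl := (gp_fam h hσ hY).law hy
  have h0 : ∑ i ∈ fr (ex t (ex θ x)), (1 - ‖fam v g σ i‖ ^ 2) = 0 := by
    rw [fr_ex ht, fr_ex hθ, Finset.sum_map, Finset.sum_map]
    refine Finset.sum_eq_zero fun k _ => ?_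
    simp only [Function.Embedding.some_apply, fam, ext_some, rsv, h.unit]
    norm_num
  have hc : cc (fam v g σ) (ex t (ex θ x)) = t • g + θ • sm v σ + sm v (tg σ x) := by
    rw [cc, fr_ex ht, fr_ex hθ, Finset.sum_map, Finset.sum_map, sm_tg]
    simp only [Function.Embedding.some_apply, fam, ext_some, ex_some]
    have h1 := hy.2.1
    rw [sum_fam] at h1
    have h2 : t • g + θ • sm v σ = - ∑ k, x k • rsv v σ k :=
      eq_neg_of_add_eq_zero_left (by rw [← h1]; abel)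
    rw [h2]
    abel
  rw [hc, h0] at hl
  linarith

/-- The law, type (b). -/
theorem law_b (h : St v g m) (hσ : Sgn σ) (hY : ‖sm v σ‖ ≤ 1) {t θ : ℝ} {x : Rs σ → ℝ}
    (ht : |t| = 1) (hθ : |θ| < 1) (hy : Bas (fam v g σ) (ex t (ex θ x))) :
    ‖t • g + sm v (tg σ x)‖ ^ 2 < ‖sm v σ‖ ^ 2 := by
  classical
  have hl := (gp_fam h hσ hY).law hy
  have hfr : fr (ex θ x) = insert none ((fr x).map Function.Embedding.some) := by
    ext o
    cases o with
    | none => simp [mem_fr, hθ]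
    | some k => simp [mem_fr]
  have h0 : ∑ i ∈ fr (ex t (ex θ x)), (1 - ‖fam v g σ i‖ ^ 2) = 1 - ‖sm v σ‖ ^ 2 := by
    rw [fr_ex ht, Finset.sum_map, hfr, Finset.sum_insert (by simp), Finset.sum_map]
    simp only [Function.Embedding.some_apply, fam, ext_some, ext_none, rsv, h.unit]
    norm_num
  have hc : cc (fam v g σ) (ex t (ex θ x)) = t • g + sm v (tg σ x) := by
    rw [cc, fr_ex ht, Finset.sum_map, hfr, Finset.sum_insert (by simp), Finset.sum_map, sm_tg]
    simp only [Function.Embedding.some_apply, fam, ext_some, ext_none, ex_some, ex_none]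
    have h1 := hy.2.1
    rw [sum_fam] at h1
    have h2 : t • g = - (θ • sm v σ + ∑ k, x k • rsv v σ k) := eq_neg_of_add_eq_zero_left h1
    rw [h2]
    abel
  rw [hc, h0] at hl
  linarith

/-- The law, type (d). -/
theorem law_d (h : St v g m) (hσ : Sgn σ) (hY : ‖sm v σ‖ ≤ 1) {t θ : ℝ} {x : Rs σ → ℝ}
    (ht : |t| < 1) (hθ : |θ| < 1) (hy : Bas (fam v g σ) (ex t (ex θ x))) :
    ‖sm v (tg σ x)‖ ^ 2 < ‖g‖ ^ 2 + ‖sm v σ‖ ^ 2 - 1 := by
  classical
  have hl := (gp_fam h hσ hY).law hy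
  have hfr : fr (ex θ x) = insert none ((fr x).map Function.Embedding.some) := by
    ext o
    cases o with
    | none => simp [mem_fr, hθ]
    | some k => simp [mem_fr]
  have hfr2 : fr (ex t (ex θ x)) = insert none ((fr (ex θ x)).map Function.Embedding.some) := by
    ext o
    cases o with
    | none => simp [mem_fr, ht]
    | some k => simp [mem_fr]
  have h0 : ∑ i ∈ fr (ex t (ex θ x)), (1 - ‖fam v g σ i‖ ^ 2)
      = (1 - ‖g‖ ^ 2) + (1 - ‖sm v σ‖ ^ 2) := by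
    rw [hfr2, Finset.sum_insert (by simp), Finset.sum_map, hfr, Finset.sum_insert (by simp),
      Finset.sum_map]
    simp only [Function.Embedding.some_apply, fam, ext_some, ext_none, rsv, h.unit]
    norm_num
  have hc : cc (fam v g σ) (ex t (ex θ x)) = sm v (tg σ x) := by
    rw [cc, hfr2, Finset.sum_insert (by simp), Finset.sum_map, hfr, Finset.sum_insert (by simp),
      Finset.sum_map, sm_tg]
    simp only [Function.Embedding.some_apply, fam, ext_some, ext_none, ex_some, ex_none]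
    have h1 := hy.2.1
    rw [sum_fam] at h1
    have h2 : t • g = - (θ • sm v σ + ∑ k, x k • rsv v σ k) := eq_neg_of_add_eq_zero_left h1
    rw [h2]
    abel
  rw [hc, h0] at hl
  linarith

variable [FiniteDimensional ℝ E]

/-- No vertex of type (c). -/
theorem no_c (h : St v g m) (hσ : Sgn σ) {t θ : ℝ} {x : Rs σ → ℝ} (hθ : |θ| = 1)
    (hy : Bas (fam v g σ) (ex t (ex θ x))) : |t| = 1 :=
  h.prism (bas_fam_tight hσ hθ hy)

/-- The tight labels of a vertex with `t = ±1` are used. -/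
theorem used_tg (h : St v g m) (hσ : Sgn σ) {t θ : ℝ} {x : Rs σ → ℝ} (ht : |t| = 1)
    (hy : P0 (fam v g σ) (ex t (ex θ x))) {k : κ} (hk : k ∈ sp (tg σ x)) : Used v g k := by
  have hx : ∀ k, |x k| ≤ 1 := fun k => hy.1 (some (some k))
  obtain ⟨h0, hk'⟩ := mem_tg hx hk
  refine used_of_point h (x := lf σ θ x) ht ⟨fun o => ?_, ?_⟩ ?_
  · cases o with
    | none => exact hy.1 none
    | some k => exact lf_le hσ (hy.1 (some none)) hx k
  · rw [sum_ex, sum_lf, ← sum_fam (g := g)]; exact hy.2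
  · rw [mem_fr, lf_rs θ x ⟨k, h0⟩, ← mem_fr]; exact hk'

omit [FiniteDimensional ℝ E] in
/-- The size of the tight set. -/
theorem size_tg (h : St v g m) {t θ : ℝ} {x : Rs σ → ℝ} (hy : Bas (fam v g σ) (ex t (ex θ x))) :
    (sp (tg σ x)).card + (sp σ).card = m + (if |t| < 1 then 1 else 0) + (if |θ| < 1 then 1 else 0) := by
  have hx : ∀ k, |x k| ≤ 1 := fun k => hy.1 (some (some k))
  have h1 := card_tg (σ := σ) hx
  have h2 := hy.2.2
  rw [h.card] at h1
  have e1 : (fr (ex t (ex θ x))).card = (fr (ex θ x)).card + (if |t| < 1 then 1 else 0) := by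
    by_cases ht : |t| < 1
    · rw [card_fr_ex' ht, if_pos ht]
    · have ht1 : |t| = 1 := le_antisymm (hy.1 none) (not_lt.mp ht)
      rw [card_fr_ex ht1, if_neg ht, add_zero]
  have e2 : (fr (ex θ x)).card = (fr x).card + (if |θ| < 1 then 1 else 0) := by
    by_cases hθ : |θ| < 1
    · rw [card_fr_ex' hθ, if_pos hθ]
    · have ht1 : |θ| = 1 := le_antisymm (hy.1 (some none)) (not_lt.mp hθ)
      rw [card_fr_ex ht1, if_neg hθ, add_zero]
  omega

/-- The flip of `t` at a vertex with `|t| = 1`, if there are no vertices of type (d). -/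
theorem flip_t (h : St v g m) (hσ : Sgn σ) (hY : ‖sm v σ‖ ≤ 1)
    (hd : ∀ t θ (x : Rs σ → ℝ), Bas (fam v g σ) (ex t (ex θ x)) → |t| < 1 → |θ| < 1 → False)
    {t θ : ℝ} {x : Rs σ → ℝ} (ht : |t| = 1) (hy : Bas (fam v g σ) (ex t (ex θ x))) :
    ∃ θ' x', Bas (fam v g σ) (ex (-t) (ex θ' x')) ∧ (|θ'| < 1 ↔ |θ| < 1) ∧
      (|θ| = 1 → θ' = θ) ∧ tg σ x' = tg σ x := by
  classical
  have hG := gp_fam h hσ hY
  have hn : none ∉ fr (ex t (ex θ x)) := by rw [none_mem_fr, ht]; exact lt_irrefl _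
  obtain ⟨y', hy', hk, hne, k0, hk0, hf, hk0j⟩ := hG.piv hy hn
  obtain ⟨t', θ', x', rfl⟩ : ∃ t' θ' x', y' = ex t' (ex θ' x') := ⟨_, _, _, (exx_eta y').symm⟩
  have ht' : |t'| = 1 := by
    by_contra hcon
    have hlt : |t'| < 1 := lt_of_le_of_ne (hy'.1 none) hcon
    by_cases hθ' : |θ'| < 1
    · exact hd t' θ' x' hy' hlt hθ'
    · exact hcon (no_c h hσ (le_antisymm (hy'.1 (some none)) (not_lt.mp hθ')) hy')
  have hnf : none ∉ fr (ex t' (ex θ' x')) := by rw [none_mem_fr, ht']; exact lt_irrefl _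
  have hk00 : k0 = none := by
    by_contra hcon
    apply hnf
    rw [hf, Finset.mem_erase]
    exact ⟨fun h => hcon h.symm, Finset.mem_insert_self _ _⟩
  have hfr : fr (ex t' (ex θ' x')) = fr (ex t (ex θ x)) := by
    rw [hf, hk00, Finset.erase_insert hn]
  have ht'' : t' = -t := by
    have := hk0j hk00
    simpa using this
  subst ht''
  refine ⟨θ', x', hy', ?_, ?_, ?_⟩
  · have h1 : some none ∈ fr (ex (-t) (ex θ' x')) ↔ some none ∈ fr (ex t (ex θ x)) := by rw [hfr]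
    rw [mem_fr_ex, mem_fr_ex, none_mem_fr, none_mem_fr] at h1
    exact h1
  · intro hθ
    have := hk (some none) (by
      rw [Finset.mem_insert, mem_fr_ex, none_mem_fr, hθ]
      simp)
    simpa using this
  · have hfx : fr x' = fr x := by
      ext k
      have h1 : some (some k) ∈ fr (ex (-t) (ex θ' x')) ↔ some (some k) ∈ fr (ex t (ex θ x)) := by
        rw [hfr]
      rw [mem_fr_ex, mem_fr_ex, mem_fr_ex, mem_fr_ex] at h1
      exact h1
    have htx : tx x' = tx x := by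
      funext k
      by_cases hk1 : |x k| < 1
      · have hk2 : |x' k| < 1 := by rw [← mem_fr, hfx, mem_fr]; exact hk1
        rw [tx, tx, if_pos hk1, if_pos hk2]
      · have hk2 : ¬ |x' k| < 1 := by rw [← mem_fr, hfx, mem_fr]; exact hk1
        rw [tx, tx, if_neg hk1, if_neg hk2]
        have := hk (some (some k)) (by
          rw [Finset.mem_insert, mem_fr_ex, mem_fr_ex, mem_fr]
          simp [hk1])
        simpa using this
    rw [tg, tg, htx]

/-- (b'). -/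
theorem law_b' (h : St v g m) (hσ : Sgn σ) (hY : ‖sm v σ‖ ≤ 1)
    (hd : ∀ t θ (x : Rs σ → ℝ), Bas (fam v g σ) (ex t (ex θ x)) → |t| < 1 → |θ| < 1 → False)
    {t θ : ℝ} {x : Rs σ → ℝ} (ht : |t| = 1) (hθ : |θ| < 1)
    (hy : Bas (fam v g σ) (ex t (ex θ x))) :
    ‖g‖ ^ 2 + ‖sm v (tg σ x)‖ ^ 2 < ‖sm v σ‖ ^ 2 := by
  obtain ⟨θ', x', hy', hiff, -, htg⟩ := flip_t h hσ hY hd ht hy
  have h1 := law_b h hσ hY ht hθ hy
  have h2 := law_b h hσ hY (by rw [abs_neg]; exact ht) (hiff.mpr hθ) hy'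
  rw [htg] at h2
  have e1 : ‖t • g + sm v (tg σ x)‖ ^ 2 + ‖(-t) • g + sm v (tg σ x)‖ ^ 2
      = 2 * (‖g‖ ^ 2 + ‖sm v (tg σ x)‖ ^ 2) := by
    rw [norm_add_sq_real, norm_add_sq_real, norm_smul, norm_smul, real_inner_smul_left,
      real_inner_smul_left, Real.norm_eq_abs, Real.norm_eq_abs, abs_neg, ht]
    ring
  linarith

/-- The flip of `θ`, if all vertices are of type (a). -/
theorem flip_θ (h : St v g m) (hσ : Sgn σ) (hY : ‖sm v σ‖ ≤ 1)
    (ha : ∀ t θ (x : Rs σ → ℝ), Bas (fam v g σ) (ex t (ex θ x)) → |t| = 1 ∧ |θ| = 1)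
    {t θ : ℝ} {x : Rs σ → ℝ} (hy : Bas (fam v g σ) (ex t (ex θ x))) :
    ∃ x', Bas (fam v g σ) (ex t (ex (-θ) x')) ∧ tg σ x' = tg σ x := by
  classical
  have hG := gp_fam h hσ hY
  obtain ⟨ht, hθ⟩ := ha _ _ _ hy
  have hn : some none ∉ fr (ex t (ex θ x)) := by
    rw [mem_fr_ex, none_mem_fr, hθ]; exact lt_irrefl _
  obtain ⟨y', hy', hk, hne, k0, hk0, hf, hk0j⟩ := hG.piv hy hn
  obtain ⟨t', θ', x', rfl⟩ : ∃ t' θ' x', y' = ex t' (ex θ' x') := ⟨_, _, _, (exx_eta y').symm⟩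
  obtain ⟨ht', hθ'⟩ := ha _ _ _ hy'
  have hnf : some none ∉ fr (ex t' (ex θ' x')) := by
    rw [mem_fr_ex, none_mem_fr, hθ']; exact lt_irrefl _
  have hk00 : k0 = some none := by
    by_contra hcon
    apply hnf
    rw [hf, Finset.mem_erase]
    exact ⟨fun h => hcon h.symm, Finset.mem_insert_self _ _⟩
  have hfr : fr (ex t' (ex θ' x')) = fr (ex t (ex θ x)) := by
    rw [hf, hk00, Finset.erase_insert hn]
  have hθ'' : θ' = -θ := by
    have := hk0j hk00
    simpa using this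
  have ht'' : t' = t := by
    have := hk none (by
      rw [Finset.mem_insert, none_mem_fr, ht]
      simp)
    simpa using this
  subst hθ''
  subst ht''
  refine ⟨x', hy', ?_⟩
  have hfx : fr x' = fr x := by
    ext k
    have h1 : some (some k) ∈ fr (ex t' (ex (-θ) x')) ↔ some (some k) ∈ fr (ex t' (ex θ x)) := by
      rw [hfr]
    rw [mem_fr_ex, mem_fr_ex, mem_fr_ex, mem_fr_ex] at h1
    exact h1
  have htx : tx x' = tx x := by
    funext k
    by_cases hk1 : |x k| < 1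
    · have hk2 : |x' k| < 1 := by rw [← mem_fr, hfx, mem_fr]; exact hk1
      rw [tx, tx, if_pos hk1, if_pos hk2]
    · have hk2 : ¬ |x' k| < 1 := by rw [← mem_fr, hfx, mem_fr]; exact hk1
      rw [tx, tx, if_neg hk1, if_neg hk2]
      have := hk (some (some k)) (by
        rw [Finset.mem_insert, mem_fr_ex, mem_fr_ex, mem_fr]
        simp [hk1])
      simpa using this
  rw [tg, tg, htx]

/-- All four flips, if all vertices are of type (a). -/
theorem flips (h : St v g m) (hσ : Sgn σ) (hY : ‖sm v σ‖ ≤ 1)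
    (ha : ∀ t θ (x : Rs σ → ℝ), Bas (fam v g σ) (ex t (ex θ x)) → |t| = 1 ∧ |θ| = 1)
    {t θ : ℝ} {x : Rs σ → ℝ} (hy : Bas (fam v g σ) (ex t (ex θ x))) {s s' : ℝ}
    (hs : s = 1 ∨ s = -1) (hs' : s' = 1 ∨ s' = -1) :
    ∃ x', Bas (fam v g σ) (ex s (ex s' x')) ∧ tg σ x' = tg σ x := by
  have hd : ∀ t θ (x : Rs σ → ℝ), Bas (fam v g σ) (ex t (ex θ x)) → |t| < 1 → |θ| < 1 → False :=
    fun t θ x hb h1 _ => absurd (ha t θ x hb).1 h1.ne
  have f1 : ∀ {t θ : ℝ} {x : Rs σ → ℝ}, Bas (fam v g σ) (ex t (ex θ x)) →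
      ∃ x', Bas (fam v g σ) (ex (-t) (ex θ x')) ∧ tg σ x' = tg σ x := by
    intro t θ x hy
    obtain ⟨θ', x', h1, -, h3, h4⟩ := flip_t h hσ hY hd (ha _ _ _ hy).1 hy
    rw [h3 (ha _ _ _ hy).2] at h1
    exact ⟨x', h1, h4⟩
  obtain ⟨ht, hθ⟩ := ha _ _ _ hy
  -- first t
  obtain ⟨x1, h1, e1⟩ : ∃ x', Bas (fam v g σ) (ex s (ex θ x')) ∧ tg σ x' = tg σ x := by
    rcases eq_or_eq_neg_of_abs_eq ht with h2 | h2 <;> rcases hs with h3 | h3
    · exact ⟨x, by rw [h3, ← h2]; exact hy, rfl⟩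
    · obtain ⟨x', h4, h5⟩ := f1 hy
      exact ⟨x', by rw [h3, ← h2]; exact h4, h5⟩
    · obtain ⟨x', h4, h5⟩ := f1 hy
      exact ⟨x', by rw [h3, show (1 : ℝ) = - t by rw [h2, neg_neg]]; exact h4, h5⟩
    · exact ⟨x, by rw [h3, ← h2]; exact hy, rfl⟩
  rcases eq_or_eq_neg_of_abs_eq hθ with h2 | h2 <;> rcases hs' with h3 | h3
  · exact ⟨x1, by rw [h3, ← h2]; exact h1, e1⟩
  · obtain ⟨x', h4, h5⟩ := flip_θ h hσ hY ha h1
    exact ⟨x', by rw [h3, ← h2]; exact h4, h5.trans e1⟩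
  · obtain ⟨x', h4, h5⟩ := flip_θ h hσ hY ha h1
    exact ⟨x', by rw [h3, show (1 : ℝ) = - θ by rw [h2, neg_neg]]; exact h4, h5.trans e1⟩
  · exact ⟨x1, by rw [h3, ← h2]; exact h1, e1⟩

/-- The averaged law (a). -/
theorem law_a' (h : St v g m) (hσ : Sgn σ) (hY : ‖sm v σ‖ ≤ 1)
    (ha : ∀ t θ (x : Rs σ → ℝ), Bas (fam v g σ) (ex t (ex θ x)) → |t| = 1 ∧ |θ| = 1)
    {t θ : ℝ} {x : Rs σ → ℝ} (hy : Bas (fam v g σ) (ex t (ex θ x))) :
    ‖g‖ ^ 2 + ‖sm v σ‖ ^ 2 + ‖sm v (tg σ x)‖ ^ 2 < 1 := by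
  have key : ∀ s s' : ℝ, (s = 1 ∨ s = -1) → (s' = 1 ∨ s' = -1) →
      ‖s • g + s' • sm v σ + sm v (tg σ x)‖ ^ 2 < 1 := by
    intro s s' hs hs'
    obtain ⟨x', h1, h2⟩ := flips h hσ hY ha hy hs hs'
    have h3 := law_a h hσ hY (ha _ _ _ h1).1 (ha _ _ _ h1).2 h1
    rw [h2] at h3
    exact h3
  have h1 := key 1 1 (Or.inl rfl) (Or.inl rfl)
  have h2 := key (-1) 1 (Or.inr rfl) (Or.inl rfl)
  have h3 := key 1 (-1) (Or.inl rfl) (Or.inr rfl)
  have h4 := key (-1) (-1) (Or.inr rfl) (Or.inr rfl)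
  have e := norm_expand g (sm v σ) (sm v (tg σ x))
  simp only [one_smul, neg_smul, ← sub_eq_add_neg] at h1 h2 h3 h4
  linarith

/-- The smaller state. -/
theorem new_state (h : St v g m) (hσ : Sgn σ) (hY : ‖sm v σ‖ ≤ 1) (hc : (sp σ).card ≤ m)
    (ha : ∀ t θ (x : Rs σ → ℝ), Bas (fam v g σ) (ex t (ex θ x)) → |t| = 1 ∧ |θ| = 1) :
    St (rsv v σ) (g + sm v σ) (m - (sp σ).card) where
  unit := fun k => h.unit k
  card := by
    have h1 := card_rs σ
    rw [h.card] at h1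
    omega
  bad := fun η hη => by
    have h1 := h.bad (lf σ 1 η) fun k => by
      by_cases h0 : σ k = 0
      · rw [lf_rs _ _ ⟨k, h0⟩]; exact hη _
      · rw [lf_sp _ _ h0, one_mul]
        rcases hσ k with h2 | h2 | h2
        · exact absurd h2 h0
        · exact Or.inl h2
        · exact Or.inr h2
    rw [sum_lf, one_smul, ← add_assoc] at h1
    exact h1
  ne := by
    have hG := gp_fam h hσ hY
    obtain ⟨y, hy, -⟩ := hG.vtx (y := fun _ => 0) ⟨by simp, by simp⟩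
    obtain ⟨t, θ, x, rfl⟩ : ∃ t θ x, y = ex t (ex θ x) := ⟨_, _, _, (exx_eta y).symm⟩
    obtain ⟨x', h1, -⟩ := flips h hσ hY ha hy (Or.inl rfl) (Or.inl rfl)
    refine ⟨x', ⟨fun k => h1.1 (some (some k)), ?_⟩, ?_⟩
    · have := h1.2.1
      rw [sum_fam, one_smul, one_smul, ← add_assoc] at this
      exact this
    · have := h1.2.2
      rw [card_fr_ex (by simp), card_fr_ex (by simp)] at this
      exact this
  cs := fun x hx => by
    have hB : Bas (fam v g σ) (ex 1 (ex 1 x)) := by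
      refine ⟨fun o => ?_, ?_, ?_⟩
      · rcases o with _ | _ | k
        · simp
        · simp
        · exact hx.1.1 k
      · rw [sum_fam, one_smul, one_smul, ← add_assoc]; exact hx.1.2
      · rw [card_fr_ex (by simp), card_fr_ex (by simp)]; exact hx.2
    obtain ⟨x', h1, h2⟩ := flips h hσ hY ha hB (Or.inr rfl) (Or.inr rfl)
    refine ⟨fun k => - x' k, ⟨⟨fun k => ?_, ?_⟩, ?_⟩, fun i hi => ?_⟩
    · rw [abs_neg]; exact h1.1 (some (some k))
    · have := h1.2.1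
      rw [sum_fam] at this
      have e : g + sm v σ + ∑ i, (- x' i) • rsv v σ i
          = -((-1 : ℝ) • g + ((-1 : ℝ) • sm v σ + ∑ i, x' i • rsv v σ i)) := by
        simp only [neg_smul, one_smul, Finset.sum_neg_distrib]
        abel
      rw [e, this, neg_zero]
    · rw [fr_neg]
      have := h1.2.2
      rw [card_fr_ex (by simp), card_fr_ex (by simp)] at this
      exact this
    · have h3 := congrFun h2 i
      rw [tg, tg, lf_rs, lf_rs, tx, tx] at h3
      rw [mem_fr] at hi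
      rw [if_neg hi] at h3
      by_cases hi' : |x' i| < 1
      · rw [if_pos hi'] at h3
        rw [← h3, abs_zero] at hi
        norm_num at hi
      · rw [if_neg hi'] at h3
        simp only [h3]

end

end Pool.Agent.Lib.MP_1be6c9_co.Fc
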