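import Pool.Agent.Lib.MP_1be6c9_co.Fc.St3Geo

/-!
States of dimension three: corner lemma.
-/

namespace Pool.Agent.Lib.MP_1be6c9_co.Fc

open Finset Pool.Agent.Lib.MP_1be6c9_co
open Pool.Agent.Lib.MP_1be6c9_co.M3 (SL ng sg co uv ng_fst ng_ng ng_ne ng_inj eq_or_ng sg_mul_self
  sg_eq sg_not co_ng co_neg abs_co sg_mul_co uv_ng norm_uv co_smul_uv abs_eq_one_of_co co_le_one
  co_lin)

variable {κ E : Type*} [Fintype κ] [DecidableEq κ] [NormedAddCommGroup E] [InnerProductSpace ℝ E]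
  [FiniteDimensional ℝ E] {v : κ → E} {g : E}

private theorem corner_norm (p q r : E) (hp : ‖p‖ = 1) (hq : ‖q‖ = 1) (hr : ‖r‖ = 1)
    (α β γ : ℝ) :
    ‖α • p + β • q + γ • r‖ ^ 2 = α ^ 2 + β ^ 2 + γ ^ 2 + 2 * (α * β * inner ℝ p q)
      + 2 * (α * γ * inner ℝ p r) + 2 * (β * γ * inner ℝ q r) := by
  rw [norm_add_sq_real, norm_add_sq_real]
  simp only [norm_smul, mul_pow, Real.norm_eq_abs, sq_abs, hp, hq, hr, inner_add_left,
    inner_smul_left, inner_smul_right]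
  simp
  ring

private theorem corner_sign (t : ℝ) : ∃ σ : ℝ, (σ = 1 ∨ σ = -1) ∧ t = σ * |t| := by
  rcases abs_cases t with ⟨h, _⟩ | ⟨h, _⟩
  · exact ⟨1, Or.inl rfl, by rw [h]; ring⟩
  · exact ⟨-1, Or.inr rfl, by rw [h]; ring⟩

private theorem corner_step (h : St v g 3) {x : κ → ℝ} {a b c : SL κ} (hx : IsW v g x a b c) (i j k : κ)
    (hij : i ≠ j) (hik : i ≠ k) (hjk : j ≠ k)
    (hi : i ≠ a.1 ∧ i ≠ b.1 ∧ i ≠ c.1) (hj : j ≠ a.1 ∧ j ≠ b.1 ∧ j ≠ c.1)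
    (hk : k ≠ a.1 ∧ k ≠ b.1 ∧ k ≠ c.1) (e1 e2 e3 : ℝ) (h1 : e1 = 1 ∨ e1 = -1)
    (h2 : e2 = 1 ∨ e2 = -1) (h3 : e3 = 1 ∨ e3 = -1) :
    2 < ‖(e1 - x i) • v i + (e2 - x j) • v j + (e3 - x k) • v k‖ ^ 2 := by
  obtain ⟨hle, h0, hab, hac, hbc, ha, hb, hc⟩ := hx
  obtain ⟨x', hx'⟩ : ∃ x' : κ → ℝ, x' = fun l =>
    x l + ((if l = i then e1 - x i else 0) + (if l = j then e2 - x j else 0)
      + (if l = k then e3 - x k else 0)) := ⟨_, rfl⟩
  have hxi : x' i = e1 := by simp [hx', hij, hik]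
  have hxj : x' j = e2 := by simp [hx', hij.symm, hjk]
  have hxk : x' k = e3 := by simp [hx', hik.symm, hjk.symm]
  have hxl : ∀ l, l ≠ i → l ≠ j → l ≠ k → x' l = x l := by
    intro l hl1 hl2 hl3
    simp [hx', hl1, hl2, hl3]
  have hx1 : ∀ l, |x' l| ≤ 1 := by
    intro l
    by_cases g1 : l = i
    · rw [g1, hxi]; rcases h1 with g | g <;> simp [g]
    by_cases g2 : l = j
    · rw [g2, hxj]; rcases h2 with g | g <;> simp [g]
    by_cases g3 : l = k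
    · rw [g3, hxk]; rcases h3 with g | g <;> simp [g]
    rw [hxl l g1 g2 g3]
    exact hle l
  obtain ⟨η, hη, hr⟩ := rounding_aux v x' hx1 Finset.univ g
  have hL := h.bad η hη
  have hsum : g + ∑ l, x' l • v l = (e1 - x i) • v i + (e2 - x j) • v j + (e3 - x k) • v k := by
    rw [hx']
    simp only [add_smul, Finset.sum_add_distrib, ite_smul, zero_smul, Finset.sum_ite_eq',
      Finset.mem_univ, if_true]
    rw [← add_assoc, h0, zero_add]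
  rw [hsum] at hr
  -- the six special labels
  have hsq : ∀ y : SL κ, co x y = 1 → x y.1 ^ 2 = 1 := by
    intro y hy
    have := abs_co x y
    rw [hy, abs_one] at this
    rw [← sq_abs, ← this]
    norm_num
  obtain ⟨S, hS⟩ : ∃ S : Finset κ, S = {i, j, k, a.1, b.1, c.1} := ⟨_, rfl⟩
  have hScard : S.card = 6 := by
    rw [hS, Finset.card_insert_of_notMem, Finset.card_insert_of_notMem,
      Finset.card_insert_of_notMem, Finset.card_insert_of_notMem, Finset.card_insert_of_notMem,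
      Finset.card_singleton]
    · simpa using hbc
    · simp only [Finset.mem_insert, Finset.mem_singleton, not_or]
      exact ⟨hab, hac⟩
    · simp only [Finset.mem_insert, Finset.mem_singleton, not_or]
      exact hk
    · simp only [Finset.mem_insert, Finset.mem_singleton, not_or]
      exact ⟨hjk, hj⟩
    · simp only [Finset.mem_insert, Finset.mem_singleton, not_or]
      exact ⟨hij, hik, hi⟩
  have hterm : ∀ l ∈ S, (1 - x' l ^ 2) * ‖v l‖ ^ 2 = 0 := by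
    intro l hl
    have : x' l ^ 2 = 1 := by
      rw [hS] at hl
      simp only [Finset.mem_insert, Finset.mem_singleton] at hl
      rcases hl with g | g | g | g | g | g
      · rw [g, hxi]; rcases h1 with g | g <;> simp [g]
      · rw [g, hxj]; rcases h2 with g | g <;> simp [g]
      · rw [g, hxk]; rcases h3 with g | g <;> simp [g]
      · rw [g, hxl _ hi.1.symm hj.1.symm hk.1.symm]; exact hsq a ha
      · rw [g, hxl _ hi.2.1.symm hj.2.1.symm hk.2.1.symm]; exact hsq b hb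
      · rw [g, hxl _ hi.2.2.symm hj.2.2.symm hk.2.2.symm]; exact hsq c hc
    rw [this]; ring
  have hcard : ((Sᶜ).card : ℝ) = (Module.finrank ℝ E : ℝ) - 3 := by
    have g1 := Finset.card_add_card_compl S
    rw [hScard, h.card] at g1
    have g2 : (6 : ℝ) + ((Sᶜ).card : ℝ) = (Module.finrank ℝ E : ℝ) + 3 := by exact_mod_cast g1
    linarith
  have hQ : ∑ l, (1 - x' l ^ 2) * ‖v l‖ ^ 2 ≤ (Module.finrank ℝ E : ℝ) - 3 := by
    rw [← Finset.sum_add_sum_compl S, Finset.sum_eq_zero hterm, zero_add, ← hcard]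
    calc ∑ l ∈ Sᶜ, (1 - x' l ^ 2) * ‖v l‖ ^ 2 ≤ ∑ l ∈ Sᶜ, (1 : ℝ) := by
          refine Finset.sum_le_sum fun l _ => ?_
          rw [h.unit l]
          nlinarith [sq_nonneg (x' l)]
      _ = ((Sᶜ).card : ℝ) := by simp
  linarith

/-- Corner lemma: three free coordinates of a vertex have sum of absolute values `< 1`.
Law (signs `σ_i = sgn x_i` on `A = {i,j,k}`): `ε_A = σ` with probability `(1+s)/4`,
`ε_A = σ` with only `i` flipped with probability `(1-|x_i|)/4`; the other free coordinates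
by `rounding` applied to the point with `x_A` replaced by `ε_A`. -/
theorem cornerW (h : St v g 3) {x : κ → ℝ} {a b c : SL κ} (hx : IsW v g x a b c) (i j k : κ)
    (hij : i ≠ j) (hik : i ≠ k) (hjk : j ≠ k)
    (hi : i ≠ a.1 ∧ i ≠ b.1 ∧ i ≠ c.1) (hj : j ≠ a.1 ∧ j ≠ b.1 ∧ j ≠ c.1)
    (hk : k ≠ a.1 ∧ k ≠ b.1 ∧ k ≠ c.1) : |x i| + |x j| + |x k| < 1 := by
  have hstep := corner_step h hx i j k hij hik hjk hi hj hk
  obtain ⟨σ₁, hσ₁, hx₁⟩ := corner_sign (x i)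
  obtain ⟨σ₂, hσ₂, hx₂⟩ := corner_sign (x j)
  obtain ⟨σ₃, hσ₃, hx₃⟩ := corner_sign (x k)
  have hneg : ∀ σ : ℝ, (σ = 1 ∨ σ = -1) → (-σ = 1 ∨ -σ = -1) := by
    rintro σ (g | g)
    · right; rw [g]
    · left; rw [g]; norm_num
  have hsq : ∀ σ : ℝ, (σ = 1 ∨ σ = -1) → σ ^ 2 = 1 := by
    rintro σ (g | g) <;> rw [g] <;> norm_num
  have s0 := hstep σ₁ σ₂ σ₃ hσ₁ hσ₂ hσ₃
  have s1 := hstep (-σ₁) σ₂ σ₃ (hneg _ hσ₁) hσ₂ hσ₃
  have s2 := hstep σ₁ (-σ₂) σ₃ hσ₁ (hneg _ hσ₂) hσ₃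
  have s3 := hstep σ₁ σ₂ (-σ₃) hσ₁ hσ₂ (hneg _ hσ₃)
  have q1 := hsq _ hσ₁
  have q2 := hsq _ hσ₂
  have q3 := hsq _ hσ₃
  rw [corner_norm _ _ _ (h.unit i) (h.unit j) (h.unit k)] at s0 s1 s2 s3
  have b1 := hx.1 i
  have b2 := hx.1 j
  have b3 := hx.1 k
  have p1 := abs_nonneg (x i)
  have p2 := abs_nonneg (x j)
  have p3 := abs_nonneg (x k)
  obtain ⟨t₁, ht₁⟩ : ∃ t, t = |x i| := ⟨_, rfl⟩
  obtain ⟨t₂, ht₂⟩ : ∃ t, t = |x j| := ⟨_, rfl⟩
  obtain ⟨t₃, ht₃⟩ : ∃ t, t = |x k| := ⟨_, rfl⟩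
  rw [← ht₁] at hx₁ b1 p1 ⊢
  rw [← ht₂] at hx₂ b2 p2 ⊢
  rw [← ht₃] at hx₃ b3 p3 ⊢
  rw [hx₁, hx₂, hx₃] at s0 s1 s2 s3
  obtain ⟨P, hP⟩ : ∃ P : ℝ, P = inner ℝ (v i) (v j) := ⟨_, rfl⟩
  obtain ⟨Q, hQ⟩ : ∃ Q : ℝ, Q = inner ℝ (v i) (v k) := ⟨_, rfl⟩
  obtain ⟨R, hR⟩ : ∃ R : ℝ, R = inner ℝ (v j) (v k) := ⟨_, rfl⟩
  rw [← hP, ← hQ, ← hR] at s0 s1 s2 s3
  have w0 : 0 < (1 + (t₁ + t₂ + t₃)) / 4 := by positivity
  have w1 : 0 ≤ (1 - t₁) / 4 := by linarith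
  have w2 : 0 ≤ (1 - t₂) / 4 := by linarith
  have w3 : 0 ≤ (1 - t₃) / 4 := by linarith
  have m0 := mul_lt_mul_of_pos_left s0 w0
  have m1 := mul_le_mul_of_nonneg_left s1.le w1
  have m2 := mul_le_mul_of_nonneg_left s2.le w2
  have m3 := mul_le_mul_of_nonneg_left s3.le w3
  rcases hσ₁ with g1 | g1 <;> rcases hσ₂ with g2 | g2 <;> rcases hσ₃ with g3 | g3 <;>
    subst g1 g2 g3 <;> linarith [m0, m1, m2, m3]

end Pool.Agent.Lib.MP_1be6c9_co.Fc
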