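import Pool.Agent.Lib.MP_1be6c9_co.Fc.Defs
import Pool.Agent.Lib.MP_1be6c9_co.M3.GeoA

/-!
Centrally symmetric states of dimension three (M3/* with an offset): vertices, directions and rays.
-/

namespace Pool.Agent.Lib.MP_1be6c9_co.Fc

open Finset Pool.Agent.Lib.MP_1be6c9_co
open Pool.Agent.Lib.MP_1be6c9_co.M3 (SL ng sg co uv ng_fst ng_ng ng_ne ng_inj eq_or_ng sg_mul_self
  sg_eq sg_not co_ng co_neg abs_co sg_mul_co uv_ng norm_uv co_smul_uv abs_eq_one_of_co co_le_one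
  co_lin)

/-- `x` is a vertex with offset `g` and tight signed labels `a`, `b`, `c`. -/
def IsW {κ E : Type*} [Fintype κ] [NormedAddCommGroup E] [InnerProductSpace ℝ E]
    (v : κ → E) (g : E) (x : κ → ℝ) (a b c : SL κ) : Prop :=
  (∀ i, |x i| ≤ 1) ∧ g + ∑ i, x i • v i = 0 ∧ a.1 ≠ b.1 ∧ a.1 ≠ c.1 ∧ b.1 ≠ c.1 ∧
    co x a = 1 ∧ co x b = 1 ∧ co x c = 1

/-- The signed triple `a b c` is a vertex. -/
def TriW {κ E : Type*} [Fintype κ] [NormedAddCommGroup E] [InnerProductSpace ℝ E]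
    (v : κ → E) (g : E) (a b c : SL κ) : Prop := ∃ x, IsW v g x a b c

variable {κ E : Type*} [Fintype κ] [DecidableEq κ] [NormedAddCommGroup E] [InnerProductSpace ℝ E]
  [FiniteDimensional ℝ E] {v : κ → E} {g : E}

omit [DecidableEq κ] [FiniteDimensional ℝ E] in
theorem st_round {m : ℕ} (h : St v g m) (x : κ → ℝ) (hx : ∀ i, |x i| ≤ 1)
    (h0 : g + ∑ i, x i • v i = 0) :
    (Module.finrank ℝ E : ℝ) - 1 < ∑ i ∈ fr x, (1 - x i ^ 2) := by
  classical
  obtain ⟨η, hη, hle⟩ := rounding_aux v x hx Finset.univ g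
  have h1 := h.bad η hη
  rw [h0, norm_zero] at hle
  have h2 : ∑ i, (1 - x i ^ 2) * ‖v i‖ ^ 2 = ∑ i ∈ fr x, (1 - x i ^ 2) := by
    symm
    have : ∑ i ∈ fr x, (1 - x i ^ 2) = ∑ i ∈ fr x, (1 - x i ^ 2) * ‖v i‖ ^ 2 := by
      refine Finset.sum_congr rfl fun i _ => ?_
      rw [h.unit i]; ring
    rw [this]
    apply Finset.sum_subset (Finset.subset_univ _)
    intro i _ hi
    rcases (not_mem_fr x hx i).mp hi with h | h <;> simp [h]
  rw [h2] at hle
  have h5 : (0 : ℝ) ^ 2 = 0 := by norm_num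
  rw [h5, zero_add] at hle
  exact lt_of_lt_of_le h1 hle

omit [DecidableEq κ] [FiniteDimensional ℝ E] in
theorem st_card {m : ℕ} (h : St v g m) (x : κ → ℝ) (hx : ∀ i, |x i| ≤ 1)
    (h0 : g + ∑ i, x i • v i = 0) : Module.finrank ℝ E ≤ (fr x).card := by
  have h1 := st_round h x hx h0
  have h2 : ∑ i ∈ fr x, (1 - x i ^ 2) ≤ ((fr x).card : ℝ) := by
    have : ∑ i ∈ fr x, (1 - x i ^ 2) ≤ ∑ i ∈ fr x, (1 : ℝ) :=
      Finset.sum_le_sum fun i _ => by nlinarith [sq_nonneg (x i)]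
    rw [Finset.sum_const, nsmul_eq_mul, mul_one] at this
    exact this
  by_contra hcon
  push Not at hcon
  have h3 : ((fr x).card : ℝ) + 1 ≤ Module.finrank ℝ E := by exact_mod_cast hcon
  linarith

omit [DecidableEq κ] [FiniteDimensional ℝ E] in
theorem st_indep {m : ℕ} (h : St v g m) (x : κ → ℝ) (hx : Vx v g x) :
    LinearIndepOn ℝ v (fr x : Set κ) := by
  classical
  by_contra hdep
  rw [linearIndepOn_finset_iff] at hdep
  push Not at hdep
  obtain ⟨f, hf, i1, hi1, hfi1⟩ := hdep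
  set z : κ → ℝ := fun i => if i ∈ fr x then f i else 0 with hz
  have hzsum : ∑ i, z i • v i = 0 := by
    rw [← hf]
    simp only [hz, ite_smul, zero_smul]
    rw [Finset.sum_ite_mem, Finset.univ_inter]
  have hz1 : ∀ i, x i = 1 → z i ≤ 0 := by
    intro i hi
    have : i ∉ fr x := (not_mem_fr x hx.1.1 i).mpr (Or.inl hi)
    simp [hz, this]
  have hz2 : ∀ i, x i = -1 → 0 ≤ z i := by
    intro i hi
    have : i ∉ fr x := (not_mem_fr x hx.1.1 i).mpr (Or.inr hi)
    simp [hz, this]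
  obtain ⟨t, ht, hc, j, hj, hj2⟩ := move x z hx.1.1 hz1 hz2 ⟨i1, by simp [hz, hi1, hfi1]⟩
  have h2 : g + ∑ i, (x i + t * z i) • v i = 0 := by
    simp only [add_smul, mul_smul, Finset.sum_add_distrib, ← Finset.smul_sum, hzsum, smul_zero,
      add_zero]
    exact hx.1.2
  have h3 : fr (fun i => x i + t * z i) ⊂ fr x := by
    rw [Finset.ssubset_iff_of_subset]
    · have hjx : j ∈ fr x := by
        by_contra hcon
        exact hj (by simp [hz, hcon])
      refine ⟨j, hjx, ?_⟩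
      rw [mem_fr, not_lt]
      rcases hj2 with ⟨_, h⟩ | ⟨_, h⟩ <;> rw [h] <;> simp
    · intro i hi
      by_contra hcon
      rw [mem_fr] at hi hcon
      have : z i = 0 := by simp [hz, mem_fr, hcon]
      rw [this] at hi
      simp at hi
      exact hcon hi
  have h4 := st_card h _ hc h2
  have h5 := Finset.card_lt_card h3
  rw [hx.2] at h5
  omega

theorem isW_fr (h : St v g 3) {x : κ → ℝ} {a b c : SL κ} (hx : IsW v g x a b c) :
    fr x = Finset.univ \ {a.1, b.1, c.1} ∧ (fr x).card = Module.finrank ℝ E := by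
  obtain ⟨h1, h2, hab, hac, hbc, ha, hb, hc⟩ := hx
  have hcard : (Finset.univ \ ({a.1, b.1, c.1} : Finset κ)).card = Module.finrank ℝ E := by
    rw [Finset.card_sdiff_of_subset (Finset.subset_univ _), Finset.card_univ, h.card,
      Finset.card_eq_three.mpr ⟨a.1, b.1, c.1, hab, hac, hbc, rfl⟩]
    omega
  have hle := st_card h x h1 h2
  have hsub : fr x ⊆ Finset.univ \ ({a.1, b.1, c.1} : Finset κ) := by
    intro i hi
    rw [mem_fr] at hi
    simp only [Finset.mem_sdiff, Finset.mem_univ, true_and, Finset.mem_insert,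
      Finset.mem_singleton, not_or]
    refine ⟨?_, ?_, ?_⟩
    · rintro rfl; rw [abs_eq_one_of_co ha] at hi; exact lt_irrefl _ hi
    · rintro rfl; rw [abs_eq_one_of_co hb] at hi; exact lt_irrefl _ hi
    · rintro rfl; rw [abs_eq_one_of_co hc] at hi; exact lt_irrefl _ hi
  have heq : fr x = Finset.univ \ ({a.1, b.1, c.1} : Finset κ) :=
    Finset.eq_of_subset_of_card_le hsub (by rw [hcard]; exact hle)
  exact ⟨heq, by rw [heq, hcard]⟩

/-- All other coordinates of a vertex are free. -/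
theorem isW_free (h : St v g 3) {x : κ → ℝ} {a b c : SL κ} (hx : IsW v g x a b c) (i : κ)
    (ha : i ≠ a.1) (hb : i ≠ b.1) (hc : i ≠ c.1) : |x i| < 1 := by
  rw [← mem_fr, (isW_fr h hx).1]
  simp [ha, hb, hc]

theorem isW_indep (h : St v g 3) {x : κ → ℝ} {a b c : SL κ} (hx : IsW v g x a b c) :
    LinearIndepOn ℝ v (fr x : Set κ) :=
  st_indep h x ⟨⟨hx.1, hx.2.1⟩, (isW_fr h hx).2⟩

/-- A relation vanishing at three tight coordinates is zero. -/
theorem isW_inj (h : St v g 3) {x : κ → ℝ} {a b c : SL κ} (hx : IsW v g x a b c) (z : κ → ℝ)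
    (hz : ∑ i, z i • v i = 0) (ha : z a.1 = 0) (hb : z b.1 = 0) (hc : z c.1 = 0) : z = 0 := by
  have hi := isW_indep h hx
  rw [linearIndepOn_finset_iff] at hi
  have hout : ∀ i, i ∉ fr x → z i = 0 := by
    intro i hi
    rw [(isW_fr h hx).1] at hi
    simp only [Finset.mem_sdiff, Finset.mem_univ, true_and, Finset.mem_insert,
      Finset.mem_singleton, not_not] at hi
    rcases hi with rfl | rfl | rfl
    · exact ha
    · exact hb
    · exact hc
  have hsum : ∑ i ∈ fr x, z i • v i = 0 := by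
    rw [← hz]
    refine Finset.sum_subset (Finset.subset_univ _) fun i _ hi => ?_
    rw [hout i hi, zero_smul]
  funext i
  by_cases hm : i ∈ fr x
  · exact hi z hsum i hm
  · exact hout i hm

theorem isW_unique (h : St v g 3) {x y : κ → ℝ} {a b c : SL κ} (hx : IsW v g x a b c)
    (hy : IsW v g y a b c) : x = y := by
  have e : ∀ d : SL κ, co x d = 1 → co y d = 1 → x d.1 - y d.1 = 0 := by
    intro d h1 h2
    rw [← sg_mul_co x d, ← sg_mul_co y d, h1, h2]; ring
  have := isW_inj h hx (fun i => x i - y i)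
    (by
      have e1 : g + ∑ i, x i • v i = g + ∑ i, y i • v i := by rw [hx.2.1, hy.2.1]
      simp only [sub_smul, Finset.sum_sub_distrib, add_left_cancel e1, sub_self])
    (e a hx.2.2.2.2.2.1 hy.2.2.2.2.2.1) (e b hx.2.2.2.2.2.2.1 hy.2.2.2.2.2.2.1)
    (e c hx.2.2.2.2.2.2.2 hy.2.2.2.2.2.2.2)
  funext i
  have := congrFun this i
  simp only [Pi.zero_apply] at this
  linarith

/-- Edge directions. -/
theorem exists_dirW (h : St v g 3) {x : κ → ℝ} {a b c : SL κ} (hx : IsW v g x a b c) :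
    ∃ z : κ → ℝ, ∑ i, z i • v i = 0 ∧ z a.1 = 0 ∧ z b.1 = 0 ∧ co z c = -1 := by
  obtain ⟨hfr, hcard⟩ := isW_fr h hx
  have hi := isW_indep h hx
  obtain ⟨h1, h2, hab, hac, hbc, ha, hb, hc⟩ := hx
  have hli : LinearIndependent ℝ (fun i : fr x => v i) := hi
  have hsp := hli.span_eq_top_of_card_eq_finrank' (by simpa using hcard)
  have hmem : uv v c ∈ Submodule.span ℝ (Set.range (fun i : fr x => v i)) := by
    rw [hsp]; trivial
  rw [Submodule.mem_span_range_iff_exists_fun] at hmem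
  obtain ⟨f, hf⟩ := hmem
  set g0 : κ → ℝ := fun i => if hi : i ∈ fr x then f ⟨i, hi⟩ else 0 with hg
  have hgs : ∑ i ∈ fr x, g0 i • v i = uv v c := by
    rw [← hf, ← Finset.sum_coe_sort]
    refine Finset.sum_congr rfl fun i _ => ?_
    simp [hg]
  have na : a.1 ∉ fr x := by rw [hfr]; simp
  have nb : b.1 ∉ fr x := by rw [hfr]; simp
  have nc : c.1 ∉ fr x := by rw [hfr]; simp
  refine ⟨fun i => g0 i - (if i = c.1 then sg c.2 else 0), ?_, ?_, ?_, ?_⟩
  · have e1 : ∑ i, g0 i • v i = uv v c := by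
      rw [← hgs]
      symm
      refine Finset.sum_subset (Finset.subset_univ _) fun i _ hi => ?_
      simp only [hg, dif_neg hi, zero_smul]
    have e2 : ∑ i, (if i = c.1 then sg c.2 else 0) • v i = uv v c := by
      simp [uv, ite_smul]
    simp only [sub_smul, Finset.sum_sub_distrib, e1, e2, sub_self]
  · simp only [hg, dif_neg na, if_neg hac, sub_self]
  · simp only [hg, dif_neg nb, if_neg hbc, sub_self]
  · simp only [co, hg, dif_neg nc, if_true, zero_sub, mul_neg, sg_mul_self]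

/-- Moving along an edge leads to another vertex. -/
theorem rayW (h : St v g 3) {x : κ → ℝ} {a b c : SL κ} (hx : IsW v g x a b c) (z : κ → ℝ)
    (hz : ∑ i, z i • v i = 0) (ha : z a.1 = 0) (hb : z b.1 = 0) (hc : co z c = -1) :
    ∃ t : ℝ, 0 < t ∧ ∃ c', c' ≠ c ∧ IsW v g (fun i => x i + t * z i) a b c' := by
  have hfree := isW_free h hx
  obtain ⟨h1, h2, hab, hac, hbc, hxa, hxb, hxc⟩ := hx
  have hzc : z c.1 = - x c.1 := by
    rw [← sg_mul_co z c, ← sg_mul_co x c, hc, hxc]; ring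
  have key : ∀ i, |x i| = 1 → i = a.1 ∨ i = b.1 ∨ i = c.1 := by
    intro i hi
    by_contra hcon
    push Not at hcon
    have := hfree i hcon.1 hcon.2.1 hcon.2.2
    linarith
  have m1 : ∀ i, x i = 1 → z i ≤ 0 := by
    intro i hi
    rcases key i (by rw [hi, abs_one]) with rfl | rfl | rfl
    · exact ha.le
    · exact hb.le
    · rw [hzc, hi]; norm_num
  have m2 : ∀ i, x i = -1 → 0 ≤ z i := by
    intro i hi
    rcases key i (by rw [hi]; simp) with rfl | rfl | rfl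
    · exact ha.ge
    · exact hb.ge
    · rw [hzc, hi]; norm_num
  have m3 : ∃ i, z i ≠ 0 := by
    refine ⟨c.1, fun h0 => ?_⟩
    simp only [co, h0, mul_zero] at hc
    norm_num at hc
  obtain ⟨t, ht, hle, i, hi0, hi⟩ := move x z h1 m1 m2 m3
  have hia : a.1 ≠ i := by rintro rfl; exact hi0 ha
  have hib : b.1 ≠ i := by rintro rfl; exact hi0 hb
  have hcc : ∃ c' : SL κ, c'.1 = i ∧ co (fun i => x i + t * z i) c' = 1 := by
    rcases hi with ⟨_, hi⟩ | ⟨_, hi⟩
    · exact ⟨(i, true), rfl, by simp [co, sg, hi]⟩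
    · exact ⟨(i, false), rfl, by simp [co, sg, hi]⟩
  obtain ⟨c', rfl, hc'⟩ := hcc
  refine ⟨t, ht, c', ?_, hle, ?_, hab, hia, hib, ?_, ?_, hc'⟩
  · rintro rfl
    rw [co_lin, hxc, hc] at hc'
    linarith
  · simp only [add_smul, mul_smul, Finset.sum_add_distrib, ← Finset.smul_sum, hz, smul_zero,
      add_zero]
    exact h2
  · rw [co_lin, hxa]; simp [co, ha]
  · rw [co_lin, hxb]; simp [co, hb]

theorem tri_exW (h : St v g 3) {p q a : SL κ} (ht : TriW v g p q a) : ∃ a', a' ≠ a ∧ TriW v g p q a' := by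
  obtain ⟨x, hx⟩ := ht
  obtain ⟨z, h1, h2, h3, h4⟩ := exists_dirW h hx
  obtain ⟨t, _, c', hc', hV⟩ := rayW h hx z h1 h2 h3 h4
  exact ⟨c', hc', _, hV⟩

theorem isW_mid (h : St v g 3) {x : κ → ℝ} {p q a : SL κ} (hx : IsW v g x p q a) {y : κ → ℝ}
    (hy : ∀ i, |y i| ≤ 1) {c : SL κ} (hcp : p.1 ≠ c.1) (hcq : q.1 ≠ c.1) (r : ℝ) (h0 : 0 ≤ r)
    (h1 : r < 1) (hw : (1 - r) * co x c + r * co y c = 1) : c = a := by
  have e1 := co_le_one hx.1 c
  have e2 := co_le_one hy c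
  have e3 : co x c = 1 := by
    by_contra hne
    have hlt : co x c < 1 := lt_of_le_of_ne e1 hne
    nlinarith [mul_lt_mul_of_pos_left hlt (sub_pos.mpr h1), mul_le_mul_of_nonneg_left e2 h0]
  have e4 : c.1 = a.1 := by
    by_contra hne
    have := isW_free h hx c.1 hcp.symm hcq.symm hne
    rw [abs_eq_one_of_co e3] at this
    exact lt_irrefl _ this
  rcases eq_or_ng e4 with h5 | h5
  · exact h5
  · rw [h5, co_ng, hx.2.2.2.2.2.2.2] at e3
    norm_num at e3

/-- An edge has exactly two ends. -/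
theorem tri_uniqW (h : St v g 3) {p q a b c : SL κ} (ha : TriW v g p q a) (hb : TriW v g p q b)
    (hc : TriW v g p q c) (hab : a ≠ b) : c = a ∨ c = b := by
  obtain ⟨x, hx⟩ := ha
  obtain ⟨y, hy⟩ := hb
  obtain ⟨w, hw⟩ := hc
  have hxp := hx.2.2.2.2.2.1
  have hxq := hx.2.2.2.2.2.2.1
  have hxa := hx.2.2.2.2.2.2.2
  have hyp := hy.2.2.2.2.2.1
  have hyq := hy.2.2.2.2.2.2.1
  have hyb := hy.2.2.2.2.2.2.2
  have hwp := hw.2.2.2.2.2.1
  have hwq := hw.2.2.2.2.2.2.1
  have hwc := hw.2.2.2.2.2.2.2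
  have e : ∀ (x y : κ → ℝ) (d : SL κ), co x d = 1 → co y d = 1 → x d.1 = y d.1 := by
    intro x y d h1 h2
    rw [← sg_mul_co x d, ← sg_mul_co y d, h1, h2]
  have hya : co y a ≠ 1 := by
    intro h1
    exact hab (isW_mid h hy hx.1 hx.2.2.2.1 hx.2.2.2.2.1 0 le_rfl one_pos (by
      rw [h1]; ring))
  set s : ℝ := (1 - co w a) / (1 - co y a) with hs
  have hlt : 0 < 1 - co y a := by
    have := lt_of_le_of_ne (co_le_one hy.1 a) hya
    linarith
  have hsm : s * (1 - co y a) = 1 - co w a := div_mul_cancel₀ _ hlt.ne'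
  have hs0 : 0 ≤ s := div_nonneg (by linarith [co_le_one hw.1 a]) hlt.le
  have hlin : (fun i => w i - x i - s * (y i - x i)) = 0 := by
    refine isW_inj h hx _ ?_ ?_ ?_ ?_
    · have e1 : ∑ i, y i • v i = ∑ i, x i • v i := add_left_cancel (hy.2.1.trans hx.2.1.symm)
      have e2 : ∑ i, w i • v i = ∑ i, x i • v i := add_left_cancel (hw.2.1.trans hx.2.1.symm)
      simp only [sub_smul, mul_smul, Finset.sum_sub_distrib, ← Finset.smul_sum, e1, e2,
        sub_self, smul_zero]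
    · simp only [e x y p hxp hyp, e w y p hwp hyp]; ring
    · simp only [e x y q hxq hyq, e w y q hwq hyq]; ring
    · rw [← sg_mul_co w a, ← sg_mul_co x a, ← sg_mul_co y a, hxa]
      linear_combination (sg a.2) * hsm
  have hco : ∀ d : SL κ, co w d = (1 - s) * co x d + s * co y d := by
    intro d
    have := congrFun hlin d.1
    simp only [Pi.zero_apply] at this
    simp only [co]
    linear_combination (sg d.2) * this
  rcases lt_trichotomy s 1 with h1 | h1 | h1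
  · left
    exact isW_mid h hx hy.1 hw.2.2.2.1 hw.2.2.2.2.1 s hs0 h1 (by rw [← hco, hwc])
  · right
    refine isW_mid h hy hx.1 hw.2.2.2.1 hw.2.2.2.2.1 0 le_rfl one_pos ?_
    have := hco c
    rw [hwc, h1] at this
    linarith
  · exfalso
    have hs' : (0 : ℝ) < s := by linarith
    refine hab (isW_mid h hx hw.1 hy.2.2.2.1 hy.2.2.2.2.1 s⁻¹ (inv_nonneg.mpr hs0)
      (inv_lt_one_of_one_lt₀ h1) ?_).symm
    have h2 := hco b
    rw [hyb] at h2
    rw [h2]
    field_simp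
    ring

theorem exists_triW (h : St v g 3) : ∃ a b c, TriW v g a b c := by
  obtain ⟨x, ⟨h1, h2⟩, h3⟩ := h.ne
  have hc : (Finset.univ \ fr x).card = 3 := by
    rw [Finset.card_sdiff_of_subset (Finset.subset_univ _), Finset.card_univ, h.card, h3]
    omega
  obtain ⟨i, j, k, hij, hik, hjk, he⟩ := Finset.card_eq_three.mp hc
  have key : ∀ l, l ∈ Finset.univ \ fr x → ∃ a : SL κ, a.1 = l ∧ co x a = 1 := by
    intro l hl
    simp only [Finset.mem_sdiff, Finset.mem_univ, true_and] at hl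
    rcases (not_mem_fr x h1 l).mp hl with hl | hl
    · exact ⟨(l, true), rfl, by simp [co, sg, hl]⟩
    · exact ⟨(l, false), rfl, by simp [co, sg, hl]⟩
  obtain ⟨a, rfl, ha⟩ := key i (by rw [he]; simp)
  obtain ⟨b, rfl, hb⟩ := key j (by rw [he]; simp)
  obtain ⟨c, rfl, hc'⟩ := key k (by rw [he]; simp)
  exact ⟨a, b, c, x, h1, h2, hij, hik, hjk, ha, hb, hc'⟩

omit [DecidableEq κ] [FiniteDimensional ℝ E] in
theorem IsW.sym12 {x : κ → ℝ} {a b c : SL κ} (h : IsW v g x a b c) : IsW v g x b a c :=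
  ⟨h.1, h.2.1, h.2.2.1.symm, h.2.2.2.2.1, h.2.2.2.1, h.2.2.2.2.2.2.1, h.2.2.2.2.2.1,
    h.2.2.2.2.2.2.2⟩

omit [DecidableEq κ] [FiniteDimensional ℝ E] in
theorem IsW.sym23 {x : κ → ℝ} {a b c : SL κ} (h : IsW v g x a b c) : IsW v g x a c b :=
  ⟨h.1, h.2.1, h.2.2.2.1, h.2.2.1, h.2.2.2.2.1.symm, h.2.2.2.2.2.1, h.2.2.2.2.2.2.2,
    h.2.2.2.2.2.2.1⟩

omit [DecidableEq κ] [FiniteDimensional ℝ E] in
theorem TriW.sym12 {a b c : SL κ} (h : TriW v g a b c) : TriW v g b a c := by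
  obtain ⟨x, hx⟩ := h; exact ⟨x, hx.sym12⟩
omit [DecidableEq κ] [FiniteDimensional ℝ E] in
theorem TriW.sym23 {a b c : SL κ} (h : TriW v g a b c) : TriW v g a c b := by
  obtain ⟨x, hx⟩ := h; exact ⟨x, hx.sym23⟩
omit [DecidableEq κ] [FiniteDimensional ℝ E] in
theorem TriW.lab {a b c : SL κ} (h : TriW v g a b c) : a.1 ≠ b.1 := by
  obtain ⟨x, hx⟩ := h; exact hx.2.2.1

/-- Central symmetry: the opposite vertex. -/
theorem isW_neg (h : St v g 3) {x : κ → ℝ} {a b c : SL κ} (hx : IsW v g x a b c) :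
    ∃ x', IsW v g x' (ng a) (ng b) (ng c) := by
  obtain ⟨hfr, hcard⟩ := isW_fr h hx
  obtain ⟨x', hx', hopp⟩ := h.cs x ⟨⟨hx.1, hx.2.1⟩, hcard⟩
  obtain ⟨-, -, hab, hac, hbc, ha, hb, hc⟩ := hx
  have key : ∀ e : SL κ, e.1 ∈ ({a.1, b.1, c.1} : Finset κ) → co x e = 1 → co x' (ng e) = 1 := by
    intro e he h1
    have h2 : e.1 ∉ fr x := by
      rw [hfr, Finset.mem_sdiff, not_and_not_right]
      exact fun _ => he
    rw [co_ng, ← h1, co, co, hopp e.1 h2]
    ring
  exact ⟨x', hx'.1.1, hx'.1.2, hab, hac, hbc, key a (by simp) ha, key b (by simp) hb,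
    key c (by simp) hc⟩

theorem TriW.neg (h : St v g 3) {a b c : SL κ} (ht : TriW v g a b c) :
    TriW v g (ng a) (ng b) (ng c) := by
  obtain ⟨x, hx⟩ := ht
  exact isW_neg h hx

end Pool.Agent.Lib.MP_1be6c9_co.Fc
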