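import Pool.Agent.Lib.MP_1be6c9_co.Fc.St3Short
import Pool.Agent.Lib.MP_1be6c9_co.Fc.St3Corner

/-!
States of dimension three: the law for an oriented triple of free labels.
-/

namespace Pool.Agent.Lib.MP_1be6c9_co.Fc

open Finset Pool.Agent.Lib.MP_1be6c9_co
open Pool.Agent.Lib.MP_1be6c9_co.M3 (SL ng sg co uv ng_fst ng_ng ng_ne ng_inj eq_or_ng sg_mul_self
  sg_eq sg_not co_ng co_neg abs_co sg_mul_co uv_ng norm_uv co_smul_uv abs_eq_one_of_co co_le_one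
  co_lin)

variable {κ E : Type*} [Fintype κ] [DecidableEq κ] [NormedAddCommGroup E] [InnerProductSpace ℝ E]
  [FiniteDimensional ℝ E] {v : κ → E} {g : E}

private theorem sum_split {κ F : Type*} [Fintype κ] [DecidableEq κ] [AddCommMonoid F] (f : κ → F)
    {p₁ p₂ p₃ p₄ p₅ p₆ : κ} (hnd : [p₁, p₂, p₃, p₄, p₅, p₆].Nodup) :
    ∑ i, f i = f p₁ + f p₂ + f p₃ + (f p₄ + f p₅ + f p₆)
      + ∑ i ∈ ([p₁, p₂, p₃, p₄, p₅, p₆].toFinset)ᶜ, f i := by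
  rw [← Finset.sum_add_sum_compl ([p₁, p₂, p₃, p₄, p₅, p₆].toFinset) f, List.sum_toFinset f hnd]
  congr 1
  simp only [List.map_cons, List.map_nil, List.sum_cons, List.sum_nil, add_zero]
  simp only [add_assoc]

/-- Substituting signs. -/
private theorem long_six (v : κ → E) (g : E) (R : ℝ)
    (H : ∀ η : κ → ℝ, (∀ i, η i = 1 ∨ η i = -1) → R < ‖g + ∑ i, η i • v i‖ ^ 2)
    (a b c e₁ e₂ e₃ : SL κ)
    (hnd : [a.1, b.1, c.1, e₁.1, e₂.1, e₃.1].Nodup) (s₁ s₂ s₃ : ℝ)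
    (h₁ : s₁ = 1 ∨ s₁ = -1) (h₂ : s₂ = 1 ∨ s₂ = -1) (h₃ : s₃ = 1 ∨ s₃ = -1) (η : κ → ℝ)
    (hη : ∀ i, η i = 1 ∨ η i = -1) :
    R < ‖(g + (uv v a + uv v b + uv v c) + (s₁ • uv v e₁ + s₂ • uv v e₂ + s₃ • uv v e₃))
      + ∑ i ∈ ([a.1, b.1, c.1, e₁.1, e₂.1, e₃.1].toFinset)ᶜ, η i • v i‖ ^ 2 := by
  classical
  have hnd' := hnd
  simp only [List.nodup_cons, List.mem_cons, List.not_mem_nil, or_false, not_or,
    List.nodup_nil, and_true, not_false_eq_true] at hnd'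
  obtain ⟨⟨n12, n13, n14, n15, n16⟩, ⟨n23, n24, n25, n26⟩, ⟨n34, n35, n36⟩, ⟨n45, n46⟩, n56⟩ := hnd'
  set ε : κ → ℝ := fun i =>
    if i = a.1 then sg a.2 else if i = b.1 then sg b.2 else if i = c.1 then sg c.2 else
      if i = e₁.1 then s₁ * sg e₁.2 else if i = e₂.1 then s₂ * sg e₂.2 else
        if i = e₃.1 then s₃ * sg e₃.2 else η i with hε
  have hsg : ∀ (s : ℝ) (t : Bool), (s = 1 ∨ s = -1) → (s * sg t = 1 ∨ s * sg t = -1) := by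
    intro s t hs
    rcases hs with h | h <;> rcases sg_eq t with h' | h' <;> simp [h, h']
  have h1 : ∀ i, ε i = 1 ∨ ε i = -1 := by
    intro i
    simp only [hε]
    split_ifs
    · exact sg_eq _
    · exact sg_eq _
    · exact sg_eq _
    · exact hsg _ _ h₁
    · exact hsg _ _ h₂
    · exact hsg _ _ h₃
    · exact hη i
  have h2 := H ε h1
  rw [sum_split (fun i => ε i • v i) hnd] at h2
  have ea : ε a.1 = sg a.2 := by simp [hε]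
  have eb : ε b.1 = sg b.2 := by simp [hε, Ne.symm n12]
  have ec : ε c.1 = sg c.2 := by simp [hε, Ne.symm n13, Ne.symm n23]
  have e1 : ε e₁.1 = s₁ * sg e₁.2 := by simp [hε, Ne.symm n14, Ne.symm n24, Ne.symm n34]
  have e2 : ε e₂.1 = s₂ * sg e₂.2 := by
    simp [hε, Ne.symm n15, Ne.symm n25, Ne.symm n35, Ne.symm n45]
  have e3 : ε e₃.1 = s₃ * sg e₃.2 := by
    simp [hε, Ne.symm n16, Ne.symm n26, Ne.symm n36, Ne.symm n46, Ne.symm n56]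
  have hZ : ∑ i ∈ ([a.1, b.1, c.1, e₁.1, e₂.1, e₃.1].toFinset)ᶜ, ε i • v i
      = ∑ i ∈ ([a.1, b.1, c.1, e₁.1, e₂.1, e₃.1].toFinset)ᶜ, η i • v i := by
    refine Finset.sum_congr rfl fun i hi => ?_
    rw [Finset.mem_compl, List.mem_toFinset] at hi
    simp only [List.mem_cons, List.not_mem_nil, or_false, not_or] at hi
    obtain ⟨k1, k2, k3, k4, k5, k6⟩ := hi
    simp [hε, k1, k2, k3, k4, k5, k6]
  simp only [ea, eb, ec, e1, e2, e3] at h2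
  rw [hZ] at h2
  simp only [uv, smul_smul]
  rw [← add_assoc, ← add_assoc] at h2
  exact h2

private theorem norm_exp (Y w₁ w₂ w₃ : E) (s₁ s₂ s₃ : ℝ) (nw1 : ‖w₁‖ = 1) (nw2 : ‖w₂‖ = 1)
    (nw3 : ‖w₃‖ = 1) (q1 : s₁ ^ 2 = 1) (q2 : s₂ ^ 2 = 1) (q3 : s₃ ^ 2 = 1) :
    ‖Y + (s₁ • w₁ + s₂ • w₂ + s₃ • w₃)‖ ^ 2
        = ‖Y‖ ^ 2 + 3 + 2 * (s₁ * inner ℝ Y w₁ + s₂ * inner ℝ Y w₂
          + s₃ * inner ℝ Y w₃ + s₁ * s₂ * inner ℝ w₁ w₂ + s₁ * s₃ * inner ℝ w₁ w₃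
          + s₂ * s₃ * inner ℝ w₂ w₃) := by
  rw [norm_add_sq_real, norm_add_sq_real, norm_add_sq_real]
  simp only [inner_add_left, inner_add_right, real_inner_smul_left, real_inner_smul_right,
    norm_smul, mul_pow, Real.norm_eq_abs, sq_abs, nw1, nw2, nw3, q1, q2, q3]
  ring

private theorem final_arith (X yy ll yl y₁ y₂ y₃ l₁ l₂ l₃ g₁₂ g₁₃ g₂₃ c₁ c₂ c₃ : ℝ)
    (hrY : yy + (c₁ * y₁ + c₂ * y₂ + c₃ * y₃) + yl = 0)
    (hrL : yl + (c₁ * l₁ + c₂ * l₂ + c₃ * l₃) + ll = 0) :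
    (1 - (c₂ + c₃)) * ((1 + X) * (yy + 1 + 2 * (1 * y₁ + -1 * y₂ + -1 * y₃ + 1 * -1 * g₁₂
        + 1 * -1 * g₁₃ + -1 * -1 * g₂₃)) + 4 * (yl + 1 * l₁ + -1 * l₂ + -1 * l₃) + 2 * ll - 2 * X)
    + (1 + (c₂ + c₃)) * ((1 + X) * (yy + 1 + 2 * (-1 * y₁ + 1 * y₂ + 1 * y₃ + -1 * 1 * g₁₂
        + -1 * 1 * g₁₃ + 1 * 1 * g₂₃)) + 4 * (yl + -1 * l₁ + 1 * l₂ + 1 * l₃) + 2 * ll - 2 * X)
    + (1 - (c₁ + c₃)) * ((1 + X) * (yy + 1 + 2 * (-1 * y₁ + 1 * y₂ + -1 * y₃ + -1 * 1 * g₁₂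
        + -1 * -1 * g₁₃ + 1 * -1 * g₂₃)) + 4 * (yl + -1 * l₁ + 1 * l₂ + -1 * l₃) + 2 * ll - 2 * X)
    + (1 + (c₁ + c₃)) * ((1 + X) * (yy + 1 + 2 * (1 * y₁ + -1 * y₂ + 1 * y₃ + 1 * -1 * g₁₂
        + 1 * 1 * g₁₃ + -1 * 1 * g₂₃)) + 4 * (yl + 1 * l₁ + -1 * l₂ + 1 * l₃) + 2 * ll - 2 * X)
    + (1 - (c₁ + c₂)) * ((1 + X) * (yy + 1 + 2 * (-1 * y₁ + -1 * y₂ + 1 * y₃ + -1 * -1 * g₁₂
        + -1 * 1 * g₁₃ + -1 * 1 * g₂₃)) + 4 * (yl + -1 * l₁ + -1 * l₂ + 1 * l₃) + 2 * ll - 2 * X)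
    + (1 + (c₁ + c₂)) * ((1 + X) * (yy + 1 + 2 * (1 * y₁ + 1 * y₂ + -1 * y₃ + 1 * 1 * g₁₂
        + 1 * -1 * g₁₃ + 1 * -1 * g₂₃)) + 4 * (yl + 1 * l₁ + 1 * l₂ + -1 * l₃) + 2 * ll - 2 * X)
    = 2 * ((1 + X) * (3 - 2 * (g₁₂ + g₁₃ + g₂₃) - yy) - 4 * (X * yl) - 2 * ll - 6 * X) := by
  linear_combination (8 * (1 + X)) * hrY + 16 * hrL

/-- `e₁ e₂ e₃` three signed free labels with distinct labels.
Law: `k` uniform in `{1,2,3}`, `ε_A = τ (+1` at `k`, `-1` at the two others`)` with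
`E τ = -(co x e_i + co x e_j)` (`{i,j,k} = {1,2,3}`); on the other free labels `Z` the weight
`(1 + ∑ x_l ε_l)²` (`kernel_aux` with `u = 1`, `s = Z`, `A = Y_T + ∑ ε_A`, `a = v`). -/
theorem li_lawW (h : St v g 3) {x : κ → ℝ} {a b c : SL κ} (hx : IsW v g x a b c) (e₁ e₂ e₃ : SL κ)
    (h12 : e₁.1 ≠ e₂.1) (h13 : e₁.1 ≠ e₃.1) (h23 : e₂.1 ≠ e₃.1)
    (h1 : e₁.1 ≠ a.1 ∧ e₁.1 ≠ b.1 ∧ e₁.1 ≠ c.1) (h2 : e₂.1 ≠ a.1 ∧ e₂.1 ≠ b.1 ∧ e₂.1 ≠ c.1)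
    (h3 : e₃.1 ≠ a.1 ∧ e₃.1 ≠ b.1 ∧ e₃.1 ≠ c.1) :
    2 * (inner ℝ (uv v e₁) (uv v e₂) + inner ℝ (uv v e₁) (uv v e₃)
      + inner ℝ (uv v e₂) (uv v e₃)) + ‖g + (uv v a + uv v b + uv v c)‖ ^ 2 < 3 := by
  classical
  obtain ⟨hle, hsum, hab, hac, hbc, ha, hb, hc⟩ := id hx
  have hnd : [a.1, b.1, c.1, e₁.1, e₂.1, e₃.1].Nodup := by
    simp only [List.nodup_cons, List.mem_cons, List.not_mem_nil, or_false, not_or,
      List.nodup_nil, and_true, not_false_eq_true]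
    exact ⟨⟨hab, hac, Ne.symm h1.1, Ne.symm h2.1, Ne.symm h3.1⟩,
      ⟨hbc, Ne.symm h1.2.1, Ne.symm h2.2.1, Ne.symm h3.2.1⟩,
      ⟨Ne.symm h1.2.2, Ne.symm h2.2.2, Ne.symm h3.2.2⟩, ⟨h12, h13⟩, h23⟩
  set Z : Finset κ := ([a.1, b.1, c.1, e₁.1, e₂.1, e₃.1].toFinset)ᶜ with hZ
  have hcardZ : (Z.card : ℝ) = Module.finrank ℝ E - 3 := by
    have h6 : ([a.1, b.1, c.1, e₁.1, e₂.1, e₃.1].toFinset).card = 6 := by
      rw [List.toFinset_card_of_nodup hnd]; rfl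
    have h7 := Finset.card_add_card_compl ([a.1, b.1, c.1, e₁.1, e₂.1, e₃.1].toFinset)
    rw [← hZ, h6, h.card] at h7
    have h8 : ((6 + Z.card : ℕ) : ℝ) = ((Module.finrank ℝ E + 3 : ℕ) : ℝ) := by rw [h7]
    push_cast at h8
    linarith
  set Y : E := g + (uv v a + uv v b + uv v c) with hY
  set w₁ : E := uv v e₁ with hw1
  set w₂ : E := uv v e₂ with hw2
  set w₃ : E := uv v e₃ with hw3
  set c₁ : ℝ := co x e₁ with hc1
  set c₂ : ℝ := co x e₂ with hc2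
  set c₃ : ℝ := co x e₃ with hc3
  set L : E := ∑ i ∈ Z, x i • v i with hL
  set X : ℝ := ∑ i ∈ Z, x i ^ 2 with hX
  have nw1 : ‖w₁‖ = 1 := norm_uv h.unit _
  have nw2 : ‖w₂‖ = 1 := norm_uv h.unit _
  have nw3 : ‖w₃‖ = 1 := norm_uv h.unit _
  have hX0 : 0 ≤ X := Finset.sum_nonneg fun i _ => sq_nonneg _
  -- the relation
  have hrel : Y + (c₁ • w₁ + c₂ • w₂ + c₃ • w₃) + L = 0 := by
    have h4 := hsum
    rw [sum_split (fun i => x i • v i) hnd] at h4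
    have ea : x a.1 • v a.1 = uv v a := by rw [← co_smul_uv v x a, ha, one_smul]
    have eb : x b.1 • v b.1 = uv v b := by rw [← co_smul_uv v x b, hb, one_smul]
    have ec : x c.1 • v c.1 = uv v c := by rw [← co_smul_uv v x c, hc, one_smul]
    simp only [ea, eb, ec] at h4
    rw [← co_smul_uv v x e₁, ← co_smul_uv v x e₂, ← co_smul_uv v x e₃] at h4
    rw [← add_assoc, ← add_assoc] at h4
    exact h4
  -- the sum of the squares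
  have hX1 : X < 1 := by
    have hr := st_round h x hle hsum
    have hcard : (fr x).card ≤ Module.finrank ℝ E := by
      have hsub : fr x ⊆ ({a.1, b.1, c.1} : Finset κ)ᶜ := by
        intro i hi
        rw [mem_fr] at hi
        rw [Finset.mem_compl]
        intro hm
        simp only [Finset.mem_insert, Finset.mem_singleton] at hm
        have ht : ∀ s : SL κ, co x s = 1 → |x s.1| = 1 := by
          intro s hs
          rw [← abs_co x s, hs, abs_one]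
        rcases hm with hm | hm | hm
        · rw [hm, ht a ha] at hi; exact lt_irrefl _ hi
        · rw [hm, ht b hb] at hi; exact lt_irrefl _ hi
        · rw [hm, ht c hc] at hi; exact lt_irrefl _ hi
      have h3' : ({a.1, b.1, c.1} : Finset κ).card = 3 := by
        rw [Finset.card_insert_of_notMem (by simp [hab, hac]),
          Finset.card_insert_of_notMem (by simp [hbc]), Finset.card_singleton]
      have h4' := Finset.card_add_card_compl ({a.1, b.1, c.1} : Finset κ)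
      rw [h3', h.card] at h4'
      have h5' := Finset.card_le_card hsub
      omega
    have hZfr : Z ⊆ fr x := by
      intro i hi
      rw [hZ, Finset.mem_compl, List.mem_toFinset] at hi
      simp only [List.mem_cons, List.not_mem_nil, or_false, not_or] at hi
      rw [mem_fr]
      exact isW_free h hx i hi.1 hi.2.1 hi.2.2.1
    have hXfr : X ≤ ∑ i ∈ fr x, x i ^ 2 :=
      Finset.sum_le_sum_of_subset_of_nonneg hZfr fun i _ _ => sq_nonneg _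
    rw [Finset.sum_sub_distrib, Finset.sum_const, nsmul_eq_mul, mul_one] at hr
    have hcR : ((fr x).card : ℝ) ≤ Module.finrank ℝ E := by exact_mod_cast hcard
    linarith
  -- the cornerW lemma
  have hcor := cornerW h hx e₁.1 e₂.1 e₃.1 h12 h13 h23 h1 h2 h3
  rw [← abs_co x e₁, ← abs_co x e₂, ← abs_co x e₃, ← hc1, ← hc2, ← hc3] at hcor
  have b1 := neg_abs_le c₁
  have b1' := le_abs_self c₁
  have b2 := neg_abs_le c₂
  have b2' := le_abs_self c₂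
  have b3 := neg_abs_le c₃
  have b3' := le_abs_self c₃
  have p1 := abs_nonneg c₁
  have p2 := abs_nonneg c₂
  have p3 := abs_nonneg c₃
  have hY1 : ‖Y‖ < 1 := isW_short h hx
  have hY2 : ‖Y‖ ^ 2 < 1 := by
    have := norm_nonneg Y
    nlinarith
  -- the local estimates
  have hS1 : ∑ i ∈ Z, ‖v i‖ ^ 2 = Module.finrank ℝ E - 3 := by
    simp [h.unit, hcardZ]
  have hS2 : ∑ i ∈ Z, x i ^ 2 * ‖v i‖ ^ 2 = X := by
    rw [hX]
    refine Finset.sum_congr rfl fun i _ => ?_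
    rw [h.unit i]; ring
  have key : ∀ s₁ s₂ s₃ : ℝ, (s₁ = 1 ∨ s₁ = -1) → (s₂ = 1 ∨ s₂ = -1) → (s₃ = 1 ∨ s₃ = -1) →
      0 ≤ (1 + X) * (‖Y‖ ^ 2 + 1 + 2 * (s₁ * inner ℝ Y w₁ + s₂ * inner ℝ Y w₂
          + s₃ * inner ℝ Y w₃ + s₁ * s₂ * inner ℝ w₁ w₂ + s₁ * s₃ * inner ℝ w₁ w₃
          + s₂ * s₃ * inner ℝ w₂ w₃))
        + 4 * (inner ℝ Y L + s₁ * inner ℝ w₁ L + s₂ * inner ℝ w₂ L + s₃ * inner ℝ w₃ L)
        + 2 * ‖L‖ ^ 2 - 2 * X ∧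
      (X = 0 → 0 < (1 + X) * (‖Y‖ ^ 2 + 1 + 2 * (s₁ * inner ℝ Y w₁ + s₂ * inner ℝ Y w₂
          + s₃ * inner ℝ Y w₃ + s₁ * s₂ * inner ℝ w₁ w₂ + s₁ * s₃ * inner ℝ w₁ w₃
          + s₂ * s₃ * inner ℝ w₂ w₃))
        + 4 * (inner ℝ Y L + s₁ * inner ℝ w₁ L + s₂ * inner ℝ w₂ L + s₃ * inner ℝ w₃ L)
        + 2 * ‖L‖ ^ 2 - 2 * X) := by
    intro s₁ s₂ s₃ hs1 hs2 hs3
    obtain ⟨η, hη, hk⟩ := kernel_aux v x (Module.finrank ℝ E - 1) Z 1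
      (Y + (s₁ • w₁ + s₂ • w₂ + s₃ • w₃))
    have hl := long_six v g _ h.bad a b c e₁ e₂ e₃ hnd s₁ s₂ s₃ hs1 hs2 hs3 η hη
    rw [← hY, ← hw1, ← hw2, ← hw3, ← hZ] at hl
    rw [← hL, ← hX, hS1, hS2] at hk
    have q1 : s₁ ^ 2 = 1 := by rcases hs1 with h | h <;> rw [h] <;> norm_num
    have q2 : s₂ ^ 2 = 1 := by rcases hs2 with h | h <;> rw [h] <;> norm_num
    have q3 : s₃ ^ 2 = 1 := by rcases hs3 with h | h <;> rw [h] <;> norm_num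
    have hn := norm_exp Y w₁ w₂ w₃ s₁ s₂ s₃ nw1 nw2 nw3 q1 q2 q3
    have hi : inner ℝ (Y + (s₁ • w₁ + s₂ • w₂ + s₃ • w₃)) L
        = inner ℝ Y L + s₁ * inner ℝ w₁ L + s₂ * inner ℝ w₂ L + s₃ * inner ℝ w₃ L := by
      simp only [inner_add_left, real_inner_smul_left]
      ring
    rw [hn, hi] at hk
    constructor
    · have h0 := mul_nonneg (sq_nonneg (1 + ∑ i ∈ Z, η i * x i)) (le_of_lt (sub_pos.mpr hl))
      linarith
    · intro hX00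
      have hz : ∀ i ∈ Z, x i = 0 := by
        intro i hi'
        have := (Finset.sum_eq_zero_iff_of_nonneg (fun i _ => sq_nonneg (x i))).mp
          (hX.symm.trans hX00) i hi'
        exact pow_eq_zero_iff (two_ne_zero) |>.mp this
      have hz2 : ∑ i ∈ Z, η i * x i = 0 :=
        Finset.sum_eq_zero fun i hi' => by rw [hz i hi', mul_zero]
      rw [hz2] at hk
      have h0 := sub_pos.mpr hl
      linarith
  -- averaging
  have hrY : ‖Y‖ ^ 2 + (c₁ * inner ℝ Y w₁ + c₂ * inner ℝ Y w₂ + c₃ * inner ℝ Y w₃)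
      + inner ℝ Y L = 0 := by
    have := congrArg (fun z => inner ℝ Y z) hrel
    simp only [inner_add_right, real_inner_smul_right, inner_zero_right,
      real_inner_self_eq_norm_sq] at this
    linarith
  have hrL : inner ℝ Y L + (c₁ * inner ℝ w₁ L + c₂ * inner ℝ w₂ L + c₃ * inner ℝ w₃ L)
      + ‖L‖ ^ 2 = 0 := by
    have := congrArg (fun z => inner ℝ z L) hrel
    simp only [inner_add_left, real_inner_smul_left, inner_zero_left,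
      real_inner_self_eq_norm_sq] at this
    linarith
  have hLY : 0 ≤ ‖L‖ ^ 2 + 2 * (X * inner ℝ Y L) + X ^ 2 * ‖Y‖ ^ 2 := by
    have := sq_nonneg ‖L + X • Y‖
    rw [norm_add_sq_real, real_inner_smul_right, norm_smul, mul_pow, Real.norm_eq_abs,
      sq_abs, real_inner_comm] at this
    linarith
  by_contra hcon
  push Not at hcon
  have k1 := key 1 (-1) (-1) (Or.inl rfl) (Or.inr rfl) (Or.inr rfl)
  have k1' := key (-1) 1 1 (Or.inr rfl) (Or.inl rfl) (Or.inl rfl)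
  have k2 := key (-1) 1 (-1) (Or.inr rfl) (Or.inl rfl) (Or.inr rfl)
  have k2' := key 1 (-1) 1 (Or.inl rfl) (Or.inr rfl) (Or.inl rfl)
  have k3 := key (-1) (-1) 1 (Or.inr rfl) (Or.inr rfl) (Or.inl rfl)
  have k3' := key 1 1 (-1) (Or.inl rfl) (Or.inl rfl) (Or.inr rfl)
  have hfin := final_arith X (‖Y‖ ^ 2) (‖L‖ ^ 2) (inner ℝ Y L) (inner ℝ Y w₁) (inner ℝ Y w₂)
    (inner ℝ Y w₃) (inner ℝ w₁ L) (inner ℝ w₂ L) (inner ℝ w₃ L) (inner ℝ w₁ w₂) (inner ℝ w₁ w₃)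
    (inner ℝ w₂ w₃) c₁ c₂ c₃ hrY hrL
  have hprod : (1 + X) * (3 - 2 * (inner ℝ w₁ w₂ + inner ℝ w₁ w₃ + inner ℝ w₂ w₃) - ‖Y‖ ^ 2)
      ≤ 0 := mul_nonpos_of_nonneg_of_nonpos (by linarith) (by linarith)
  rcases eq_or_lt_of_le hX0 with hX00 | hXpos
  · have r1 := mul_pos (show 0 < 1 - (c₂ + c₃) by linarith) (k1.2 hX00.symm)
    have r1' := mul_pos (show 0 < 1 + (c₂ + c₃) by linarith) (k1'.2 hX00.symm)
    have r2 := mul_pos (show 0 < 1 - (c₁ + c₃) by linarith) (k2.2 hX00.symm)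
    have r2' := mul_pos (show 0 < 1 + (c₁ + c₃) by linarith) (k2'.2 hX00.symm)
    have r3 := mul_pos (show 0 < 1 - (c₁ + c₂) by linarith) (k3.2 hX00.symm)
    have r3' := mul_pos (show 0 < 1 + (c₁ + c₂) by linarith) (k3'.2 hX00.symm)
    have hpos := add_pos (add_pos (add_pos (add_pos (add_pos r1 r1') r2) r2') r3) r3'
    rw [hfin] at hpos
    rw [← hX00] at hpos hprod
    have hll := sq_nonneg ‖L‖
    linarith
  · have r1 := mul_nonneg (show 0 ≤ 1 - (c₂ + c₃) by linarith) k1.1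
    have r1' := mul_nonneg (show 0 ≤ 1 + (c₂ + c₃) by linarith) k1'.1
    have r2 := mul_nonneg (show 0 ≤ 1 - (c₁ + c₃) by linarith) k2.1
    have r2' := mul_nonneg (show 0 ≤ 1 + (c₁ + c₃) by linarith) k2'.1
    have r3 := mul_nonneg (show 0 ≤ 1 - (c₁ + c₂) by linarith) k3.1
    have r3' := mul_nonneg (show 0 ≤ 1 + (c₁ + c₂) by linarith) k3'.1
    have hnn := add_nonneg (add_nonneg (add_nonneg (add_nonneg (add_nonneg r1 r1') r2) r2') r3) r3'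
    rw [hfin] at hnn
    have hXY : X * ‖Y‖ ^ 2 < 1 := by
      have h5 : X * ‖Y‖ ^ 2 ≤ 1 * ‖Y‖ ^ 2 :=
        mul_le_mul_of_nonneg_right (le_of_lt hX1) (sq_nonneg _)
      linarith
    have hXy : 0 < X * (3 - X * ‖Y‖ ^ 2) := mul_pos hXpos (by linarith)
    have e6 : X * (3 - X * ‖Y‖ ^ 2) = 3 * X - X ^ 2 * ‖Y‖ ^ 2 := by ring
    rw [e6] at hXy
    linarith

/-- The law at two opposite vertices: the sum without the offset. -/
theorem li_law0 (h : St v g 3) {a b c : SL κ} (ht : TriW v g a b c) (e₁ e₂ e₃ : SL κ)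
    (h12 : e₁.1 ≠ e₂.1) (h13 : e₁.1 ≠ e₃.1) (h23 : e₂.1 ≠ e₃.1)
    (h1 : e₁.1 ≠ a.1 ∧ e₁.1 ≠ b.1 ∧ e₁.1 ≠ c.1) (h2 : e₂.1 ≠ a.1 ∧ e₂.1 ≠ b.1 ∧ e₂.1 ≠ c.1)
    (h3 : e₃.1 ≠ a.1 ∧ e₃.1 ≠ b.1 ∧ e₃.1 ≠ c.1) :
    2 * (inner ℝ (uv v e₁) (uv v e₂) + inner ℝ (uv v e₁) (uv v e₃)
      + inner ℝ (uv v e₂) (uv v e₃)) + ‖uv v a + uv v b + uv v c‖ ^ 2 < 3 := by
  obtain ⟨x, hx⟩ := ht
  obtain ⟨x', hx'⟩ := isW_neg h hx
  have l1 := li_lawW h hx e₁ e₂ e₃ h12 h13 h23 h1 h2 h3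
  have l2 := li_lawW h hx' e₁ e₂ e₃ h12 h13 h23 h1 h2 h3
  simp only [uv_ng] at l2
  have e : g + (-uv v a + -uv v b + -uv v c) = g - (uv v a + uv v b + uv v c) := by abel
  rw [e] at l2
  have h4 := parallelogram_law_with_norm ℝ g (uv v a + uv v b + uv v c)
  have h5 := mul_self_nonneg ‖g‖
  nlinarith

end Pool.Agent.Lib.MP_1be6c9_co.Fc
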