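import Pool.Agent.Lib.MP_1be6c9_co.Fc.St3Geo

/-!
States of dimension three: the sum of the tight vectors and the offset has norm less than one.
-/

namespace Pool.Agent.Lib.MP_1be6c9_co.Fc

open Finset Pool.Agent.Lib.MP_1be6c9_co
open Pool.Agent.Lib.MP_1be6c9_co.M3 (SL ng sg co uv ng_fst ng_ng ng_ne ng_inj eq_or_ng sg_mul_self
  sg_eq sg_not co_ng co_neg abs_co sg_mul_co uv_ng norm_uv co_smul_uv abs_eq_one_of_co co_le_one
  co_lin)

variable {κ E : Type*} [Fintype κ] [DecidableEq κ] [NormedAddCommGroup E] [InnerProductSpace ℝ E]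
  [FiniteDimensional ℝ E] {v : κ → E} {g : E}

omit [DecidableEq κ] [FiniteDimensional ℝ E] in
theorem st_strict {m : ℕ} (h : St v g m) : ∃ R' : ℝ, (Module.finrank ℝ E : ℝ) - 1 < R' ∧
    ∀ η : κ → ℝ, (∀ i, η i = 1 ∨ η i = -1) → R' < ‖g + ∑ i, η i • v i‖ ^ 2 := by
  classical
  let s : (κ → Bool) → (κ → ℝ) := fun b i => if b i then 1 else -1
  obtain ⟨b0, -, hb0⟩ := Finset.exists_min_image (Finset.univ : Finset (κ → Bool))
    (fun b => ‖g + ∑ i, s b i • v i‖ ^ 2) ⟨fun _ => true, Finset.mem_univ _⟩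
  have hs : ∀ b : κ → Bool, ∀ i, s b i = 1 ∨ s b i = -1 := by
    intro b i
    by_cases hb : b i = true
    · left; simp [s, hb]
    · right; simp [s, hb]
  have h0 : (Module.finrank ℝ E : ℝ) - 1 < ‖g + ∑ i, s b0 i • v i‖ ^ 2 := h.bad _ (hs b0)
  refine ⟨((Module.finrank ℝ E : ℝ) - 1 + ‖g + ∑ i, s b0 i • v i‖ ^ 2) / 2, by linarith, ?_⟩
  intro η hη
  have h1 : s (fun i => decide (η i = 1)) = η := by
    funext i
    rcases hη i with h2 | h2
    · simp [s, h2]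
    · have h3 : η i ≠ 1 := by rw [h2]; norm_num
      simp only [s, decide_eq_true_eq]
      rw [if_neg h3, h2]
  have h2 := hb0 (fun i => decide (η i = 1)) (Finset.mem_univ _)
  rw [h1] at h2
  linarith

omit [Fintype κ] [DecidableEq κ] in
private theorem abs_tight {x : κ → ℝ} {a : SL κ} (h : co x a = 1) : |x a.1| = 1 := by
  rw [← abs_co, h, abs_one]

private theorem fr_vertex (h : St v g 3) {x : κ → ℝ} {a b c : SL κ} (hx : IsW v g x a b c) :
    fr x = ({a.1, b.1, c.1} : Finset κ)ᶜ := by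
  ext i
  rw [mem_fr, Finset.mem_compl, Finset.mem_insert, Finset.mem_insert, Finset.mem_singleton]
  constructor
  · rintro hi (rfl | rfl | rfl)
    · rw [abs_tight hx.2.2.2.2.2.1] at hi; exact lt_irrefl _ hi
    · rw [abs_tight hx.2.2.2.2.2.2.1] at hi; exact lt_irrefl _ hi
    · rw [abs_tight hx.2.2.2.2.2.2.2] at hi; exact lt_irrefl _ hi
  · intro hi
    push Not at hi
    exact isW_free h hx i hi.1 hi.2.1 hi.2.2

theorem isW_short (h : St v g 3) {x : κ → ℝ} {a b c : SL κ} (hx : IsW v g x a b c) :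
    ‖g + (uv v a + uv v b + uv v c)‖ < 1 := by
  have hfr := fr_vertex h hx
  obtain ⟨hx1, hx0, hab, hac, hbc, ha, hb, hc⟩ := hx
  have hcard3 : ({a.1, b.1, c.1} : Finset κ).card = 3 := Finset.card_eq_three.2
    ⟨a.1, b.1, c.1, hab, hac, hbc, rfl⟩
  have hcard : (fr x).card = Module.finrank ℝ E := by
    rw [hfr, Finset.card_compl, hcard3, h.card]
    omega
  -- the sum of the tight vectors
  have hY : g + ∑ i ∈ (fr x)ᶜ, x i • v i = g + (uv v a + uv v b + uv v c) := by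
    rw [hfr, compl_compl, Finset.sum_insert (by simp [hab, hac]),
      Finset.sum_insert (by simp [hbc]), Finset.sum_singleton, ← co_smul_uv v x a,
      ← co_smul_uv v x b, ← co_smul_uv v x c, ha, hb, hc, one_smul, one_smul, one_smul]
    abel
  obtain ⟨Y, hYd⟩ : ∃ Y : E, Y = g + (uv v a + uv v b + uv v c) := ⟨_, rfl⟩
  have hfrs : ∑ i ∈ fr x, x i • v i = - Y := by
    have h0 := hx0
    rw [sum_fr v x] at h0
    rw [hYd, ← hY]
    have h2 : (g + ∑ i ∈ (fr x)ᶜ, x i • v i) + ∑ i ∈ fr x, x i • v i = 0 := by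
      rw [← h0]; abel
    exact (neg_eq_of_add_eq_zero_right h2).symm
  obtain ⟨R', hR', hL⟩ := st_strict h
  obtain ⟨ε, hε, hk⟩ := kernel_aux v x R' (fr x) 1 Y
  -- substituting signs
  have hb1 : R' < ‖Y + ∑ i ∈ fr x, ε i • v i‖ ^ 2 := by
    have h1 := hL (fun i => if i ∈ fr x then ε i else x i) (by
      intro i
      by_cases hi : i ∈ fr x
      · rw [if_pos hi]; exact hε i
      · rw [if_neg hi]; exact (not_mem_fr x hx1 i).mp hi)
    have h2 : g + ∑ i, (if i ∈ fr x then ε i else x i) • v i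
        = Y + ∑ i ∈ fr x, ε i • v i := by
      rw [← Finset.sum_add_sum_compl (fr x)]
      have h3 : ∑ i ∈ fr x, (if i ∈ fr x then ε i else x i) • v i = ∑ i ∈ fr x, ε i • v i :=
        Finset.sum_congr rfl fun i hi => by rw [if_pos hi]
      have h4 : ∑ i ∈ (fr x)ᶜ, (if i ∈ fr x then ε i else x i) • v i
          = ∑ i ∈ (fr x)ᶜ, x i • v i :=
        Finset.sum_congr rfl fun i hi => by rw [if_neg (Finset.mem_compl.mp hi)]
      rw [h3, h4, hYd, ← hY]
      abel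
    rw [h2] at h1
    exact h1
  have hn1 : ∑ i ∈ fr x, ‖v i‖ ^ 2 = Module.finrank ℝ E := by
    simp [h.unit, hcard]
  have hn2 : ∑ i ∈ fr x, x i ^ 2 * ‖v i‖ ^ 2 = ∑ i ∈ fr x, x i ^ 2 := by
    refine Finset.sum_congr rfl fun i _ => ?_
    rw [h.unit i]; ring
  rw [hfrs, hn1, hn2, norm_neg, inner_neg_right, real_inner_self_eq_norm_sq] at hk
  have h0k : 0 ≤ (1 + ∑ i ∈ fr x, ε i * x i) ^ 2 * (‖Y + ∑ i ∈ fr x, ε i • v i‖ ^ 2 - R') :=
    mul_nonneg (sq_nonneg _) (by linarith)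
  have hA := h0k.trans hk
  have hr := st_round h x hx1 hx0
  have hq : ∑ i ∈ fr x, (1 - x i ^ 2) = (Module.finrank ℝ E : ℝ) - ∑ i ∈ fr x, x i ^ 2 := by
    rw [Finset.sum_sub_distrib, Finset.sum_const, hcard, nsmul_eq_mul, mul_one]
  rw [hq] at hr
  have hq0 : 0 ≤ ∑ i ∈ fr x, x i ^ 2 := Finset.sum_nonneg fun i _ => sq_nonneg _
  rw [← hYd]
  obtain ⟨q, hqd⟩ : ∃ q : ℝ, q = ∑ i ∈ fr x, x i ^ 2 := ⟨_, rfl⟩
  obtain ⟨r, hrd⟩ : ∃ r : ℝ, r = ‖Y‖ := ⟨_, rfl⟩
  rw [← hqd, ← hrd] at hA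
  rw [← hqd] at hr hq0
  rw [← hrd]
  have hr0 : 0 ≤ r := by rw [hrd]; exact norm_nonneg _
  have h8 : 0 < 1 - q := by linarith
  have h9 : 0 < (R' - ((Module.finrank ℝ E : ℝ) - 1)) * (1 + q) :=
    mul_pos (by linarith) (by linarith)
  by_contra hcon
  push Not at hcon
  have h1 : 0 ≤ (1 - q) * (r ^ 2 - 1) := mul_nonneg h8.le (by nlinarith)
  nlinarith

theorem tri_shortW (h : St v g 3) {a b c : SL κ} (ht : TriW v g a b c) :
    ‖g + (uv v a + uv v b + uv v c)‖ < 1 := by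
  obtain ⟨x, hx⟩ := ht; exact isW_short h hx

omit [Fintype κ] [DecidableEq κ] [FiniteDimensional ℝ E] in
private theorem par_aux {y u : E} (hu : 1 ≤ ‖u‖ ∨ 1 ≤ ‖y‖) (h1 : ‖y + u‖ < 1) (h2 : ‖y - u‖ < 1) :
    False := by
  have h3 := parallelogram_law_with_norm ℝ y u
  have h4 : ‖y + u‖ * ‖y + u‖ < 1 := by nlinarith [norm_nonneg (y + u)]
  have h5 : ‖y - u‖ * ‖y - u‖ < 1 := by nlinarith [norm_nonneg (y - u)]
  rcases hu with hu | hu
  · nlinarith [mul_self_nonneg ‖y‖]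
  · nlinarith [mul_self_nonneg ‖u‖]

/-- Both opposite vertices: the sum without the offset. -/
theorem tri_short0 (h : St v g 3) {a b c : SL κ} (ht : TriW v g a b c) :
    ‖g‖ ^ 2 + ‖uv v a + uv v b + uv v c‖ ^ 2 < 1 := by
  have h1 := tri_shortW h ht
  have h2 := tri_shortW h (TriW.neg h ht)
  simp only [uv_ng] at h2
  have e : g + (-uv v a + -uv v b + -uv v c) = g - (uv v a + uv v b + uv v c) := by abel
  rw [e] at h2
  have h3 := parallelogram_law_with_norm ℝ g (uv v a + uv v b + uv v c)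
  have h4 : ‖g + (uv v a + uv v b + uv v c)‖ * ‖g + (uv v a + uv v b + uv v c)‖ < 1 := by
    nlinarith [norm_nonneg (g + (uv v a + uv v b + uv v c))]
  have h5 : ‖g - (uv v a + uv v b + uv v c)‖ * ‖g - (uv v a + uv v b + uv v c)‖ < 1 := by
    nlinarith [norm_nonneg (g - (uv v a + uv v b + uv v c))]
  nlinarith

theorem tri_short1 (h : St v g 3) {a b c : SL κ} (ht : TriW v g a b c) :
    ‖uv v a + uv v b + uv v c‖ < 1 := by
  have h1 := tri_short0 h ht
  have h2 := sq_nonneg ‖g‖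
  have h3 := norm_nonneg (uv v a + uv v b + uv v c)
  nlinarith

theorem noflipW (h : St v g 3) {p q a : SL κ} (ht : TriW v g p q a) : ¬ TriW v g p q (ng a) := by
  intro h2
  have h3 := tri_short1 h ht
  have h4 := tri_short1 h h2
  rw [uv_ng, ← sub_eq_add_neg] at h4
  exact par_aux (Or.inl (norm_uv h.unit a).ge) h3 h4

theorem noantiW (h : St v g 3) {p q a : SL κ} (ht : TriW v g p q a) :
    ¬ TriW v g p (ng q) (ng a) := by
  intro h2
  have h3 := tri_short1 h ht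
  have h4 := tri_short1 h h2
  rw [uv_ng, uv_ng] at h4
  rw [add_assoc] at h3
  have h5 : uv v p + -uv v q + -uv v a = uv v p - (uv v q + uv v a) := by abel
  rw [h5] at h4
  exact par_aux (Or.inr (norm_uv h.unit p).ge) h3 h4

end Pool.Agent.Lib.MP_1be6c9_co.Fc
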