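import Pool.Agent.Lib.MP_1be6c9_co.Fc.Poly

/-!
Theorem B (note 2185): a centrally symmetric state with a used label close to another label gives a
centrally symmetric state with two labels less.
-/

namespace Pool.Agent.Lib.MP_1be6c9_co.Fc

open Finset Pool.Agent.Lib.MP_1be6c9_co

variable {κ E : Type*} [Fintype κ] [DecidableEq κ] [NormedAddCommGroup E] [InnerProductSpace ℝ E]
  {v : κ → E} {g : E} {m : ℕ}

/-- The labels `i`, `j` with signs `s`, `t` are merged into one label `i`; `j` becomes a dummy. -/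
noncomputable def pr2 (v : κ → E) (i j : κ) (s t : ℝ) : κ → E :=
  Function.update (Function.update v i (s • v i + t • v j)) j 0

/-- The point of the original section. -/
def lft (i j : κ) (s t : ℝ) (y : κ → ℝ) : κ → ℝ :=
  Function.update (Function.update y j (t * y i)) i (s * y i)

omit [Fintype κ] [InnerProductSpace ℝ E] in
private theorem lft_i (i j : κ) (s t : ℝ) (y : κ → ℝ) : lft i j s t y i = s * y i := by
  simp [lft]

private theorem lft_j {κ : Type*} [DecidableEq κ] {i j : κ} (hij : j ≠ i) (s t : ℝ) (y : κ → ℝ) :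
    lft i j s t y j = t * y i := by
  rw [lft, Function.update_of_ne hij, Function.update_self]

private theorem lft_o {κ : Type*} [DecidableEq κ] {i j k : κ} (hki : k ≠ i) (hkj : k ≠ j)
    (s t : ℝ) (y : κ → ℝ) : lft i j s t y k = y k := by
  rw [lft, Function.update_of_ne hki, Function.update_of_ne hkj]

private theorem sum_split2 {κ F : Type*} [Fintype κ] [DecidableEq κ] [AddCommGroup F] (f : κ → F)
    {i j : κ} (hij : j ≠ i) :
    ∑ k, f k = f i + f j + ∑ k ∈ ({i, j} : Finset κ)ᶜ, f k := by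
  rw [← Finset.sum_add_sum_compl ({i, j} : Finset κ), Finset.sum_pair hij.symm]

theorem sum_pr2 (v : κ → E) {i j : κ} (hij : j ≠ i) (s t : ℝ) (y : κ → ℝ) :
    ∑ k, y k • pr2 v i j s t k = ∑ k, lft i j s t y k • v k := by
  rw [sum_split2 _ hij, sum_split2 (fun k => lft i j s t y k • v k) hij, lft_i, lft_j hij]
  have e1 : pr2 v i j s t i = s • v i + t • v j := by
    rw [pr2, Function.update_of_ne hij.symm, Function.update_self]
  have e2 : pr2 v i j s t j = 0 := by rw [pr2, Function.update_self]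
  rw [e1, e2, smul_zero, add_zero, smul_add, smul_smul, smul_smul, mul_comm (y i) s,
    mul_comm (y i) t]
  congr 1
  refine Finset.sum_congr rfl fun k hk => ?_
  simp only [Finset.mem_compl, Finset.mem_insert, Finset.mem_singleton, not_or] at hk
  rw [lft_o hk.1 hk.2, pr2, Function.update_of_ne hk.2, Function.update_of_ne hk.1]

private theorem sgn_mul {s x : ℝ} (hs : s = 1 ∨ s = -1) (hx : x = 1 ∨ x = -1) :
    s * x = 1 ∨ s * x = -1 := by
  rcases hs with h | h <;> rcases hx with h' | h' <;> simp [h, h']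

private theorem abs_sgn {s : ℝ} (hs : s = 1 ∨ s = -1) : |s| = 1 := by
  rcases hs with h | h <;> simp [h]

theorem bad_pr2 (hbad : ∀ η : κ → ℝ, (∀ i, η i = 1 ∨ η i = -1) →
      (Module.finrank ℝ E : ℝ) - 1 < ‖g + ∑ i, η i • v i‖ ^ 2) {i j : κ} (hij : j ≠ i) {s t : ℝ}
    (hs : s = 1 ∨ s = -1) (ht : t = 1 ∨ t = -1) (η : κ → ℝ) (hη : ∀ i, η i = 1 ∨ η i = -1) :
    (Module.finrank ℝ E : ℝ) - 1 < ‖g + ∑ k, η k • pr2 v i j s t k‖ ^ 2 := by
  rw [sum_pr2 v hij]
  apply hbad
  intro k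
  by_cases hki : k = i
  · subst hki; rw [lft_i]; exact sgn_mul hs (hη _)
  by_cases hkj : k = j
  · subst hkj; rw [lft_j hij]; exact sgn_mul ht (hη _)
  rw [lft_o hki hkj]; exact hη k

theorem gp_pr2 (h : St v g m) {i j : κ} (hij : j ≠ i) {s t : ℝ}
    (hs : s = 1 ∨ s = -1) (ht : t = 1 ∨ t = -1) (hb : ‖s • v i + t • v j‖ ≤ 1) :
    Gp (ext (pr2 v i j s t) g) := by
  refine gp_ext (fun k => ?_) h.norm_g.le (bad_pr2 h.bad hij hs ht)
  by_cases hkj : k = j
  · subst hkj; rw [pr2, Function.update_self]; simp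
  by_cases hki : k = i
  · subst hki
    rw [pr2, Function.update_of_ne hkj, Function.update_self]; exact hb
  rw [pr2, Function.update_of_ne hkj, Function.update_of_ne hki]
  exact (h.unit k).le

/-- Points of the slice. -/
theorem pt_pr2 {i j : κ} (hij : j ≠ i) {s t : ℝ} (hs : s = 1 ∨ s = -1) (ht : t = 1 ∨ t = -1)
    {y : κ → ℝ} (hy : Pt (pr2 v i j s t) g y) : Pt v g (lft i j s t y) := by
  refine ⟨fun k => ?_, by rw [← sum_pr2 v hij]; exact hy.2⟩
  by_cases hki : k = i
  · subst hki; rw [lft_i, abs_mul, abs_sgn hs, one_mul]; exact hy.1 _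
  by_cases hkj : k = j
  · subst hkj; rw [lft_j hij, abs_mul, abs_sgn ht, one_mul]; exact hy.1 _
  rw [lft_o hki hkj]; exact hy.1 k

omit [NormedAddCommGroup E] [InnerProductSpace ℝ E] in
theorem fr_lft_free {i j : κ} (hij : j ≠ i) {s t : ℝ} (hs : s = 1 ∨ s = -1)
    (ht : t = 1 ∨ t = -1) {y : κ → ℝ} (hyi : i ∈ fr y) :
    fr (lft i j s t y) = insert j (fr y) := by
  ext k
  rw [Finset.mem_insert, mem_fr, mem_fr]
  rw [mem_fr] at hyi
  by_cases hki : k = i
  · subst hki
    rw [lft_i, abs_mul, abs_sgn hs, one_mul]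
    simp [hyi]
  by_cases hkj : k = j
  · subst hkj
    rw [lft_j hij, abs_mul, abs_sgn ht, one_mul]
    simp [hyi]
  rw [lft_o hki hkj]
  simp [hkj]

omit [NormedAddCommGroup E] [InnerProductSpace ℝ E] in
theorem fr_lft_tight {i j : κ} (hij : j ≠ i) {s t : ℝ} (hs : s = 1 ∨ s = -1)
    (ht : t = 1 ∨ t = -1) {y : κ → ℝ} (hyi : i ∉ fr y) (hyj : j ∉ fr y) :
    fr (lft i j s t y) = fr y := by
  ext k
  rw [mem_fr, mem_fr]
  rw [mem_fr] at hyi hyj
  by_cases hki : k = i
  · subst hki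
    rw [lft_i, abs_mul, abs_sgn hs, one_mul]
  by_cases hkj : k = j
  · subst hkj
    rw [lft_j hij, abs_mul, abs_sgn ht, one_mul]
    simp [hyi, hyj]
  rw [lft_o hki hkj]

omit [DecidableEq κ] in
/-- The closest pair with a used label. -/
theorem exists_closest (h : St v g m) (hnf : ¬ Far v g) :
    ∃ (i j : κ) (s t : ℝ), Used v g i ∧ j ≠ i ∧ (s = 1 ∨ s = -1) ∧ (t = 1 ∨ t = -1) ∧
      ‖s • v i + t • v j‖ ≤ 1 ∧ ∀ (i' j' : κ) (s' t' : ℝ), Used v g i' → j' ≠ i' →
        (s' = 1 ∨ s' = -1) → (t' = 1 ∨ t' = -1) →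
        ‖s • v i + t • v j‖ ≤ ‖s' • v i' + t' • v j'‖ := by
  classical
  have hfin : {q : κ × κ × Bool × Bool | Used v g q.1 ∧ q.2.1 ≠ q.1}.Finite := Set.toFinite _
  set F : κ × κ × Bool × Bool → ℝ := fun q =>
    ‖(if q.2.2.1 then (1 : ℝ) else -1) • v q.1 + (if q.2.2.2 then (1 : ℝ) else -1) • v q.2.1‖ with hF
  simp only [Far, not_forall, not_lt] at hnf
  obtain ⟨i0, j0, hu0, hj0, h0⟩ := hnf
  obtain ⟨q, hq, hmin⟩ := Set.exists_min_image _ F hfin ⟨(i0, j0, true, true), hu0, hj0⟩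
  have hval : ∀ (i' j' : κ) (s' t' : ℝ), Used v g i' → j' ≠ i' →
        (s' = 1 ∨ s' = -1) → (t' = 1 ∨ t' = -1) → F q ≤ ‖s' • v i' + t' • v j'‖ := by
    intro i' j' s' t' hu' hj' hs' ht'
    have h1 := hmin (i', j', decide (s' = 1), decide (t' = 1)) ⟨hu', hj'⟩
    refine h1.trans (le_of_eq ?_)
    simp only [hF]
    have es : (if (decide (s' = 1)) = true then (1 : ℝ) else -1) = s' := by
      rcases hs' with h | h <;> rw [h] <;> norm_num
    have et : (if (decide (t' = 1)) = true then (1 : ℝ) else -1) = t' := by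
      rcases ht' with h | h <;> rw [h] <;> norm_num
    rw [es, et]
  refine ⟨q.1, q.2.1, if q.2.2.1 then 1 else -1, if q.2.2.2 then 1 else -1, hq.1, hq.2, ?_, ?_, ?_,
    hval⟩
  · cases q.2.2.1 <;> simp
  · cases q.2.2.2 <;> simp
  · have key : ∃ t0 : ℝ, (t0 = 1 ∨ t0 = -1) ∧ ‖(1 : ℝ) • v i0 + t0 • v j0‖ ≤ 1 := by
      have hn : ∀ t0 : ℝ, (t0 = 1 ∨ t0 = -1) → ‖(1 : ℝ) • v i0 + t0 • v j0‖ ^ 2
          = 2 + 2 * t0 * inner ℝ (v i0) (v j0) := by
        intro t0 ht0
        rw [norm_add_sq_real, norm_smul, norm_smul, h.unit, h.unit, real_inner_smul_left,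
          real_inner_smul_right]
        rcases ht0 with h | h <;> rw [h] <;> norm_num <;> ring
      rcases le_abs'.mp h0 with h1 | h1
      · refine ⟨1, Or.inl rfl, ?_⟩
        have := hn 1 (Or.inl rfl)
        have h2 : ‖(1 : ℝ) • v i0 + (1 : ℝ) • v j0‖ ^ 2 ≤ 1 ^ 2 := by rw [this]; linarith
        exact (pow_le_pow_iff_left₀ (norm_nonneg _) zero_le_one two_ne_zero).mp h2
      · refine ⟨-1, Or.inr rfl, ?_⟩
        have := hn (-1) (Or.inr rfl)
        have h2 : ‖(1 : ℝ) • v i0 + (-1 : ℝ) • v j0‖ ^ 2 ≤ 1 ^ 2 := by rw [this]; linarith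
        exact (pow_le_pow_iff_left₀ (norm_nonneg _) zero_le_one two_ne_zero).mp h2
    obtain ⟨t0, ht0, hle⟩ := key
    exact (hval i0 j0 1 t0 hu0 hj0 (Or.inl rfl) ht0).trans hle

variable [FiniteDimensional ℝ E]

/-- No point with fractional `θ` and at most `d` free groups. -/
theorem no_cross (h : St v g m) {i j : κ} {s t : ℝ} (hij : j ≠ i)
    (hs : s = 1 ∨ s = -1) (ht : t = 1 ∨ t = -1) (hb : ‖s • v i + t • v j‖ ≤ 1)
    (hmin : ∀ (i' j' : κ) (s' t' : ℝ), Used v g i' → j' ≠ i' →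
        (s' = 1 ∨ s' = -1) → (t' = 1 ∨ t' = -1) →
        ‖s • v i + t • v j‖ ≤ ‖s' • v i' + t' • v j'‖)
    {y : κ → ℝ} (hy : Vx (pr2 v i j s t) g y) (hyj : j ∉ fr y) : i ∉ fr y := by
  intro hyi
  have hG := gp_pr2 h hij hs ht hb
  have hlaw := hG.law ((bas_ex y).mpr hy)
  set w := pr2 v i j s t with hw
  have hwi : w i = s • v i + t • v j := by
    rw [hw, pr2, Function.update_of_ne hij.symm, Function.update_self]
  have hwk : ∀ k ∈ fr y, k ≠ i → w k = v k := by
    intro k hk hki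
    have hkj : k ≠ j := fun hh => hyj (hh ▸ hk)
    rw [hw, pr2, Function.update_of_ne hkj, Function.update_of_ne hki]
  have hsz : ∑ o ∈ fr (ex 1 y), (1 - ‖ext w g o‖ ^ 2) = 1 - ‖s • v i + t • v j‖ ^ 2 := by
    rw [fr_ex (by simp), Finset.sum_map]
    rw [Finset.sum_eq_single_of_mem i hyi]
    · simp only [Function.Embedding.some_apply, ext_some, hwi]
    · intro k hk hki
      simp only [Function.Embedding.some_apply, ext_some, hwk k hk hki, h.unit k]
      norm_num
  have hcc : cc (ext w g) (ex 1 y) = tot v g (lft i j s t y) := by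
    rw [cc, tot, fr_ex (by simp), Finset.sum_map, fr_lft_free hij hs ht hyi,
      Finset.sum_insert hyj]
    simp only [Function.Embedding.some_apply, ext_some, ex_some]
    rw [← Finset.add_sum_erase _ _ hyi, ← Finset.add_sum_erase _ (fun k => lft i j s t y k • v k) hyi,
      lft_i, lft_j hij, hwi]
    have : ∑ k ∈ (fr y).erase i, y k • w k = ∑ k ∈ (fr y).erase i, lft i j s t y k • v k := by
      refine Finset.sum_congr rfl fun k hk => ?_
      rw [Finset.mem_erase] at hk
      rw [lft_o hk.1 (fun hh : k = j => hyj (hh ▸ hk.2)), hwk k hk.2 hk.1]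
    rw [this, smul_add, smul_smul, smul_smul, mul_comm (y i) s, mul_comm (y i) t]
    abel
  rw [hcc, hsz] at hlaw
  have hlt : ‖tot v g (lft i j s t y)‖ < ‖s • v i + t • v j‖ := by
    have : ‖tot v g (lft i j s t y)‖ ^ 2 < ‖s • v i + t • v j‖ ^ 2 := by linarith
    exact lt_of_pow_lt_pow_left₀ 2 (norm_nonneg _) this
  have hP : Pt v g (lft i j s t y) := pt_pr2 hij hs ht hy.1
  have hc : (fr (lft i j s t y)).card = Module.finrank ℝ E + 1 := by
    rw [fr_lft_free hij hs ht hyi, Finset.card_insert_of_notMem hyj, hy.2]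
  obtain ⟨i', j', hu', hj', s', t', hs', ht', hlt'⟩ := polygon h hP hc (hlt.le.trans hb)
  have := hmin i' j' s' t' hu' hj' hs' ht'
  linarith

/-- The slice of the closest pair contains a vertex. -/
theorem slice_vx (h : St v g m) {i j : κ} {s t : ℝ} (hu : Used v g i) (hij : j ≠ i)
    (hs : s = 1 ∨ s = -1) (ht : t = 1 ∨ t = -1) (hb : ‖s • v i + t • v j‖ ≤ 1)
    (hmin : ∀ (i' j' : κ) (s' t' : ℝ), Used v g i' → j' ≠ i' →
        (s' = 1 ∨ s' = -1) → (t' = 1 ∨ t' = -1) →
        ‖s • v i + t • v j‖ ≤ ‖s' • v i' + t' • v j'‖) :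
    ∃ y : κ → ℝ, Vx (pr2 v i j s t) g y ∧ j ∉ fr y ∧ i ∉ fr y ∧ y j = 1 := by
  -- two vertices with opposite signs at `i`
  obtain ⟨p, q, hp, hq, hpi, hqi⟩ : ∃ p q : κ → ℝ, Pt v g p ∧ Pt v g q ∧ s * p i = 1 ∧
      s * q i = -1 := by
    obtain ⟨x, hx, hxi⟩ := hu
    obtain ⟨x', hx', hc⟩ := h.cs x hx
    have h1 := hc i hxi
    have h2 := (not_mem_fr x hx.1.1 i).mp hxi
    rcases sgn_mul hs h2 with h3 | h3
    · exact ⟨x, x', hx.1, hx'.1, h3, by rw [h1, mul_neg, h3]⟩
    · exact ⟨x', x, hx'.1, hx.1, by rw [h1, mul_neg, h3, neg_neg], h3⟩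
  have hpj : |t * p j| ≤ 1 := by rw [abs_mul, abs_sgn ht, one_mul]; exact hp.1 j
  have hqj : |t * q j| ≤ 1 := by rw [abs_mul, abs_sgn ht, one_mul]; exact hq.1 j
  rw [abs_le] at hpj hqj
  obtain ⟨lam, hl0, hl1, hle⟩ : ∃ lam : ℝ, 0 ≤ lam ∧ lam ≤ 1 ∧
      (1 - lam) * (1 - t * p j) + lam * (-1 - t * q j) = 0 := by
    by_cases h0 : 1 - t * p j = 0
    · exact ⟨0, le_rfl, zero_le_one, by rw [h0]; ring⟩
    · have hpos : 0 < 1 - t * p j := lt_of_le_of_ne (by linarith) (Ne.symm h0)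
      have hden : 0 < (1 - t * p j) + (1 + t * q j) := by linarith
      refine ⟨(1 - t * p j) / ((1 - t * p j) + (1 + t * q j)), by positivity, ?_, ?_⟩
      · rw [div_le_one hden]; linarith
      · field_simp
        ring
  set r : κ → ℝ := fun k => (1 - lam) * p k + lam * q k with hr
  have hrP : Pt v g r := by
    refine ⟨fun k => ?_, ?_⟩
    · have h1 := abs_le.mp (hp.1 k)
      have h2 := abs_le.mp (hq.1 k)
      rw [abs_le]
      simp only [hr]
      constructor <;> nlinarith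
    · have e : g + ∑ k, r k • v k
          = (1 - lam) • (g + ∑ k, p k • v k) + lam • (g + ∑ k, q k • v k) := by
        simp only [hr, add_smul, mul_smul, Finset.sum_add_distrib, smul_add, Finset.smul_sum]
        module
      rw [e, hp.2, hq.2, smul_zero, smul_zero, add_zero]
  have hrs : s * r i = t * r j := by
    have e1 : s * r i = (1 - lam) * (s * p i) + lam * (s * q i) := by simp only [hr]; ring
    have e2 : t * r j = (1 - lam) * (t * p j) + lam * (t * q j) := by simp only [hr]; ring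
    rw [e1, e2, hpi, hqi]
    linarith
  have hss : s * s = 1 := by rcases hs with h | h <;> rw [h] <;> norm_num
  have htt : t * t = 1 := by rcases ht with h | h <;> rw [h] <;> norm_num
  -- the point of the slice
  set y0 : κ → ℝ := Function.update (Function.update r i (s * r i)) j 1 with hy0
  have y0i : y0 i = s * r i := by
    rw [hy0, Function.update_of_ne hij.symm, Function.update_self]
  have y0j : y0 j = 1 := by rw [hy0, Function.update_self]
  have hl : lft i j s t y0 = r := by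
    funext k
    by_cases hki : k = i
    · subst hki; rw [lft_i, y0i, ← mul_assoc, hss, one_mul]
    by_cases hkj : k = j
    · subst hkj; rw [lft_j hij, y0i, hrs, ← mul_assoc, htt, one_mul]
    rw [lft_o hki hkj, hy0, Function.update_of_ne hkj, Function.update_of_ne hki]
  have hy0P : Pt (pr2 v i j s t) g y0 := by
    refine ⟨fun k => ?_, by rw [sum_pr2 v hij, hl]; exact hrP.2⟩
    by_cases hkj : k = j
    · subst hkj; rw [y0j]; norm_num
    by_cases hki : k = i
    · subst hki; rw [y0i, abs_mul, abs_sgn hs, one_mul]; exact hrP.1 _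
    rw [hy0, Function.update_of_ne hkj, Function.update_of_ne hki]
    exact hrP.1 k
  have hG := gp_pr2 h hij hs ht hb
  obtain ⟨y1, hy1, -, hkeep⟩ := hG.vtx ((p0_ex y0).mpr hy0P)
  have hn1 : y1 none = 1 := by
    rw [hkeep none (by rw [none_mem_fr]; simp), ex_none]
  have hj1 : y1 (some j) = 1 := by
    rw [hkeep (some j) (by rw [mem_fr_ex, mem_fr, y0j]; norm_num), ex_some, y0j]
  obtain ⟨y, rfl⟩ : ∃ y, y1 = ex 1 y := ⟨fun k => y1 (some k), by rw [← hn1, ex_eta]⟩
  rw [ex_some] at hj1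
  have hy := (bas_ex y).mp hy1
  have hyj : j ∉ fr y := by rw [mem_fr, hj1]; norm_num
  exact ⟨y, hy, hyj, no_cross h hij hs ht hb hmin hy hyj, hj1⟩

/-! The smaller state. -/

/-- Extension of a fractional signing of the remaining labels. -/
def xt {κ : Type*} [DecidableEq κ] (i j : κ) (p q : ℝ) (X : {k : κ // k ≠ i ∧ k ≠ j} → ℝ) :
    κ → ℝ := fun k => if h : k ≠ i ∧ k ≠ j then X ⟨k, h⟩ else if k = i then p else q

private theorem xt_i {κ : Type*} [DecidableEq κ] (i j : κ) (p q : ℝ)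
    (X : {k : κ // k ≠ i ∧ k ≠ j} → ℝ) : xt i j p q X i = p := by
  simp [xt]

private theorem xt_j {κ : Type*} [DecidableEq κ] {i j : κ} (hij : j ≠ i) (p q : ℝ)
    (X : {k : κ // k ≠ i ∧ k ≠ j} → ℝ) : xt i j p q X j = q := by
  simp [xt, hij]

private theorem xt_o {κ : Type*} [DecidableEq κ] {i j : κ} (p q : ℝ)
    (X : {k : κ // k ≠ i ∧ k ≠ j} → ℝ) (k : {k : κ // k ≠ i ∧ k ≠ j}) :
    xt i j p q X k = X k := by
  have := k.2
  simp [xt, this.1, this.2]

private theorem xt_rst {κ : Type*} [DecidableEq κ] {i j : κ} (hij : j ≠ i) {p q : ℝ} {x : κ → ℝ}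
    (hi : x i = p) (hj : x j = q) :
    xt i j p q (fun k : {k : κ // k ≠ i ∧ k ≠ j} => x k) = x := by
  funext k
  by_cases hki : k = i
  · rw [hki, xt_i, hi]
  by_cases hkj : k = j
  · rw [hkj, xt_j hij, hj]
  exact xt_o p q _ ⟨k, hki, hkj⟩

omit [FiniteDimensional ℝ E] in
private theorem sum_xt (v : κ → E) {i j : κ} (hij : j ≠ i) (p q : ℝ)
    (X : {k : κ // k ≠ i ∧ k ≠ j} → ℝ) :
    ∑ k, xt i j p q X k • v k = p • v i + q • v j + ∑ k : {k : κ // k ≠ i ∧ k ≠ j}, X k • v k := by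
  rw [sum_split2 _ hij, xt_i, xt_j hij]
  congr 1
  have e : ∑ k : {k : κ // k ≠ i ∧ k ≠ j}, X k • v k
      = ∑ k : {k : κ // k ≠ i ∧ k ≠ j}, xt i j p q X k • v k :=
    Finset.sum_congr rfl fun k _ => by rw [xt_o]
  rw [e]
  symm
  refine Finset.sum_subtype _ (fun k => ?_) (fun k => xt i j p q X k • v k) |>.symm
  simp

private theorem fr_xt {κ : Type*} [Fintype κ] [DecidableEq κ] {i j : κ} (hij : j ≠ i) {p q : ℝ}
    (hp : p = 1 ∨ p = -1) (hq : q = 1 ∨ q = -1) (X : {k : κ // k ≠ i ∧ k ≠ j} → ℝ) :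
    fr (xt i j p q X) = (fr X).map (Function.Embedding.subtype _) := by
  ext k
  rw [mem_fr, Finset.mem_map]
  constructor
  · intro hk
    by_cases hki : k = i
    · rw [hki, xt_i, abs_sgn hp] at hk; exact absurd hk (lt_irrefl _)
    by_cases hkj : k = j
    · rw [hkj, xt_j hij, abs_sgn hq] at hk; exact absurd hk (lt_irrefl _)
    refine ⟨⟨k, hki, hkj⟩, ?_, rfl⟩
    rw [mem_fr]
    rwa [xt_o p q X ⟨k, hki, hkj⟩] at hk
  · rintro ⟨k', hk', rfl⟩
    rw [mem_fr] at hk'
    simp only [Function.Embedding.subtype_apply]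
    rwa [xt_o]

omit [FiniteDimensional ℝ E] in
private theorem vx_xt {i j : κ} (hij : j ≠ i) {p q : ℝ}
    (hp : p = 1 ∨ p = -1) (hq : q = 1 ∨ q = -1) (X : {k : κ // k ≠ i ∧ k ≠ j} → ℝ) :
    Vx (fun k : {k : κ // k ≠ i ∧ k ≠ j} => v k) (g + (p • v i + q • v j)) X ↔
      Vx v g (xt i j p q X) := by
  unfold Vx Pt
  rw [fr_xt hij hp hq, Finset.card_map, sum_xt v hij, add_assoc]
  refine and_congr_left fun _ => and_congr_left fun _ => ⟨fun h k => ?_, fun h k => ?_⟩
  · by_cases hki : k = i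
    · rw [hki, xt_i, abs_sgn hp]
    by_cases hkj : k = j
    · rw [hkj, xt_j hij, abs_sgn hq]
    rw [xt_o p q X ⟨k, hki, hkj⟩]
    exact h _
  · have := h k
    rwa [xt_o] at this

/-- Theorem B. -/
theorem step_far {κ E : Type} [Fintype κ] [DecidableEq κ] [NormedAddCommGroup E]
    [InnerProductSpace ℝ E] [FiniteDimensional ℝ E] {v : κ → E} {g : E} {m : ℕ}
    (h : St v g (m + 2)) (hm : 1 ≤ m) :
    Far v g ∨ ∃ (κ' : Type) (_ : Fintype κ') (_ : DecidableEq κ') (v' : κ' → E) (g' : E),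
      St v' g' m := by
  by_cases hf : Far v g
  · exact Or.inl hf
  right
  obtain ⟨i, j, s, t, hu, hij, hs, ht, hb, hmin⟩ := exists_closest h hf
  obtain ⟨y, hy, hyj, hyi, hyj1⟩ := slice_vx h hu hij hs ht hb hmin
  set τ : ℝ := y i with hτd
  have hτ : τ = 1 ∨ τ = -1 := (not_mem_fr y hy.1.1 i).mp hyi
  have hp : s * τ = 1 ∨ s * τ = -1 := sgn_mul hs hτ
  have hq : t * τ = 1 ∨ t * τ = -1 := sgn_mul ht hτ
  refine ⟨{k : κ // k ≠ i ∧ k ≠ j}, inferInstance, inferInstance, fun k => v k,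
    g + ((s * τ) • v i + (t * τ) • v j), ?_⟩
  have hG := gp_pr2 h hij hs ht hb
  refine ⟨fun k => h.unit k, ?_, ?_, ?_, ?_⟩
  · -- the cardinality
    have e : Fintype.card {k : κ // k ≠ i ∧ k ≠ j} = (({i, j} : Finset κ)ᶜ).card := by
      rw [Fintype.card_subtype]
      congr 1
      ext k
      simp
    rw [e, Finset.card_compl, Finset.card_pair hij.symm, h.card]
    omega
  · -- badness
    intro η hη
    have h1 := h.bad (xt i j (s * τ) (t * τ) η) (fun k => by
      by_cases hki : k = i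
      · rw [hki, xt_i]; exact hp
      by_cases hkj : k = j
      · rw [hkj, xt_j hij]; exact hq
      rw [xt_o (s * τ) (t * τ) η ⟨k, hki, hkj⟩]
      exact hη _)
    rw [sum_xt v hij, ← add_assoc] at h1
    exact h1
  · -- a vertex
    have hl : Vx v g (lft i j s t y) := by
      refine ⟨pt_pr2 hij hs ht hy.1, ?_⟩
      rw [fr_lft_tight hij hs ht hyi hyj, hy.2]
    refine ⟨fun k => lft i j s t y k, (vx_xt hij hp hq _).mpr ?_⟩
    rw [xt_rst hij (lft_i i j s t y) (lft_j hij s t y)]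
    exact hl
  · -- central symmetry
    intro X hX
    have hx := (vx_xt hij hp hq X).mp hX
    set x := xt i j (s * τ) (t * τ) X with hxd
    have hss : s * s = 1 := by rcases hs with h | h <;> rw [h] <;> norm_num
    have htt : t * t = 1 := by rcases ht with h | h <;> rw [h] <;> norm_num
    have xi : x i = s * τ := xt_i _ _ _ _ _
    have xj : x j = t * τ := xt_j hij _ _ _
    -- the vertex of the slice
    set y0 : κ → ℝ := Function.update (Function.update x i τ) j 1 with hy0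
    have y0i : y0 i = τ := by
      rw [hy0, Function.update_of_ne hij.symm, Function.update_self]
    have y0j : y0 j = 1 := by rw [hy0, Function.update_self]
    have hl : lft i j s t y0 = x := by
      funext k
      by_cases hki : k = i
      · subst hki; rw [lft_i, y0i, xi]
      by_cases hkj : k = j
      · subst hkj; rw [lft_j hij, y0i, xj]
      rw [lft_o hki hkj, hy0, Function.update_of_ne hkj, Function.update_of_ne hki]
    have hy0i : i ∉ fr y0 := by rw [mem_fr, y0i, abs_sgn hτ]; exact lt_irrefl _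
    have hy0j : j ∉ fr y0 := by rw [mem_fr, y0j]; norm_num
    have hfr0 : fr y0 = fr x := by rw [← hl, fr_lft_tight hij hs ht hy0i hy0j]
    have hy0V : Vx (pr2 v i j s t) g y0 := by
      refine ⟨⟨fun k => ?_, by rw [sum_pr2 v hij, hl]; exact hx.1.2⟩, by rw [hfr0, hx.2]⟩
      by_cases hkj : k = j
      · subst hkj; rw [y0j]; norm_num
      by_cases hki : k = i
      · subst hki; rw [y0i, abs_sgn hτ]
      rw [hy0, Function.update_of_ne hkj, Function.update_of_ne hki]
      exact hx.1.1 k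
    have hB := (bas_ex y0).mpr hy0V
    have hin : some i ∉ fr (ex 1 y0) := by rw [mem_fr_ex]; exact hy0i
    obtain ⟨y1, hy1, hkeep, hne, k0, hk0, hf1, hkn⟩ := hG.piv hB hin
    have hn1 : y1 none = 1 := by
      rw [hkeep none, ex_none]
      rw [Finset.mem_insert, none_mem_fr]
      simp
    have hj1 : y1 (some j) = 1 := by
      rw [hkeep (some j), ex_some, y0j]
      rw [Finset.mem_insert, mem_fr_ex]
      simp [hij, hy0j]
    obtain ⟨w, rfl⟩ : ∃ w, y1 = ex 1 w := ⟨fun k => y1 (some k), by rw [← hn1, ex_eta]⟩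
    rw [ex_some] at hj1
    have hwV := (bas_ex w).mp hy1
    have hwj : j ∉ fr w := by rw [mem_fr, hj1]; norm_num
    have hwi := no_cross h hij hs ht hb hmin hwV hwj
    have hwi' := (not_mem_fr w hwV.1.1 i).mp hwi
    rw [ex_some, ex_some, y0i] at hne
    have hwτ : w i = -τ := by
      rcases hτ with h1 | h1 <;> rcases hwi' with h2 | h2
      · exact absurd (h2.trans h1.symm) hne
      · rw [h1, h2]
      · rw [h1, h2, neg_neg]
      · exact absurd (h2.trans h1.symm) hne
    have hwk : ∀ k, k ∉ fr x → k ≠ i → k ≠ j → w k = x k := by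
      intro k hk hki hkj
      have h1 := hkeep (some k) (by
        rw [Finset.mem_insert, mem_fr_ex, hfr0]
        simp [hki, hk])
      rw [ex_some, ex_some] at h1
      rw [h1, hy0, Function.update_of_ne hkj, Function.update_of_ne hki]
    -- the vertex of the original section
    set x1 := lft i j s t w with hx1
    have hx1V : Vx v g x1 := by
      refine ⟨pt_pr2 hij hs ht hwV.1, ?_⟩
      rw [hx1, fr_lft_tight hij hs ht hwi hwj, hwV.2]
    obtain ⟨x2, hx2, hc⟩ := h.cs x1 hx1V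
    have hx1i : i ∉ fr x1 := by rw [hx1, fr_lft_tight hij hs ht hwi hwj]; exact hwi
    have hx1j : j ∉ fr x1 := by rw [hx1, fr_lft_tight hij hs ht hwi hwj]; exact hwj
    have x2i : x2 i = s * τ := by
      rw [hc i hx1i, hx1, lft_i, hwτ]; ring
    have x2j : x2 j = t * τ := by
      rw [hc j hx1j, hx1, lft_j hij, hwτ]; ring
    have hx1fr : ∀ k, k ∉ fr x → k ∉ fr x1 := by
      intro k hk
      by_cases hki : k = i
      · rw [hki]; exact hx1i
      by_cases hkj : k = j
      · rw [hkj]; exact hx1j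
      rw [mem_fr, hx1, lft_o hki hkj, hwk k hk hki hkj, ← mem_fr]
      exact hk
    refine ⟨fun k => x2 k, (vx_xt hij hp hq _).mpr ?_, ?_⟩
    · rw [xt_rst hij x2i x2j]; exact hx2
    · intro k hk
      have hkx : (k : κ) ∉ fr x := by
        rw [hxd, fr_xt hij hp hq, Finset.mem_map]
        rintro ⟨k', hk', he⟩
        have : k' = k := Subtype.ext he
        exact hk (this ▸ hk')
      show x2 k = - X k
      rw [hc k (hx1fr k hkx), hx1, lft_o k.2.1 k.2.2, hwk k hkx k.2.1 k.2.2, hxd, xt_o]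

end Pool.Agent.Lib.MP_1be6c9_co.Fc
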